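import Pool.Agent.H649.PT.Aev

set_option autoImplicit false

/-!
More on classes: substitution, jumps.
-/

namespace Pool.Agent.H649.NL

open Encodable MeasureTheory Pool.Agent.Helper227 Pool.Agent.H548R2.Post Pool.Agent.H649.PT
open Nat.Partrec (Code)
open Pool.Agent.TH769.ZA (si_gen pf_sub)
open Pool.Agent.TH769.CD (bdd_lt pf_add pf_mul pf_div pf_mod pf_pow pf_getD pf_take
  pf_append pf_cons pf_length pf_range pf_natPair pf_unpair pf_encode pf_testBit pf_xorb pf_andb
  pf_hlt pf_xor pp_exlt pp_alllt pp_imp pp_eq pp_le pp_lt pp_mem pf_decide pf_pre pp_En pf_ext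
  ext_pre_eq)

attribute [local fun_prop] Primrec
attribute [local fun_prop] Primrec.id Primrec.const Primrec.comp Primrec.pair Primrec.fst Primrec.snd
attribute [local fun_prop] pf_add pf_mul pf_div pf_mod pf_pow pf_getD pf_take pf_append pf_cons
  pf_length pf_range pf_natPair pf_unpair pf_encode pf_testBit pf_xorb pf_andb pf_hlt pf_xor
  pf_sub

section

variable {α β : Type} [Primcodable α] [Primcodable β]

/-- substitution -/
theorem C1.sub {P : α → (ℕ → Bool) → Prop} (h : C1 P) {g : α → ℕ → ℕ}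
    (hg : Primrec fun x : α × ℕ => g x.1 x.2) : C1 fun a X => P a fun x => X (g a x) := by
  obtain ⟨Q, h1, h2, h3⟩ := h
  have h4 : S1 fun x : α × List Bool => ∃ ρ : List Bool, Q (x.1, ρ) ∧
      ∀ i < ρ.length, x.2[g x.1 i]? = some (ρ.getD i false) := by
    refine S1.ex (S1.and (h1.comp (f := fun y : (α × List Bool) × List Bool => (y.1.1, y.2))
      (by fun_prop)) (S1.of_prim (pp_alllt (by fun_prop) (pp_eq
        (Primrec.list_getElem?.comp (by fun_prop) ?_) ?_))))
    · exact hg.comp (f := fun x : α × ℕ => g x.1 x.2)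
        (g := fun y : ((α × List Bool) × List Bool) × ℕ => (y.1.1.1, y.2)) (by fun_prop)
    · exact Primrec.option_some.comp (by fun_prop)
  refine (C1.of h4).of_eq fun a X => ?_
  rw [h3]
  constructor
  · rintro ⟨m, ρ, h5, h6⟩
    refine ⟨ρ.length, ?_⟩
    have h7 : pre (fun x => X (g a x)) ρ.length = ρ := by
      refine List.ext_getElem (by simp) fun i h8 h9 => ?_
      rw [getElem_pre]
      have h10 := h6 i h9
      simp only at h10
      rw [List.getD_eq_getElem _ _ h9] at h10
      obtain ⟨h11, h12⟩ := List.getElem?_eq_some_iff.1 h10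
      rw [← h12, getElem_pre]
    rw [h7]
    exact h5
  · rintro ⟨m, h5⟩
    obtain ⟨M, hM⟩ := bdd_lt m (fun i M => g a i < M) (fun i _ => ⟨g a i + 1, fun b hb => by omega⟩)
    refine ⟨M, _, h5, fun i hi => ?_⟩
    rw [length_pre] at hi
    simp only
    rw [pre_getElem? _ _ _ (hM i hi M le_rfl), pre_getD _ _ _ _ hi]

theorem C2.sub {P : α → (ℕ → Bool) → Prop} (h : C2 P) {g : α → ℕ → ℕ}
    (hg : Primrec fun x : α × ℕ => g x.1 x.2) : C2 fun a X => P a fun x => X (g a x) := by
  obtain ⟨P', h1, h2⟩ := h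
  refine ⟨fun x X => P' x fun y => X (g x.1 y), C1.sub (g := fun (x : α × ℕ) y => g x.1 y) h1 ?_,
    fun a X => h2 _ _⟩
  exact hg.comp (f := fun x : α × ℕ => g x.1 x.2) (g := fun y : (α × ℕ) × ℕ => (y.1.1, y.2))
    (by fun_prop)

theorem C1.and_s1 {P : α → (ℕ → Bool) → Prop} (h : C1 P) {p : α → Prop} (hp : S1 p) :
    C1 fun a X => p a ∧ P a X := by
  obtain ⟨Q, h1, h2, h3⟩ := h
  refine ⟨fun x => p x.1 ∧ Q x, S1.and (hp.comp Primrec.fst) h1,
    fun a σ τ h5 h6 => ⟨h6.1, h2 _ _ _ h5 h6.2⟩, fun a X => ?_⟩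
  show (p a ∧ P a X) ↔ _
  rw [h3]
  exact exists_and_left.symm

theorem C1.ex_lt {P : α × ℕ → (ℕ → Bool) → Prop} (h : C1 P) {f : α → ℕ} (hf : Primrec f) :
    C1 fun a X => ∃ i < f a, P (a, i) X := by
  obtain ⟨Q, h1, h2, h3⟩ := h
  refine ⟨fun x => ∃ i, i < f x.1 ∧ Q ((x.1, i), x.2), ?_, ?_, fun a X => ?_⟩
  · refine S1.ex (S1.and (S1.of_prim (pp_lt (by fun_prop) ?_)) ?_)
    · exact hf.comp (by fun_prop)
    · exact h1.comp (f := fun y : (α × List Bool) × ℕ => ((y.1.1, y.2), y.1.2)) (by fun_prop)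
  · rintro a σ τ h5 ⟨i, h6, h7⟩
    exact ⟨i, h6, h2 _ _ _ h5 h7⟩
  · simp only [h3]
    constructor
    · rintro ⟨i, h5, m, h6⟩
      exact ⟨m, i, h5, h6⟩
    · rintro ⟨m, i, h5, h6⟩
      exact ⟨i, h5, m, h6⟩

theorem C1.all_lt {P : α × ℕ → (ℕ → Bool) → Prop} (h : C1 P) {f : α → ℕ} (hf : Primrec f) :
    C1 fun a X => ∀ i < f a, P (a, i) X := by
  obtain ⟨Q, h1, h2, h3⟩ := h
  refine ⟨fun x => ∀ i < f x.1, Q ((x.1, i), x.2), ?_, ?_, fun a X => ?_⟩
  · refine S1.all_lt (p := fun (x : α × List Bool) i => Q ((x.1, i), x.2)) ?_ (hf.comp Primrec.fst)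
    exact h1.comp (f := fun y : (α × List Bool) × ℕ => ((y.1.1, y.2), y.1.2)) (by fun_prop)
  · intro a σ τ h5 h6 i hi
    exact h2 _ _ _ h5 (h6 i hi)
  · simp only [h3]
    constructor
    · intro h5
      obtain ⟨M, hM⟩ := bdd_lt (f a) (fun i M => Q ((a, i), pre X M)) (fun i hi => by
        obtain ⟨m, hm⟩ := h5 i hi
        exact ⟨m, fun b hb => h2 _ _ _ (pre_prefix X hb) hm⟩)
      exact ⟨M, fun i hi => hM i hi M le_rfl⟩
    · rintro ⟨m, hm⟩ i hi
      exact ⟨m, hm i hi⟩

end

theorem c1_bit (b : Bool) : C1 fun (z : ℕ) K => K z = b := by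
  refine (C1.of (Q := fun x : ℕ × List Bool => x.2[x.1]? = some b) (S1.of_prim (pp_eq
    (Primrec.list_getElem?.comp (by fun_prop) (by fun_prop)) (Primrec.const _)))).of_eq
      fun z K => ?_
  constructor
  · rintro ⟨m, h⟩
    by_cases hm : z < m
    · rw [pre_getElem? _ _ _ hm] at h
      simpa using h
    · rw [pre_getElem?_none _ _ _ (by omega)] at h
      cases h
  · intro h
    exact ⟨z + 1, by rw [pre_getElem? _ _ _ (by omega), h]⟩

theorem c1_WE : C1 fun (x : ℕ × ℕ) A => x.2 ∈ WE A x.1 := by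
  have h1 : S1 fun x : (ℕ × ℕ) × List Bool =>
      ((Denumerable.ofNat Code x.1.1).eval (encode (x.2, x.1.2))).Dom :=
    S1.comp (f := fun x : (ℕ × ℕ) × List Bool =>
      (Denumerable.ofNat Code x.1.1, encode (x.2, x.1.2))) s1_eval
        (((Primrec.ofNat Code).comp (Primrec.fst.comp Primrec.fst)).pair
          (Primrec.encode.comp (Primrec.snd.pair (Primrec.snd.comp Primrec.fst))))
  exact (C1.of h1).of_eq fun x A => Iff.rfl

theorem c1_jump : C1 fun (i : ℕ) A => jump A i = true :=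
  (c1_WE.comp (f := fun i : ℕ => (i, i)) (by fun_prop)).of_eq fun i A => jump_eq_true.symm

/-- a string is not an initial segment of the jump -/
theorem c2_ne_jump : C2 fun (ρ : List Bool) K => ρ ≠ pre (jump K) ρ.length := by
  have h1 : C1 fun (ρ : List Bool) K => ∃ i < ρ.length, ρ.getD i false = false ∧
      jump K i = true := by
    refine C1.ex_lt (P := fun (x : List Bool × ℕ) K => x.1.getD x.2 false = false ∧
      jump K x.2 = true) (C1.and_s1 (c1_jump.comp Primrec.snd) (S1.of_prim (pp_eq (by fun_prop)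
        (by fun_prop)))) (by fun_prop)
  have h2 : C1 fun (ρ : List Bool) K => ∀ i < ρ.length, (ρ.getD i false = false ∨
      jump K i = true) := by
    refine C1.all_lt (P := fun (x : List Bool × ℕ) K => x.1.getD x.2 false = false ∨
      jump K x.2 = true) (C1.or (C1.s1 (S1.of_prim (pp_eq (by fun_prop) (by fun_prop))))
        (c1_jump.comp Primrec.snd)) (by fun_prop)
  refine (C2.or (C2.of1 h1) (C2.neg h2)).of_eq fun ρ K => ?_
  constructor
  · rintro (⟨i, h3, h4, h5⟩ | h3) h6
    · rw [h6, pre_getD _ _ _ _ h3] at h4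
      rw [h4] at h5
      cases h5
    · refine h3 fun i hi => ?_
      rw [h6, pre_getD _ _ _ _ hi]
      cases jump K i <;> simp
  · intro h3
    by_contra hc
    push Not at hc
    obtain ⟨h4, h5⟩ := hc
    refine h3 (List.ext_getElem (by simp) fun i h6 h7 => ?_)
    rw [getElem_pre]
    have h8 := h4 i h6
    have h9 := h5 i h6
    rw [List.getD_eq_getElem _ _ h6] at h8 h9
    cases hb : ρ[i]
    · have h10 := h8 hb
      simp only [ne_eq, Bool.not_eq_true] at h10
      exact h10.symm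
    · rw [hb] at h9
      rcases h9 with h9 | h9
      · cases h9
      · exact h9.symm

/-- the parts of a sequence -/
def evp (Z : ℕ → Bool) : ℕ → Bool := fun n => Z (2 * n)
/-- the parts of a sequence -/
def odp (Z : ℕ → Bool) : ℕ → Bool := fun n => Z (2 * n + 1)

theorem ev_join (K B : ℕ → Bool) : evp (join K B) = K := by
  funext n
  unfold evp join
  rw [if_pos (by omega)]
  congr 1
  omega

theorem od_join (K B : ℕ → Bool) : odp (join K B) = B := by
  funext n
  unfold odp join
  rw [if_neg (by omega)]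
  congr 1
  omega

theorem join_ev_od (Z : ℕ → Bool) : join (evp Z) (odp Z) = Z := by
  funext n
  unfold join
  by_cases h : n % 2 = 0
  · rw [if_pos h]
    show Z (2 * (n / 2)) = Z n
    rw [show 2 * (n / 2) = n by omega]
  · rw [if_neg h]
    show Z (2 * (n / 2) + 1) = Z n
    rw [show 2 * (n / 2) + 1 = n by omega]

section

variable {α : Type} [Primcodable α]

theorem C1.evp {P : α → (ℕ → Bool) → Prop} (h : C1 P) : C1 fun a X => P a (evp X) :=
  C1.sub (g := fun _ n => 2 * n) h (by fun_prop)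

theorem C2.evp {P : α → (ℕ → Bool) → Prop} (h : C2 P) : C2 fun a X => P a (evp X) :=
  C2.sub (g := fun _ n => 2 * n) h (by fun_prop)

theorem C2.odp {P : α → (ℕ → Bool) → Prop} (h : C2 P) : C2 fun a X => P a (odp X) :=
  C2.sub (g := fun _ n => 2 * n + 1) h (by fun_prop)

end

/-- tests relative to the jump of the even part -/
theorem c2_test {E : List Bool × ℕ × List Bool → Prop} (hE : S1 E) :
    C2 fun (n : ℕ) Z => odp Z ∉ UE E (jump (evp Z)) n := by
  have h1 : C2 fun (x : ℕ × (List Bool × List Bool)) Z => ¬ E (x.2.1, x.1, x.2.2) :=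
    C2.neg (C1.s1 (hE.comp (f := fun x : ℕ × (List Bool × List Bool) => (x.2.1, x.1, x.2.2))
      (by fun_prop)))
  have h2 : C1 fun (τ : List Bool) A => ¬ τ <+: pre A τ.length := by
    have h4 : C1 fun (x : List Bool) A => ∃ m, (pre A m).length = x.length ∧
        ¬ x <+: pre A m := by
      refine C1.of (Q := fun y : List Bool × List Bool =>
        y.2.length = y.1.length ∧ ¬ y.1 <+: y.2) (S1.of_prim (PrimrecPred.and
          (pp_eq (by fun_prop) (by fun_prop)) (PrimrecPred.not (pp_prefix (by fun_prop)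
            (by fun_prop)))))
    refine h4.of_eq fun a X => ?_
    simp
  have h3 : C2 fun (x : ℕ × (List Bool × List Bool)) Z => ¬ x.2.2 <+: pre (odp Z) x.2.2.length :=
    (C2.odp (C2.of1 h2)).comp (f := fun x : ℕ × (List Bool × List Bool) => x.2.2) (by fun_prop)
  have h4 : C2 fun (x : ℕ × (List Bool × List Bool)) Z =>
      x.2.1 ≠ pre (jump (evp Z)) x.2.1.length :=
    (C2.evp c2_ne_jump).comp (f := fun x : ℕ × (List Bool × List Bool) => x.2.1) (by fun_prop)
  refine (C2.all (C2.or h1 (C2.or h3 h4))).of_eq fun n Z => ?_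
  constructor
  · rintro h5 ⟨s, t, h6⟩
    rcases h5 (pre (jump (evp Z)) s, pre (odp Z) t) with h7 | h7 | h7
    · exact h7 h6
    · simp only [length_pre] at h7
      exact h7 (List.prefix_refl _)
    · simp only [length_pre] at h7
      exact h7 rfl
  · rintro h5 ⟨ρ, τ⟩
    by_contra hc
    push Not at hc
    simp only at hc
    obtain ⟨h6, h7, h8⟩ := hc
    have h9 : τ = pre (odp Z) τ.length := List.IsPrefix.eq_of_length h7 (by simp)
    rw [h8, h9] at h6
    exact h5 ⟨_, _, h6⟩

end Pool.Agent.H649.NL
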