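import Pool.Agent.H649.NL.Two
import Pool.Agent.H649.NL.Av1
import Pool.Agent.H649.NL.Cs2

set_option autoImplicit false

/-!
The application to the sequences which are random relative to the jump of a member of a class.
-/

namespace Pool.Agent.H649.NL

open Encodable MeasureTheory Pool.Agent.Helper227 Pool.Agent.H548R2.Post Pool.Agent.H649.PT
open Nat.Partrec (Code)
open Pool.Agent.TH769.ZA (si_gen pf_sub)
open Pool.Agent.TH769.CD (bdd_lt pf_add pf_mul pf_div pf_mod pf_pow pf_getD pf_take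
  pf_append pf_cons pf_length pf_range pf_natPair pf_unpair pf_encode pf_testBit pf_xorb pf_andb
  pf_hlt pf_xor pp_exlt pp_alllt pp_imp pp_eq pp_le pp_lt pp_mem pf_decide pf_pre pp_En pf_ext
  ext_pre_eq)

attribute [local fun_prop] Primrec
attribute [local fun_prop] Primrec.id Primrec.const Primrec.comp Primrec.pair Primrec.fst Primrec.snd
attribute [local fun_prop] pf_add pf_mul pf_div pf_mod pf_pow pf_getD pf_take pf_append pf_cons
  pf_length pf_range pf_natPair pf_unpair pf_encode pf_testBit pf_xorb pf_andb pf_hlt pf_xor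
  pf_sub

/-- the even part of a string -/
def evl (σ : List Bool) : List Bool := (List.range (σ.length / 2)).map fun i => σ.getD (2 * i) false

theorem evl_pre (Z : ℕ → Bool) (s : ℕ) : evl (pre Z s) = pre (evp Z) (s / 2) := by
  refine List.ext_getElem (by simp [evl]) fun i h1 h2 => ?_
  rw [getElem_pre]
  unfold evl at h1 ⊢
  rw [List.getElem_map, List.getElem_range]
  simp only [List.length_map, List.length_range, length_pre] at h1
  rw [pre_getD _ _ _ _ (by omega)]
  rfl

theorem pf_evl {δ : Type} [Primcodable δ] {f : δ → List Bool} (hf : Primrec f) :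
    Primrec fun x => evl (f x) := by
  unfold evl
  refine Primrec.list_map (f := fun x => List.range ((f x).length / 2))
    (g := fun x i => (f x).getD (2 * i) false) (by fun_prop) ?_
  show Primrec fun y : δ × ℕ => (f y.1).getD (2 * y.2) false
  have : Primrec fun y : δ × ℕ => f y.1 := hf.comp Primrec.fst
  fun_prop

/-- the operator `Z ↦ Z ⊕ W_c^K`, where `K` is the even part of `Z` -/
theorem exists_ev_ix (c : ℕ) : ∃ v : ℕ, ∀ Z : ℕ → Bool,
    chr (WE Z v) = join Z (chr (WE (evp Z) c)) := by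
  have hQ : S1 fun x : List Bool × ℕ => (x.2 % 2 = 0 ∧ (x.1)[x.2 / 2]? = some true) ∨
      (¬ x.2 % 2 = 0 ∧
        ((Denumerable.ofNat Code c).eval (encode (evl x.1, x.2 / 2))).Dom) := by
    refine S1.or (S1.of_prim (PrimrecPred.and (pp_eq (by fun_prop) (by fun_prop)) (pp_eq
      (Primrec.list_getElem?.comp (by fun_prop) (by fun_prop)) (by fun_prop)))) (S1.and
        (S1.of_prim (PrimrecPred.not (pp_eq (by fun_prop) (by fun_prop)))) ?_)
    refine S1.comp (f := fun x : List Bool × ℕ =>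
      (Denumerable.ofNat Code c, encode (evl x.1, x.2 / 2))) s1_eval ((Primrec.const _).pair
        (Primrec.encode.comp ((pf_evl Primrec.fst).pair (by fun_prop))))
  obtain ⟨v, hv⟩ := exists_ix hQ
  refine ⟨v, fun Z => ?_⟩
  funext n
  have h2 : n ∈ WE Z v ↔ join Z (chr (WE (evp Z) c)) n = true := by
    rw [hv Z]
    simp only [Set.mem_ofPred_eq]
    unfold join
    by_cases hn : n % 2 = 0
    · rw [if_pos hn]
      constructor
      · rintro ⟨m, ⟨-, h3⟩ | ⟨h3, -⟩⟩
        · by_cases hm : n / 2 < m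
          · rw [pre_getElem? _ _ _ hm] at h3
            simpa using h3
          · rw [pre_getElem?_none _ _ _ (by omega)] at h3
            cases h3
        · exact absurd hn h3
      · intro h3
        exact ⟨n / 2 + 1, Or.inl ⟨hn, by rw [pre_getElem? _ _ _ (by omega), h3]⟩⟩
    · rw [if_neg hn]
      have h4 : chr (WE (evp Z) c) (n / 2) = true ↔ n / 2 ∈ WE (evp Z) c := by simp [chr]
      rw [h4]
      constructor
      · rintro ⟨m, ⟨h3, -⟩ | ⟨-, h3⟩⟩
        · exact absurd h3 hn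
        · rw [evl_pre] at h3
          exact ⟨m / 2, h3⟩
      · rintro ⟨k, h3⟩
        refine ⟨2 * k, Or.inr ⟨hn, ?_⟩⟩
        rw [evl_pre, show 2 * k / 2 = k by omega]
        exact h3
  have h3 : chr (WE Z v) n = true ↔ n ∈ WE Z v := by simp [chr]
  exact Bool.eq_iff_iff.2 (h3.trans h2)

/-- `L` computes a set which is computable in the jump of `K` but not in `K` -/
def Sp (K L : ℕ → Bool) : Prop := ∃ D : ℕ → Bool, TLe D (jump K) ∧ ¬ TLe D K ∧ TLe D L

/-- a low operator -/
theorem exists_low_op : ∃ c : ℕ, ∀ K : ℕ → Bool, TLe K (chr (WE K c)) ∧ ¬ TLe (chr (WE K c)) K ∧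
    TLe (jump (chr (WE K c))) (jump K) := by
  obtain ⟨e, he, -⟩ := Pool.Agent.H548R2.Post.main (fun _ _ => false)
    (Computable.const false : Computable fun _ : ℕ × ℕ => false)
  exact ⟨e, fun K => ⟨(he K).1, (he K).2.1, (he K).2.2.2.2⟩⟩

theorem ev_le (Z : ℕ → Bool) : TLe (evp Z) Z :=
  tLe_of_computable (f := fun n => 2 * n) (Primrec.to_comp (by fun_prop)) fun _ => rfl

theorem od_le (Z : ℕ → Bool) : TLe (odp Z) Z :=
  tLe_of_computable (f := fun n => 2 * n + 1) (Primrec.to_comp (by fun_prop)) fun _ => rfl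

theorem le_join_ev_od (Z : ℕ → Bool) : TLe Z (join (odp Z) (evp Z)) := by
  have h : TLe (join (evp Z) (odp Z)) (join (odp Z) (evp Z)) :=
    join_le (le_join_right _ _) (le_join_left _ _)
  rwa [join_ev_od] at h

/-- `A` is computable (the zero sequence) or random relative to the jump of `K` -/
def Gd (K A : ℕ → Bool) : Prop := A = O ∨ MLR (jump K) A

theorem gd_avoid {K A B D : ℕ → Bool} (hB : TLe (jump B) (jump K)) (hD : TLe D (jump K))
    (hDB : ¬ TLe D B) (hA : Gd K A) : ¬ TLe D (join A B) := by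
  rcases hA with rfl | hA
  · exact fun h => hDB (TLe.tr h (join_le (le_O_any B) (TuringReducible.refl _)))
  · exact mlr_avoid' hB hD hDB hA

/-- the operator is a solution for random oracles -/
theorem btw_ev {c : ℕ} (hc : ∀ K : ℕ → Bool, TLe K (chr (WE K c)) ∧ ¬ TLe (chr (WE K c)) K ∧
    TLe (jump (chr (WE K c))) (jump K)) {Z : ℕ → Bool} (hZ : Gd (evp Z) (odp Z)) :
    Btw Z (join Z (chr (WE (evp Z) c))) := by
  obtain ⟨h1, h2, h3⟩ := hc (evp Z)
  have h4 : TLe (chr (WE (evp Z) c)) (jump (evp Z)) := TLe.tr (tLe_jump _) h3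
  have h5 : ¬ TLe (chr (WE (evp Z) c)) (join (odp Z) (evp Z)) :=
    gd_avoid (TuringReducible.refl _) h4 h2 hZ
  have h6 : ¬ TLe (jump (evp Z)) (chr (WE (evp Z) c)) := fun h =>
    not_jump_le (jump (evp Z)) (TLe.tr h.jump h3)
  have h7 : ¬ TLe (jump (evp Z)) (join (odp Z) (chr (WE (evp Z) c))) :=
    gd_avoid h3 (TuringReducible.refl _) h6 hZ
  have h8 : TLe (jump (evp Z)) (jump Z) := (ev_le Z).jump
  refine ⟨le_join_left _ _, fun h => h5 (TLe.tr (TLe.tr (le_join_right _ _) h) (le_join_ev_od Z)),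
    join_le (tLe_jump _) (TLe.tr h4 h8), fun h => h7 (TLe.tr h8 (TLe.tr h ?_))⟩
  exact join_le (TLe.tr (le_join_ev_od Z) (join_le (le_join_left _ _)
    (TLe.tr h1 (le_join_right _ _)))) (le_join_right _ _)

/-- different members do not give the same degree -/
theorem sp_ne {K L A B : ℕ → Bool} (h : Sp K L) (hA : Gd K A)
    (hle : TLe (join L B) (join K A)) : False := by
  obtain ⟨D, h1, h2, h3⟩ := h
  refine gd_avoid (TuringReducible.refl _) h1 h2 hA (TLe.tr h3 (TLe.tr (le_join_left L B)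
    (TLe.tr hle (join_le (le_join_right _ _) (le_join_left _ _)))))

theorem c2_zero : C2 fun (_ : ℕ) Z => odp Z = O := by
  have h1 : C1 fun (x : ℕ × ℕ) Z => Z (2 * x.2 + 1) = false :=
    (c1_bit false).comp (f := fun x : ℕ × ℕ => 2 * x.2 + 1) (by fun_prop)
  refine (C2.all (C2.of1 h1)).of_eq fun n Z => ?_
  exact ⟨fun h => funext h, fun h n => congrFun h n⟩

/-- the application to the random sequences above the members of a class -/
theorem above {c : ℕ} (hc : ∀ K : ℕ → Bool, TLe K (chr (WE K c)) ∧ ¬ TLe (chr (WE K c)) K ∧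
    TLe (jump (chr (WE K c))) (jump K)) {S : (ℕ → Bool) → Prop} (hS : Sig3 fun _ K => S K)
    (hS2 : ∀ K L, S K → S L → K ≠ L → Sp K L ∨ Sp L K) :
    ∃ e : ℕ, (∀ X, Btw X (chr (WE X e))) ∧
      (∀ K A X, S K → Gd K A → TEq (join K A) X →
        TEq (chr (WE X e)) (join X (chr (WE K c)))) ∧
      ∀ A, Gen1 (jump (jump O)) A → ∀ X Y, TEq X A → TEq Y A →
        TEq (chr (WE X e)) (chr (WE Y e)) := by
  obtain ⟨v, hv⟩ := exists_ev_ix c
  obtain ⟨E, hE, -, -, hU⟩ := Pool.Agent.Helper227.exists_universal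
  obtain ⟨P, hP, hPS⟩ := of_sig3 hS
  have hR : Sig3 fun v' Z => v' = v ∧ S (evp Z) ∧ Gd (evp Z) (odp Z) := by
    have h1 : C2 fun (x : ℕ × ℕ) (Z : ℕ → Bool) => x.1 = v ∧ P (0, x.2.unpair.1) (evp Z) ∧
        (odp Z = O ∨ odp Z ∉ UE E (jump (evp Z)) x.2.unpair.2) := by
      refine C2.and (C2.of1 (C1.s1 (S1.of_prim (pp_eq (by fun_prop) (by fun_prop)))))
        (C2.and ?_ (C2.or ?_ ?_))
      · exact (C2.evp hP).comp (f := fun x : ℕ × ℕ => (0, x.2.unpair.1)) (by fun_prop)
      · exact c2_zero.comp (f := fun x : ℕ × ℕ => x.2.unpair.2) (by fun_prop)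
      · exact (c2_test hE).comp (f := fun x : ℕ × ℕ => x.2.unpair.2) (by fun_prop)
    obtain ⟨δ, h2, h3⟩ := sig3_of h1
    refine ⟨δ, h2, fun v' X => Iff.trans ?_ (h3 v' X)⟩
    show (v' = v ∧ S (evp X) ∧ (odp X = O ∨ MLR (jump (evp X)) (odp X))) ↔ ∃ k : ℕ, v' = v ∧
      P (0, k.unpair.1) (evp X) ∧ (odp X = O ∨ odp X ∉ UE E (jump (evp X)) k.unpair.2)
    rw [hU, hPS 0]
    constructor
    · rintro ⟨h4, ⟨k, h5⟩, h6⟩
      rcases h6 with h6 | ⟨n, h6⟩
      · refine ⟨Nat.pair k 0, h4, ?_⟩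
        rw [Nat.unpair_pair]
        exact ⟨h5, Or.inl h6⟩
      · refine ⟨Nat.pair k n, h4, ?_⟩
        rw [Nat.unpair_pair]
        exact ⟨h5, Or.inr h6⟩
    · rintro ⟨k, h4, h5, h6⟩
      exact ⟨h4, ⟨_, h5⟩, h6.imp id fun h => ⟨_, h⟩⟩
  obtain ⟨e, h1, h2, h3⟩ := extend' hR
    (by
      rintro w Z ⟨rfl, -, hZ⟩
      rw [hv]
      exact btw_ev hc hZ)
    (by
      rintro w w' A B ⟨rfl, hA, hA'⟩ ⟨rfl, hB, hB'⟩ hAB
      rw [hv, hv]
      have h4 : evp A = evp B := by
        by_contra hne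
        rcases hS2 _ _ hA hB hne with h5 | h5
        · refine sp_ne (B := odp B) h5 hA' ?_
          rw [join_ev_od, join_ev_od]
          exact hAB.2
        · refine sp_ne (B := odp A) h5 hB' ?_
          rw [join_ev_od, join_ev_od]
          exact hAB.1
      rw [h4]
      exact join_congr hAB)
  refine ⟨e, h1, fun K A X hK hA hX => ?_, h3⟩
  have h4 := h2 v (join K A) X ⟨rfl, by rwa [ev_join], by rwa [ev_join, od_join]⟩ hX
  rw [hv, ev_join] at h4
  exact h4.symm.trans (join_congr hX)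

end Pool.Agent.H649.NL
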