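import Pool.Agent.H649.NL.Lm1

set_option autoImplicit false

/-!
The true children.
-/

namespace Pool.Agent.H649.NL

open Encodable Pool.Agent.Helper227 Pool.Agent.H548R2.Post
open Nat.Partrec (Code)
open Pool.Agent.TH769.TP (FF Mon Lim lab Via via_iff lim_FF mon_FF lim_exists pre_lab lab_le le_lab)
open Pool.Agent.TH769.CD (bdd_lt)
open Pool.Agent.H649.PT (TEq)

variable {F : ℕ → ℕ → List Bool → List Bool} {LF : (ℕ × ℕ × ℕ × Bool) × List Bool → Prop}
  {m c : ℕ} {p : Pl} {Z Z' X : ℕ → Bool}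

theorem LL_le_pair {π : ℕ} (h : LL m ≤ π) : LL m ≤ Nat.pair c π :=
  h.trans (Nat.right_le_pair c π)

theorem gate (hS : Sol F LF) {k : ℕ} (hk : LL m ≤ k) (h : Tr F m k Z) :
    LOZ m (k / 2).unpair.1 Z ∧ LL m ≤ (k / 2).unpair.2 ∧
      PP F m (k / 2).unpair.1 (pl (k / 2).unpair.2) := by
  have h1 : ∀ n, ∃ s b, D5 F m k n b (pre Z s) := by
    intro n
    obtain ⟨s, hs⟩ := h (n + 1)
    obtain ⟨s', b, -, hb⟩ := hS.bit m k Z n s (by omega)
    rcases hb with ⟨hb, -⟩ | ⟨-, hb⟩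
    · omega
    · exact ⟨s', b, hb⟩
  refine ⟨?_, ?_, fun τ n => ?_⟩
  · obtain ⟨s, b, hb⟩ := h1 0
    exact ⟨s, hb.1⟩
  · obtain ⟨s, hs⟩ := h 1
    obtain ⟨s', b, -, hb⟩ := hS.bit m k Z 0 s (by omega)
    rcases hb with ⟨hb, -⟩ | ⟨hb, -⟩
    · omega
    · exact hb.2
  · obtain ⟨s, b, hb⟩ := h1 (Nat.pair (encode τ) n)
    have h2 := hb.2.1 (Nat.pair (encode τ) n) (Nat.lt_succ_self _)
    rw [Nat.unpair_pair, encodek] at h2
    exact h2

theorem LO_mono {σ τ : List Bool} (h : σ <+: τ) (h1 : LO m c σ) : LO m c τ := by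
  rcases h1 with h1 | ⟨h1, h2, h3⟩
  · exact Or.inl h1
  · right
    obtain ⟨ρ, rfl⟩ := h
    have h4 : lb (σ ++ ρ) = lb σ := by
      unfold lb at h2 ⊢
      rw [List.findIdx_append, if_pos h2]
    rw [h4, List.length_append]
    exact ⟨h1, by omega, h3⟩

theorem lim_of_bits (hS : Sol F LF) {k : ℕ} (h : Tr F m k Z)
    (h1 : ∀ n s b, D6 F LF m k n b (pre Z s) → Z' n = b) : Lim (F m k) Z Z' := by
  refine ⟨fun s => ⟨(F m k (pre Z s)).length, ?_⟩, fun N => ?_⟩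
  · refine List.ext_getElem? fun i => ?_
    by_cases hi : i < (F m k (pre Z s)).length
    · obtain ⟨s', b, hb, hD⟩ := hS.bit m k Z i s hi
      rw [hb, pre_getElem? _ _ _ hi, h1 i s' b hD]
    · push Not at hi
      rw [pre_getElem?_none _ _ _ hi, List.getElem?_eq_none hi]
  · obtain ⟨s, hs⟩ := h N
    refine ⟨s, fun s' hs' => hs.trans ?_⟩
    exact ((hS.fnl.mon m k).mono _ _ (pre_prefix Z hs')).length_le

theorem outb_pre {k n : ℕ} {A B : ℕ → Bool} {s s' : ℕ} {b : Bool}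
    (h : outb k (pre A s) (pre B s') n = some b) : lab k (join A B) n = b := by
  have key : ∀ (Y : ℕ → Bool) (r j : ℕ), (pre Y r)[j]? = some b → Y j = b := by
    intro Y r j hj
    by_cases hjr : j < r
    · rw [pre_getElem? _ _ _ hjr] at hj
      exact Option.some.inj hj
    · rw [pre_getElem?_none _ _ _ (by omega)] at hj
      cases hj
  unfold outb at h
  unfold lab
  by_cases h1 : n < k
  · rw [if_pos h1] at h ⊢
    exact Option.some.inj h
  · rw [if_neg h1] at h ⊢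
    by_cases h2 : n = k
    · rw [if_pos h2] at h ⊢
      exact Option.some.inj h
    · rw [if_neg h2] at h ⊢
      unfold join
      by_cases h3 : (n - k - 1) % 2 = 0
      · rw [if_pos h3] at h ⊢
        exact key _ _ _ h
      · rw [if_neg h3] at h ⊢
        exact key _ _ _ h

theorem outb_long {k n : ℕ} {A B : ℕ → Bool} {s s' : ℕ} (hs : n < s) (hs' : n < s') :
    outb k (pre A s) (pre B s') n = some (lab k (join A B) n) := by
  unfold outb lab
  by_cases h1 : n < k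
  · rw [if_pos h1, if_pos h1]
  · rw [if_neg h1, if_neg h1]
    by_cases h2 : n = k
    · rw [if_pos h2, if_pos h2]
    · rw [if_neg h2, if_neg h2]
      unfold join
      by_cases h3 : (n - k - 1) % 2 = 0
      · rw [if_pos h3, if_pos h3, pre_getElem? _ _ _ (by omega)]
      · rw [if_neg h3, if_neg h3, pre_getElem? _ _ _ (by omega)]

theorem ini_pre {α : List Bool} {s : ℕ} (h : ini α (pre Z s)) : pre Z α.length = α := by
  unfold ini at h
  have h1 := congrArg List.length h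
  rw [List.length_take, length_pre] at h1
  have h2 : α.length ≤ s := by omega
  rw [take_pre _ _ _ h2] at h
  exact h

theorem ini_comp {α β : List Bool} (h1 : pre Z α.length = α) (h2 : pre Z β.length = β) :
    ini α β ∨ ini β α := by
  unfold ini
  rcases le_total α.length β.length with h | h
  · left
    have h3 : (pre Z β.length).take α.length = pre Z α.length := take_pre _ _ _ h
    rwa [h2, h1] at h3
  · right
    have h3 : (pre Z α.length).take β.length = pre Z β.length := take_pre _ _ _ h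
    rwa [h2, h1] at h3

theorem shp_of (hp : PP F m c p) (h2 : ty p = 2) : ¬ ini (al p) (be p) ∧ ¬ ini (be p) (al p) := by
  obtain ⟨-, h1⟩ := hp [] 0
  rcases h1 with ⟨h3, -⟩ | ⟨-, h3, -⟩
  · rw [h2] at h3
    cases h3
  · exact (h3.2.2 h2).2.2

theorem no_both (hp : PP F m c p) (h2 : ty p = 2) (h3 : pre Z (al p).length = al p)
    (h4 : pre Z (be p).length = be p) : False := by
  obtain ⟨h5, h6⟩ := shp_of hp h2
  rcases ini_comp h3 h4 with h7 | h7
  · exact h5 h7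
  · exact h6 h7

theorem odd_lim (hS : Sol F LF) {π : ℕ} (hπ : LL m ≤ π) (hl : LOZ m c Z) (hp : PP F m c (pl π)) :
    Lim (F m (2 * Nat.pair c π + 1)) Z (lab (2 * Nat.pair c π + 1) (join Z Z)) := by
  obtain ⟨k, hk⟩ : ∃ k, k = 2 * Nat.pair c π + 1 := ⟨_, rfl⟩
  have hk1 : k % 2 = 1 := by omega
  have hk2 : k / 2 = Nat.pair c π := by omega
  have hu1 : (k / 2).unpair.1 = c := by rw [hk2, Nat.unpair_pair]
  have hu2 : (k / 2).unpair.2 = π := by rw [hk2, Nat.unpair_pair]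
  have hk0 : LL m ≤ k := by
    have := LL_le_pair (c := c) hπ
    omega
  have hk0' : LL m ≤ k ∧ LL m ≤ (k / 2).unpair.2 := ⟨hk0, by rw [hu2]; exact hπ⟩
  rw [← hk]
  refine lim_of_bits hS (hS.unb m k Z fun n => ?_) fun n s b hD => ?_
  · obtain ⟨s0, hs0⟩ := hl
    refine ⟨max s0 (n + 1), lab k (join Z Z) n, Or.inr ⟨hk0', ?_, ?_, Or.inl ⟨hk1, ?_⟩⟩⟩
    · rw [hu1]
      exact LO_mono (pre_prefix Z (le_max_left _ _)) hs0
    · intro v _
      rw [hu1, hu2]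
      exact hp _ _
    · have h1 : n < max s0 (n + 1) := lt_of_lt_of_le (Nat.lt_succ_self n) (le_max_right _ _)
      exact outb_long h1 h1
  · rcases hD with ⟨hD, -⟩ | ⟨-, hD⟩
    · omega
    rcases hD.2.2 with ⟨-, h1⟩ | ⟨h1, -⟩
    · exact outb_pre h1
    · omega

theorem lim_out {H : List Bool → List Bool}
    {Y : ℕ → Bool} (h : Lim H Z Y) (n : ℕ) : ∃ s0, ∀ s ≥ s0, ∃ r, n < r ∧ H (pre Z s) = pre Y r := by
  obtain ⟨M, hM⟩ := h.long (n + 1)
  refine ⟨M, fun s hs => ?_⟩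
  obtain ⟨r, hr⟩ := h.ok s
  refine ⟨r, ?_, hr⟩
  have h1 := hM s hs
  rw [hr, length_pre] at h1
  omega

theorem even_lim (hS : Sol F LF) {π : ℕ} (hπ : LL m ≤ π) (hl : LOZ m c Z) (hp : PP F m c (pl π))
    (h2 : ty (pl π) = 2) {x y A B : ℕ → Bool} (hr : Rel F m c (pl π) x y A B)
    (hZ : Z = A ∨ Z = B) :
    Lim (F m (2 * Nat.pair c π)) Z (lab (2 * Nat.pair c π) (join A B)) := by
  obtain ⟨k, hk⟩ : ∃ k, k = 2 * Nat.pair c π := ⟨_, rfl⟩
  have hk1 : k % 2 = 0 := by omega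
  have hk2 : k / 2 = Nat.pair c π := by omega
  have hu1 : (k / 2).unpair.1 = c := by rw [hk2, Nat.unpair_pair]
  have hu2 : (k / 2).unpair.2 = π := by rw [hk2, Nat.unpair_pair]
  have hk0 : LL m ≤ k := by
    have := LL_le_pair (c := c) hπ
    omega
  have hk0' : LL m ≤ k ∧ LL m ≤ (k / 2).unpair.2 := ⟨hk0, by rw [hu2]; exact hπ⟩
  rw [← hk]
  obtain ⟨mA, mB, eA, eB⟩ := hr.mrg h2
  have lA2 : Lim (fun σ => FF (ti m) (mb (cA (pl π)) σ)) A y := mA.comp hr.ixy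
  have lA3 : Lim (fun σ => KK F (kls c (bB (pl π))) (FF (ti m) (mb (cA (pl π)) σ))) A B :=
    lA2.comp hr.kB
  have lB2 : Lim (fun σ => FF (tj m) (mb (cB (pl π)) σ)) B x := mB.comp hr.jyx
  have lB3 : Lim (fun σ => KK F (kls c (bA (pl π))) (FF (tj m) (mb (cB (pl π)) σ))) B A :=
    lB2.comp hr.kA
  rcases hZ with rfl | rfl
  · refine lim_of_bits hS (hS.unb m k Z fun n => ?_) fun n s b hD => ?_
    · obtain ⟨s0, hs0⟩ := hl
      obtain ⟨s1, hs1⟩ := J_of_rel hS.fnl mA lA2 (Lim.id Z) lA3 hr n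
      obtain ⟨s2, hs2⟩ := lim_out lA3 n
      obtain ⟨s, hs⟩ : ∃ s, s = s0 + s1 + s2 + n + 1 := ⟨_, rfl⟩
      refine ⟨s, lab k (join Z B) n, Or.inr ⟨hk0', ?_, ?_, Or.inr ⟨hk1, ?_, Or.inl ⟨?_, ?_⟩⟩⟩⟩
      · rw [hu1]
        exact LO_mono (pre_prefix Z (by omega)) hs0
      · intro v _
        rw [hu1, hu2]
        exact hp _ _
      · rw [hu2]
        exact h2
      · rw [hu1, hu2]
        exact hs1 s (by omega)
      · rw [hu1, hu2]
        obtain ⟨r, hr1, hr2⟩ := hs2 s (by omega)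
        rw [hr2]
        exact outb_long (by omega) hr1
    · rcases hD with ⟨hD, -⟩ | ⟨-, hD⟩
      · omega
      rcases hD.2.2 with ⟨h1, -⟩ | ⟨-, -, ⟨-, h1⟩ | ⟨h1, -⟩⟩
      · omega
      · rw [hu1, hu2] at h1
        obtain ⟨r, hr1⟩ := lA3.ok s
        rw [hr1] at h1
        exact outb_pre h1
      · exfalso
        rw [hu1, hu2] at h1
        exact no_both hp h2 eA (ini_pre (h1.2.2.2 h2).2.2.2)
  · refine lim_of_bits hS (hS.unb m k Z fun n => ?_) fun n s b hD => ?_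
    · obtain ⟨s0, hs0⟩ := hl
      obtain ⟨s1, hs1⟩ := J_of_rel hS.fnl lB2 mB lB3 (Lim.id Z) hr n
      obtain ⟨s2, hs2⟩ := lim_out lB3 n
      obtain ⟨s, hs⟩ : ∃ s, s = s0 + s1 + s2 + n + 1 := ⟨_, rfl⟩
      refine ⟨s, lab k (join A Z) n, Or.inr ⟨hk0', ?_, ?_, Or.inr ⟨hk1, ?_, Or.inr ⟨?_, ?_⟩⟩⟩⟩
      · rw [hu1]
        exact LO_mono (pre_prefix Z (by omega)) hs0
      · intro v _
        rw [hu1, hu2]
        exact hp _ _
      · rw [hu2]
        exact h2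
      · rw [hu1, hu2]
        exact hs1 s (by omega)
      · rw [hu1, hu2]
        obtain ⟨r, hr1, hr2⟩ := hs2 s (by omega)
        rw [hr2]
        exact outb_long hr1 (by omega)
    · rcases hD with ⟨hD, -⟩ | ⟨-, hD⟩
      · omega
      rcases hD.2.2 with ⟨h1, -⟩ | ⟨-, -, ⟨h1, -⟩ | ⟨-, h1⟩⟩
      · omega
      · exfalso
        rw [hu1, hu2] at h1
        exact no_both hp h2 (ini_pre (h1.2.2.2 h2).2.2.1) eB
      · rw [hu1, hu2] at h1
        obtain ⟨r, hr1⟩ := lB3.ok s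
        rw [hr1] at h1
        exact outb_pre h1

theorem even_rel (hS : Sol F LF) {π : ℕ} (hπ : LL m ≤ π)
    (h : Tr F m (2 * Nat.pair c π) Z) :
    ty (pl π) = 2 ∧ ∃ x y A B, Rel F m c (pl π) x y A B ∧ (Z = A ∨ Z = B) := by
  obtain ⟨k, hk⟩ : ∃ k, k = 2 * Nat.pair c π := ⟨_, rfl⟩
  have hk1 : k % 2 = 0 := by omega
  have hk2 : k / 2 = Nat.pair c π := by omega
  have hu1 : (k / 2).unpair.1 = c := by rw [hk2, Nat.unpair_pair]
  have hu2 : (k / 2).unpair.2 = π := by rw [hk2, Nat.unpair_pair]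
  have hk0 : LL m ≤ k := by
    have := LL_le_pair (c := c) hπ
    omega
  have hk0' : LL m ≤ k ∧ LL m ≤ (k / 2).unpair.2 := ⟨hk0, by rw [hu2]; exact hπ⟩
  rw [← hk] at h
  obtain ⟨-, -, hp⟩ := gate hS hk0 h
  rw [hu1, hu2] at hp
  have h1 : ∀ n, ∃ s, ty (pl π) = 2 ∧
      (JA F m c (pl π) n (pre Z s) ∨ JB F m c (pl π) n (pre Z s)) := by
    intro n
    obtain ⟨s, hs⟩ := h (n + 1)
    obtain ⟨s', b, -, hb⟩ := hS.bit m k Z n s (by omega)
    rcases hb with ⟨hb, -⟩ | ⟨-, hb⟩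
    · omega
    rcases hb.2.2 with ⟨h1, -⟩ | ⟨-, h3, h4⟩
    · omega
    · rw [hu2] at h3
      rw [hu1, hu2] at h4
      refine ⟨s', h3, ?_⟩
      rcases h4 with ⟨h4, -⟩ | ⟨h4, -⟩
      · exact Or.inl h4
      · exact Or.inr h4
  obtain ⟨-, h2, -⟩ := h1 0
  refine ⟨h2, ?_⟩
  have mF : ∀ i : Code, ∀ σ τ, σ <+: τ → FF i σ <+: FF i τ := fun i => (mon_FF (i := i)).mono
  by_cases ha : pre Z (al (pl π)).length = al (pl π)
  · have h3 : ∀ n, ∃ s, JA F m c (pl π) n (pre Z s) := by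
      intro n
      obtain ⟨s, -, h4 | h4⟩ := h1 n
      · exact ⟨s, h4⟩
      · exfalso
        exact no_both hp h2 ha (ini_pre (h4.2.2.2 h2).2.2.2)
    obtain ⟨x, y, A, B, -, -, l3, -, hR⟩ := rel_of_J (Z := Z) hS.fnl
      (hx := mb (cA (pl π))) (hy := fun σ => FF (ti m) (mb (cA (pl π)) σ)) (ha := fun σ => σ)
      (hb := fun σ => KK F (kls c (bB (pl π))) (FF (ti m) (mb (cA (pl π)) σ)))
      (fun _ _ hh => mb_mono _ hh) (fun _ _ hh => mF _ _ _ (mb_mono _ hh)) (fun _ _ hh => hh)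
      (fun _ _ hh => KK_mono hS.fnl _ (mF _ _ _ (mb_mono _ hh))) h3
    exact ⟨x, y, A, B, hR, Or.inl ((Lim.id Z).unique l3)⟩
  · have h3 : ∀ n, ∃ s, JB F m c (pl π) n (pre Z s) := by
      intro n
      obtain ⟨s, -, h4 | h4⟩ := h1 n
      · exact absurd (ini_pre (h4.2.2.2 h2).2.2.1) ha
      · exact ⟨s, h4⟩
    obtain ⟨x, y, A, B, -, -, -, l4, hR⟩ := rel_of_J (Z := Z) hS.fnl
      (hx := fun σ => FF (tj m) (mb (cB (pl π)) σ)) (hy := mb (cB (pl π)))
      (ha := fun σ => KK F (kls c (bA (pl π))) (FF (tj m) (mb (cB (pl π)) σ)))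
      (hb := fun σ => σ)
      (fun _ _ hh => mF _ _ _ (mb_mono _ hh)) (fun _ _ hh => mb_mono _ hh)
      (fun _ _ hh => KK_mono hS.fnl _ (mF _ _ _ (mb_mono _ hh))) (fun _ _ hh => hh) h3
    exact ⟨x, y, A, B, hR, Or.inr ((Lim.id Z).unique l4)⟩

end Pool.Agent.H649.NL
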