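import Pool.Agent.H649.NL.Stp
import Pool.Graph.R_seed8.TH769.TP.Uni

set_option autoImplicit false

/-!
Chains of levels.
-/

namespace Pool.Agent.H649.NL

open Encodable Pool.Agent.Helper227 Pool.Agent.H548R2.Post
open Nat.Partrec (Code)
open Pool.Agent.TH769.TP (Mon Lim lab pre_lab pre_lab_lt)
open Pool.Agent.TH769.CD (bdd_lt)

section strings

theorem lb_pre_lab (k : ℕ) (Y : ℕ → Bool) (s : ℕ) : lb (pre (lab k Y) s) = min s k := by
  rcases le_or_gt s k with h | h
  · rw [pre_lab_lt Y h, min_eq_left h]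
    unfold lb
    rw [List.findIdx_eq_length_of_false]
    · rw [List.length_replicate]
    · intro b hb
      exact List.eq_of_mem_replicate hb
  · obtain ⟨s', rfl⟩ : ∃ s', s = k + 1 + s' := ⟨s - (k + 1), by omega⟩
    rw [pre_lab, min_eq_right h.le]
    unfold lb
    clear h
    induction k with
    | zero => simp [List.findIdx_cons]
    | succ n ih => simpa [List.replicate_succ, List.findIdx_cons] using ih

theorem rst_pre_lab (k : ℕ) (Y : ℕ → Bool) (s : ℕ) :
    rst (pre (lab k Y) s) = pre Y (s - (k + 1)) := by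
  unfold rst
  rw [lb_pre_lab]
  rcases le_or_gt s k with h | h
  · rw [min_eq_left h, show s - (k + 1) = 0 by omega, List.drop_eq_nil_of_le]
    · rfl
    · rw [length_pre]
      omega
  · obtain ⟨s', rfl⟩ : ∃ s', s = k + 1 + s' := ⟨s - (k + 1), by omega⟩
    rw [pre_lab, min_eq_right h.le, Nat.add_sub_cancel_left, List.drop_append]
    simp

theorem pt_pre (b : Bool) (k : ℕ) (A B : ℕ → Bool) (s : ℕ) :
    pt b (pre (lab k (join A B)) s) = pre (cond b B A) ((s - (k + 1)) / 2) := by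
  unfold pt
  rw [rst_pre_lab, length_pre]
  refine List.ext_getElem (by simp) fun i h1 h2 => ?_
  rw [List.length_map, List.length_range] at h1
  rw [List.getElem_map, List.getElem_range, getElem_pre, pre_getD]
  · unfold join
    cases b
    · rw [if_pos (by simp), cond_false]
      congr 1
      simp
    · rw [if_neg (by simp), cond_true]
      congr 1
      simp only [Bool.toNat_true]
      omega
  · have hb : b.toNat ≤ 1 := by cases b <;> simp
    omega

end strings

section lists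

variable {E : ℕ → List Bool → St}

theorem foldl_acc (c : List Bool) : ∀ (m : ℕ) (σ : List Bool) (P : List Ce),
    c.foldl (stp E) (m, σ, P) = ((c.foldl (stp E) (m, σ, [])).1, (c.foldl (stp E) (m, σ, [])).2.1,
      P ++ (c.foldl (stp E) (m, σ, [])).2.2) := by
  induction c with
  | nil =>
    intro m σ P
    rw [List.foldl_nil, List.foldl_nil, List.append_nil]
  | cons b c ih =>
    intro m σ P
    rw [List.foldl_cons, List.foldl_cons]
    have h1 : ∀ P, stp E (m, σ, P) b = (m - 1, pt b σ, P ++ [ce E (m - 1) σ (pt b σ)]) :=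
      fun _ => rfl
    rw [h1, h1, ih (m - 1) (pt b σ) (P ++ _), ih (m - 1) (pt b σ) ([] ++ _)]
    simp only [List.nil_append, List.append_assoc]

theorem CH_nil (m : ℕ) (σ : List Bool) : CH E m σ [] = (m, σ, []) := rfl

theorem CH_cons (m : ℕ) (σ : List Bool) (b : Bool) (c : List Bool) :
    CH E m σ (b :: c) = ((CH E (m - 1) (pt b σ) c).1, (CH E (m - 1) (pt b σ) c).2.1,
      ce E (m - 1) σ (pt b σ) :: (CH E (m - 1) (pt b σ) c).2.2) := by
  unfold CH
  rw [List.foldl_cons]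
  have h1 : stp E (m, σ, []) b = (m - 1, pt b σ, [] ++ [ce E (m - 1) σ (pt b σ)]) := rfl
  rw [h1, foldl_acc c (m - 1) (pt b σ) ([] ++ _)]
  rfl

/-- labels and starts -/
def dat (P : List Ce) : List (ℕ × ℕ) := P.map (fun e => (e.1, e.2.1))

def adk (K : List (ℕ × ℕ)) (x : ℕ) : ℕ := K.foldl (fun x e => cod (e.1 + 1) e.2 x) x

theorem ad_dat (P : List Ce) (x : ℕ) : ad P x = adk (dat P) x := by
  unfold ad adk dat
  rw [List.foldl_map]

theorem adk_cons (e : ℕ × ℕ) (K : List (ℕ × ℕ)) (x : ℕ) :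
    adk (e :: K) x = adk K (cod (e.1 + 1) e.2 x) := rfl

theorem le_adk (K : List (ℕ × ℕ)) : ∀ x : ℕ, x ≤ adk K x := by
  induction K with
  | nil => exact fun x => le_rfl
  | cons e K ih => exact fun x => (snd_le_cod _ _ _).trans (ih _)

theorem adk_inj : ∀ (K K' : List (ℕ × ℕ)) (x x' : ℕ), K.length = K'.length →
    adk K x = adk K' x' → K = K' ∧ x = x' := by
  intro K
  induction K with
  | nil =>
    intro K' x x' h h1
    obtain rfl : K' = [] := List.length_eq_zero_iff.1 h.symm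
    exact ⟨rfl, h1⟩
  | cons e K ih =>
    intro K' x x' h h1
    cases K' with
    | nil => simp at h
    | cons e' K' =>
      obtain ⟨h2, h3⟩ := ih K' _ _ (by simpa using h) h1
      obtain ⟨h4, h5, h6⟩ := cod_inj h3
      refine ⟨?_, h6⟩
      rw [h2, show e = e' from Prod.ext (by omega) h5]

theorem lbs_dat (P : List Ce) : lbs P = (dat P).map Prod.fst := by
  unfold lbs dat
  rw [List.map_map]
  rfl

theorem le_vb (P : List Ce) : ∀ (n u : ℕ), u ≤ vb P n ↔ u ≤ n ∧ ∀ e ∈ P, u ≤ e.2.2.2 := by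
  induction P with
  | nil => exact fun n u => ⟨fun h => ⟨h, fun e he => absurd he (List.not_mem_nil)⟩, fun h => h.1⟩
  | cons e P ih =>
    intro n u
    show u ≤ vb P (min n e.2.2.2) ↔ _
    rw [ih, le_min_iff, List.forall_mem_cons, and_assoc]

theorem vp_cons (e : Ce) (P : List Ce) (L : List ℕ) :
    vp (e :: P) L = vp P (e.2.2.1 ++ L.map (cod (e.1 + 1) e.2.1)) := rfl

theorem length_CH (c : List Bool) : ∀ (m : ℕ) (σ : List Bool),
    (CH E m σ c).2.2.length = c.length := by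
  induction c with
  | nil => exact fun _ _ => rfl
  | cons b c ih =>
    intro m σ
    rw [CH_cons, List.length_cons, List.length_cons, ih]

/-- the length of the string at the bottom -/
def nl : List (ℕ × ℕ) → ℕ → ℕ
  | [], s => s
  | e :: K, s => nl K ((s - (e.1 + 1)) / 2)

theorem nl_mono (K : List (ℕ × ℕ)) : ∀ {s s' : ℕ}, s ≤ s' → nl K s ≤ nl K s' := by
  induction K with
  | nil => exact fun h => h
  | cons e K ih => exact fun h => ih (Nat.div_le_div_right (Nat.sub_le_sub_right h _))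

theorem nl_le (K : List (ℕ × ℕ)) : ∀ s : ℕ, nl K s ≤ s := by
  induction K with
  | nil => exact fun s => le_rfl
  | cons e K ih => exact fun s => (ih _).trans ((Nat.div_le_self _ _).trans (Nat.sub_le _ _))

theorem nl_inf (K : List (ℕ × ℕ)) : ∀ N : ℕ, ∃ s1, ∀ s ≥ s1, N ≤ nl K s := by
  induction K with
  | nil => exact fun N => ⟨N, fun s hs => hs⟩
  | cons e K ih =>
    intro N
    obtain ⟨s1, h1⟩ := ih N
    refine ⟨2 * s1 + (e.1 + 1), fun s hs => h1 _ ?_⟩
    omega

end lists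

/-- a path from the level `m` down to the level 0 -/
inductive Pth (F : ℕ → ℕ → List Bool → List Bool) :
    ℕ → (ℕ → Bool) → List Bool → (ℕ → Bool) → List (ℕ × ℕ) → Prop
  | nil (X : ℕ → Bool) : Pth F 0 X [] X []
  | cons {m k t : ℕ} {A B : ℕ → Bool} {b : Bool} {c : List Bool} {X : ℕ → Bool}
      {K : List (ℕ × ℕ)} (h0 : LL m ≤ k) (hk : Lc F m k (cond b B A))
      (hl : Lim (F m k) (cond b B A) (lab k (join A B))) (hf : Fin F m (cond b B A))
      (ht : Fs F m (cond b B A) k t) (hp : Pth F m (cond b B A) c X K) :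
      Pth F (m + 1) (lab k (join A B)) (b :: c) X ((k, t) :: K)

/-- the address has its final value -/
def Adr (F : ℕ → ℕ → List Bool → List Bool) (m : ℕ) (Z : ℕ → Bool) (c : List Bool)
    (K : List (ℕ × ℕ)) (s : ℕ) : Prop := dat (CH (S F) m (pre Z s) c).2.2 = K

noncomputable def VB (F : ℕ → ℕ → List Bool → List Bool) (m : ℕ) (Z : ℕ → Bool) (c : List Bool)
    (s : ℕ) : ℕ := vb (CH (S F) m (pre Z s) c).2.2 (CH (S F) m (pre Z s) c).2.1.length

variable {F : ℕ → ℕ → List Bool → List Bool} {m : ℕ} {Z X : ℕ → Bool} {c : List Bool}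
  {K : List (ℕ × ℕ)}

theorem ce_pre (b : Bool) (k : ℕ) (A B : ℕ → Bool) (s : ℕ) :
    ce (S F) m (pre (lab k (join A B)) s) (pt b (pre (lab k (join A B)) s)) =
      (min s k, Ls F m (cond b B A) ((s - (k + 1)) / 2) (min s k),
        Lt F m (cond b B A) ((s - (k + 1)) / 2),
        Ls F m (cond b B A) ((s - (k + 1)) / 2) (min s k + 1)) := by
  rw [pt_pre]
  unfold ce
  rw [lb_pre_lab]
  rfl

theorem CH_pre (b : Bool) (c : List Bool) (k : ℕ) (A B : ℕ → Bool) (s : ℕ) :
    CH (S F) (m + 1) (pre (lab k (join A B)) s) (b :: c) =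
      ((CH (S F) m (pre (cond b B A) ((s - (k + 1)) / 2)) c).1,
      (CH (S F) m (pre (cond b B A) ((s - (k + 1)) / 2)) c).2.1,
      (min s k, Ls F m (cond b B A) ((s - (k + 1)) / 2) (min s k),
        Lt F m (cond b B A) ((s - (k + 1)) / 2),
        Ls F m (cond b B A) ((s - (k + 1)) / 2) (min s k + 1)) ::
      (CH (S F) m (pre (cond b B A) ((s - (k + 1)) / 2)) c).2.2) := by
  rw [CH_cons, Nat.add_sub_cancel, ce_pre, pt_pre]

theorem Pth.len (h : Pth F m Z c X K) : c.length = m ∧ K.length = m := by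
  induction h with
  | nil X => exact ⟨rfl, rfl⟩
  | cons h0 hk hl hf ht hp ih => exact ⟨by rw [List.length_cons, ih.1], by rw [List.length_cons, ih.2]⟩

theorem Pth.str (h : Pth F m Z c X K) : ∀ s, (CH (S F) m (pre Z s) c).2.1 = pre X (nl K s) := by
  induction h with
  | nil X => exact fun s => rfl
  | cons h0 hk hl hf ht hp ih =>
    intro s
    rw [CH_pre]
    exact ih _

theorem Adr_cons {k t : ℕ} {A B : ℕ → Bool} {b : Bool} {s : ℕ} :
    Adr F (m + 1) (lab k (join A B)) (b :: c) ((k, t) :: K) s ↔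
      k ≤ s ∧ Ls F m (cond b B A) ((s - (k + 1)) / 2) k = t ∧
        Adr F m (cond b B A) c K ((s - (k + 1)) / 2) := by
  unfold Adr
  rw [CH_pre]
  unfold dat
  rw [List.map_cons, List.cons.injEq, Prod.mk.injEq, and_assoc]
  simp only
  constructor
  · rintro ⟨h1, h2, h3⟩
    rw [h1] at h2
    exact ⟨min_eq_right_iff.1 h1, h2, h3⟩
  · rintro ⟨h1, h2, h3⟩
    refine ⟨min_eq_right h1, ?_, h3⟩
    rw [min_eq_right h1]
    exact h2

theorem Pth.adr_mono (hF : Fnl F) (h : Pth F m Z c X K) : ∀ {s s' : ℕ}, Adr F m Z c K s →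
    s ≤ s' → Adr F m Z c K s' := by
  induction h with
  | nil X => exact fun _ _ => rfl
  | @cons m k t A B b c X K h0 hk hl hf ht hp ih =>
    intro s s' h1 h2
    rw [Adr_cons] at h1 ⊢
    obtain ⟨h3, h4, h5⟩ := h1
    have h6 := Nat.div_le_div_right (c := 2) (Nat.sub_le_sub_right h2 (k + 1))
    exact ⟨h3.trans h2, ht.stay hF h4 _ h6, ih h5 h6⟩

theorem Pth.adr_ev (h : Pth F m Z c X K) : ∃ s1, ∀ s ≥ s1, Adr F m Z c K s := by
  induction h with
  | nil X => exact ⟨0, fun _ _ => rfl⟩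
  | @cons m k t A B b c X K h0 hk hl hf ht hp ih =>
    obtain ⟨s1, h1⟩ := ih
    obtain ⟨s2, h2⟩ := ht
    refine ⟨2 * (s1 + s2) + (k + 1), fun s hs => Adr_cons.2 ⟨by omega, h2 _ ?_, h1 _ ?_⟩⟩
    · omega
    · omega

theorem le_VB {u s : ℕ} (h : Pth F m Z c X K) : u ≤ VB F m Z c s ↔ u ≤ nl K s ∧
    ∀ e ∈ (CH (S F) m (pre Z s) c).2.2, u ≤ e.2.2.2 := by
  unfold VB
  rw [le_vb, h.str, length_pre]

theorem Pth.bds_mono (hF : Fnl F) (h : Pth F m Z c X K) : ∀ {s s' u : ℕ}, Adr F m Z c K s →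
    s ≤ s' → (∀ e ∈ (CH (S F) m (pre Z s) c).2.2, u ≤ e.2.2.2) →
    ∀ e ∈ (CH (S F) m (pre Z s') c).2.2, u ≤ e.2.2.2 := by
  induction h with
  | nil X => exact fun _ _ _ e he => absurd he (List.not_mem_nil)
  | @cons m k t A B b c X K h0 hk hl hf ht hp ih =>
    intro s s' u h1 h2 h3
    rw [Adr_cons] at h1
    rw [CH_pre, List.forall_mem_cons] at h3 ⊢
    simp only at h3 ⊢
    have h6 := Nat.div_le_div_right (c := 2) (Nat.sub_le_sub_right h2 (k + 1))
    refine ⟨?_, ih h1.2.2 h6 h3.2⟩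
    refine h3.1.trans ?_
    rw [min_eq_right h1.1, min_eq_right (h1.1.trans h2)]
    exact Ls_mono hF.sho h6

theorem Pth.VB_mono (hF : Fnl F) (h : Pth F m Z c X K) {s s' : ℕ} (ha : Adr F m Z c K s)
    (hs : s ≤ s') : VB F m Z c s ≤ VB F m Z c s' := by
  rw [le_VB h]
  have h1 := (le_VB (u := VB F m Z c s) (s := s) h).1 le_rfl
  exact ⟨h1.1.trans (nl_mono K hs), h.bds_mono hF ha hs h1.2⟩

theorem Pth.bds_inf (hF : Fnl F) (h : Pth F m Z c X K) (N : ℕ) :
    ∃ s1, ∀ s ≥ s1, ∀ e ∈ (CH (S F) m (pre Z s) c).2.2, N ≤ e.2.2.2 := by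
  induction h with
  | nil X => exact ⟨0, fun _ _ e he => absurd he (List.not_mem_nil)⟩
  | @cons m k t A B b c X K h0 hk hl hf ht hp ih =>
    obtain ⟨s1, h1⟩ := ih
    obtain ⟨s2, h2⟩ := Ls_inf hF hk.1 N
    refine ⟨2 * (s1 + s2) + (k + 1), fun s hs => ?_⟩
    rw [CH_pre, List.forall_mem_cons]
    simp only
    refine ⟨?_, h1 _ (by omega)⟩
    rw [min_eq_right (by omega)]
    exact h2 _ (by omega)

theorem Pth.VB_inf (hF : Fnl F) (h : Pth F m Z c X K) (N : ℕ) :
    ∃ s1, ∀ s ≥ s1, N ≤ VB F m Z c s := by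
  obtain ⟨s1, h1⟩ := h.bds_inf hF N
  obtain ⟨s2, h2⟩ := nl_inf K N
  exact ⟨max s1 s2, fun s hs => (le_VB h).2 ⟨h2 s (le_trans (le_max_right _ _) hs),
    h1 s (le_trans (le_max_left _ _) hs)⟩⟩

theorem Pth.W_iff (hF : Fnl F) (h : Pth F m Z c X K) : ∀ x, W F m Z x ↔ W F 0 X (adk K x) := by
  induction h with
  | nil X => exact fun x => Iff.rfl
  | cons h0 hk hl hf ht hp ih =>
    intro x
    rw [adk_cons, ← ih]
    exact ((col_iff hF ht hl).trans (GW_pos h0 x)).symm

/-- The elements predicted from the level `m`. -/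
theorem Pth.sc (hF : Fnl F) (h : Pth F m Z c X K) : ∀ {s u : ℕ} {L : List ℕ},
    Adr F m Z c K s → (∀ e ∈ (CH (S F) m (pre Z s) c).2.2, u ≤ e.2.2.2) → SC F m Z u L →
    SC F 0 X u (vp (CH (S F) m (pre Z s) c).2.2 L) := by
  induction h with
  | nil X => exact fun _ _ h => h
  | @cons m k t A B b c X K h0 hk hl hf ht hp ih =>
    intro s u L h1 h2 h3
    rw [Adr_cons] at h1
    rw [CH_pre] at h2 ⊢
    rw [List.forall_mem_cons] at h2
    simp only at h2 ⊢
    rw [min_eq_right h1.1] at h2 ⊢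
    rw [vp_cons]
    simp only
    refine ih h1.2.2 h2.2 ?_
    rw [h1.2.1]
    exact SC_step hF h0 ht h1.2.1 hl h2.1 h3

end Pool.Agent.H649.NL
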