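import Pool.Agent.H649.NL.Exi

set_option autoImplicit false

/-!
Generic sequences and sequences of the same degree are merged.
-/

namespace Pool.Agent.H649.NL

open Encodable Pool.Agent.Helper227 Pool.Agent.H548R2.Post
open Nat.Partrec (Code)
open Pool.Agent.TH769.TP (FF Mon Lim lab Via via_iff lim_FF mon_FF lim_exists pre_lab lab_le le_lab)
open Pool.Agent.TH769.CD (bdd_lt)
open Pool.Agent.H649.PT (TEq)

variable {F : ℕ → ℕ → List Bool → List Bool} {LF : (ℕ × ℕ × ℕ × Bool) × List Bool → Prop}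
  {m c : ℕ} {p : Pl} {Z Z' X : ℕ → Bool}

theorem cnc_ini {α u : List Bool} : ini α u ↔ α <+: u := by
  unfold ini
  rw [List.prefix_iff_eq_take]
  exact ⟨fun h => h.symm, fun h => h.symm⟩

theorem cnc_tk (σ0 : List Bool) (i j : Code) : tk (encode (σ0, (i, j))) = (σ0, i, j) := by
  unfold tk
  rw [encodek]
  rfl

theorem cnc_cmp {H : List Bool → List Bool} (h : Lim H X X) (N : ℕ) :
    ∃ t0, ∀ t ≥ t0, cmp N (H (pre X t)) (pre X t) := by
  obtain ⟨M, hM⟩ := h.long N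
  refine ⟨max M N, fun t ht => ?_⟩
  obtain ⟨n, hn⟩ := h.ok t
  have h1 := hM t (by omega)
  refine ⟨h1, by rw [length_pre]; omega, ?_⟩
  rw [hn] at h1 ⊢
  rw [length_pre] at h1
  rcases le_total n t with h2 | h2
  · exact (Pool.Agent.TH769.TP.take_of_prefix (pre_prefix X h2) (by rw [length_pre]; exact h1)).symm
  · exact Pool.Agent.TH769.TP.take_of_prefix (pre_prefix X h2) (by rw [length_pre]; omega)

theorem cnc_Jb (hS : Sol F LF) {N : ℕ} {bl : List Bool} (hl : bl.length = m)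
    (h : Lim (KK F (kls (cc F m) bl)) X Z) (hb : ∀ s, BT F N (cc F m) bl (pre X s)) :
    Jb F bl X Z ∧ ∀ k < LL m, ¬ Tr F m k Z := by
  subst hl
  exact ⟨Jb_of_KK hS.fnl bl h fun s => (hb s).1, not_tr_of_BT hS.fnl h hb⟩

/-- the least right plan of a level and its sets -/
theorem cnc_merge (hS : Sol F LF) (hHP : ∀ m, HP F m) {x y A B : ℕ → Bool} (hsh : shp m (pl (zz F m (cc F m))))
    (hty : ty (pl (zz F m (cc F m))) = 1 ∨ ty (pl (zz F m (cc F m))) = 2)
    (hr : Rel F m (cc F m) (pl (zz F m (cc F m))) x y A B) :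
    ∃ m Z, Jp F (Ac F) m x Z ∧ Jp F (Ac F) m y Z := by
  obtain ⟨hzz, hPP⟩ := hHP (m + 1) m (Nat.lt_succ_self m)
  obtain ⟨ja, ta⟩ := cnc_Jb hS hsh.1 hr.kA hr.bdx
  obtain ⟨jb, tb⟩ := cnc_Jb hS hsh.2.1 hr.kB hr.bdy
  rcases hty with h1 | h2
  · have e := hr.eq1 h1
    subst e
    have g1 := Jp_of_Jb hS hHP _ ja
    have g2 := Jp_of_Jb hS hHP _ jb
    rw [hsh.1] at g1
    rw [hsh.2.1] at g2
    exact ⟨m, A, g1, g2⟩
  · have l1 := LOZ_of_Jb hS _ (hHP _) ja
    have l2 := LOZ_of_Jb hS _ (hHP _) jb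
    rw [hsh.1] at l1
    rw [hsh.2.1] at l2
    have n1 := even_lim hS hzz l1 hPP h2 hr (Or.inl rfl)
    have n2 := even_lim hS hzz l2 hPP h2 hr (Or.inr rfl)
    have k1 : Jb F (false :: bA (pl (zz F m (cc F m)))) x
        (lab (2 * Nat.pair (cc F m) (zz F m (cc F m))) (join A B)) := by
      refine ⟨A, ja, ?_⟩
      rw [hsh.1]
      exact ⟨n1, fun h => absurd h (by simp), ta⟩
    have k2 : Jb F (false :: bB (pl (zz F m (cc F m)))) y
        (lab (2 * Nat.pair (cc F m) (zz F m (cc F m))) (join A B)) := by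
      refine ⟨B, jb, ?_⟩
      rw [hsh.2.1]
      exact ⟨n2, fun h => absurd h (by simp), tb⟩
    have g1 := Jp_of_Jb hS hHP _ k1
    have g2 := Jp_of_Jb hS hHP _ k2
    rw [List.length_cons, hsh.1] at g1
    rw [List.length_cons, hsh.2.1] at g2
    exact ⟨m + 1, _, g1, g2⟩

theorem merged (hS : Sol F LF) (hHP : ∀ m, HP F m) {X Y : ℕ → Bool} (hX : Gen (Fam F) X) (h : TEq X Y) :
    ∃ m Z, Jp F (Ac F) m X Z ∧ Jp F (Ac F) m Y Z := by
  obtain ⟨i, hi⟩ := (via_iff X Y).1 h.2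
  obtain ⟨j, hj⟩ := (via_iff Y X).1 h.1
  have li : Lim (FF i) X Y := lim_FF hi
  have lj : Lim (FF j) Y X := lim_FF hj
  -- `X` meets the set of the extensions of the strings of the plans
  have hmeet : ∃ s, ∃ σ0 : List Bool,
      rh (pl (zz F (encode (σ0, (i, j))) (cc F (encode (σ0, (i, j)))))) <+: pre X s := by
    rcases hX _ (Or.inr ⟨(i, j), rfl⟩) with h1 | ⟨s, h1⟩
    · exact h1
    · exfalso
      have hPP := hHP (encode (pre X s, (i, j)) + 1) _ (Nat.lt_succ_self _)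
      have h2 := (hPP.2 [] 0).1
      rw [cnc_ini, cnc_tk] at h2
      exact h1 _ h2 ⟨pre X s, List.prefix_rfl⟩
  obtain ⟨s, σ0, hs⟩ := hmeet
  obtain ⟨m, hm⟩ : ∃ m, m = encode (σ0, (i, j)) := ⟨_, rfl⟩
  have hti : ti m = i := by rw [hm]; unfold ti; rw [cnc_tk]
  have htj : tj m = j := by rw [hm]; unfold tj; rw [cnc_tk]
  rw [← hm] at hs
  obtain ⟨hzz, hPP⟩ := hHP (m + 1) m (Nat.lt_succ_self m)
  have hext : ∀ t ≥ s, ini (rh (pl (zz F m (cc F m)))) (pre X t) := fun t ht =>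
    cnc_ini.2 (hs.trans (pre_prefix X ht))
  -- the type is not zero
  have hty0 : ty (pl (zz F m (cc F m))) ≠ 0 := by
    intro h0
    obtain ⟨t0, ht0⟩ := cnc_cmp (li.comp lj) (bN (pl (zz F m (cc F m))))
    rcases (hPP (pre X (max s t0)) 0).2 with h1 | h1
    · apply h1.2 (hext _ (le_max_left _ _))
      rw [hti, htj]
      exact ht0 _ (le_max_right _ _)
    · rcases h1.1 with h2 | h2 <;> rw [h0] at h2 <;> exact absurd h2 (by norm_num)
  have hpl : ∀ τ n, (ty (pl (zz F m (cc F m))) = 1 ∨ ty (pl (zz F m (cc F m))) = 2) ∧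
      shp m (pl (zz F m (cc F m))) ∧ (ini (rh (pl (zz F m (cc F m)))) τ →
        ∃ τ', ini τ τ' ∧ JX F m (cc F m) (pl (zz F m (cc F m))) n τ') := by
    intro τ n
    rcases (hPP τ n).2 with h1 | h1
    · exact absurd h1.1 hty0
    · exact h1
  have hJ : ∀ n, ∃ t, JX F m (cc F m) (pl (zz F m (cc F m))) n (pre X t) := by
    intro n
    rcases hX _ (Or.inl (Or.inr ⟨(m, zz F m (cc F m), n), rfl⟩)) with h1 | ⟨t, h1⟩
    · exact h1
    · exfalso
      obtain ⟨τ', h2, h3⟩ := (hpl (pre X (max s t)) n).2.2 (hext _ (le_max_left _ _))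
      exact h1 τ' ((pre_prefix X (le_max_right s t)).trans (cnc_ini.1 h2)) h3
  obtain ⟨hty, hsh, -⟩ := hpl [] 0
  obtain ⟨x, y, A, B, h1, h2, -, -, hr⟩ := rel_of_J hS.fnl (m := m) (c := cc F m)
    (p := pl (zz F m (cc F m))) (Z := X) (hx := fun σ => σ) (hy := FF (ti m))
    (ha := KK F (kls (cc F m) (bA (pl (zz F m (cc F m))))))
    (hb := fun σ => KK F (kls (cc F m) (bB (pl (zz F m (cc F m))))) (FF (ti m) σ))
    (fun _ _ h => h) mon_FF.mono (fun _ _ h => KK_mono hS.fnl _ h)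
    (fun _ _ h => KK_mono hS.fnl _ (mon_FF.mono _ _ h)) hJ
  have ex : x = X := h1.unique (Lim.id X)
  rw [hti] at h2
  have ey : y = Y := h2.unique li
  subst ex
  subst ey
  exact cnc_merge hS hHP hsh hty hr

end Pool.Agent.H649.NL
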