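import Pool.Agent.H649.PT.Cor

set_option autoImplicit false

/-!
A construction on nested oracles: definitions.
-/

namespace Pool.Agent.H649.NL

open Encodable Pool.Agent.Helper227 Pool.Agent.H548R2.Post
open Nat.Partrec (Code)

def cod (a t q : ℕ) : ℕ := Nat.pair a (Nat.pair t q)

/-- the state: the list of the events, the list of the elements put in -/
abbrev St : Type := List ℕ × List ℕ

/-- the data of one level: label, start, elements, bound -/
abbrev Ce : Type := ℕ × ℕ × List ℕ × ℕ

/-- the last stage with an event at most `k` -/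
def last (l : List ℕ) (k : ℕ) : ℕ := l.length - l.reverse.findIdx (fun v => decide (v ≤ k))

/-- the label of a string -/
def lb (σ : List Bool) : ℕ := σ.findIdx (fun b => b)

def rst (σ : List Bool) : List Bool := σ.drop (lb σ + 1)

/-- the components of a string -/
def pt (b : Bool) (σ : List Bool) : List Bool :=
  (List.range ((rst σ).length / 2)).map (fun i => (rst σ).getD (2 * i + b.toNat) false)

def ce (E : ℕ → List Bool → St) (m : ℕ) (σ τ : List Bool) : Ce :=
  (lb σ, last (E m τ).1 (lb σ), (E m τ).2, last (E m τ).1 (lb σ + 1))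

def stp (E : ℕ → List Bool → St) (x : ℕ × List Bool × List Ce) (b : Bool) :
    ℕ × List Bool × List Ce :=
  (x.1 - 1, pt b x.2.1, x.2.2 ++ [ce E (x.1 - 1) x.2.1 (pt b x.2.1)])

/-- the chain of a member -/
def CH (E : ℕ → List Bool → St) (m : ℕ) (σ : List Bool) (c : List Bool) :
    ℕ × List Bool × List Ce := c.foldl (stp E) (m, σ, [])

/-- the address -/
def ad (P : List Ce) (x : ℕ) : ℕ := P.foldl (fun x e => cod (e.1 + 1) e.2.1 x) x

/-- the predicted elements -/
def vp (P : List Ce) (L : List ℕ) : List ℕ :=
  P.foldl (fun L e => e.2.2.1 ++ L.map (cod (e.1 + 1) e.2.1)) L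

/-- the bound -/
def vb (P : List Ce) (n : ℕ) : ℕ := P.foldl (fun v e => min v e.2.2.2) n

def lbs (P : List Ce) : List ℕ := P.map (fun e => e.1)

/-- the witness -/
def xw (m j : ℕ) (P : List Ce) : ℕ := Nat.pair m (Nat.pair j (Nat.pair (encode (lbs P)) (ad P 0)))

/-- the set enumerated by a string (leaves) -/
def en (τ : List Bool) : List ℕ :=
  (List.range τ.length).flatMap (fun i => if τ.getD i false = true then [i.unpair.1] else [])

def bits (m j : ℕ) : List Bool := (List.range m).map (fun i => j.testBit i)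

/-- there is a computation with use at most `B` -/
def bel (n m x : ℕ) (w : List Bool) (V : List ℕ) (B : ℕ) : Prop :=
  ∃ u < B + 1, hlt n m x (pre (jn (ext w) V) u) = true

section

variable (F : ℕ → ℕ → List Bool → List Bool) (E : ℕ → List Bool → St)

def belj (m j : ℕ) (σ : List Bool) (B : ℕ) : Prop :=
  bel σ.length m (xw m j (CH E m σ (bits m j)).2.2) (CH E m σ (bits m j)).2.1
    (vp (CH E m σ (bits m j)).2.2 (E m σ).2) B

def vbj (m j : ℕ) (σ : List Bool) : ℕ :=
  vb (CH E m σ (bits m j)).2.2 (CH E m σ (bits m j)).2.1.length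

/-- the requirement `R` for the member `j` needs attention -/
def RA (m : ℕ) (σ : List Bool) (j : ℕ) : Prop :=
  belj E m j σ (vbj E m j σ) ∧ ¬ belj E m j σ (min (last (E m σ).1 0) (vbj E m j σ))

/-- `y` is in the complement of the set of the member `j`, according to the `m`-th program -/
def hit (m : ℕ) (σ : List Bool) (j y : ℕ) : Prop :=
  En (CH E m σ (bits m j)).2.1.length m (ad (CH E m σ (bits m j)).2.2 y)
    (ext (CH E m σ (bits m j)).2.1)

/-- `z` is a candidate for the requirement `N` for the member `j` -/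
def NC (m : ℕ) (σ : List Bool) (j z : ℕ) : Prop :=
  last (E m σ).1 0 < z ∧ hit E m σ j (cod 0 0 z) ∧
    ∀ y ∈ (E m σ).2, y.unpair.1 = 0 → ¬ hit E m σ j y

def ats (m : ℕ) (σ : List Bool) : Prop := ∃ j < 2 ^ m, RA E m σ j

open Classical in
noncomputable def nz (m : ℕ) (σ : List Bool) : ℕ :=
  (List.range σ.length).findIdx (fun z => decide (∃ j < 2 ^ m, NC E m σ j z))

open Classical in
noncomputable def own (m : ℕ) (σ : List Bool) : List ℕ :=
  if ats E m σ then [] else if nz E m σ < σ.length then [cod 0 0 (nz E m σ)] else []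

def vis (m : ℕ) (σ : List Bool) : ℕ :=
  (List.range σ.length).findIdx
    (fun k => decide ((F m k σ.dropLast).length < (F m k σ).length)) + 1

open Classical in
noncomputable def evn (m : ℕ) (σ : List Bool) : ℕ :=
  if ats E m σ.dropLast then 0 else if nz E m σ.dropLast < σ.dropLast.length then 0 else
    vis F m σ

noncomputable def evs (m : ℕ) (σ : List Bool) : List ℕ := (E m σ.dropLast).1 ++ [evn F E m σ]

/-- the number of the leaves of the level `m` -/
def LL (m : ℕ) : ℕ := m * 2 ^ m

/-- the contents of a column -/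
def GG (E : ℕ → List Bool → St) (m k : ℕ) (τ : List Bool) : List ℕ :=
  if k < LL m then en τ else (E (m + 1) τ).2

noncomputable def cols (m : ℕ) (σ : List Bool) (k : ℕ) : List ℕ :=
  (GG E m k (F m k σ)).map (cod (k + 1) (last (evs F E m σ) k))

open Classical in
noncomputable def bod (m : ℕ) (σ : List Bool) : St :=
  if σ = [] then ([], []) else
    (evs F E m σ, (E m σ.dropLast).2 ++ own E m σ.dropLast ++
      (List.range σ.length).flatMap (cols F E m σ))

end

noncomputable def SS (F : ℕ → ℕ → List Bool → List Bool) : ℕ → ℕ → List Bool → St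
  | 0 => fun _ _ => ([], [])
  | n + 1 => bod F (SS F n)

/-- the state at a string -/
noncomputable def S (F : ℕ → ℕ → List Bool → List Bool) (m : ℕ) (σ : List Bool) : St :=
  SS F σ.length m σ

/-! Congruence. -/

theorem lb_le (σ : List Bool) : lb σ ≤ σ.length := List.findIdx_le_length

theorem length_rst (σ : List Bool) : (rst σ).length = σ.length - (lb σ + 1) := by
  unfold rst
  rw [List.length_drop]

theorem length_pt (b : Bool) (σ : List Bool) : (pt b σ).length = (σ.length - (lb σ + 1)) / 2 := by
  unfold pt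
  rw [List.length_map, List.length_range, length_rst]

theorem length_pt_le (b : Bool) (σ : List Bool) : (pt b σ).length ≤ σ.length := by
  rw [length_pt]
  omega

variable {F : ℕ → ℕ → List Bool → List Bool} {E E' : ℕ → List Bool → St}

/-- agreement on short strings -/
def Agr (E E' : ℕ → List Bool → St) (N M : ℕ) : Prop :=
  ∀ m τ, τ.length < N → m + τ.length ≤ M → E m τ = E' m τ

theorem CH_congr {N M : ℕ} (h : Agr E E' N M) (c : List Bool) : ∀ (m : ℕ) (σ : List Bool)
    (P : List Ce), σ.length < N → m + σ.length ≤ M →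
    c.foldl (stp E) (m, σ, P) = c.foldl (stp E') (m, σ, P) := by
  induction c with
  | nil => intros; rfl
  | cons b c ih =>
    intro m σ P h1 h2
    have h3 := length_pt_le b σ
    rw [List.foldl_cons, List.foldl_cons]
    have h4 : stp E (m, σ, P) b = stp E' (m, σ, P) b := by
      unfold stp ce
      simp only
      rw [h (m - 1) (pt b σ) (by omega) (by omega)]
    rw [h4]
    exact ih _ _ _ (by simp only; omega) (by simp only; omega)

theorem RA_congr {N M : ℕ} (h : Agr E E' N M) {m : ℕ} {σ : List Bool} (h1 : σ.length < N)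
    (h2 : m + σ.length ≤ M) (j : ℕ) : RA E m σ j ↔ RA E' m σ j := by
  unfold RA belj vbj CH
  rw [CH_congr h _ m σ [] h1 h2, h m σ h1 h2]

theorem NC_congr {N M : ℕ} (h : Agr E E' N M) {m : ℕ} {σ : List Bool} (h1 : σ.length < N)
    (h2 : m + σ.length ≤ M) (j z : ℕ) : NC E m σ j z ↔ NC E' m σ j z := by
  unfold NC hit CH
  rw [CH_congr h _ m σ [] h1 h2, h m σ h1 h2]

theorem ats_congr {N M : ℕ} (h : Agr E E' N M) {m : ℕ} {σ : List Bool} (h1 : σ.length < N)
    (h2 : m + σ.length ≤ M) : ats E m σ ↔ ats E' m σ :=
  exists_congr fun j => and_congr_right fun _ => RA_congr h h1 h2 j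

theorem nz_congr {N M : ℕ} (h : Agr E E' N M) {m : ℕ} {σ : List Bool} (h1 : σ.length < N)
    (h2 : m + σ.length ≤ M) : nz E m σ = nz E' m σ := by
  unfold nz
  congr 1
  funext z
  congr 1
  exact propext (exists_congr fun j => and_congr_right fun _ => NC_congr h h1 h2 j z)

theorem own_congr {N M : ℕ} (h : Agr E E' N M) {m : ℕ} {σ : List Bool} (h1 : σ.length < N)
    (h2 : m + σ.length ≤ M) : own E m σ = own E' m σ := by
  unfold own
  rw [nz_congr h h1 h2]
  by_cases ha : ats E' m σ
  · rw [if_pos ha, if_pos ((ats_congr h h1 h2).2 ha)]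
  · rw [if_neg ha, if_neg fun hc => ha ((ats_congr h h1 h2).1 hc)]

/-- the length condition for the functionals -/
def Sho (F : ℕ → ℕ → List Bool → List Bool) : Prop :=
  ∀ m k σ, σ ≠ [] → (F m k σ).length < σ.length

theorem bod_congr (hF : Sho F) {m : ℕ} {σ : List Bool} (h : Agr E E' σ.length (m + σ.length)) :
    bod F E m σ = bod F E' m σ := by
  unfold bod
  by_cases hs : σ = []
  · rw [if_pos hs, if_pos hs]
  · rw [if_neg hs, if_neg hs]
    have hp := List.length_pos_of_ne_nil hs
    have h1 : σ.dropLast.length < σ.length := by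
      rw [List.length_dropLast]
      omega
    have h2 : m + σ.dropLast.length ≤ m + σ.length := by omega
    have h3 : evs F E m σ = evs F E' m σ := by
      unfold evs evn
      rw [h _ _ h1 h2, nz_congr h h1 h2]
      by_cases ha : ats E' m σ.dropLast
      · rw [if_pos ha, if_pos ((ats_congr h h1 h2).2 ha)]
      · rw [if_neg ha, if_neg fun hc => ha ((ats_congr h h1 h2).1 hc)]
    have h4 : ∀ k, cols F E m σ k = cols F E' m σ k := by
      intro k
      unfold cols GG
      have := hF m k σ hs
      rw [h3, h (m + 1) (F m k σ) this (by omega)]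
    rw [h3, h _ _ h1 h2, own_congr h h1 h2]
    congr 3
    funext k
    exact h4 k

theorem SS_eq (hF : Sho F) : ∀ (L n n' m : ℕ) (σ : List Bool), σ.length ≤ L → σ.length ≤ n →
    σ.length ≤ n' → SS F n m σ = SS F n' m σ := by
  intro L
  induction L with
  | zero =>
    intro n n' m σ h0 _ _
    have : σ = [] := List.length_eq_zero_iff.1 (by omega)
    subst this
    have : ∀ n, SS F n m [] = ([], []) := by
      intro n
      cases n with
      | zero => rfl
      | succ n =>
        show bod F (SS F n) m [] = _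
        unfold bod
        rw [if_pos rfl]
    rw [this, this]
  | succ L ih =>
    intro n n' m σ h0 h1 h2
    by_cases hs : σ.length ≤ L
    · exact ih n n' m σ hs h1 h2
    · obtain ⟨a, rfl⟩ : ∃ a, n = a + 1 := ⟨n - 1, by omega⟩
      obtain ⟨b, rfl⟩ : ∃ b, n' = b + 1 := ⟨n' - 1, by omega⟩
      exact bod_congr hF fun m' τ h3 _ => ih a b m' τ (by omega) (by omega) (by omega)

theorem S_eq (hF : Sho F) (m : ℕ) (σ : List Bool) : S F m σ = bod F (S F) m σ := by
  unfold S
  rw [SS_eq hF σ.length σ.length (σ.length + 1) m σ le_rfl le_rfl (by omega)]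
  exact bod_congr hF fun m' τ h3 _ => SS_eq hF τ.length _ _ m' τ le_rfl (by omega) le_rfl

end Pool.Agent.H649.NL
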