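import Pool.Agent.H649.NL.Pln

set_option autoImplicit false

/-!
Generic sequences.
-/

namespace Pool.Agent.H649.NL

open Encodable Pool.Agent.Helper227 Pool.Agent.H548R2.Post
open Nat.Partrec (Code)
open Pool.Agent.TH769.TP (FF Mon Lim lab Via via_iff lim_FF mon_FF lim_exists pre_lab lab_le le_lab)
open Pool.Agent.TH769.CD (bdd_lt)
open Pool.Agent.H649.PT (TEq)

variable {F : ℕ → ℕ → List Bool → List Bool} {m c : ℕ} {p : Pl} {Z Z' X : ℕ → Bool}

namespace GnrL

/-- the extension of a string by zeros -/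
def ex0 (σ : List Bool) : ℕ → Bool := fun i => σ.getD i false

theorem pre_ex0 (σ : List Bool) : pre (ex0 σ) σ.length = σ := by
  apply List.ext_getElem
  · rw [length_pre]
  · intro i h1 h2
    rw [getElem_pre]
    unfold ex0
    rw [List.getD_eq_getElem _ _ h2]

/-- the cylinder of a string -/
def cy (σ : List Bool) : Set (ℕ → Bool) := {X | pre X σ.length = σ}

theorem isOpen_cy (σ : List Bool) : IsOpen (cy σ) := by
  have : cy σ = ⋂ i : _root_.Fin σ.length, {X : ℕ → Bool | X i = σ[i]} := by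
    ext X
    constructor
    · intro h
      have h' : pre X σ.length = σ := h
      refine Set.mem_iInter.2 fun i => ?_
      show X i = σ[i]
      have h1 : (i : ℕ) < (pre X σ.length).length := by
        rw [length_pre]
        exact i.2
      have h2 := getElem_pre X σ.length i h1
      rw [← h2]
      exact getElem_congr_coll h'
    · intro h
      have h' := Set.mem_iInter.1 h
      show pre X σ.length = σ
      apply List.ext_getElem
      · rw [length_pre]
      · intro i h1 h2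
        rw [getElem_pre]
        exact h' ⟨i, h2⟩
  rw [this]
  refine isOpen_iInter_of_finite fun i => ?_
  exact (isOpen_discrete ({σ[i]} : Set Bool)).preimage
    (continuous_apply (A := fun _ : ℕ => Bool) (i : ℕ))

theorem pre_congr {X Y : ℕ → Bool} {n : ℕ} (h : pre X n = pre Y n) {i : ℕ} (hi : i < n) :
    X i = Y i := by
  have h1 := pre_getD X n i false hi
  have h2 := pre_getD Y n i false hi
  rw [← h1, ← h2, h]

/-- every nonempty open set contains a cylinder -/
theorem exists_cy {U : Set (ℕ → Bool)} (hU : IsOpen U) {X : ℕ → Bool} (hX : X ∈ U) :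
    ∃ n, cy (pre X n) ⊆ U := by
  rw [isOpen_pi_iff] at hU
  obtain ⟨I, u, h1, h2⟩ := hU X hX
  refine ⟨I.sup id + 1, fun Y hY => h2 fun i hi => ?_⟩
  have hY' : pre Y (pre X (I.sup id + 1)).length = pre X (I.sup id + 1) := hY
  rw [length_pre] at hY'
  have h5 : i < I.sup id + 1 := Nat.lt_succ_of_le (Finset.le_sup (f := id) hi)
  rw [pre_congr hY' h5]
  exact (h1 i hi).2

theorem nowhereDense_of {S : Set (ℕ → Bool)}
    (h : ∀ σ : List Bool, ∃ τ, σ <+: τ ∧ ∀ A, pre A τ.length = τ → A ∉ S) : IsNowhereDense S := by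
  unfold IsNowhereDense
  rw [Set.eq_empty_iff_forall_notMem]
  intro X hX
  obtain ⟨n, hn⟩ := exists_cy isOpen_interior hX
  obtain ⟨τ, h3, h4⟩ := h (pre X n)
  have hA : ex0 τ ∈ cy (pre X n) := by
    show pre (ex0 τ) (pre X n).length = pre X n
    have h5 : pre X n <+: pre (ex0 τ) τ.length := by rw [pre_ex0]; exact h3
    exact (pre_eq_of_prefix h5).symm
  have h6 : ex0 τ ∈ closure S := interior_subset (hn hA)
  rw [mem_closure_iff] at h6
  obtain ⟨Y, hY1, hY2⟩ := h6 (cy τ) (isOpen_cy τ) (pre_ex0 τ)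
  exact h4 Y hY1 hY2

end GnrL

theorem meagre_gen {C : Set (Set (List Bool))} (hC : C.Countable) :
    IsMeagre {X : ℕ → Bool | ¬ Gen C X} := by
  have hC' : Countable C := hC.to_subtype
  have h1 : {X : ℕ → Bool | ¬ Gen C X} = ⋃ Q : C, {X | ¬ ((∃ s, pre X s ∈ (Q : Set (List Bool))) ∨
      ∃ s, ∀ τ, pre X s <+: τ → τ ∉ (Q : Set (List Bool)))} := by
    ext X
    constructor
    · intro h
      have h' : ¬ ∀ Q ∈ C, (∃ s, pre X s ∈ Q) ∨ ∃ s, ∀ τ, pre X s <+: τ → τ ∉ Q := h
      push Not at h'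
      obtain ⟨Q, hQ, h2⟩ := h'
      refine Set.mem_iUnion.2 ⟨⟨Q, hQ⟩, ?_⟩
      rintro (⟨s, h3⟩ | ⟨s, h3⟩)
      · exact h2.1 s h3
      · obtain ⟨τ, h4, h5⟩ := h2.2 s
        exact h3 τ h4 h5
    · intro h
      obtain ⟨Q, hQ⟩ := Set.mem_iUnion.1 h
      intro hG
      exact hQ (hG Q Q.2)
  rw [h1]
  refine isMeagre_iUnion fun Q => IsNowhereDense.isMeagre (GnrL.nowhereDense_of fun σ => ?_)
  by_cases hσ : ∃ τ, σ <+: τ ∧ τ ∈ (Q : Set (List Bool))
  · obtain ⟨τ, h2, h3⟩ := hσ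
    refine ⟨τ, h2, fun A hA h4 => h4 (Or.inl ⟨τ.length, ?_⟩)⟩
    rw [hA]
    exact h3
  · push Not at hσ
    refine ⟨σ, List.prefix_refl _, fun A hA h4 => h4 (Or.inr ⟨σ.length, ?_⟩)⟩
    rw [hA]
    exact hσ

theorem exists_gen {C : Set (Set (List Bool))} (hC : C.Countable) (σ : List Bool) :
    ∃ X : ℕ → Bool, pre X σ.length = σ ∧ Gen C X := by
  have h1 : {X : ℕ → Bool | Gen C X} ∈ residual (ℕ → Bool) := by
    have h2 := meagre_gen hC
    unfold IsMeagre at h2
    have h3 : {X : ℕ → Bool | ¬ Gen C X}ᶜ = {X : ℕ → Bool | Gen C X} := by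
      ext X
      simp
    rwa [h3] at h2
  obtain ⟨X, hX1, hX2⟩ := (dense_of_mem_residual h1).exists_mem_open (GnrL.isOpen_cy σ)
    ⟨GnrL.ex0 σ, GnrL.pre_ex0 σ⟩
  exact ⟨X, hX2, hX1⟩

theorem exists_gen' {C : Set (Set (List Bool))} (hC : C.Countable) {N : Set (ℕ → Bool)}
    (hN : IsMeagre N) (σ : List Bool) :
    ∃ X : ℕ → Bool, pre X σ.length = σ ∧ Gen C X ∧ X ∉ N := by
  have h1 : {X : ℕ → Bool | Gen C X ∧ X ∉ N} ∈ residual (ℕ → Bool) := by
    have h2 := (meagre_gen hC).union hN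
    unfold IsMeagre at h2
    have h3 : ({X : ℕ → Bool | ¬ Gen C X} ∪ N)ᶜ = {X : ℕ → Bool | Gen C X ∧ X ∉ N} := by
      ext X
      simp
    rwa [h3] at h2
  obtain ⟨X, hX1, hX2⟩ := (dense_of_mem_residual h1).exists_mem_open (GnrL.isOpen_cy σ)
    ⟨GnrL.ex0 σ, GnrL.pre_ex0 σ⟩
  exact ⟨X, hX2, hX1.1, hX1.2⟩

theorem countable_Fam : (Fam F).Countable := by
  unfold Fam
  exact (((Set.countable_range _).union (Set.countable_range _)).union
    (Set.countable_range _)).union (Set.countable_range _)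

end Pool.Agent.H649.NL
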