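import Pool.Agent.H649.NL.Pts
import Pool.Agent.H649.NL.Gnr

set_option autoImplicit false

/-!
Existence of right plans.
-/

namespace Pool.Agent.H649.NL

open Encodable Pool.Agent.Helper227 Pool.Agent.H548R2.Post
open Nat.Partrec (Code)
open Pool.Agent.TH769.TP (FF Mon Lim lab Via via_iff lim_FF mon_FF lim_exists pre_lab lab_le le_lab)
open Pool.Agent.TH769.CD (bdd_lt)
open Pool.Agent.H649.PT (TEq)

variable {F : ℕ → ℕ → List Bool → List Bool} {LF : (ℕ × ℕ × ℕ × Bool) × List Bool → Prop}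
  {m c : ℕ} {p : Pl} {Z Z' X : ℕ → Bool}

theorem pl_encode (p : Pl) : pl (encode p) = p := by
  unfold pl
  rw [encodek]
  rfl

theorem ini_of_prefix {α u : List Bool} (h : α <+: u) : ini α u :=
  (List.prefix_iff_eq_take.1 h).symm

theorem prefix_of_ini {α u : List Bool} (h : ini α u) : α <+: u :=
  List.prefix_iff_eq_take.2 h.symm

/-- the plans with a variable first string -/
def mk (t : ℕ) (bl bl' α β c1 c2 : List Bool) (N : ℕ) (ρ : List Bool) : Pl :=
  (t, (ρ, bl, bl'), (α, β, c1, c2), N)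

theorem Rel_mk {t : ℕ} {bl bl' α β c1 c2 : List Bool} {N : ℕ} {ρ ρ' : List Bool}
    {x y A B : ℕ → Bool} (h : Rel F m c (mk t bl bl' α β c1 c2 N ρ) x y A B) :
    Rel F m c (mk t bl bl' α β c1 c2 N ρ') x y A B :=
  ⟨h.ixy, h.jyx, h.kA, h.kB, h.bdx, h.bdy, h.eq1, h.mrg⟩

theorem cmp_anti {n n' : ℕ} (h : n ≤ n') {u v : List Bool} (h1 : cmp n' u v) : cmp n u v := by
  refine ⟨h.trans h1.1, h.trans h1.2.1, ?_⟩
  have h2 := congrArg (List.take n) h1.2.2
  rwa [List.take_take, List.take_take, min_eq_left h] at h2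

theorem le_encode_mk (t : ℕ) (bl bl' α β c1 c2 : List Bool) (N : ℕ) (ρ : List Bool) :
    N ≤ encode (mk t bl bl' α β c1 c2 N ρ) := by
  unfold mk
  rw [Encodable.encode_prod_val, Encodable.encode_prod_val, Encodable.encode_prod_val]
  refine le_trans ?_ (Nat.right_le_pair _ _)
  refine le_trans ?_ (Nat.right_le_pair _ _)
  exact Nat.right_le_pair _ _

theorem J_mk {t : ℕ} {bl bl' α β c1 c2 : List Bool} {N N' : ℕ} (hN : N ≤ N') {ρ : List Bool}
    {n : ℕ} {x y a b : List Bool} (h : J F m c (mk t bl bl' α β c1 c2 N ρ) n x y a b) :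
    J F m c (mk t bl bl' α β c1 c2 N' ρ) n x y a b :=
  ⟨h.1, ⟨BT_mono hN h.2.1.1, BT_mono hN h.2.1.2⟩, h.2.2⟩

/-- right plans with large numbers -/
theorem big_plan {t : ℕ} {bl bl' α β c1 c2 : List Bool} {N : ℕ} {ρ : List Bool}
    (h : PP F m c (mk t bl bl' α β c1 c2 N ρ)) : ∃ π, LL m ≤ π ∧ PP F m c (pl π) := by
  refine ⟨encode (mk t bl bl' α β c1 c2 (max N (LL m)) ρ),
    (le_max_right _ _).trans (le_encode_mk _ _ _ _ _ _ _ _ _), ?_⟩
  rw [pl_encode]
  intro τ n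
  obtain ⟨h1, h2⟩ := h τ n
  refine ⟨h1, ?_⟩
  rcases h2 with ⟨h2, h3⟩ | ⟨h2, h3, h4⟩
  · exact Or.inl ⟨h2, fun h5 h6 => h3 h5 (cmp_anti (le_max_left N (LL m)) h6)⟩
  · refine Or.inr ⟨h2, h3, fun h5 => ?_⟩
    obtain ⟨τ', h6, h7⟩ := h4 h5
    exact ⟨τ', h6, J_mk (le_max_left N (LL m)) h7⟩

theorem plan_of_rel (hS : Sol F LF) {t : ℕ} {bl bl' α β c1 c2 : List Bool} {N : ℕ}
    {X Y A B : ℕ → Bool} (hX0 : pre X (tk m).1.length = (tk m).1) (hG : Gen (Fam F) X)
    (ht : t = 1 ∨ t = 2) (hs : shp m (mk t bl bl' α β c1 c2 N []))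
    (hr : Rel F m (cc F m) (mk t bl bl' α β c1 c2 N []) X Y A B) :
    ∃ π, LL m ≤ π ∧ PP F m (cc F m) (pl π) := by
  set c := cc F m with hc
  have hJ : ∀ n, ∃ s0, ∀ s ≥ s0, JX F m c (mk t bl bl' α β c1 c2 N []) n (pre X s) := by
    intro n
    exact J_of_rel hS.fnl (hx := fun τ => τ) (hy := FF (ti m)) (ha := KK F (kls c bl))
      (hb := fun τ => KK F (kls c bl') (FF (ti m) τ)) (Lim.id X) hr.ixy hr.kA
      (Lim.comp hr.ixy hr.kB) hr n
  have hQ : {τ | ∃ n, ∀ τ', τ <+: τ' →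
      ¬ JX F m (cc F m) (pl (encode (mk t bl bl' α β c1 c2 N []))) n τ'} ∈ Fam F :=
    Or.inl (Or.inl (Or.inr ⟨(m, encode (mk t bl bl' α β c1 c2 N [])), rfl⟩))
  rcases hG _ hQ with ⟨s, n, hn⟩ | ⟨s, hs'⟩
  · exfalso
    obtain ⟨s0, h0⟩ := hJ n
    rw [pl_encode] at hn
    exact hn (pre X (max s s0)) (pre_prefix X (le_max_left _ _)) (h0 _ (le_max_right _ _))
  · refine big_plan (t := t) (bl := bl) (bl' := bl') (α := α) (β := β) (c1 := c1) (c2 := c2)
      (N := N) (ρ := pre X (max s (tk m).1.length)) ?_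
    intro τ n
    refine ⟨?_, Or.inr ⟨ht, hs, fun h => ?_⟩⟩
    · apply ini_of_prefix
      have h1 := pre_prefix X (le_max_right s (tk m).1.length)
      rw [hX0] at h1
      exact h1
    · have h1 : pre X s <+: τ := (pre_prefix X (le_max_left _ _)).trans (prefix_of_ini h)
      have h2 := hs' τ h1
      rw [Set.mem_setOf_eq, pl_encode] at h2
      push Not at h2
      obtain ⟨τ', h3, h4⟩ := h2 n
      exact ⟨τ', ini_of_prefix h3, h4⟩

theorem exists_plan (hS : Sol F LF) (hP : HP F m) (hN : NLm F m) :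
    ∃ π, LL m ≤ π ∧ PP F m (cc F m) (pl π) := by
  obtain ⟨X, hX0, hG, hXN⟩ := exists_gen' (countable_Fam (F := F)) hN (tk m).1
  have hXn : ∀ Y, TEq Y X → ∀ bl Z, bl.length ≤ m → Jb F bl Y Z →
      ∀ k < LL bl.length, ¬ Tr F bl.length k Z := by
    by_contra hc
    exact hXN hc
  by_cases hc : ∃ N, ∀ s, ¬ cmp N (FF (tj m) (FF (ti m) (pre X s))) (pre X s)
  · obtain ⟨N, hN⟩ := hc
    have hQ : {τ | cmp N (FF (tj m) (FF (ti m) τ)) τ} ∈ Fam F :=
      Or.inl (Or.inl (Or.inl ⟨(m, N), rfl⟩))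
    rcases hG _ hQ with ⟨s, hs⟩ | ⟨s, hs⟩
    · exact absurd hs (hN s)
    · refine big_plan (t := 0) (bl := []) (bl' := []) (α := []) (β := []) (c1 := []) (c2 := [])
        (N := N) (ρ := pre X (max s (tk m).1.length)) ?_
      intro τ n
      refine ⟨?_, Or.inl ⟨rfl, fun h => ?_⟩⟩
      · apply ini_of_prefix
        have h1 := pre_prefix X (le_max_right s (tk m).1.length)
        rw [hX0] at h1
        exact h1
      · exact hs τ ((pre_prefix X (le_max_left _ _)).trans (prefix_of_ini h))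
  · push Not at hc
    have hu : ∀ N, ∃ s, N ≤ (FF (ti m) (pre X s)).length := by
      intro N
      obtain ⟨s, h1, -, -⟩ := hc N
      exact ⟨s, h1.trans (mon_FF.short _)⟩
    obtain ⟨Y, hY⟩ := lim_exists mon_FF.mono hu
    have hYX : Lim (FF (tj m)) Y X := by
      apply lim_of_cmp mon_FF.mono
      intro n
      obtain ⟨s, h1⟩ := hc n
      obtain ⟨r, hr⟩ := hY.ok s
      rw [hr] at h1
      exact ⟨r, s, h1⟩
    have hYn := hXn Y ⟨hY.le (Pool.Agent.TH769.TP.pf_FF _), hYX.le (Pool.Agent.TH769.TP.pf_FF _)⟩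
    have hXn' := hXn X ⟨TuringReducible.refl _, TuringReducible.refl _⟩
    obtain ⟨bl, A, hbl, hA⟩ := exists_Jb hS hP X fun bl Z hb => hXn' bl Z hb.le
    obtain ⟨bl', B, hbl', hB⟩ := exists_Jb hS hP Y fun bl Z hb => hYn bl Z hb.le
    have kA := KK_of_Jb bl hA
    have kB := KK_of_Jb bl' hB
    obtain ⟨N1, hN1⟩ := BT_of_Jb hS.fnl hA (hXn' bl A hbl.le hA)
    obtain ⟨N2, hN2⟩ := BT_of_Jb hS.fnl hB (hYn bl' B hbl'.le hB)
    rw [hbl] at kA hN1
    rw [hbl'] at kB hN2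
    have b1 : ∀ s, BT F (max N1 N2) (cc F m) bl (pre X s) := fun s =>
      BT_mono (le_max_left _ _) (hN1 s)
    have b2 : ∀ s, BT F (max N1 N2) (cc F m) bl' (pre Y s) := fun s =>
      BT_mono (le_max_right _ _) (hN2 s)
    by_cases hAB : A = B
    · refine plan_of_rel hS (t := 1) (bl := bl) (bl' := bl') (α := []) (β := []) (c1 := [])
        (c2 := []) (N := max N1 N2) (Y := Y) (A := A) (B := B) hX0 hG (Or.inl rfl) ?_ ?_
      · exact ⟨hbl, hbl', fun h => absurd h (by show (1 : ℕ) ≠ 2; decide)⟩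
      · exact ⟨hY, hYX, kA, kB, b1, b2, fun _ => hAB,
          fun h => absurd h (by show (1 : ℕ) ≠ 2; decide)⟩
    · obtain ⟨n, hn⟩ := Function.ne_iff.1 hAB
      have hP1 : HP F bl.length := by rw [hbl]; exact hP
      have hP2 : HP F bl'.length := by rw [hbl']; exact hP
      obtain ⟨c1, hc1, m1⟩ := mb_of_Jb hS bl hP1 hA
      obtain ⟨c2, hc2, m2⟩ := mb_of_Jb hS bl' hP2 hB
      have hne : ∀ C D : ℕ → Bool, C n ≠ D n → ¬ ini (pre C (n + 1)) (pre D (n + 1)) := by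
        intro C D hCD h
        unfold ini at h
        rw [length_pre, List.take_of_length_le (by rw [length_pre])] at h
        have h1 : (pre D (n + 1))[n]? = (pre C (n + 1))[n]? := by rw [h]
        rw [pre_getElem? _ _ _ (by omega), pre_getElem? _ _ _ (by omega)] at h1
        exact hCD (Option.some.inj h1).symm
      refine plan_of_rel hS (t := 2) (bl := bl) (bl' := bl') (α := pre A (n + 1))
        (β := pre B (n + 1)) (c1 := c1) (c2 := c2) (N := max N1 N2) (Y := Y) (A := A) (B := B)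
        hX0 hG (Or.inr rfl) ?_ ?_
      · exact ⟨hbl, hbl', fun _ => ⟨hc1.trans hbl, hc2.trans hbl', hne A B hn, hne B A hn.symm⟩⟩
      · refine ⟨hY, hYX, kA, kB, b1, b2, fun h => absurd h (by show (2 : ℕ) ≠ 1; decide),
          fun _ => ⟨m1, m2, ?_, ?_⟩⟩
        · show pre A (pre A (n + 1)).length = pre A (n + 1)
          rw [length_pre]
        · show pre B (pre B (n + 1)).length = pre B (n + 1)
          rw [length_pre]

theorem all_HP (hS : Sol F LF) (hN : ∀ m, HP F m → NLm F m) : ∀ m, HP F m := by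
  intro m
  induction m with
  | zero => intro l hl; exact absurd hl (Nat.not_lt_zero l)
  | succ m ih =>
    intro l hl
    rcases Nat.lt_succ_iff_lt_or_eq.1 hl with h | h
    · exact ih l h
    · subst h
      exact Nat.sInf_mem (s := {π | LL l ≤ π ∧ PP F l (cc F l) (pl π)})
        (exists_plan hS ih (hN l ih))

end Pool.Agent.H649.NL
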