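import Pool.Agent.H649.PT.Rnd
import Pool.Agent.H649.PT.Cls
import Pool.Agent.H649.PT.Prm

set_option autoImplicit false

/-!
Random sequences and `Π⁰₂` classes: the null classes are avoided, and the classes of positive
measure contain a tail (a relative version of a lemma of Kučera).
-/

namespace Pool.Agent.H649.NL

open Encodable MeasureTheory Pool.Agent.Helper227 Pool.Agent.H548R2.Post Pool.Agent.H649.PT
open Nat.Partrec (Code)
open scoped ENNReal
open Pool.Agent.TH769.ZA (si_gen pf_sub)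
open Pool.Agent.TH769.CD (bdd_lt pf_add pf_mul pf_div pf_mod pf_pow pf_getD pf_take
  pf_append pf_cons pf_length pf_range pf_natPair pf_unpair pf_encode pf_testBit pf_xorb pf_andb
  pf_hlt pf_xor pp_exlt pp_alllt pp_imp pp_eq pp_le pp_lt pp_mem pf_decide pf_pre pp_En pf_ext
  ext_pre_eq)

attribute [local fun_prop] Primrec
attribute [local fun_prop] Primrec.id Primrec.const Primrec.comp Primrec.pair Primrec.fst Primrec.snd
attribute [local fun_prop] pf_add pf_mul pf_div pf_mod pf_pow pf_getD pf_take pf_append pf_cons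
  pf_length pf_range pf_natPair pf_unpair pf_encode pf_testBit pf_xorb pf_andb pf_hlt pf_xor
  pf_sub

namespace KucL

/-- the tail of a sequence -/
def tl (i : ℕ) (Z : ℕ → Bool) : ℕ → Bool := fun n => Z (n + i)

/-- sets of sequences starting with `ρ` followed by `n` members of `D` -/
def VS (D : Set (List Bool)) : ℕ → List Bool → Set (ℕ → Bool)
  | 0, ρ => cyl ρ
  | n + 1, ρ => ⋃ η : D, VS D n (ρ ++ η.1)

theorem VS_le {D : Set (List Bool)} {r : ℝ≥0∞} (hr : ∑' η : D, (1 / 2 : ℝ≥0∞) ^ η.1.length ≤ r)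
    (n : ℕ) (ρ : List Bool) : lam (VS D n ρ) ≤ r ^ n * (1 / 2) ^ ρ.length := by
  induction n generalizing ρ with
  | zero => simp [VS, lam_cyl]
  | succ n ih =>
    calc lam (VS D (n + 1) ρ) ≤ ∑' η : D, lam (VS D n (ρ ++ η.1)) := measure_iUnion_le _
      _ ≤ ∑' η : D, (r ^ n * (1 / 2) ^ ρ.length) * (1 / 2) ^ η.1.length := by
          refine ENNReal.tsum_le_tsum fun η => (ih _).trans (le_of_eq ?_)
          rw [List.length_append, pow_add, mul_assoc]
      _ = (r ^ n * (1 / 2) ^ ρ.length) * ∑' η : D, (1 / 2) ^ η.1.length := ENNReal.tsum_mul_left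
      _ ≤ (r ^ n * (1 / 2) ^ ρ.length) * r := by gcongr
      _ = r ^ (n + 1) * (1 / 2) ^ ρ.length := by rw [pow_succ]; ring

theorem cyl_sub_VS {D : Set (List Bool)} (L : List (List Bool)) (ρ : List Bool)
    (hL : ∀ η ∈ L, η ∈ D) : cyl (ρ ++ L.flatten) ⊆ VS D L.length ρ := by
  induction L generalizing ρ with
  | nil => simp [VS]
  | cons η L ih =>
    intro X hX
    rw [List.flatten_cons, ← List.append_assoc] at hX
    have h1 := ih (ρ ++ η) (fun η' h => hL η' (List.mem_cons_of_mem _ h)) hX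
    exact Set.mem_iUnion.2 ⟨⟨η, hL η List.mem_cons_self⟩, h1⟩

end KucL

open KucL

/-- Kučera's lemma, relative version -/
theorem kucera_rel {W : ℕ → Bool} {D : List Bool → Prop} (hD : SI W D)
    (hlt : lam {X | ∃ t, D (pre X t)} < 1) {Z : ℕ → Bool} (hZ : MLR W Z) :
    ∃ i, ∀ t, ¬ D (pre (tl i Z) t) := by
  classical
  obtain ⟨E, ⟨q, hq, hm, he⟩, mE, eE⟩ := hD
  -- decidable version
  obtain ⟨p, hp⟩ : ∃ p : List Bool × List Bool → Prop, p = fun x => ∃ t < x.2.length + 1,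
    ∃ s < x.2.length + 1, q (x.1.take s, x.2.take t) x.2.length := ⟨_, rfl⟩
  have pp : PrimrecPred p := by
    rw [hp]
    refine pp_exlt (by fun_prop) (pp_exlt (by fun_prop) ?_)
    exact hq.comp (f := fun y : ((List Bool × List Bool) × ℕ) × ℕ =>
      (y.1.1.1.take y.2, y.1.1.2.take y.1.2))
      (g := fun y : ((List Bool × List Bool) × ℕ) × ℕ => y.1.1.2.length) (by fun_prop)
      (by fun_prop)
  obtain ⟨D1, hD1⟩ : ∃ D1 : List Bool → Prop, D1 = fun η => p (pre W η.length, η) := ⟨_, rfl⟩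
  have hU : ∀ X : ℕ → Bool, (∃ t, D (pre X t)) ↔ ∃ t, D1 (pre X t) := by
    intro X
    rw [hD1, hp]
    constructor
    · rintro ⟨t, ht⟩
      obtain ⟨s, hs⟩ := (eE _).1 ht
      obtain ⟨n, hn⟩ := (he _).1 hs
      refine ⟨t + s + n, t, by simp only [length_pre]; omega, s, by simp only [length_pre]; omega,
        ?_⟩
      simp only [length_pre]
      rw [take_pre _ _ _ (by omega), take_pre _ _ _ (by omega)]
      exact hm _ _ _ (by omega) hn
    · rintro ⟨u, t, ht, s, hs, hn⟩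
      simp only [length_pre] at ht hs hn
      rw [take_pre _ _ _ (by omega), take_pre _ _ _ (by omega)] at hn
      exact ⟨t, (eE _).2 ⟨s, (he _).2 ⟨_, hn⟩⟩⟩
  obtain ⟨Dm, hDm⟩ : ∃ Dm : Set (List Bool), Dm = {η | D1 η ∧ ∀ k < η.length, ¬ D1 (η.take k)} :=
    ⟨_, rfl⟩
  have pDm : SI W fun η : List Bool => η ∈ Dm := by
    have h1 : PrimrecPred fun x : List Bool × List Bool => p (x.2, x.1) ∧
        ∀ k < x.1.length, ¬ p (x.2.take k, x.1.take k) := by
      refine PrimrecPred.and (pp.comp (f := fun x : List Bool × List Bool => (x.2, x.1))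
        (by fun_prop)) (pp_alllt (by fun_prop) (PrimrecPred.not ?_))
      exact pp.comp (f := fun y : (List Bool × List Bool) × ℕ => (y.1.2.take y.2, y.1.1.take y.2))
        (by fun_prop)
    have h2 := (si_gen (X := W) (S1.of_prim h1)).comp (f := fun η : List Bool => (η, η.length))
      (by fun_prop)
    refine h2.of_eq fun η => ?_
    rw [hDm, hD1]
    simp only [Set.mem_ofPred_eq]
    refine and_congr_right fun _ => forall_congr' fun k => forall_congr' fun hk => ?_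
    rw [take_pre _ _ _ hk.le, List.length_take, min_eq_left hk.le]
  have hmem : ∀ X : ℕ → Bool, (∃ t, D (pre X t)) → ∃ t, pre X t ∈ Dm := by
    intro X hX
    have h1 := (hU X).1 hX
    refine ⟨Nat.find h1, ?_⟩
    rw [hDm]
    refine ⟨Nat.find_spec h1, fun k hk => ?_⟩
    rw [length_pre] at hk
    rw [take_pre _ _ _ hk.le]
    exact Nat.find_min h1 hk
  -- the weight of the minimal strings
  obtain ⟨r, hr⟩ : ∃ r, r = lam {X | ∃ t, D (pre X t)} := ⟨_, rfl⟩
  rw [← hr] at hlt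
  have hsum : ∑' η : Dm, (1 / 2 : ℝ≥0∞) ^ η.1.length ≤ r := by
    have hdis : Pairwise (Function.onFun Disjoint fun η : Dm => cyl η.1) := by
      rintro ⟨η, hη⟩ ⟨η', hη'⟩ hne
      rw [hDm] at hη hη'
      change Disjoint (cyl η) (cyl η')
      rw [Set.disjoint_left]
      intro X h1 h2
      rw [mem_cyl_iff] at h1 h2
      apply hne
      apply Subtype.ext
      change η = η'
      rcases lt_trichotomy η.length η'.length with h | h | h
      · exfalso
        refine hη'.2 η.length h ?_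
        rw [← h2, take_pre _ _ _ h.le, h1]
        exact hη.1
      · rw [← h1, ← h2, h]
      · exfalso
        refine hη.2 η'.length h ?_
        rw [← h1, take_pre _ _ _ h.le, h2]
        exact hη'.1
    have h1 : lam (⋃ η : Dm, cyl η.1) = ∑' η : Dm, lam (cyl η.1) :=
      measure_iUnion hdis (fun η => measurableSet_cyl _)
    have h2 : ∑' η : Dm, (1 / 2 : ℝ≥0∞) ^ η.1.length = ∑' η : Dm, lam (cyl η.1) :=
      tsum_congr fun η => (lam_cyl _).symm
    rw [h2, ← h1, hr]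
    refine measure_mono (Set.iUnion_subset ?_)
    rintro ⟨η, hη⟩ X hX
    change X ∈ cyl η at hX
    rw [mem_cyl_iff] at hX
    rw [hDm] at hη
    refine (hU X).2 ⟨η.length, ?_⟩
    rw [hX]
    exact hη.1
  obtain ⟨K, hK⟩ : ∃ K : ℕ, r ^ K < 1 / 2 :=
    ((ENNReal.tendsto_pow_atTop_nhds_zero_of_lt_one hlt).eventually
      (gt_mem_nhds (by simp : (0 : ℝ≥0∞) < 1 / 2))).exists
  -- the test
  have hS : SI W fun x : ℕ × List Bool => ∃ L : List (List Bool),
      (L.length = K * x.1 ∧ L.flatten = x.2) ∧ ∀ η ∈ L, η ∈ Dm := by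
    refine SI.ex (p := fun (x : ℕ × List Bool) (L : List (List Bool)) =>
      (L.length = K * x.1 ∧ L.flatten = x.2) ∧ ∀ η ∈ L, η ∈ Dm) (SI.and (SI.of_prim
        (PrimrecPred.and ?_ ?_)) ?_)
    · exact Primrec.eq.comp (Primrec.list_length.comp Primrec.snd)
        (Primrec.nat_mul.comp (Primrec.const K) (Primrec.fst.comp Primrec.fst))
    · exact Primrec.eq.comp (Primrec.list_flatten.comp Primrec.snd)
        (Primrec.snd.comp Primrec.fst)
    · exact SI.all_mem (α := (ℕ × List Bool) × List (List Bool)) (f := fun x => x.2)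
        (p := fun _ η => η ∈ Dm) (pDm.comp Primrec.snd) Primrec.snd
  obtain ⟨E2, hE2, mE2, eE2⟩ := hS
  have hUE : ∀ n, UE E2 W n = {X | ∃ t, ∃ L : List (List Bool),
      (L.length = K * n ∧ L.flatten = pre X t) ∧ ∀ η ∈ L, η ∈ Dm} := by
    intro n
    ext X
    constructor
    · rintro ⟨s, t, h⟩
      exact ⟨t, (eE2 (n, pre X t)).2 ⟨s, h⟩⟩
    · rintro ⟨t, h⟩
      obtain ⟨s, hs⟩ := (eE2 (n, pre X t)).1 h
      exact ⟨s, t, hs⟩
  have hT : IsMLTest W (UE E2 W) := isMLTest_of_E hE2 fun n => by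
    rw [hUE]
    refine (measure_mono (t := VS Dm (K * n) []) ?_).trans ((VS_le hsum _ _).trans ?_)
    · rintro X ⟨t, L, ⟨h1, h3⟩, h2⟩
      have h5 := cyl_sub_VS L [] h2 (show X ∈ cyl ([] ++ L.flatten) by
        rw [List.nil_append, h3, mem_cyl_iff, length_pre])
      rwa [h1] at h5
    · rw [List.length_nil, pow_zero, mul_one, pow_mul]
      exact pow_le_pow_left' hK.le n
  by_contra hcon
  push Not at hcon
  have hbuild : ∀ k i, ∃ L : List (List Bool), L.length = k ∧ (∀ η ∈ L, η ∈ Dm) ∧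
      pre (tl i Z) L.flatten.length = L.flatten := by
    intro k
    induction k with
    | zero => exact fun i => ⟨[], rfl, by simp, by simp [pre]⟩
    | succ k ih =>
      intro i
      obtain ⟨t, ht⟩ := hmem _ (hcon i)
      obtain ⟨L, h1, h2, h3⟩ := ih (i + t)
      refine ⟨pre (tl i Z) t :: L, by simp [h1], ?_, ?_⟩
      · intro η hη
        rcases List.mem_cons.1 hη with rfl | h
        · exact ht
        · exact h2 η h
      · rw [List.flatten_cons, List.length_append, length_pre]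
        conv_rhs => rw [← h3]
        unfold pre
        rw [List.range_add, List.map_append, List.map_map]
        congr 1
        refine List.map_congr_left fun a _ => ?_
        change Z (t + a + i) = Z (a + (i + t))
        congr 1
        omega
  refine hZ _ hT (Set.mem_iInter.2 fun n => ?_)
  rw [hUE]
  obtain ⟨L, h1, h2, h3⟩ := hbuild (K * n) 0
  exact ⟨L.flatten.length, L, ⟨h1, h3.symm⟩, h2⟩

theorem meas_pre (Q : List Bool → Prop) (s : ℕ) : MeasurableSet {X : ℕ → Bool | Q (pre X s)} := by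
  have h1 : {X : ℕ → Bool | Q (pre X s)} = ⋃ σ : {σ : List Bool // σ.length = s ∧ Q σ}, cyl σ.1 := by
    ext X
    simp only [Set.mem_ofPred_eq, Set.mem_iUnion]
    constructor
    · intro h
      exact ⟨⟨pre X s, by simp, h⟩, mem_cyl_iff.2 (by simp)⟩
    · rintro ⟨⟨σ, h2, h3⟩, h4⟩
      rw [mem_cyl_iff] at h4
      simp only at h4
      rw [h2] at h4
      rw [h4]
      exact h3
  rw [h1]
  exact MeasurableSet.iUnion fun σ => measurableSet_cyl _

variable {θ : ℕ → ℕ → List Bool → Bool}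

/-- the approximations to the `k`-th condition -/
def UN (θ : ℕ → ℕ → List Bool → Bool) (k N : ℕ) : Set (ℕ → Bool) :=
  {X | ∃ s, N < el θ k (pre X s)}

theorem UN_anti {k : ℕ} : Antitone (UN θ k) := by
  rintro a b hab X ⟨s, hs⟩
  exact ⟨s, lt_of_le_of_lt hab hs⟩

theorem UN_meas (k N : ℕ) : MeasurableSet (UN θ k N) := by
  have : UN θ k N = ⋃ s, {X : ℕ → Bool | N < el θ k (pre X s)} := by
    ext X
    simp [UN]
  rw [this]
  exact MeasurableSet.iUnion fun s => meas_pre (fun σ => N < el θ k σ) s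

theorem T_eq (mθ : Mo θ) (k : ℕ) : {X | T θ k X} = ⋂ N, UN θ k N := by
  ext X
  simp only [Set.mem_ofPred_eq, Set.mem_iInter]
  exact T_iff mθ

/-- random sequences avoid the null conditions -/
theorem null_rand (hθ : Pr θ) (mθ : Mo θ) {k : ℕ} (h0 : lam {X | T θ k X} = 0) {A : ℕ → Bool}
    (hA : MLR (jump O) A) : ¬ T θ k A := by
  classical
  intro hT
  have hlim : Filter.Tendsto (fun N => lam (UN θ k N)) Filter.atTop (nhds 0) := by
    have h1 := tendsto_measure_iInter_atTop (μ := lam) (s := UN θ k)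
      (fun N => (UN_meas k N).nullMeasurableSet) UN_anti ⟨0, measure_ne_top _ _⟩
    rwa [← T_eq mθ, h0] at h1
  have hex : ∀ m : ℕ, ∃ N, lam (UN θ k N) ≤ (1 / 2 : ℝ≥0∞) ^ m := by
    intro m
    have h1 : (0 : ℝ≥0∞) < (1 / 2) ^ m := ENNReal.pow_pos (by norm_num) m
    obtain ⟨n, hn⟩ := (hlim.eventually (gt_mem_nhds h1)).exists
    exact ⟨n, hn.le⟩
  have s2 : SI (jump O) fun x : ℕ × ℕ => ¬ (1 / 2 : ℝ≥0∞) ^ x.1 < lam (UN θ k x.2) := by
    have h1 := si_meas (B := O) (δ := ℕ × ℕ) (P := fun x _ α => x.2 < el θ k α)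
      (S1.of_prim (pp_lt (by fun_prop) (pf_el hθ (Primrec.const k) (by fun_prop))))
      (fun _ _ _ _ _ h => h) (m := fun x => x.1) (by fun_prop)
    refine h1.decide_jump.2.of_eq fun x => ?_
    have : {A | ∃ b t, (fun (x : ℕ × ℕ) (_ α : List Bool) => x.2 < el θ k α) x (pre O b) (pre A t)}
        = UN θ k x.2 := by
      ext A
      simp [UN]
    rw [this]
  have s3 : SI (jump O) fun x : ℕ × List Bool => ∃ N, ¬ (1 / 2 : ℝ≥0∞) ^ x.1 < lam (UN θ k N) ∧
      N < el θ k x.2 := by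
    refine SI.ex (p := fun (x : ℕ × List Bool) N => ¬ (1 / 2 : ℝ≥0∞) ^ x.1 < lam (UN θ k N) ∧
      N < el θ k x.2) (SI.and (s2.comp (f := fun x : (ℕ × List Bool) × ℕ => (x.1.1, x.2))
        (by fun_prop)) (SI.of_prim (pp_lt (by fun_prop) (pf_el hθ (Primrec.const k)
          (by fun_prop)))))
  obtain ⟨E, hE, mE, eE⟩ := s3
  have hUE : ∀ m X, X ∈ UE E (jump O) m ↔
      ∃ N, lam (UN θ k N) ≤ (1 / 2 : ℝ≥0∞) ^ m ∧ X ∈ UN θ k N := by
    intro m X
    constructor
    · rintro ⟨s, t, h⟩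
      obtain ⟨N, h1, h2⟩ := (eE (m, pre X t)).2 ⟨s, h⟩
      exact ⟨N, not_lt.1 h1, t, h2⟩
    · rintro ⟨N, h1, t, h2⟩
      obtain ⟨s, h3⟩ := (eE (m, pre X t)).1 ⟨N, not_lt.2 h1, h2⟩
      exact ⟨s, t, h3⟩
  have hm : ∀ m, lam (UE E (jump O) m) ≤ (1 / 2) ^ m := by
    intro m
    refine (measure_mono fun X hX => ?_).trans (Nat.find_spec (hex m))
    obtain ⟨N, h1, h2⟩ := (hUE m X).1 hX
    exact UN_anti (Nat.find_min' (hex m) h1) h2
  refine hA _ (isMLTest_of_E hE hm) (Set.mem_iInter.2 fun m => ?_)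
  obtain ⟨N, hN⟩ := hex m
  exact (hUE m A).2 ⟨N, hN, (T_iff mθ).1 hT N⟩

/-- the part of `UN` which is not in the approximation of the stage `t` -/
def DN (θ : ℕ → ℕ → List Bool → Bool) (k N t : ℕ) : Set (ℕ → Bool) :=
  {X | ∃ s, t ≤ s ∧ N < el θ k (pre X s) ∧ ¬ N < el θ k (pre X t)}

theorem DN_meas (k N t : ℕ) : MeasurableSet (DN θ k N t) := by
  have : DN θ k N t = ⋃ s, {X : ℕ → Bool | (fun σ => t ≤ s ∧ N < el θ k σ ∧
      ¬ N < el θ k (σ.take t)) (pre X s)} := by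
    ext X
    simp only [DN, Set.mem_ofPred_eq, Set.mem_iUnion]
    refine exists_congr fun s => and_congr_right fun h => ?_
    rw [take_pre _ _ _ h]
  rw [this]
  exact MeasurableSet.iUnion fun s => meas_pre (fun σ => t ≤ s ∧ N < el θ k σ ∧
    ¬ N < el θ k (σ.take t)) s

theorem DN_anti (mθ : Mo θ) {k N : ℕ} : Antitone (DN θ k N) := by
  rintro a b hab X ⟨s, h1, h2, h3⟩
  exact ⟨s, hab.trans h1, h2, fun h => h3 (lt_of_lt_of_le h (el_mono' mθ hab))⟩

theorem DN_inter (k N : ℕ) : ⋂ t, DN θ k N t = ∅ := by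
  rw [Set.eq_empty_iff_forall_notMem]
  intro X hX
  obtain ⟨s, -, h2, -⟩ := Set.mem_iInter.1 hX 0
  obtain ⟨s', h3, h4, h5⟩ := Set.mem_iInter.1 hX s
  exact h5 h2

/-- each condition of positive measure holds for a tail of each random sequence -/
theorem pos_rand (hθ : Pr θ) (mθ : Mo θ) {k : ℕ} (h0 : lam {X | T θ k X} ≠ 0) {A : ℕ → Bool}
    (hA : MLR (jump O) A) : ∃ i, T θ k (tl i A) := by
  classical
  obtain ⟨c, hc⟩ : ∃ c : ℕ, (1 / 2 : ℝ≥0∞) ^ c < lam {X | T θ k X} :=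
    ((ENNReal.tendsto_pow_atTop_nhds_zero_of_lt_one (r := (1 / 2 : ℝ≥0∞)) (by
      rw [one_div]
      exact ENNReal.inv_lt_one.2 (by norm_num))).eventually
      (gt_mem_nhds (pos_iff_ne_zero.2 h0))).exists
  have s2 : SI (jump O) fun x : ℕ × ℕ =>
      ¬ (1 / 2 : ℝ≥0∞) ^ (x.1 + 1 + c) < lam (DN θ k x.1 x.2) := by
    have h1 := si_meas (B := O) (δ := ℕ × ℕ) (P := fun x _ α => x.2 ≤ α.length ∧
        x.1 < el θ k α ∧ ¬ x.1 < el θ k (α.take x.2))
      (S1.of_prim (PrimrecPred.and (pp_le (by fun_prop) (by fun_prop)) (PrimrecPred.and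
        (pp_lt (by fun_prop) (pf_el hθ (Primrec.const k) (by fun_prop))) (PrimrecPred.not
        (pp_lt (by fun_prop) (pf_el hθ (Primrec.const k) (by fun_prop)))))))
      (fun _ _ _ _ _ h => h) (m := fun x => x.1 + 1 + c) (by fun_prop)
    refine h1.decide_jump.2.of_eq fun x => ?_
    have : {A | ∃ b t, (fun (x : ℕ × ℕ) (_ α : List Bool) => x.2 ≤ α.length ∧
        x.1 < el θ k α ∧ ¬ x.1 < el θ k (α.take x.2)) x (pre O b) (pre A t)}
        = DN θ k x.1 x.2 := by
      ext A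
      simp only [DN, Set.mem_ofPred_eq, length_pre]
      constructor
      · rintro ⟨-, t, h2, h3, h4⟩
        rw [take_pre _ _ _ h2] at h4
        exact ⟨t, h2, h3, h4⟩
      · rintro ⟨t, h2, h3, h4⟩
        refine ⟨0, t, h2, h3, ?_⟩
        rwa [take_pre _ _ _ h2]
    rw [this]
  have hex : ∀ N : ℕ, ∃ t, lam (DN θ k N t) ≤ (1 / 2 : ℝ≥0∞) ^ (N + 1 + c) := by
    intro N
    have hlim : Filter.Tendsto (fun t => lam (DN θ k N t)) Filter.atTop (nhds 0) := by
      have h1 := tendsto_measure_iInter_atTop (μ := lam) (s := DN θ k N)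
        (fun t => (DN_meas k N t).nullMeasurableSet) (DN_anti mθ) ⟨0, measure_ne_top _ _⟩
      rwa [DN_inter, measure_empty] at h1
    have h1 : (0 : ℝ≥0∞) < (1 / 2) ^ (N + 1 + c) := ENNReal.pow_pos (by norm_num) _
    obtain ⟨n, hn⟩ := (hlim.eventually (gt_mem_nhds h1)).exists
    exact ⟨n, hn.le⟩
  -- the complement of the closed class
  have s3 : SI (jump O) fun σ : List Bool => ∃ x : ℕ × ℕ,
      (¬ (1 / 2 : ℝ≥0∞) ^ (x.1 + 1 + c) < lam (DN θ k x.1 x.2)) ∧
      x.2 ≤ σ.length ∧ ¬ x.1 < el θ k (σ.take x.2) := by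
    refine SI.ex (p := fun (σ : List Bool) (x : ℕ × ℕ) =>
      (¬ (1 / 2 : ℝ≥0∞) ^ (x.1 + 1 + c) < lam (DN θ k x.1 x.2)) ∧
      x.2 ≤ σ.length ∧ ¬ x.1 < el θ k (σ.take x.2)) (SI.and (s2.comp Primrec.snd)
        (SI.of_prim (PrimrecPred.and (pp_le (by fun_prop) (by fun_prop)) (PrimrecPred.not
          (pp_lt (by fun_prop) (pf_el hθ (Primrec.const k) (by fun_prop)))))))
  let tN : ℕ → ℕ := fun N => Nat.find (hex N)
  let Q : Set (ℕ → Bool) := ⋂ N, {X | N < el θ k (pre X (tN N))}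
  have hQm : MeasurableSet Q := MeasurableSet.iInter fun N => meas_pre (fun σ => N < el θ k σ) _
  have hsub : {X | T θ k X} ⊆ Q ∪ ⋃ N, DN θ k N (tN N) := by
    intro X hX
    by_cases hXQ : X ∈ Q
    · exact Or.inl hXQ
    · right
      obtain ⟨N, hN⟩ : ∃ N, ¬ N < el θ k (pre X (tN N)) := by
        by_contra hcon
        push Not at hcon
        exact hXQ (Set.mem_iInter.2 hcon)
      obtain ⟨s, hs⟩ := (T_iff mθ).1 hX N
      refine Set.mem_iUnion.2 ⟨N, max s (tN N), le_max_right _ _,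
        lt_of_lt_of_le hs (el_mono' mθ (le_max_left _ _)), hN⟩
  have hQpos : lam Q ≠ 0 := by
    intro hQ0
    have h1 : lam {X | T θ k X} ≤ ∑' N : ℕ, (1 / 2 : ℝ≥0∞) ^ (N + 1 + c) := by
      refine (measure_mono hsub).trans ((measure_union_le _ _).trans ?_)
      rw [hQ0, zero_add]
      exact (measure_iUnion_le _).trans (ENNReal.tsum_le_tsum fun N => Nat.find_spec (hex N))
    have h2 : ∑' N : ℕ, (1 / 2 : ℝ≥0∞) ^ (N + 1 + c) = (1 / 2) ^ c := by
      have h3 : ∀ N : ℕ, (1 / 2 : ℝ≥0∞) ^ (N + 1 + c) = (1 / 2) ^ c * (1 / 2) ^ (N + 1) := by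
        intro N
        rw [pow_add, mul_comm]
      simp only [h3]
      rw [ENNReal.tsum_mul_left]
      have h4 : ∑' N : ℕ, (1 / 2 : ℝ≥0∞) ^ (N + 1) = 1 := by
        rw [one_div, ENNReal.tsum_geometric_add_one, ENNReal.one_sub_inv_two, inv_inv,
          ENNReal.inv_mul_cancel (by norm_num) (by norm_num)]
      rw [h4, mul_one]
    rw [h2] at h1
    exact absurd hc (not_lt.2 h1)
  have hlt : lam {X | ∃ t, (fun σ : List Bool => ∃ x : ℕ × ℕ,
      (¬ (1 / 2 : ℝ≥0∞) ^ (x.1 + 1 + c) < lam (DN θ k x.1 x.2)) ∧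
      x.2 ≤ σ.length ∧ ¬ x.1 < el θ k (σ.take x.2)) (pre X t)} < 1 := by
    have h1 : {X | ∃ t, (fun σ : List Bool => ∃ x : ℕ × ℕ,
      (¬ (1 / 2 : ℝ≥0∞) ^ (x.1 + 1 + c) < lam (DN θ k x.1 x.2)) ∧
      x.2 ≤ σ.length ∧ ¬ x.1 < el θ k (σ.take x.2)) (pre X t)} ⊆ Qᶜ := by
      rintro X ⟨t, ⟨N, t'⟩, h2, h3, h4⟩ hXQ
      simp only [length_pre] at h2 h3 h4
      rw [take_pre _ _ _ h3] at h4
      have h5 : tN N ≤ t' := Nat.find_min' (hex N) (not_lt.1 h2)
      have h6 := Set.mem_iInter.1 hXQ N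
      exact h4 (lt_of_lt_of_le h6 (el_mono' mθ h5))
    refine lt_of_le_of_lt (measure_mono h1) ?_
    rw [measure_compl hQm (measure_ne_top _ _), measure_univ]
    exact ENNReal.sub_lt_self ENNReal.one_ne_top one_ne_zero hQpos
  obtain ⟨i, hi⟩ := kucera_rel s3 hlt hA
  refine ⟨i, (T_iff mθ).2 fun N => ⟨tN N, ?_⟩⟩
  by_contra hcon
  refine hi (tN N) ⟨(N, tN N), not_lt.2 (Nat.find_spec (hex N)), by simp, ?_⟩
  rw [take_pre _ _ _ le_rfl]
  exact hcon

end Pool.Agent.H649.NL
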