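import Pool.Agent.H649.NL.Two
import Pool.Agent.H649.NL.Kuc
import Pool.Agent.H649.PT.Cor

set_option autoImplicit false

/-!
The extension theorem with the random degrees.
-/

namespace Pool.Agent.H649.NL

open Encodable MeasureTheory Pool.Agent.Helper227 Pool.Agent.H548R2.Post Pool.Agent.H649.PT
open Pool.Agent.TH769.ZA (si_gen)
open Pool.Agent.TH769.CD (pf_add pf_mul pf_div pf_mod pf_pow pf_getD pf_take
  pf_append pf_cons pf_length pf_range pf_natPair pf_unpair pf_encode pf_testBit pf_xorb pf_andb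
  pf_hlt pf_xor pp_exlt pp_alllt pp_imp pp_eq pp_le pp_lt pp_mem pf_decide pf_pre pp_En pf_ext)
open KucL

attribute [local fun_prop] Primrec
attribute [local fun_prop] Primrec.id Primrec.const Primrec.comp Primrec.pair Primrec.fst Primrec.snd
attribute [local fun_prop] pf_add pf_mul pf_div pf_mod pf_pow pf_getD pf_take pf_append pf_cons
  pf_length pf_range pf_natPair pf_unpair pf_encode pf_testBit pf_xorb pf_andb pf_hlt pf_xor

theorem tl_teq (i : ℕ) (Z : ℕ → Bool) : TEq (tl i Z) Z := by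
  have h : Z = cat (pre Z i) (tl i Z) := by
    funext n
    unfold cat tl
    rw [length_pre]
    by_cases hn : n < i
    · rw [if_pos hn, pre_getD _ _ _ _ hn]
    · rw [if_neg hn, Nat.sub_add_cancel (not_lt.1 hn)]
  have h2 := cat_teq (pre Z i) (tl i Z)
  rw [← h] at h2
  exact h2.symm

/-- the class of the 2-random sequences -/
theorem c2_mlr {E : List Bool × ℕ × List Bool → Prop} (hE : S1 E) (v : ℕ) :
    C2 fun (x : ℕ × ℕ) A => x.1 = v ∧ A ∉ UE E (jump O) x.2 := by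
  have h1 : SI (jump O) fun x : (ℕ × ℕ) × List Bool => ∃ s, E (pre (jump O) s, x.1.2, x.2) := by
    refine SI.ex (si_gen (X := jump O)
      (P := fun y : ((ℕ × ℕ) × List Bool) × List Bool => E (y.2, y.1.1.2, y.1.2)) ?_)
    exact hE.comp (f := fun y : ((ℕ × ℕ) × List Bool) × List Bool => (y.2, y.1.1.2, y.1.2))
      (by fun_prop)
  have h3 := C2.not_jump_pre (α := ℕ × ℕ) h1
  have h5 : C2 fun (x : ℕ × ℕ) (_ : ℕ → Bool) => x.1 = v :=
    C2.of1 (C1.s1 (S1.of_prim (pp_eq (by fun_prop) (by fun_prop))))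
  refine (C2.and h5 h3).of_eq fun x A => and_congr_right fun _ => ?_
  constructor
  · rintro h6 ⟨s, t, h7⟩
    exact h6 t ⟨s, h7⟩
  · rintro h6 t ⟨s, h7⟩
    exact h6 ⟨s, t, h7⟩

theorem btw_rand {C A : ℕ → Bool} (hC1 : ¬ TLe C O) (hC2 : TLe (jump C) (jump O))
    (hC3 : ¬ TLe (jump O) C) (hA : MLR (jump O) A) : Btw A (join A C) := by
  have hCj : TLe C (jump O) := TLe.tr (tLe_jump C) hC2
  have hA1 : ¬ TLe C (join A O) := mlr_avoid (TuringReducible.refl _) hCj hC1 hA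
  have hA2 : ¬ TLe (jump O) (join A C) := mlr_avoid hC2 (TuringReducible.refl _) hC3 hA
  have hOA : TLe (jump O) (jump A) := (le_O_any A).jump
  exact ⟨le_join_left _ _, fun h => hA1 (TLe.tr (TLe.tr (le_join_right A C) h)
    (le_join_left _ _)), join_le (tLe_jump A) (TLe.tr hCj hOA), fun h => hA2 (TLe.tr hOA h)⟩

/-- the extension theorem with the generic and the random degrees -/
theorem extendM {R : ℕ → (ℕ → Bool) → Prop} (hR : Sig3 R)
    (h1 : ∀ v A, R v A → Btw A (chr (WE A v))) :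
    ∃ e : ℕ, (∀ X, Btw X (chr (WE X e))) ∧
      (∀ w B X, R w B → TEq B X → ∃ v A, R v A ∧ TEq A X ∧
        TEq (chr (WE A v)) (chr (WE X e))) ∧
      ∀ D, (Gen1 (jump (jump O)) D ∨ MLR (jump O) D) → (∀ v B, R v B → ¬ TEq B D) →
        ∀ X Y, TEq X D → TEq Y D → TEq (chr (WE X e)) (chr (WE Y e)) := by
  obtain ⟨θ, u, pθ, pu, mθ, hT, hT'⟩ := sig3_theta hR h1
  by_cases hpos : ∃ k, lam {X | T θ k X} ≠ 0
  · obtain ⟨k, hk⟩ := hpos
    obtain ⟨e, g1, g2, g3⟩ := extendL hR h1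
    refine ⟨e, g1, g2, fun D hD hD' => ?_⟩
    rcases hD with hD | hD
    · exact g3 D hD hD'
    · obtain ⟨i, hi⟩ := pos_rand pθ mθ hk hD
      obtain ⟨v, B, h5, h6, -⟩ := hT k _ hi
      exact absurd (h6.trans (tl_teq i D)) (hD' v B h5)
  · push Not at hpos
    -- no random degree is in the domain
    have key : ∀ D, MLR (jump O) D → ∀ v B, R v B → ¬ TEq B D := by
      intro D hD v B hB hBD
      obtain ⟨k, hk⟩ := hT' v B D hB hBD
      exact null_rand pθ mθ (hpos k) hD hk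
    obtain ⟨C, hC, hC1, hC2, hC3⟩ := exists_low
    obtain ⟨v0, hv⟩ := exists_join_ix hC
    obtain ⟨E, hE, -, -, hU⟩ := Pool.Agent.Helper227.exists_universal
    obtain ⟨P, hP, hPR⟩ := of_sig3 hR
    have hR' : Sig3 fun v A => R v A ∨ (v = v0 ∧ MLR (jump O) A) := by
      have h2 : C2 fun (x : ℕ × ℕ) (A : ℕ → Bool) => (x.2 % 2 = 0 ∧ P (x.1, x.2 / 2) A) ∨
          (x.2 % 2 = 1 ∧ (x.1 = v0 ∧ A ∉ UE E (jump O) (x.2 / 2))) := by
        refine C2.or (C2.and (C2.of1 (C1.s1 (S1.of_prim (pp_eq (by fun_prop) (by fun_prop)))))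
          (hP.comp (f := fun x : ℕ × ℕ => (x.1, x.2 / 2)) (by fun_prop)))
          (C2.and (C2.of1 (C1.s1 (S1.of_prim (pp_eq (by fun_prop) (by fun_prop)))))
          ((c2_mlr hE v0).comp (f := fun x : ℕ × ℕ => (x.1, x.2 / 2)) (by fun_prop)))
      obtain ⟨δ, h3, h4⟩ := sig3_of h2
      refine ⟨δ, h3, fun v' X => Iff.trans ?_ (h4 v' X)⟩
      show (R v' X ∨ (v' = v0 ∧ MLR (jump O) X)) ↔ ∃ k : ℕ, (k % 2 = 0 ∧ P (v', k / 2) X) ∨
          (k % 2 = 1 ∧ (v' = v0 ∧ X ∉ UE E (jump O) (k / 2)))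
      rw [hU, hPR]
      constructor
      · rintro (⟨k, h5⟩ | ⟨h5, n, h6⟩)
        · refine ⟨2 * k, Or.inl ⟨by omega, ?_⟩⟩
          rwa [show 2 * k / 2 = k by omega]
        · refine ⟨2 * n + 1, Or.inr ⟨by omega, h5, ?_⟩⟩
          rwa [show (2 * n + 1) / 2 = n by omega]
      · rintro ⟨k, ⟨-, h5⟩ | ⟨-, h5, h6⟩⟩
        · exact Or.inl ⟨_, h5⟩
        · exact Or.inr ⟨h5, _, h6⟩
    obtain ⟨e, g1, g2, g3⟩ := extendL hR' (by
      rintro v A (hA | ⟨rfl, hA⟩)
      · exact h1 v A hA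
      · rw [hv]
        exact btw_rand hC1 hC2 hC3 hA)
    refine ⟨e, g1, fun w B X hB hBX => ?_, fun D hD hD' X Y hX hY => ?_⟩
    · obtain ⟨v, A, hA | ⟨-, hA⟩, hAX, h5⟩ := g2 w B X (Or.inl hB) hBX
      · exact ⟨v, A, hA, hAX, h5⟩
      · exact absurd (hBX.trans hAX.symm) (key A hA w B hB)
    · by_cases h : ∃ A, MLR (jump O) A ∧ TEq A D
      · obtain ⟨A, hA, hAD⟩ := h
        have h6 : ∀ X, TEq X D → TEq (chr (WE X e)) (join D C) := by
          intro X hX
          obtain ⟨v, A', hA' | ⟨h7, hA'⟩, hAX, h5⟩ := g2 v0 A X (Or.inr ⟨rfl, hA⟩)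
            (hAD.trans hX.symm)
          · exact absurd (hAX.trans hX) (hD' v A' hA')
          · rw [h7, hv] at h5
            exact h5.symm.trans (join_congr (hAX.trans hX))
        exact (h6 X hX).trans (h6 Y hY).symm
      · push Not at h
        have hD1 : Gen1 (jump (jump O)) D := by
          rcases hD with hD | hD
          · exact hD
          · exact absurd (TEq.refl D) (h D hD)
        refine g3 D hD1 ?_ X Y hX hY
        rintro v B (hB | ⟨-, hB⟩)
        · exact hD' v B hB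
        · exact h B hB

/-- it suffices to solve the problem on the degrees which are neither generic nor random -/
theorem q1_iff' :
    (∃ e : ℕ, (∀ X, Btw X (chr (WE X e))) ∧
      ∀ X Y, TEq X Y → TEq (chr (WE X e)) (chr (WE Y e))) ↔
    ∃ R : ℕ → (ℕ → Bool) → Prop, Sig3 R ∧ (∀ v A, R v A → Btw A (chr (WE A v))) ∧
      (∀ v w A B, R v A → R w B → TEq A B → TEq (chr (WE A v)) (chr (WE B w))) ∧
      ∀ X, (∃ v A, R v A ∧ TEq A X) ∨
        ∃ D, (Gen1 (jump (jump O)) D ∨ MLR (jump O) D) ∧ TEq D X := by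
  constructor
  · intro h
    obtain ⟨R, h0, h1, h2, h3⟩ := q1_iff.1 h
    exact ⟨R, h0, h1, h2, fun X => Or.inl (h3 X)⟩
  · rintro ⟨R, h0, h1, h2, h3⟩
    obtain ⟨e, g1, g2, g3⟩ := extendM h0 h1
    refine ⟨e, g1, fun X Y hXY => ?_⟩
    by_cases hc : ∃ v A, R v A ∧ TEq A X
    · obtain ⟨v, A, hA, hAX⟩ := hc
      obtain ⟨w, B, hB, hBX, h4⟩ := g2 v A X hA hAX
      obtain ⟨w', B', hB', hBY, h5⟩ := g2 v A Y hA (hAX.trans hXY)
      exact h4.symm.trans ((h2 w w' B B' hB hB' (hBX.trans (hXY.trans hBY.symm))).trans h5)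
    · rcases h3 X with h4 | ⟨D, hD, hDX⟩
      · exact absurd h4 hc
      · refine g3 D hD (fun v B hB hBD => hc ⟨v, B, hB, hBD.trans hDX⟩) X Y hDX.symm
          (hXY.symm.trans hDX.symm)

end Pool.Agent.H649.NL
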