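import Pool.Agent.H649.PT.Cor

set_option autoImplicit false

/-!
Functionals given by a recursion on the program.
-/

namespace Pool.Agent.H649.NL

open Encodable Pool.Agent.Helper227 Pool.Agent.H548R2.Post
open Nat.Partrec (Code)
open Pool.Agent.TH769.TP (Via fv Fn FF mon_FF Lim Mon fv_mono Fn_len Fn_le)
open Pool.Agent.TH769.CD (bdd_lt)

namespace FixAux

attribute [local fun_prop] Primrec
attribute [local fun_prop] Primrec.id Primrec.const Primrec.comp Primrec.pair Primrec.fst Primrec.snd

/-- the input -/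
def inp (x : ℕ) : List Bool × ℕ :=
  ((decode x.unpair.2 : Option (List Bool × ℕ))).getD ([], 0)

theorem pf_inp : Primrec inp := by
  have h1 : Primrec fun x : ℕ => (decode x.unpair.2 : Option (List Bool × ℕ)) :=
    Primrec.decode.comp (Primrec.snd.comp Primrec.unpair)
  exact Primrec.option_getD.comp h1 (Primrec.const (([], 0) : List Bool × ℕ))

theorem inp_pair (a : ℕ) (σ : List Bool) (n : ℕ) : inp (Nat.pair a (encode (σ, n))) = (σ, n) := by
  unfold inp
  rw [Nat.unpair_pair]
  simp only
  rw [encodek]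
  rfl

/-- the argument -/
def arg (c : Code) (x : ℕ) (b : Bool) : (Code × ℕ) × (ℕ × Bool) × List Bool :=
  ((c, x.unpair.1), ((inp x).2, b), (inp x).1)

theorem arg_pair (c : Code) (a : ℕ) (σ : List Bool) (n : ℕ) (b : Bool) :
    arg c (Nat.pair a (encode (σ, n))) b = ((c, a), (n, b), σ) := by
  unfold arg
  rw [inp_pair, Nat.unpair_pair]

theorem pf_arg (b : Bool) : Primrec fun y : Code × ℕ => arg y.1 y.2 b := by
  unfold arg
  have h1 : Primrec fun y : Code × ℕ => inp y.2 := pf_inp.comp Primrec.snd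
  have h2 : Primrec fun y : Code × ℕ => y.2.unpair.1 :=
    Primrec.fst.comp (Primrec.unpair.comp Primrec.snd)
  exact (Primrec.fst.pair h2).pair (((Primrec.snd.comp h1).pair (Primrec.const b)).pair
    (Primrec.fst.comp h1))

/-- the search -/
def sf (Q : (Code × ℕ) × (ℕ × Bool) × List Bool → ℕ → Bool) (c : Code) (x : ℕ) : Part ℕ :=
  (Nat.rfind fun k => Part.some (Q (arg c x true) k || Q (arg c x false) k)).map
    (fun k => cond (Q (arg c x true) k) 1 0)

theorem partrec_sf {Q : (Code × ℕ) × (ℕ × Bool) × List Bool → ℕ → Bool} (hQ : Primrec₂ Q) :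
    Partrec₂ (sf Q) := by
  have hq' : ∀ b : Bool, Computable₂ fun (y : Code × ℕ) (k : ℕ) => Q (arg y.1 y.2 b) k := by
    intro b
    have h1 : Primrec fun z : (Code × ℕ) × ℕ => arg z.1.1 z.1.2 b := (pf_arg b).comp Primrec.fst
    exact (hQ.comp h1 Primrec.snd).to_comp
  have hor : Computable₂ fun (y : Code × ℕ) (k : ℕ) =>
      (Q (arg y.1 y.2 true) k || Q (arg y.1 y.2 false) k) :=
    (Primrec.dom_bool₂ or).to_comp.comp (hq' true) (hq' false)
  have h1 : Partrec fun y : Code × ℕ => Nat.rfind fun k => Part.some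
      (Q (arg y.1 y.2 true) k || Q (arg y.1 y.2 false) k) :=
    Partrec.rfind hor.partrec₂
  have h2 : Partrec fun y : Code × ℕ => (Nat.rfind fun k => Part.some
      (Q (arg y.1 y.2 true) k || Q (arg y.1 y.2 false) k)).map
      (fun k => cond (Q (arg y.1 y.2 true) k) 1 0) :=
    Partrec.map h1 (Computable.cond (hq' true) (Computable.const 1) (Computable.const 0))
  exact h2

theorem sf_val {Q : (Code × ℕ) × (ℕ × Bool) × List Bool → ℕ → Bool} {c : Code} {a : ℕ}
    {σ : List Bool} {n v : ℕ} (h : v ∈ sf Q c (Nat.pair a (encode (σ, n)))) :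
    ∃ b : Bool, v = b.toNat ∧ ∃ k, Q ((c, a), (n, b), σ) k = true := by
  unfold sf at h
  rw [arg_pair, arg_pair, Part.mem_map_iff] at h
  obtain ⟨k, hk, rfl⟩ := h
  have h3 := Nat.rfind_spec hk
  have h4 : (Q ((c, a), (n, true), σ) k || Q ((c, a), (n, false), σ) k) = true :=
    (Part.mem_some_iff.1 h3).symm
  cases h5 : Q ((c, a), (n, true), σ) k with
  | true => exact ⟨true, rfl, k, h5⟩
  | false =>
    rw [h5, Bool.false_or] at h4
    exact ⟨false, rfl, k, h4⟩

theorem sf_ex {Q : (Code × ℕ) × (ℕ × Bool) × List Bool → ℕ → Bool} {c : Code} {a : ℕ}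
    {σ : List Bool} {n k : ℕ} {b : Bool} (h : Q ((c, a), (n, b), σ) k = true) :
    ∃ v, v ∈ sf Q c (Nat.pair a (encode (σ, n))) := by
  have h3 : (Nat.rfind fun k => Part.some
      (Q ((c, a), (n, true), σ) k || Q ((c, a), (n, false), σ) k)).Dom := by
    refine Nat.rfind_dom.2 ⟨k, Part.mem_some_iff.2 ?_, fun _ => trivial⟩
    cases b with
    | true => rw [h, Bool.true_or]
    | false => rw [h, Bool.or_true]
  obtain ⟨k', hk'⟩ := Part.dom_iff_mem.1 h3
  refine ⟨cond (Q ((c, a), (n, true), σ) k') 1 0, ?_⟩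
  unfold sf
  rw [arg_pair, arg_pair]
  exact Part.mem_map _ hk'

/-- the bits of the functional -/
theorem Fn_bit (i : Code) (σ : List Bool) (n : ℕ) : ∀ m, n < (Fn i σ m).length →
    ∃ v, fv i σ n = some v ∧ (Fn i σ m)[n]? = some (v == 1) := by
  intro m
  induction m with
  | zero => intro h; exact absurd h (Nat.not_lt_zero _)
  | succ m ih =>
    intro h
    have hlen := Fn_len (i := i) σ (m + 1)
    by_cases hm : (Fn i σ m).length = m
    · have h1 : Fn i σ (m + 1) = Fn i σ m ++ ((fv i σ m).map (fun v => v == 1)).toList := by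
        rw [Fn, decide_eq_true hm, cond_true]
      rw [h1] at h hlen ⊢
      by_cases hn : n < (Fn i σ m).length
      · obtain ⟨v, hv, hv'⟩ := ih hn
        refine ⟨v, hv, ?_⟩
        rw [List.getElem?_append_left hn]
        exact hv'
      · have h2 : n = m := by omega
        subst h2
        cases hv : fv i σ n with
        | none =>
          rw [hv] at h
          simp only [Option.map_none, Option.toList_none, List.append_nil] at h
          exact absurd h hn
        | some v =>
          refine ⟨v, rfl, ?_⟩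
          rw [List.getElem?_append_right (by omega), hm, Nat.sub_self]
          rfl
    · have h1 : Fn i σ (m + 1) = Fn i σ m := by
        rw [Fn, decide_eq_false hm, cond_false]
      rw [h1] at h ⊢
      exact ih h

theorem Fn_long (i : Code) (σ : List Bool) (N : ℕ) (h : ∀ n < N, (fv i σ n).isSome) :
    ∀ m ≤ N, (Fn i σ m).length = m := by
  intro m
  induction m with
  | zero => intro _; rfl
  | succ m ih =>
    intro hm
    have h1 := ih (by omega)
    obtain ⟨v, hv⟩ := Option.isSome_iff_exists.1 (h m (by omega))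
    rw [Fn, decide_eq_true h1, cond_true, List.length_append, h1, hv]
    rfl

theorem fv_some {i : Code} {Z : ℕ → Bool} {s0 n v : ℕ}
    (h1 : v ∈ i.eval (encode (pre Z s0, n))) : ∃ M, ∀ s ≥ M, (fv i (pre Z s) n).isSome := by
  obtain ⟨k, h2⟩ := Code.evaln_complete.1 h1
  refine ⟨Nat.pair k s0 + 1, fun s hs => ?_⟩
  have h3 : fv i (pre Z s) n ≠ none := by
    unfold fv
    rw [Ne, List.head?_eq_none_iff]
    intro h4
    have h5 : v ∈ (List.range (pre Z s).length).filterMap
        (fun c => Code.evaln c.unpair.1 i (encode ((pre Z s).take c.unpair.2, n))) := by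
      refine List.mem_filterMap.2 ⟨Nat.pair k s0, ?_, ?_⟩
      · rw [List.mem_range, length_pre]
        omega
      · have h6 := Nat.right_le_pair k s0
        rw [Nat.unpair_pair, take_pre _ _ _ (by simp only; omega)]
        exact h2
    rw [h4] at h5
    exact absurd h5 (List.not_mem_nil)
  exact Option.isSome_iff_ne_none.2 h3

end FixAux

open FixAux in
theorem fix_D {D : (Code × ℕ) × (ℕ × Bool) × List Bool → Prop} (hD : S1 D) :
    ∃ c : Code, ∀ (a : ℕ) (Z : ℕ → Bool),
      (∀ n s, n < (FF (Code.curry c a) (pre Z s)).length →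
        ∃ s' b, (FF (Code.curry c a) (pre Z s))[n]? = some b ∧
          D ((c, a), (n, b), pre Z s')) ∧
      ((∀ n, ∃ s b, D ((c, a), (n, b), pre Z s)) →
        ∀ N, ∃ s, N ≤ (FF (Code.curry c a) (pre Z s)).length) := by
  obtain ⟨q, ⟨hd, hq⟩, -, eq'⟩ := hD
  obtain ⟨Q, hQ, hQq⟩ : ∃ Q : (Code × ℕ) × (ℕ × Bool) × List Bool → ℕ → Bool,
      Primrec₂ Q ∧ ∀ x k, q x k ↔ Q x k = true :=
    ⟨fun x k => @decide (q x k) (hd (x, k)), hq,
      fun x k => (@decide_eq_true_iff (q x k) (hd (x, k))).symm⟩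
  have eq : ∀ x, D x ↔ ∃ k, Q x k = true := fun x =>
    (eq' x).trans (exists_congr fun k => hQq x k)
  obtain ⟨c, hc⟩ := Nat.Partrec.Code.fixed_point₂ (partrec_sf hQ)
  refine ⟨c, fun a Z => ⟨?_, ?_⟩⟩
  · intro n s hn
    obtain ⟨v, hv, hv'⟩ := Fn_bit (Code.curry c a) (pre Z s) n _ hn
    unfold fv at hv
    have h1 := List.mem_of_head? hv
    obtain ⟨d, hd', h2⟩ := List.mem_filterMap.1 h1
    rw [List.mem_range, length_pre] at hd'
    have h3 := Nat.unpair_right_le d
    rw [take_pre _ _ _ (by omega)] at h2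
    have h4 := Code.evaln_sound h2
    rw [Nat.Partrec.Code.eval_curry, hc] at h4
    obtain ⟨b, hb, k, hk⟩ := sf_val h4
    refine ⟨d.unpair.2, b, ?_, (eq _).2 ⟨k, hk⟩⟩
    rw [hb] at hv'
    have h5 : (b.toNat == 1) = b := by cases b <;> rfl
    rw [h5] at hv'
    exact hv'
  · intro h N
    have h1 : ∀ n < N, ∃ M, ∀ s ≥ M, (fv (Code.curry c a) (pre Z s) n).isSome := by
      intro n _
      obtain ⟨s, b, hs⟩ := h n
      obtain ⟨k, hk⟩ := (eq _).1 hs
      obtain ⟨v, hv⟩ := sf_ex hk
      refine fv_some (v := v) (s0 := s) ?_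
      rw [Nat.Partrec.Code.eval_curry, hc]
      exact hv
    obtain ⟨M, hM⟩ := bdd_lt N (fun n s => (fv (Code.curry c a) (pre Z s) n).isSome) h1
    refine ⟨max N M, ?_⟩
    have h2 := Fn_long (Code.curry c a) (pre Z (max N M)) N
      (fun n hn => hM n hn _ (le_max_right _ _)) N le_rfl
    have h3 := (Fn_le (i := Code.curry c a) (pre Z (max N M)) (n := N)
      (m := (pre Z (max N M)).length) (by rw [length_pre]; exact le_max_left _ _)).length_le
    rw [h2] at h3
    exact h3

end Pool.Agent.H649.NL
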