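import Pool.Agent.H649.NL.Chn

set_option autoImplicit false

/-!
The injuries are finite.
-/

namespace Pool.Agent.H649.NL

open Encodable Pool.Agent.Helper227 Pool.Agent.H548R2.Post
open Nat.Partrec (Code)
open Pool.Agent.TH769.TP (Mon Lim lab)
open Pool.Agent.TH769.CD (bdd_lt ext_pre_eq)

variable {F : ℕ → ℕ → List Bool → List Bool} {m : ℕ} {Z X : ℕ → Bool} {c : List Bool}
  {K : List (ℕ × ℕ)}

/-- no element less than `u` is put in after the stage `s` -/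
def Pro (F : ℕ → ℕ → List Bool → List Bool) (m : ℕ) (Z : ℕ → Bool) (s u : ℕ) : Prop :=
  ∀ x < u, W F m Z x → x ∈ Lt F m Z s

theorem Pro.mono (hF : Fnl F) {s s' u : ℕ} (h : Pro F m Z s u) (hs : s ≤ s') : Pro F m Z s' u :=
  fun x hx hw => Lt_mono hF.sho hs (h x hx hw)

theorem Pro.anti {s u u' : ℕ} (h : Pro F m Z s u) (hu : u' ≤ u) : Pro F m Z s u' :=
  fun x hx hw => h x (by omega) hw

theorem pro_of (hF : Fnl F) {s u : ℕ} (h1 : ∀ r ≥ s, ∀ x ∈ own (S F) m (pre Z r), u ≤ x)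
    (h2 : ∀ r ≥ s, u ≤ Ls F m Z (r + 1) 0) : Pro F m Z s u := by
  intro x hx hw
  by_contra hc
  obtain ⟨r, hr, h3 | ⟨k, hk, q, hq, rfl⟩⟩ := W_stage hF hw hc
  · have := h1 r hr x h3
    omega
  · have h3 := mid_le_cod (k + 1) (Ls F m Z (r + 1) k) q
    have h4 := h2 r hr
    have h5 := Ls_mono_k (m := m) (Z := Z) (s := r + 1) (k := 0) (k' := k) hF.sho (Nat.zero_le _)
    omega

theorem own_gt {r x : ℕ} (h : x ∈ own (S F) m (pre Z r)) : Ls F m Z r 0 < x := by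
  obtain ⟨-, z, rfl, -, j, -, h1⟩ := mem_own h
  have h2 := snd_le_cod 0 0 z
  have h3 : Ls F m Z r 0 < z := h1.1
  omega

theorem pro_of_le (hF : Fnl F) {s u : ℕ} (h : u ≤ Ls F m Z s 0) : Pro F m Z s u := by
  refine pro_of hF (fun r hr x hx => ?_) (fun r hr => ?_)
  · have h1 := own_gt hx
    have h2 := Ls_mono (m := m) (Z := Z) (k := 0) hF.sho hr
    omega
  · have h2 := Ls_mono (m := m) (Z := Z) (k := 0) (s := s) (s' := r + 1) hF.sho (by omega)
    omega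

theorem pro_of_ats (hF : Fnl F) {s : ℕ} (h : ats (S F) m (pre Z s)) : Pro F m Z s (s + 1) := by
  have h1 : ∀ r ≥ s, s + 1 ≤ Ls F m Z (r + 1) 0 := by
    intro r hr
    refine le_trans ?_ (Ls_mono hF.sho (show s + 1 ≤ r + 1 by omega))
    rw [Ls_succ hF.sho, ev_zero_of_ats h, if_pos le_rfl]
  refine pro_of hF (fun r hr x hx => ?_) h1
  rcases Nat.eq_or_lt_of_le hr with h2 | h2
  · subst h2
    rw [own_of_ats h] at hx
    exact absurd hx (List.not_mem_nil)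
  · have h3 := own_gt hx
    obtain ⟨r', rfl⟩ : ∃ r', r = r' + 1 := ⟨r - 1, by omega⟩
    have h4 := h1 r' (by omega)
    omega

/-- the believed oracle -/
noncomputable def jw (F : ℕ → ℕ → List Bool → List Bool) (m : ℕ) (Z : ℕ → Bool) (c : List Bool)
    (s : ℕ) : ℕ → Bool :=
  jn (ext (CH (S F) m (pre Z s) c).2.1) (vp (CH (S F) m (pre Z s) c).2.2 (Lt F m Z s))

/-- The believed oracle is right below `u`. -/
theorem Pth.belief (hF : Fnl F) (h : Pth F m Z c X K) {s u : ℕ} (ha : Adr F m Z c K s)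
    (hu : u ≤ VB F m Z c s) (hp : Pro F m Z s u) :
    pre (jw F m Z c s) u = pre (join X (chr {x | W F 0 X x})) u := by
  have h1 := (le_VB h).1 hu
  have h2 : SC F 0 X u (vp (CH (S F) m (pre Z s) c).2.2 (Lt F m Z s)) :=
    h.sc hF ha h1.2 ⟨fun x hx => ⟨s, hx⟩, hp⟩
  unfold pre
  refine List.map_congr_left fun i hi => ?_
  rw [List.mem_range] at hi
  have h3 : i / 2 < u := lt_of_le_of_lt (Nat.div_le_self _ _) hi
  unfold jw jn join
  by_cases h4 : i % 2 = 0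
  · rw [if_pos h4, if_pos h4, h.str]
    exact ext_pre_eq (by omega)
  · rw [if_neg h4, if_neg h4]
    unfold chr
    rw [Bool.eq_iff_iff]
    simp only [decide_eq_true_eq, Set.mem_ofPred_eq]
    exact ⟨fun h5 => h2.1 _ h5, fun h5 => h2.2 _ h3 h5⟩

/-- the witness -/
def xk (m j : ℕ) (K : List (ℕ × ℕ)) : ℕ :=
  Nat.pair m (Nat.pair j (Nat.pair (encode (K.map Prod.fst)) (adk K 0)))

theorem xw_eq {j s : ℕ} (ha : Adr F m Z c K s) :
    xw m j (CH (S F) m (pre Z s) c).2.2 = xk m j K := by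
  unfold xw xk
  rw [lbs_dat, ad_dat, ha]

theorem belj_iff {j s B : ℕ} (ha : Adr F m Z (bits m j) K s) :
    belj (S F) m j (pre Z s) B ↔
      ∃ u ≤ B, hlt s m (xk m j K) (pre (jw F m Z (bits m j) s) u) = true := by
  unfold belj bel
  rw [xw_eq ha, length_pre]
  constructor
  · rintro ⟨u, h1, h2⟩
    exact ⟨u, by omega, h2⟩
  · rintro ⟨u, h1, h2⟩
    exact ⟨u, by omega, h2⟩

theorem hit_iff {j s y : ℕ} (h : Pth F m Z (bits m j) X K) (ha : Adr F m Z (bits m j) K s) :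
    hit (S F) m (pre Z s) j y ↔ En (nl K s) m (adk K y) X := by
  unfold hit
  rw [ad_dat, ha, h.str, length_pre]
  exact En_congr fun i hi => ext_pre_eq hi

/-- A requirement `R` needs attention at most once after its address is final. -/
theorem RA_once (hF : Fnl F) {j s s' : ℕ} (h : Pth F m Z (bits m j) X K) (hj : j < 2 ^ m)
    (ha : Adr F m Z (bits m j) K s) (hR : RA (S F) m (pre Z s) j) (hs : s < s') :
    ¬ RA (S F) m (pre Z s') j := by
  have hats : ats (S F) m (pre Z s) := ⟨j, hj, hR⟩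
  have ha' := h.adr_mono hF ha hs.le
  have h1 : ∃ u ≤ VB F m Z (bits m j) s, hlt s m (xk m j K)
    (pre (jw F m Z (bits m j) s) u) = true := (belj_iff ha).1 hR.1
  obtain ⟨u, h2, h3⟩ := h1
  have h4 : u ≤ s := h2.trans (((le_VB h).1 le_rfl).1.trans (nl_le K s))
  have hp := (pro_of_ats hF hats).anti (show u ≤ s + 1 by omega)
  rw [h.belief hF ha h2 hp] at h3
  intro hR'
  apply hR'.2
  rw [belj_iff ha']
  have h5 : u ≤ VB F m Z (bits m j) s' := h2.trans (h.VB_mono hF ha hs.le)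
  refine ⟨u, le_min ?_ h5, ?_⟩
  · show u ≤ Ls F m Z s' 0
    refine le_trans ?_ (Ls_mono hF.sho (show s + 1 ≤ s' from hs))
    rw [Ls_succ hF.sho, ev_zero_of_ats hats, if_pos le_rfl]
    omega
  · rw [h.belief hF ha' h5 (hp.mono hF hs.le)]
    exact hlt_mono hs.le h3

/-- A requirement `N` acts at most once after its address is final. -/
theorem NC_once (hF : Fnl F) {j s s' z z' : ℕ} (h : Pth F m Z (bits m j) X K)
    (ha : Adr F m Z (bits m j) K s) (ho : own (S F) m (pre Z s) = [cod 0 0 z])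
    (hN : NC (S F) m (pre Z s) j z) (hs : s < s') : ¬ NC (S F) m (pre Z s') j z' := by
  intro hN'
  have ha' := h.adr_mono hF ha hs.le
  refine hN'.2.2 (cod 0 0 z) ?_ (unpair_cod _ _ _) ?_
  · refine Lt_mono hF.sho (show s + 1 ≤ s' from hs) ((mem_Lt_succ hF.sho).2 (Or.inr (Or.inl ?_)))
    rw [ho]
    exact List.mem_singleton.2 rfl
  · rw [hit_iff h ha']
    exact En_mono (nl_mono K hs.le) ((hit_iff h ha).1 hN.2.1)

theorem fin_step (hF : Fnl F) (hp : ∀ j < 2 ^ m, ∃ X K, Pth F m Z (bits m j) X K) :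
    Fin F m Z := by
  obtain ⟨a, ha⟩ := bdd_lt (2 ^ m) (fun j s => ¬ RA (S F) m (pre Z s) j ∧
      ∀ z, own (S F) m (pre Z s) = [cod 0 0 z] → ¬ NC (S F) m (pre Z s) j z) (fun j hj => by
    obtain ⟨X, K, h⟩ := hp j hj
    obtain ⟨s1, h1⟩ := h.adr_ev
    obtain ⟨b1, hb1⟩ : ∃ b1, ∀ s ≥ b1, ¬ RA (S F) m (pre Z s) j := by
      by_cases hc : ∃ s ≥ s1, RA (S F) m (pre Z s) j
      · obtain ⟨s, hs, hR⟩ := hc
        exact ⟨s + 1, fun s' hs' => RA_once hF h hj (h1 s hs) hR hs'⟩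
      · push Not at hc
        exact ⟨s1, hc⟩
    obtain ⟨b2, hb2⟩ : ∃ b2, ∀ s ≥ b2, ∀ z, own (S F) m (pre Z s) = [cod 0 0 z] →
        ¬ NC (S F) m (pre Z s) j z := by
      by_cases hc : ∃ s ≥ s1, ∃ z, own (S F) m (pre Z s) = [cod 0 0 z] ∧
          NC (S F) m (pre Z s) j z
      · obtain ⟨s, hs, z, h2, h3⟩ := hc
        exact ⟨s + 1, fun s' hs' z' _ => NC_once hF h (h1 s hs) h2 h3 hs'⟩
      · push Not at hc
        exact ⟨s1, hc⟩
    exact ⟨max b1 b2, fun s hs => ⟨hb1 s (le_trans (le_max_left _ _) hs),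
      hb2 s (le_trans (le_max_right _ _) hs)⟩⟩)
  refine ⟨a, fun s hs h0 => ?_⟩
  by_cases h1 : ats (S F) m (pre Z s)
  · obtain ⟨j, hj, hR⟩ := h1
    exact (ha j hj s hs).1 hR
  · obtain ⟨z, -, h2, j, hj, h3⟩ := own_of_NC h1 h0
    exact (ha j hj s hs).2 z h2 h3

theorem length_bits (m j : ℕ) : (bits m j).length = m := by
  unfold bits
  rw [List.length_map, List.length_range]

theorem exists_bits (c : List Bool) : ∃ j < 2 ^ c.length, bits c.length j = c := by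
  refine ⟨Nat.ofBits fun i : _root_.Fin c.length => c.get i, Nat.ofBits_lt_two_pow _, ?_⟩
  unfold bits
  refine List.ext_getElem (by simp) fun i h1 h2 => ?_
  rw [List.getElem_map, List.getElem_range, Nat.testBit_ofBits_lt _ _ h2]
  rfl

/-- trees of oracles -/
structure Tree (F : ℕ → ℕ → List Bool → List Bool) (Ac : ℕ → (ℕ → Bool) → Prop) : Prop where
  fnl : Fnl F
  zero : ∀ X, Ac 0 X
  next : ∀ m Z, Ac m Z → (∃ k < LL m, Tr F m k Z) ∨
    ∃ (k : ℕ) (A B : ℕ → Bool) (b : Bool), LL m ≤ k ∧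
    Z = cond b B A ∧ Lc F m k Z ∧
    Lim (F m k) Z (lab k (join A B)) ∧ Ac (m + 1) (lab k (join A B))
  prev : ∀ m Z', Ac (m + 1) Z' → ∃ (k : ℕ) (A B : ℕ → Bool), LL m ≤ k ∧ Z' = lab k (join A B) ∧
    ∀ b : Bool, Ac m (cond b B A) ∧ Lc F m k (cond b B A) ∧ Lim (F m k) (cond b B A) Z'

variable {Ac : ℕ → (ℕ → Bool) → Prop}

theorem exists_Pth (T : Tree F Ac) : ∀ m, (∀ m' < m, ∀ Z, Ac m' Z → Fin F m' Z) → ∀ Z, Ac m Z →
    ∀ c : List Bool, c.length = m → ∃ X K, Pth F m Z c X K := by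
  intro m
  induction m with
  | zero =>
    intro _ Z _ c hc
    obtain rfl : c = [] := List.length_eq_zero_iff.1 hc
    exact ⟨Z, [], Pth.nil Z⟩
  | succ m ih =>
    intro hm Z hZ c hc
    cases c with
    | nil => simp at hc
    | cons b c =>
      obtain ⟨k, A, B, h0, rfl, h1⟩ := T.prev m Z hZ
      obtain ⟨h2, h3, h4⟩ := h1 b
      have hf := hm m (Nat.lt_succ_self m) _ h2
      obtain ⟨t, ht⟩ := exists_Fs T.fnl h3.2 hf
      obtain ⟨X, K, h5⟩ := ih (fun m' hm' => hm m' (by omega)) _ h2 c (by simpa using hc)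
      exact ⟨X, _, Pth.cons h0 h3 h4 hf ht h5⟩

theorem fin_all (T : Tree F Ac) : ∀ m Z, Ac m Z → Fin F m Z := by
  intro m
  induction m using Nat.strong_induction_on with
  | _ m ih =>
    intro Z hZ
    exact fin_step T.fnl fun j _ => exists_Pth T m ih Z hZ _ (length_bits m j)

/-- `Z` is the set of the level `m` belonging to `X` -/
def Jp (F : ℕ → ℕ → List Bool → List Bool) (Ac : ℕ → (ℕ → Bool) → Prop) (m : ℕ)
    (X Z : ℕ → Bool) : Prop := Ac m Z ∧ ∃ c K, Pth F m Z c X K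

theorem Jp.succ (T : Tree F Ac) {m k : ℕ} {X A B : ℕ → Bool} {b : Bool} (h0 : LL m ≤ k)
    (h : Jp F Ac m X (cond b B A)) (hk : Lc F m k (cond b B A))
    (hl : Lim (F m k) (cond b B A) (lab k (join A B))) (ha : Ac (m + 1) (lab k (join A B))) :
    Jp F Ac (m + 1) X (lab k (join A B)) := by
  obtain ⟨h1, c, K, h2⟩ := h
  have hf := fin_all T m _ h1
  obtain ⟨t, ht⟩ := exists_Fs T.fnl hk.2 hf
  exact ⟨ha, _, _, Pth.cons h0 hk hl hf ht h2⟩

/-- Either all levels exist, or a leaf is reached. -/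
theorem exists_Jp (T : Tree F Ac) (X : ℕ → Bool)
    (hn : ¬ ∃ m Z, Jp F Ac m X Z ∧ ∃ k < LL m, Tr F m k Z) : ∀ m, ∃ Z, Jp F Ac m X Z := by
  intro m
  induction m with
  | zero => exact ⟨X, T.zero X, [], [], Pth.nil X⟩
  | succ m ih =>
    obtain ⟨Z, hZ⟩ := ih
    rcases T.next m Z hZ.1 with h | ⟨k, A, B, b, h0, rfl, h1, h2, h3⟩
    · exact absurd ⟨m, Z, hZ, h⟩ hn
    · exact ⟨_, hZ.succ T h0 h1 h2 h3⟩

end Pool.Agent.H649.NL
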