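import Pool.Agent.H649.NL.Pln

set_option autoImplicit false

/-!
The description of the functionals is `S1`: everything in `DD` is primitive recursive, uniformly in
the program, except for one unbounded existential quantifier.
-/

namespace Pool.Agent.H649.NL

open Encodable Pool.Agent.Helper227 Pool.Agent.H548R2.Post
open Nat.Partrec (Code)
open Pool.Agent.TH769.TP (FF Mon Lim lab Via via_iff lim_FF mon_FF lim_exists pre_lab lab_le le_lab)
open Pool.Agent.TH769.CD (bdd_lt)
open Pool.Agent.H649.PT (TEq pf_FF')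
open Pool.Agent.TH769.ZA (si_gen pf_sub)
open Pool.Agent.TH769.CD (pf_add pf_mul pf_div pf_mod pf_pow pf_getD pf_take
  pf_append pf_cons pf_length pf_range pf_natPair pf_unpair pf_encode pf_testBit pf_xorb pf_andb
  pf_hlt pf_xor pp_exlt pp_alllt pp_imp pp_eq pp_le pp_lt pp_mem pf_decide pf_pre pp_En pf_ext)

attribute [local fun_prop] Primrec
attribute [local fun_prop] Primrec.id Primrec.const Primrec.comp Primrec.pair Primrec.fst Primrec.snd
attribute [local fun_prop] pf_add pf_mul pf_div pf_mod pf_pow pf_getD pf_take pf_append pf_cons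
  pf_length pf_range pf_natPair pf_unpair pf_encode pf_testBit pf_xorb pf_andb pf_hlt pf_xor
  pf_sub

variable {F : ℕ → ℕ → List Bool → List Bool} {m c : ℕ} {p : Pl} {Z Z' X : ℕ → Bool}

/-! ### The folds -/

def klst (s : ℕ × List ℕ) (b : Bool) : ℕ × List ℕ :=
  (s.1.unpair.1, s.2 ++ [2 * s.1 + b.toNat])

theorem kls_eq (bl : List Bool) : ∀ (c : ℕ) (L : List ℕ),
    (bl.foldl klst (c, L)).2 = L ++ kls c bl := by
  induction bl with
  | nil => intro c L; simp [kls]
  | cons b bl ih =>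
    intro c L
    rw [List.foldl_cons]
    unfold klst
    simp only
    rw [show (bl.foldl (fun (s : ℕ × List ℕ) (b : Bool) =>
      (s.1.unpair.1, s.2 ++ [2 * s.1 + b.toNat])) (c.unpair.1, L ++ [2 * c + b.toNat])) =
      bl.foldl klst (c.unpair.1, L ++ [2 * c + b.toNat]) from rfl, ih]
    simp [kls]

/-- one step of `BD` -/
def bdc (F : ℕ → ℕ → List Bool → List Bool) (N : ℕ) (x : List Bool) (c : ℕ) (bl : List Bool)
    (b : Bool) : Prop :=
  (b = true → (F bl.length (2 * c) (KK F (kls c.unpair.1 bl) x)).length ≤ N) ∧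
    ∀ k < LL bl.length, (F bl.length k (KK F (kls c.unpair.1 bl) x)).length ≤ N

open Classical in
noncomputable def bdst (F : ℕ → ℕ → List Bool → List Bool) (N : ℕ) (x : List Bool)
    (s : ℕ × List Bool × Bool) (b : Bool) : ℕ × List Bool × Bool :=
  (s.1.unpair.1, s.2.1.tail, s.2.2 && decide (bdc F N x s.1 s.2.1.tail b))

theorem bd_eq (N : ℕ) (x : List Bool) (bl : List Bool) : ∀ (c : ℕ) (o : Bool),
    (bl.foldl (bdst F N x) (c, bl, o)).2.2 = true ↔ o = true ∧ BD F N c bl x := by
  induction bl with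
  | nil => intro c o; simp [BD]
  | cons b bl ih =>
    intro c o
    rw [List.foldl_cons]
    have h : bdst F N x (c, b :: bl, o) b =
        (c.unpair.1, bl, o && @decide (bdc F N x c bl b) (Classical.propDecidable _)) := rfl
    rw [h, ih]
    simp only [Bool.and_eq_true, decide_eq_true_eq, BD, bdc]
    tauto

/-! ### Primitive recursiveness -/

section prim

variable {α : Type} [Primcodable α]

theorem pf_G {e : α → Code} {m k : α → ℕ} {σ : α → List Bool} (he : Primrec e) (hm : Primrec m)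
    (hk : Primrec k) (hσ : Primrec σ) : Primrec fun a => Gf (e a) (m a) (k a) (σ a) := by
  unfold Gf
  exact pf_take (by fun_prop) (pf_FF' (Code.primrec₂_curry.comp he (pf_natPair hm hk)) hσ)

theorem pf_KK {e : α → Code} {κ : α → List ℕ} {σ : α → List Bool} (he : Primrec e)
    (hκ : Primrec κ) (hσ : Primrec σ) : Primrec fun a => KK (Gf (e a)) (κ a) (σ a) := by
  have h : Primrec fun z : α × (ℕ × List ℕ × List Bool) =>
      Gf (e z.1) z.2.2.1.length z.2.1 z.2.2.2 :=
    pf_G (by fun_prop) (by fun_prop) (by fun_prop) (by fun_prop)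
  have h1 := Primrec.list_rec (f := κ) (g := σ)
    (h := fun a (y : ℕ × List ℕ × List Bool) => Gf (e a) y.2.1.length y.1 y.2.2) hκ hσ h
  refine h1.of_eq fun a => ?_
  generalize κ a = K
  induction K with
  | nil => rfl
  | cons k κ ih =>
    simp only at ih ⊢
    rw [ih]
    rfl

theorem pf_kls {c : α → ℕ} {bl : α → List Bool} (hc : Primrec c) (hb : Primrec bl) :
    Primrec fun a => kls (c a) (bl a) := by
  have h0 : Primrec fun x : α × ((ℕ × List ℕ) × Bool) => klst x.2.1 x.2.2 := by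
    unfold klst
    have h1 : Primrec fun x : α × ((ℕ × List ℕ) × Bool) => x.2.2.toNat := pf_toNat (by fun_prop)
    fun_prop
  have h := pf_foldl (f := bl) (g := fun a => (c a, ([] : List ℕ)))
    (h := fun _ s b => klst s b) hb (by fun_prop) h0
  have h2 : Primrec fun a => ((bl a).foldl klst (c a, ([] : List ℕ))).2 := Primrec.snd.comp h
  exact h2.of_eq fun a => by rw [kls_eq, List.nil_append]

theorem pp_bdc {e : α → Code} {N c : α → ℕ} {x bl : α → List Bool} {b : α → Bool}
    (he : Primrec e) (hN : Primrec N) (hx : Primrec x) (hc : Primrec c) (hbl : Primrec bl)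
    (hb : Primrec b) : PrimrecPred fun a => bdc (Gf (e a)) (N a) (x a) (c a) (bl a) (b a) := by
  unfold bdc
  refine PrimrecPred.and (pp_imp (pp_eq hb (Primrec.const true)) (pp_le (pf_length ?_) hN))
    (pp_alllt (pf_LL (pf_length hbl)) (pp_le (pf_length ?_) (by fun_prop)))
  · exact pf_G he (pf_length hbl) (by fun_prop) (pf_KK he (pf_kls (by fun_prop) hbl) hx)
  · exact pf_G (by fun_prop) (pf_length (hbl.comp Primrec.fst)) Primrec.snd
      (pf_KK (by fun_prop) (pf_kls (by fun_prop) (hbl.comp Primrec.fst)) (hx.comp Primrec.fst))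

theorem pp_BD {e : α → Code} {N c : α → ℕ} {x bl : α → List Bool} (he : Primrec e)
    (hN : Primrec N) (hc : Primrec c) (hbl : Primrec bl) (hx : Primrec x) :
    PrimrecPred fun a => BD (Gf (e a)) (N a) (c a) (bl a) (x a) := by
  have h0 : Primrec fun y : α × ((ℕ × List Bool × Bool) × Bool) =>
      bdst (Gf (e y.1)) (N y.1) (x y.1) y.2.1 y.2.2 := by
    unfold bdst
    have h1 : Primrec fun y : α × ((ℕ × List Bool × Bool) × Bool) => y.2.1.2.1.tail :=
      Primrec.list_tail.comp (by fun_prop)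
    refine Primrec.pair (by fun_prop) (Primrec.pair h1 (pf_andb (by fun_prop) (pf_decide ?_ _)))
    exact pp_bdc (by fun_prop) (by fun_prop) (by fun_prop) (by fun_prop) h1 (by fun_prop)
  have h := pf_foldl (f := bl) (g := fun a => (c a, bl a, true))
    (h := fun a s b => bdst (Gf (e a)) (N a) (x a) s b) hbl (by fun_prop) h0
  have h2 : PrimrecPred fun a =>
      ((bl a).foldl (bdst (Gf (e a)) (N a) (x a)) (c a, bl a, true)).2.2 = true :=
    pp_eq (Primrec.snd.comp (Primrec.snd.comp h)) (Primrec.const true)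
  exact h2.of_eq fun a => by rw [bd_eq]; simp

theorem pp_BT {e : α → Code} {N c : α → ℕ} {x bl : α → List Bool} (he : Primrec e)
    (hN : Primrec N) (hc : Primrec c) (hbl : Primrec bl) (hx : Primrec x) :
    PrimrecPred fun a => BT (Gf (e a)) (N a) (c a) (bl a) (x a) := by
  unfold BT
  refine PrimrecPred.and (pp_BD he hN hc hbl hx) (pp_alllt (pf_LL (pf_length hbl))
    (pp_le (pf_length ?_) (by fun_prop)))
  exact pf_G (by fun_prop) (pf_length (hbl.comp Primrec.fst)) Primrec.snd
    (pf_KK (by fun_prop) (pf_kls (hc.comp Primrec.fst) (hbl.comp Primrec.fst))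
      (hx.comp Primrec.fst))

theorem pf_mb {c σ : α → List Bool} (hc : Primrec c) (hσ : Primrec σ) :
    Primrec fun a => mb (c a) (σ a) := by
  unfold mb
  refine pf_foldl (h := fun _ (σ : List Bool) (b : Bool) => pt b σ) hc hσ ?_
  exact pf_pt (by fun_prop) (by fun_prop)

theorem pp_cmp {n : α → ℕ} {u v : α → List Bool} (hn : Primrec n) (hu : Primrec u)
    (hv : Primrec v) : PrimrecPred fun a => cmp (n a) (u a) (v a) := by
  unfold cmp
  exact PrimrecPred.and (pp_le hn (pf_length hu)) (PrimrecPred.and (pp_le hn (pf_length hv))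
    (pp_eq (pf_take hn hu) (pf_take hn hv)))

theorem pp_ini {u v : α → List Bool} (hu : Primrec u) (hv : Primrec v) :
    PrimrecPred fun a => ini (u a) (v a) := by
  unfold ini
  exact pp_eq (pf_take (pf_length hu) hv) hu

theorem pf_pl {k : α → ℕ} (hk : Primrec k) : Primrec fun a => pl (k a) := by
  unfold pl
  exact Primrec.option_getD.comp (Primrec.decode.comp hk) (Primrec.const _)

theorem pf_ty {p : α → Pl} (h : Primrec p) : Primrec fun a => ty (p a) := by
  unfold ty; fun_prop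
theorem pf_rh {p : α → Pl} (h : Primrec p) : Primrec fun a => rh (p a) := by
  unfold rh; fun_prop
theorem pf_bA {p : α → Pl} (h : Primrec p) : Primrec fun a => bA (p a) := by
  unfold bA; fun_prop
theorem pf_bB {p : α → Pl} (h : Primrec p) : Primrec fun a => bB (p a) := by
  unfold bB; fun_prop
theorem pf_al {p : α → Pl} (h : Primrec p) : Primrec fun a => al (p a) := by
  unfold al; fun_prop
theorem pf_be {p : α → Pl} (h : Primrec p) : Primrec fun a => be (p a) := by
  unfold be; fun_prop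
theorem pf_cA {p : α → Pl} (h : Primrec p) : Primrec fun a => cA (p a) := by
  unfold cA; fun_prop
theorem pf_cB {p : α → Pl} (h : Primrec p) : Primrec fun a => cB (p a) := by
  unfold cB; fun_prop
theorem pf_bN {p : α → Pl} (h : Primrec p) : Primrec fun a => bN (p a) := by
  unfold bN; fun_prop

theorem pf_tk {k : α → ℕ} (hk : Primrec k) : Primrec fun a => tk (k a) := by
  unfold tk
  exact Primrec.option_getD.comp (Primrec.decode.comp hk) (Primrec.const _)

theorem pf_ti {k : α → ℕ} (hk : Primrec k) : Primrec fun a => ti (k a) :=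
  Primrec.fst.comp (Primrec.snd.comp (pf_tk hk))

theorem pf_tj {k : α → ℕ} (hk : Primrec k) : Primrec fun a => tj (k a) :=
  Primrec.snd.comp (Primrec.snd.comp (pf_tk hk))

theorem pp_J {e : α → Code} {m c n : α → ℕ} {p : α → Pl} {x y u v : α → List Bool}
    (he : Primrec e) (hm : Primrec m) (hc : Primrec c) (hp : Primrec p) (hn : Primrec n)
    (hx : Primrec x) (hy : Primrec y) (hu : Primrec u) (hv : Primrec v) :
    PrimrecPred fun a => J (Gf (e a)) (m a) (c a) (p a) (n a) (x a) (y a) (u a) (v a) := by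
  unfold J
  refine PrimrecPred.and (PrimrecPred.and ?_ (PrimrecPred.and ?_ (PrimrecPred.and ?_ ?_)))
    (PrimrecPred.and (PrimrecPred.and ?_ ?_) (PrimrecPred.and ?_ ?_))
  · exact pp_cmp hn (pf_FF' (pf_ti hm) hx) hy
  · exact pp_cmp hn (pf_FF' (pf_tj hm) hy) hx
  · exact pp_cmp hn (pf_KK he (pf_kls hc (pf_bA hp)) hx) hu
  · exact pp_cmp hn (pf_KK he (pf_kls hc (pf_bB hp)) hy) hv
  · exact pp_BT he (pf_bN hp) hc (pf_bA hp) (pf_take hn hx)
  · exact pp_BT he (pf_bN hp) hc (pf_bB hp) (pf_take hn hy)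
  · exact pp_imp (pp_eq (pf_ty hp) (Primrec.const 1)) (pp_cmp hn hu hv)
  · exact pp_imp (pp_eq (pf_ty hp) (Primrec.const 2)) (PrimrecPred.and
      (pp_cmp hn (pf_mb (pf_cA hp) hu) hx) (PrimrecPred.and (pp_cmp hn (pf_mb (pf_cB hp) hv) hy)
      (PrimrecPred.and (pp_ini (pf_al hp) hu) (pp_ini (pf_be hp) hv))))

theorem pp_JX {e : α → Code} {m c n : α → ℕ} {p : α → Pl} {τ : α → List Bool}
    (he : Primrec e) (hm : Primrec m) (hc : Primrec c) (hp : Primrec p) (hn : Primrec n)
    (hτ : Primrec τ) : PrimrecPred fun a => JX (Gf (e a)) (m a) (c a) (p a) (n a) (τ a) := by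
  unfold JX
  have h1 := pf_FF' (pf_ti hm) hτ
  exact pp_J he hm hc hp hn hτ h1 (pf_KK he (pf_kls hc (pf_bA hp)) hτ)
    (pf_KK he (pf_kls hc (pf_bB hp)) h1)

theorem pp_JA {e : α → Code} {m c n : α → ℕ} {p : α → Pl} {σ : α → List Bool}
    (he : Primrec e) (hm : Primrec m) (hc : Primrec c) (hp : Primrec p) (hn : Primrec n)
    (hσ : Primrec σ) : PrimrecPred fun a => JA (Gf (e a)) (m a) (c a) (p a) (n a) (σ a) := by
  unfold JA
  have h0 := pf_mb (pf_cA hp) hσ
  have h1 := pf_FF' (pf_ti hm) h0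
  exact pp_J he hm hc hp hn h0 h1 hσ (pf_KK he (pf_kls hc (pf_bB hp)) h1)

theorem pp_JB {e : α → Code} {m c n : α → ℕ} {p : α → Pl} {σ : α → List Bool}
    (he : Primrec e) (hm : Primrec m) (hc : Primrec c) (hp : Primrec p) (hn : Primrec n)
    (hσ : Primrec σ) : PrimrecPred fun a => JB (Gf (e a)) (m a) (c a) (p a) (n a) (σ a) := by
  unfold JB
  have h0 := pf_mb (pf_cB hp) hσ
  have h1 := pf_FF' (pf_tj hm) h0
  exact pp_J he hm hc hp hn h1 h0 (pf_KK he (pf_kls hc (pf_bA hp)) h1) hσ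

theorem pp_shp {m : α → ℕ} {p : α → Pl} (hm : Primrec m) (hp : Primrec p) :
    PrimrecPred fun a => shp (m a) (p a) := by
  unfold shp
  refine PrimrecPred.and (pp_eq (pf_length (pf_bA hp)) hm) (PrimrecPred.and
    (pp_eq (pf_length (pf_bB hp)) hm) (pp_imp (pp_eq (pf_ty hp) (Primrec.const 2))
    (PrimrecPred.and (pp_eq (pf_length (pf_cA hp)) hm) (PrimrecPred.and
    (pp_eq (pf_length (pf_cB hp)) hm) (PrimrecPred.and ?_ ?_)))))
  · exact PrimrecPred.not (pp_ini (pf_al hp) (pf_be hp))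
  · exact PrimrecPred.not (pp_ini (pf_be hp) (pf_al hp))

theorem s1_Pi {e : α → Code} {m c n : α → ℕ} {p : α → Pl} {τ : α → List Bool}
    (he : Primrec e) (hm : Primrec m) (hc : Primrec c) (hp : Primrec p) (hτ : Primrec τ)
    (hn : Primrec n) : S1 fun a => Pi (Gf (e a)) (m a) (c a) (p a) (τ a) (n a) := by
  unfold Pi
  have h0 : PrimrecPred fun a => ini (rh (p a)) (τ a) := pp_ini (pf_rh hp) hτ
  refine S1.and (S1.of_prim (pp_ini (Primrec.fst.comp (pf_tk hm)) (pf_rh hp))) (S1.or
    (S1.of_prim (PrimrecPred.and (pp_eq (pf_ty hp) (Primrec.const 0)) (pp_imp h0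
      (PrimrecPred.not (pp_cmp (pf_bN hp) (pf_FF' (pf_tj hm) (pf_FF' (pf_ti hm) hτ)) hτ))))) ?_)
  refine S1.and (S1.of_prim (PrimrecPred.or (pp_eq (pf_ty hp) (Primrec.const 1))
    (pp_eq (pf_ty hp) (Primrec.const 2)))) (S1.and (S1.of_prim (pp_shp hm hp)) ?_)
  have h1 : S1 fun a => ∃ τ', ini (τ a) τ' ∧ JX (Gf (e a)) (m a) (c a) (p a) (n a) τ' := by
    refine S1.ex (p := fun a τ' => ini (τ a) τ' ∧ JX (Gf (e a)) (m a) (c a) (p a) (n a) τ')
      (S1.of_prim (PrimrecPred.and (pp_ini (by fun_prop) (by fun_prop)) ?_))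
    exact pp_JX (by fun_prop) (by fun_prop) (by fun_prop) (by fun_prop) (by fun_prop)
      (by fun_prop)
  exact (S1.or (S1.of_prim (PrimrecPred.not h0)) h1).of_eq fun a => imp_iff_not_or.symm

theorem pp_LO {m c : α → ℕ} {σ : α → List Bool} (hm : Primrec m) (hc : Primrec c)
    (hσ : Primrec σ) : PrimrecPred fun a => LO (m a) (c a) (σ a) := by
  unfold LO
  have h := pf_lb hσ
  exact PrimrecPred.or (PrimrecPred.and (pp_eq hm (Primrec.const 0)) (pp_eq hc (Primrec.const 0)))
    (PrimrecPred.and (pp_lt (Primrec.const 0) hm) (PrimrecPred.and (pp_lt h (pf_length hσ))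
    (pp_eq (pf_div h (Primrec.const 2)) hc)))

theorem pf_outb {k n : α → ℕ} {u v : α → List Bool} (hk : Primrec k) (hu : Primrec u)
    (hv : Primrec v) (hn : Primrec n) : Primrec fun a => outb (k a) (u a) (v a) (n a) := by
  unfold outb
  have h1 : Primrec fun a => n a - k a - 1 := by fun_prop
  refine pf_ite _ (pp_lt hn hk) (Primrec.const _) (pf_ite _ (pp_eq hn hk) (Primrec.const _)
    (pf_ite _ (pp_eq (pf_mod h1 (Primrec.const 2)) (Primrec.const 0)) ?_ ?_))
  · exact Primrec.list_getElem?.comp hu (pf_div h1 (Primrec.const 2))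
  · exact Primrec.list_getElem?.comp hv (pf_div h1 (Primrec.const 2))

theorem s1_D5 {e : α → Code} {m k n : α → ℕ} {b : α → Bool} {σ : α → List Bool}
    (he : Primrec e) (hm : Primrec m) (hk : Primrec k) (hn : Primrec n) (hb : Primrec b)
    (hσ : Primrec σ) : S1 fun a => D5 (Gf (e a)) (m a) (k a) (n a) (b a) (σ a) := by
  unfold D5
  have hc : Primrec fun a => (k a / 2).unpair.1 := by fun_prop
  have hp : Primrec fun a => pl (k a / 2).unpair.2 := pf_pl (by fun_prop)
  have hsb : Primrec fun a => some (b a) := Primrec.option_some.comp hb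
  have hA : Primrec fun a => KK (Gf (e a)) (kls (k a / 2).unpair.1 (bB (pl (k a / 2).unpair.2)))
      (FF (ti (m a)) (mb (cA (pl (k a / 2).unpair.2)) (σ a))) :=
    pf_KK he (pf_kls hc (pf_bB hp)) (pf_FF' (pf_ti hm) (pf_mb (pf_cA hp) hσ))
  have hB : Primrec fun a => KK (Gf (e a)) (kls (k a / 2).unpair.1 (bA (pl (k a / 2).unpair.2)))
      (FF (tj (m a)) (mb (cB (pl (k a / 2).unpair.2)) (σ a))) :=
    pf_KK he (pf_kls hc (pf_bA hp)) (pf_FF' (pf_tj hm) (pf_mb (pf_cB hp) hσ))
  refine S1.and (S1.of_prim (pp_LO hm hc hσ)) (S1.and ?_ (S1.of_prim ?_))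
  · refine S1.all_lt (p := fun a v => Pi (Gf (e a)) (m a) (k a / 2).unpair.1
      (pl (k a / 2).unpair.2) ((decode v.unpair.1).getD []) v.unpair.2) ?_ (by fun_prop)
    have hp' : Primrec fun x : α × ℕ => pl (k x.1 / 2).unpair.2 := pf_pl (by fun_prop)
    have hd : Primrec fun x : α × ℕ => ((decode x.2.unpair.1 : Option (List Bool))).getD [] :=
      Primrec.option_getD.comp (Primrec.decode.comp (by fun_prop)) (Primrec.const _)
    exact s1_Pi (by fun_prop) (by fun_prop) (by fun_prop) hp' hd (by fun_prop)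
  · refine PrimrecPred.or (PrimrecPred.and (pp_eq (by fun_prop) (Primrec.const 1))
      (pp_eq (pf_outb hk hσ hσ hn) hsb)) (PrimrecPred.and (pp_eq (by fun_prop) (Primrec.const 0))
      (PrimrecPred.and (pp_eq (pf_ty hp) (Primrec.const 2)) (PrimrecPred.or
      (PrimrecPred.and ?_ ?_) (PrimrecPred.and ?_ ?_))))
    · exact pp_JA he hm hc hp hn hσ
    · exact pp_eq (pf_outb hk hσ hA hn) hsb
    · exact pp_JB he hm hc hp hn hσ
    · exact pp_eq (pf_outb hk hB hσ hn) hsb

end prim

theorem pf_Gf : Primrec fun x : Code × ℕ × ℕ × List Bool => Gf x.1 x.2.1 x.2.2.1 x.2.2.2 :=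
  pf_G (by fun_prop) (by fun_prop) (by fun_prop) (by fun_prop)

theorem s1_DD {LF : (ℕ × ℕ × ℕ × Bool) × List Bool → Prop} (hL : S1 LF) : S1 (DD LF) := by
  have h := s1_D5 (α := (Code × ℕ) × (ℕ × Bool) × List Bool) (e := fun x => x.1.1)
    (m := fun x => x.1.2.unpair.1) (k := fun x => x.1.2.unpair.2) (n := fun x => x.2.1.1)
    (b := fun x => x.2.1.2) (σ := fun x => x.2.2) (by fun_prop) (by fun_prop) (by fun_prop)
    (by fun_prop) (by fun_prop) (by fun_prop)
  have h2 : S1 fun x : (Code × ℕ) × (ℕ × Bool) × List Bool =>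
      LF ((x.1.2.unpair.1, x.1.2.unpair.2, x.2.1.1, x.2.1.2), x.2.2) :=
    hL.comp (f := fun x : (Code × ℕ) × (ℕ × Bool) × List Bool =>
      ((x.1.2.unpair.1, x.1.2.unpair.2, x.2.1.1, x.2.1.2), x.2.2)) (by fun_prop)
  have h3 : Primrec fun x : (Code × ℕ) × (ℕ × Bool) × List Bool => LL x.1.2.unpair.1 :=
    pf_LL (by fun_prop)
  unfold DD D6
  exact S1.or (S1.and (S1.of_prim (pp_lt (by fun_prop) h3)) h2)
    (S1.and (S1.of_prim (PrimrecPred.and (pp_le h3 (by fun_prop)) (pp_le h3 (by fun_prop)))) h)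

end Pool.Agent.H649.NL
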