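import Pool.Agent.H649.NL.Exi
import Pool.Agent.H649.NL.Prd
import Pool.Agent.H649.PT.Rnd

set_option autoImplicit false

/-!
The sets of strings of the family are c.e. in the second jump.
-/

namespace Pool.Agent.H649.NL

open Encodable Pool.Agent.Helper227 Pool.Agent.H548R2.Post
open Nat.Partrec (Code)
open Pool.Agent.TH769.TP (FF Mon Lim lab Via via_iff lim_FF mon_FF lim_exists pre_lab lab_le le_lab)
open Pool.Agent.TH769.CD (bdd_lt)
open Pool.Agent.H649.PT (TEq O pf_FF' pp_prefix)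
open Pool.Agent.TH769.ZA (si_gen pf_sub)
open Pool.Agent.TH769.CD (pf_add pf_mul pf_div pf_mod pf_pow pf_getD pf_take
  pf_append pf_cons pf_length pf_range pf_natPair pf_unpair pf_encode pf_testBit pf_xorb pf_andb
  pf_hlt pf_xor pp_exlt pp_alllt pp_imp pp_eq pp_le pp_lt pp_mem pf_decide pf_pre pp_En pf_ext)

attribute [local fun_prop] Primrec
attribute [local fun_prop] Primrec.id Primrec.const Primrec.comp Primrec.pair Primrec.fst Primrec.snd
attribute [local fun_prop] pf_add pf_mul pf_div pf_mod pf_pow pf_getD pf_take pf_append pf_cons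
  pf_length pf_range pf_natPair pf_unpair pf_encode pf_testBit pf_xorb pf_andb pf_hlt pf_xor
  pf_sub

variable {F : ℕ → ℕ → List Bool → List Bool} {m c : ℕ}

theorem si_not_PP (e : Code) :
    SI (jump O) fun x : ℕ × ℕ × ℕ => ¬ PP (Gf e) x.1 x.2.1 (pl x.2.2) := by
  have h1 : S1 fun y : (ℕ × ℕ × ℕ) × (List Bool × ℕ) =>
      Pi (Gf e) y.1.1 y.1.2.1 (pl y.1.2.2) y.2.1 y.2.2 :=
    s1_Pi (e := fun _ : (ℕ × ℕ × ℕ) × (List Bool × ℕ) => e) (by fun_prop) (by fun_prop)
      (by fun_prop) (pf_pl (by fun_prop)) (by fun_prop) (by fun_prop)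
  have h2 : SI (jump O) fun y : (ℕ × ℕ × ℕ) × (List Bool × ℕ) =>
      ¬ Pi (Gf e) y.1.1 y.1.2.1 (pl y.1.2.2) y.2.1 y.2.2 := (SI.of_s1 (B := O) h1).decide_jump.2
  refine (SI.ex (p := fun (x : ℕ × ℕ × ℕ) (z : List Bool × ℕ) =>
    ¬ Pi (Gf e) x.1 x.2.1 (pl x.2.2) z.1 z.2) h2).of_eq fun x => ?_
  unfold PP
  push Not
  exact ⟨fun ⟨z, h⟩ => ⟨z.1, z.2, h⟩, fun ⟨a, b, h⟩ => ⟨(a, b), h⟩⟩

/-- the plans which are right -/
def Qr (F : ℕ → ℕ → List Bool → List Bool) (x : ℕ × ℕ × ℕ) : Prop :=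
  LL x.1 ≤ x.2.2 ∧ PP F x.1 x.2.1 (pl x.2.2)

/-- the least right plan -/
def Zr (F : ℕ → ℕ → List Bool → List Bool) (x : ℕ × ℕ × ℕ) : Prop :=
  Qr F x ∧ ∀ z < x.2.2, ¬ Qr F (x.1, x.2.1, z)

theorem si_Qr (e : Code) : SI (jump (jump O)) (Qr (Gf e)) ∧
    SI (jump (jump O)) fun x => ¬ Qr (Gf e) x := by
  have h1 := (si_not_PP e).decide_jump
  have h2 : PrimrecPred fun x : ℕ × ℕ × ℕ => LL x.1 ≤ x.2.2 :=
    pp_le (pf_LL (by fun_prop)) (by fun_prop)
  constructor
  · refine (SI.and (SI.of_prim h2) h1.2).of_eq fun x => ?_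
    unfold Qr
    rw [not_not]
  · refine (SI.or (SI.of_prim h2.not) h1.1).of_eq fun x => ?_
    unfold Qr
    rw [not_and_or]

theorem si_Zr (e : Code) : SI (jump (jump O)) (Zr (Gf e)) := by
  obtain ⟨h1, h2⟩ := si_Qr e
  refine SI.and h1 (SI.all_lt (p := fun (x : ℕ × ℕ × ℕ) z => ¬ Qr (Gf e) (x.1, x.2.1, z)) ?_
    (by fun_prop))
  exact h2.comp (f := fun y : (ℕ × ℕ × ℕ) × ℕ => (y.1.1, y.1.2.1, y.2)) (by fun_prop)

theorem Zr_iff (hP : HP F (m + 1)) {z : ℕ} : Zr F (m, cc F m, z) ↔ z = zz F m (cc F m) := by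
  have h0 := hP m (Nat.lt_succ_self m)
  constructor
  · rintro ⟨h1, h2⟩
    have h3 : zz F m (cc F m) ≤ z := Nat.sInf_le h1
    rcases Nat.eq_or_lt_of_le h3 with h4 | h4
    · exact h4.symm
    · exact absurd h0 (h2 _ h4)
  · rintro rfl
    refine ⟨h0, fun z hz h => ?_⟩
    have h3 : zz F m (cc F m) ≤ z := Nat.sInf_le h
    have h4 : z < zz F m (cc F m) := hz
    omega

/-- the history of a list of plans -/
def ch (L : List ℕ) : ℕ := L.foldl (fun c z => Nat.pair c z) 0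

theorem ch_take {L : List ℕ} {l : ℕ} (h : l < L.length) :
    ch (L.take (l + 1)) = Nat.pair (ch (L.take l)) (L.getD l 0) := by
  unfold ch
  rw [List.take_succ_eq_append_getElem h, List.foldl_append, List.getD_eq_getElem _ _ h]
  rfl

/-- the conditions on lists of plans -/
def Hr (F : ℕ → ℕ → List Bool → List Bool) (L : List ℕ) : Prop :=
  ∀ l < L.length, Zr F (l, ch (L.take l), L.getD l 0)

theorem Hr.cc (hP : ∀ m, HP F m) {L : List ℕ} (h : Hr F L) : ∀ l ≤ L.length,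
    ch (L.take l) = cc F l := by
  intro l
  induction l with
  | zero => intro _; rfl
  | succ l ih =>
    intro hl
    have h1 := ih (by omega)
    have h2 := h l (by omega)
    rw [h1, Zr_iff (hP (l + 1))] at h2
    rw [ch_take (by omega), h1, h2, cc_succ]

theorem exists_Hr (hP : ∀ m, HP F m) (m : ℕ) : ∃ L : List ℕ, L.length = m ∧ Hr F L := by
  induction m with
  | zero => exact ⟨[], rfl, fun l hl => absurd hl (Nat.not_lt_zero l)⟩
  | succ m ih =>
    obtain ⟨L, hL, h⟩ := ih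
    refine ⟨L ++ [zz F m (NL.cc F m)], by rw [List.length_append, hL]; rfl, fun l hl => ?_⟩
    rw [List.length_append, hL] at hl
    have hl' : l < m + 1 := hl
    rcases Nat.lt_succ_iff_lt_or_eq.1 hl' with h1 | rfl
    · rw [List.take_append_of_le_length (by omega), List.getD_append _ _ _ _ (by omega)]
      exact h l (by omega)
    · rw [← hL, List.take_left, List.getD_append_right _ _ _ _ le_rfl, Nat.sub_self]
      have h2 := h.cc hP L.length le_rfl
      rw [List.take_length] at h2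
      rw [h2]
      exact (Zr_iff (hP (L.length + 1))).2 rfl

theorem pf_ch {α : Type} [Primcodable α] {L : α → List ℕ} (hL : Primrec L) :
    Primrec fun a => ch (L a) := by
  unfold ch
  exact pf_foldl (h := fun _ (c z : ℕ) => Nat.pair c z) hL (Primrec.const 0) (by fun_prop)

theorem pf_takeN {α : Type} [Primcodable α] {n : α → ℕ} {L : α → List ℕ} (hn : Primrec n)
    (hL : Primrec L) : Primrec fun a => (L a).take (n a) := by
  exact Primrec.list_take.comp hn hL

theorem si_Hr (e : Code) : SI (jump (jump O)) (Hr (Gf e)) := by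
  refine SI.all_lt (p := fun (L : List ℕ) l => Zr (Gf e) (l, ch (L.take l), L.getD l 0)) ?_
    (by fun_prop)
  have h1 : Primrec fun y : List ℕ × ℕ => ch (y.1.take y.2) := pf_ch (pf_takeN (by fun_prop)
    (by fun_prop))
  have h2 : Primrec fun y : List ℕ × ℕ => y.1.getD y.2 0 :=
    (Primrec.list_getD 0).comp (by fun_prop) (by fun_prop)
  exact (si_Zr e).comp (f := fun y : List ℕ × ℕ => (y.2, ch (y.1.take y.2), y.1.getD y.2 0))
    (Primrec.pair (by fun_prop) (h1.pair h2))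

theorem si_Fam {e : Code} (hP : ∀ m, HP (Gf e) m) : ∀ Q ∈ Fam (Gf e),
    SI (jump (jump O)) fun τ : List Bool => τ ∈ Q := by
  rintro Q (((⟨q, rfl⟩ | ⟨q, rfl⟩) | ⟨q, rfl⟩) | ⟨q, rfl⟩)
  · exact SI.of_prim (pp_cmp (Primrec.const _) (pf_FF' (Primrec.const _)
      (pf_FF' (Primrec.const _) Primrec.id)) Primrec.id)
  · have h1 : S1 fun y : List Bool × ℕ => ∃ τ', y.1 <+: τ' ∧
        JX (Gf e) q.1 (NL.cc (Gf e) q.1) (pl q.2) y.2 τ' := by
      refine S1.ex (p := fun (y : List Bool × ℕ) τ' => y.1 <+: τ' ∧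
        JX (Gf e) q.1 (NL.cc (Gf e) q.1) (pl q.2) y.2 τ') (S1.of_prim (PrimrecPred.and
          (pp_prefix (by fun_prop) (by fun_prop)) ?_))
      exact pp_JX (Primrec.const _) (Primrec.const _) (Primrec.const _) (Primrec.const _)
        (by fun_prop) (by fun_prop)
    have h2 : SI (jump O) fun y : List Bool × ℕ => ¬ ∃ τ', y.1 <+: τ' ∧
        JX (Gf e) q.1 (NL.cc (Gf e) q.1) (pl q.2) y.2 τ' := (SI.of_s1 (B := O) h1).decide_jump.2
    refine ((SI.ex (p := fun (τ : List Bool) n => ¬ ∃ τ', τ <+: τ' ∧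
        JX (Gf e) q.1 (NL.cc (Gf e) q.1) (pl q.2) n τ') h2).decide_jump.1).of_eq fun τ => ?_
    show _ ↔ ∃ n, ∀ τ', τ <+: τ' → ¬ _
    refine exists_congr fun n => ?_
    push Not
    exact Iff.rfl
  · exact SI.of_prim (pp_JX (Primrec.const _) (Primrec.const _) (Primrec.const _)
      (Primrec.const _) (Primrec.const _) Primrec.id)
  · have h3 : PrimrecPred fun y : List Bool × (List Bool × List ℕ) =>
        y.2.2.length = encode (y.2.1, q) + 1 ∧
        rh (pl (y.2.2.getD (encode (y.2.1, q)) 0)) <+: y.1 := by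
      have h4 : Primrec fun y : List Bool × (List Bool × List ℕ) => encode (y.2.1, q) :=
        Primrec.encode.comp (by fun_prop)
      refine PrimrecPred.and (pp_eq (by fun_prop) (pf_add h4 (Primrec.const 1)))
        (pp_prefix (pf_rh (pf_pl ?_)) (by fun_prop))
      exact (Primrec.list_getD 0).comp (by fun_prop) h4
    have h5 : SI (jump (jump O)) fun y : List Bool × (List Bool × List ℕ) =>
        (y.2.2.length = encode (y.2.1, q) + 1 ∧
        rh (pl (y.2.2.getD (encode (y.2.1, q)) 0)) <+: y.1) ∧ Hr (Gf e) y.2.2 :=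
      SI.and (SI.of_prim h3) ((si_Hr e).comp (f := fun y : List Bool × (List Bool × List ℕ) =>
        y.2.2) (by fun_prop))
    refine (SI.ex (p := fun (τ : List Bool) (y : List Bool × List ℕ) =>
      (y.2.length = encode (y.1, q) + 1 ∧ rh (pl (y.2.getD (encode (y.1, q)) 0)) <+: τ) ∧
        Hr (Gf e) y.2) h5).of_eq fun τ => ?_
    show _ ↔ ∃ σ0 : List Bool,
      rh (pl (zz (Gf e) (encode (σ0, q)) (NL.cc (Gf e) (encode (σ0, q))))) <+: τ
    have key : ∀ (σ0 : List Bool) (L : List ℕ), L.length = encode (σ0, q) + 1 → Hr (Gf e) L →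
        L.getD (encode (σ0, q)) 0 =
          zz (Gf e) (encode (σ0, q)) (NL.cc (Gf e) (encode (σ0, q))) := by
      intro σ0 L hL hH
      have h6 := hH (encode (σ0, q)) (by omega)
      rw [hH.cc hP (encode (σ0, q)) (by omega), Zr_iff (hP _)] at h6
      exact h6
    constructor
    · rintro ⟨⟨σ0, L⟩, ⟨h6, h7⟩, h8⟩
      refine ⟨σ0, ?_⟩
      simp only at h6 h7 h8
      rw [key σ0 L h6 h8] at h7
      exact h7
    · rintro ⟨σ0, h6⟩
      obtain ⟨L, hL, hH⟩ := exists_Hr hP (encode (σ0, q) + 1)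
      refine ⟨(σ0, L), ⟨hL, ?_⟩, hH⟩
      show rh (pl (L.getD (encode (σ0, q)) 0)) <+: τ
      rw [key σ0 L hL hH]
      exact h6

end Pool.Agent.H649.NL
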