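import Pool.Agent.H649.NL.Abv

set_option autoImplicit false

/-!
The finite jumps of the empty set.
-/

namespace Pool.Agent.H649.NL

open Encodable MeasureTheory Pool.Agent.Helper227 Pool.Agent.H548R2.Post Pool.Agent.H649.PT
open Nat.Partrec (Code)
open Pool.Agent.TH769.ZA (si_gen pf_sub)
open Pool.Agent.TH769.CD (bdd_lt pf_add pf_mul pf_div pf_mod pf_pow pf_getD pf_take
  pf_append pf_cons pf_length pf_range pf_natPair pf_unpair pf_encode pf_testBit pf_xorb pf_andb
  pf_hlt pf_xor pp_exlt pp_alllt pp_imp pp_eq pp_le pp_lt pp_mem pf_decide pf_pre pp_En pf_ext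
  ext_pre_eq)

attribute [local fun_prop] Primrec
attribute [local fun_prop] Primrec.id Primrec.const Primrec.comp Primrec.pair Primrec.fst Primrec.snd
attribute [local fun_prop] pf_add pf_mul pf_div pf_mod pf_pow pf_getD pf_take pf_append pf_cons
  pf_length pf_range pf_natPair pf_unpair pf_encode pf_testBit pf_xorb pf_andb pf_hlt pf_xor
  pf_sub

/-- the first jumps of the empty set, in the columns -/
noncomputable def Hh (n : ℕ) : ℕ → Bool := fun z =>
  if z.unpair.1 ≤ n then jump^[z.unpair.1] O z.unpair.2 else false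

theorem Hh_pair (n i x : ℕ) : Hh n (Nat.pair i x) = if i ≤ n then jump^[i] O x else false := by
  unfold Hh
  rw [Nat.unpair_pair]

theorem c1_col : C1 fun (y : ℕ × ℕ) K => jump (fun t => K (Nat.pair y.1 t)) y.2 = true :=
  C1.sub (P := fun (y : ℕ × ℕ) X => jump X y.2 = true) (g := fun y t => Nat.pair y.1 t)
    (c1_jump.comp Primrec.snd) (by fun_prop)

/-- the conditions which describe the sequence `Hh n` -/
def HC (k : ℕ) (K : ℕ → Bool) (y : ℕ × ℕ) : Prop :=
  K (Nat.pair 0 y.2) = false ∧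
  ((k ≤ y.1 ∨ ((K (Nat.pair (y.1 + 1) y.2) = false ∨
      jump (fun t => K (Nat.pair y.1 t)) y.2 = true) ∧
    (¬ jump (fun t => K (Nat.pair y.1 t)) y.2 = true ∨ K (Nat.pair (y.1 + 1) y.2) = true))) ∧
  (y.1 ≤ k ∨ K (Nat.pair y.1 y.2) = false))

theorem eq_Hh {k : ℕ} {K : ℕ → Bool} : K = Hh k ↔ ∀ y, HC k K y := by
  constructor
  · rintro rfl ⟨i, x⟩
    have h0 : ∀ i ≤ k, (fun t => Hh k (Nat.pair i t)) = jump^[i] O := by
      intro i hi
      funext t
      rw [Hh_pair, if_pos hi]
    refine ⟨?_, ?_, ?_⟩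
    · simp only
      rw [Hh_pair, if_pos (Nat.zero_le _)]
      rfl
    · simp only
      by_cases hi : k ≤ i
      · exact Or.inl hi
      · right
        rw [h0 i (by omega), Hh_pair, if_pos (by omega), Function.iterate_succ_apply']
        cases jump (jump^[i] O) x <;> simp
    · simp only
      by_cases hi : i ≤ k
      · exact Or.inl hi
      · right
        rw [Hh_pair, if_neg hi]
  · intro h
    have h1 : ∀ i ≤ k, (fun t => K (Nat.pair i t)) = jump^[i] O := by
      intro i
      induction i with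
      | zero =>
        intro _
        funext t
        exact (h (0, t)).1
      | succ i ih =>
        intro hi
        have h2 := ih (by omega)
        funext t
        rw [Function.iterate_succ_apply']
        rcases (h (i, t)).2.1 with h3 | ⟨h3, h4⟩
        · simp only at h3
          omega
        · simp only at h3 h4
          rw [h2] at h3 h4
          cases hb : jump (jump^[i] O) t
          · rw [hb] at h3
            rcases h3 with h3 | h3
            · exact h3
            · cases h3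
          · rcases h4 with h4 | h4
            · exact absurd hb h4
            · exact h4
    funext z
    obtain ⟨i, x, rfl⟩ : ∃ i x, z = Nat.pair i x := ⟨z.unpair.1, z.unpair.2, by simp⟩
    rw [Hh_pair]
    by_cases hi : i ≤ k
    · rw [if_pos hi]
      exact congrFun (h1 i hi) x
    · rw [if_neg hi]
      rcases (h (i, x)).2.2 with h3 | h3
      · exact absurd h3 hi
      · exact h3

theorem c2_HC : C2 fun (x : (ℕ × ℕ) × (ℕ × ℕ)) K => HC x.1.2 K x.2 := by
  have hb : ∀ (b : Bool) (f : (ℕ × ℕ) × (ℕ × ℕ) → ℕ), Primrec f →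
      C1 fun (x : (ℕ × ℕ) × (ℕ × ℕ)) K => K (f x) = b := fun b f hf => (c1_bit b).comp hf
  have hJ : C1 fun (x : (ℕ × ℕ) × (ℕ × ℕ)) K =>
      jump (fun t => K (Nat.pair x.2.1 t)) x.2.2 = true :=
    c1_col.comp (f := fun x : (ℕ × ℕ) × (ℕ × ℕ) => x.2) (by fun_prop)
  unfold HC
  refine C2.and (C2.of1 (hb _ _ (by fun_prop))) (C2.and (C2.or ?_ (C2.and (C2.or ?_ ?_)
    (C2.or ?_ ?_))) (C2.or ?_ ?_))
  · exact C2.of1 (C1.s1 (S1.of_prim (pp_le (by fun_prop) (by fun_prop))))
  · exact C2.of1 (hb _ _ (by fun_prop))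
  · exact C2.of1 hJ
  · exact C2.neg hJ
  · exact C2.of1 (hb _ _ (by fun_prop))
  · exact C2.of1 (C1.s1 (S1.of_prim (pp_le (by fun_prop) (by fun_prop))))
  · exact C2.of1 (hb _ _ (by fun_prop))

/-- the class of these sequences -/
theorem sig3_Hh : Sig3 fun _ K => ∃ n, K = Hh n := by
  obtain ⟨δ, h2, h3⟩ := sig3_of (C2.all c2_HC)
  refine ⟨δ, h2, fun v' X => Iff.trans ?_ (h3 v' X)⟩
  exact exists_congr fun n => eq_Hh

theorem it_le_Hh {i n : ℕ} (h : i ≤ n) : TLe (jump^[i] O) (Hh n) := by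
  refine tLe_of_computable (f := fun x => Nat.pair i x) (Primrec.to_comp (by fun_prop))
    fun x => ?_
  rw [Hh_pair, if_pos h]

theorem Hh_le (n : ℕ) : TLe (Hh n) (jump^[n] O) := by
  induction n with
  | zero =>
    have h1 : Hh 0 = O := by
      funext z
      unfold Hh
      by_cases h : z.unpair.1 ≤ 0
      · rw [if_pos h]
        have h2 : z.unpair.1 = 0 := by omega
        rw [h2]
        rfl
      · rw [if_neg h]
        rfl
    rw [h1]
    exact TuringReducible.refl _
  | succ n ih =>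
    have h1 : TLe (Hh n) (jump^[n + 1] O) := by
      rw [Function.iterate_succ_apply']
      exact TLe.tr ih (tLe_jump _)
    refine TLe.tr (?_ : TLe (Hh (n + 1)) (join (jump^[n + 1] O) (Hh n)))
      (join_le (TuringReducible.refl _) h1)
    have hp : Primrec fun z : ℕ => if z.unpair.1 = n + 1 then 2 * z.unpair.2 else 2 * z + 1 :=
      Primrec.ite (pp_eq (by fun_prop) (by fun_prop)) (by fun_prop) (by fun_prop)
    refine tLe_of_computable hp.to_comp fun z => ?_
    by_cases h : z.unpair.1 = n + 1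
    · rw [if_pos h]
      unfold Hh join
      rw [if_pos (by omega), if_pos (by omega), h, show 2 * z.unpair.2 / 2 = z.unpair.2 by omega]
    · rw [if_neg h]
      unfold join
      rw [if_neg (by omega), show (2 * z + 1) / 2 = z by omega]
      unfold Hh
      by_cases h2 : z.unpair.1 ≤ n
      · rw [if_pos h2, if_pos (by omega)]
      · rw [if_neg h2, if_neg (by omega)]

theorem sp_Hh {n m : ℕ} (h : n < m) : Sp (Hh n) (Hh m) := by
  refine ⟨jump (Hh n), TuringReducible.refl _, not_jump_le _, ?_⟩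
  have h1 : TLe (jump (Hh n)) (jump^[n + 1] O) := by
    rw [Function.iterate_succ_apply']
    exact (Hh_le n).jump
  exact TLe.tr h1 (it_le_Hh h)

/-- one index for all finite jumps -/
theorem hier : ∃ (e : ℕ) (C : ℕ → ℕ → Bool),
    (∀ n, (∃ i, C n = chr (WE (jump^[n] O) i)) ∧ TLe (jump^[n] O) (C n) ∧
      ¬ TLe (C n) (jump^[n] O) ∧ TLe (jump (C n)) (jump^[n + 1] O)) ∧
    (∀ X, Btw X (chr (WE X e))) ∧
    (∀ n A X, MLR (jump^[n + 1] O) A → TEq (join (jump^[n] O) A) X →
      TEq (chr (WE X e)) (join X (C n))) ∧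
    ∀ A, Gen1 (jump (jump O)) A → ∀ X Y, TEq X A → TEq Y A →
      TEq (chr (WE X e)) (chr (WE Y e)) := by
  obtain ⟨c, hc⟩ := exists_low_op
  obtain ⟨e, h1, h2, h3⟩ := above hc sig3_Hh (by
    rintro K L ⟨n, rfl⟩ ⟨m, rfl⟩ hne
    rcases Nat.lt_trichotomy n m with h | h | h
    · exact Or.inl (sp_Hh h)
    · exact absurd (congrArg Hh h) hne
    · exact Or.inr (sp_Hh h))
  have hj : ∀ n, TLe (jump (Hh n)) (jump^[n + 1] O) := fun n => by
    rw [Function.iterate_succ_apply']
    exact (Hh_le n).jump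
  refine ⟨e, fun n => chr (WE (Hh n) c), fun n => ⟨?_, ?_, ?_, ?_⟩, h1, fun n A X hA hX => ?_, h3⟩
  · have h4 : SI (jump^[n] O) fun x : ℕ => x ∈ WE (Hh n) c :=
      ((si_WE (Hh n)).comp (f := fun x : ℕ => (c, x)) (by fun_prop)).trans (Hh_le n)
    obtain ⟨i, hi⟩ := ceIn_iff_exists_WE.1 (SI.iff_ceIn.2 h4)
    refine ⟨i, ?_⟩
    show chr (WE (Hh n) c) = _
    rw [← hi]
  · exact TLe.tr (it_le_Hh le_rfl) (hc (Hh n)).1
  · intro h
    exact (hc (Hh n)).2.1 (TLe.tr h (it_le_Hh le_rfl))
  · exact TLe.tr (hc (Hh n)).2.2 (hj n)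
  · refine h2 (Hh n) A X ⟨n, rfl⟩ (Or.inr (MLR.mono (hj n) hA)) (TEq.trans ?_ hX)
    exact ⟨join_le (TLe.tr (Hh_le n) (le_join_left _ _)) (le_join_right _ _),
      join_le (TLe.tr (it_le_Hh le_rfl) (le_join_left _ _)) (le_join_right _ _)⟩

end Pool.Agent.H649.NL
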