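import Pool.Agent.H649.NL.Hw
import Pool.Agent.H649.NL.Ext

set_option autoImplicit false

/-!
The jump hierarchy along the well-founded part of a computable linear ordering.
-/

namespace Pool.Agent.H649.NL

open Encodable MeasureTheory Pool.Agent.Helper227 Pool.Agent.H548R2.Post Pool.Agent.H649.PT
open Nat.Partrec (Code)
open Pool.Agent.TH769.ZA (si_gen pf_sub)
open Pool.Agent.TH769.CD (bdd_lt pf_add pf_mul pf_div pf_mod pf_pow pf_getD pf_take
  pf_append pf_cons pf_length pf_range pf_natPair pf_unpair pf_encode pf_testBit pf_xorb pf_andb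
  pf_hlt pf_xor pp_exlt pp_alllt pp_imp pp_eq pp_le pp_lt pp_mem pf_decide pf_pre pp_En pf_ext
  ext_pre_eq)

attribute [local fun_prop] Primrec
attribute [local fun_prop] Primrec.id Primrec.const Primrec.comp Primrec.pair Primrec.fst Primrec.snd
attribute [local fun_prop] pf_add pf_mul pf_div pf_mod pf_pow pf_getD pf_take pf_append pf_cons
  pf_length pf_range pf_natPair pf_unpair pf_encode pf_testBit pf_xorb pf_andb pf_hlt pf_xor
  pf_sub

/-- the application to the random sequences above the good members `S0` of a class `S` -/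
theorem above' {c : ℕ} (hc : ∀ K : ℕ → Bool, TLe K (chr (WE K c)) ∧ ¬ TLe (chr (WE K c)) K ∧
    TLe (jump (chr (WE K c))) (jump K)) {S S0 : (ℕ → Bool) → Prop} (hS : Sig3 fun _ K => S K)
    (hS0 : ∀ K, S0 K → S K)
    (hS2 : ∀ K L, S0 K → S L → K ≠ L → Sp K L ∨ Sp L K)
    (hS3 : ∀ K, S K → ¬ S0 K → TLe (jump O) K) :
    ∃ e : ℕ, (∀ X, Btw X (chr (WE X e))) ∧
      (∀ K A X, S0 K → Gd K A → TEq (join K A) X →
        TEq (chr (WE X e)) (join X (chr (WE K c)))) ∧
      ∀ D, (Gen1 (jump (jump O)) D ∨ MLR (jump O) D) → ∀ X Y, TEq X D → TEq Y D →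
        TEq (chr (WE X e)) (chr (WE Y e)) := by
  obtain ⟨v, hv⟩ := exists_ev_ix c
  obtain ⟨E, hE, -, -, hU⟩ := Pool.Agent.Helper227.exists_universal
  obtain ⟨P, hP, hPS⟩ := of_sig3 hS
  have hR : Sig3 fun v' Z => v' = v ∧ S (evp Z) ∧ Gd (evp Z) (odp Z) := by
    have h1 : C2 fun (x : ℕ × ℕ) (Z : ℕ → Bool) => x.1 = v ∧ P (0, x.2.unpair.1) (evp Z) ∧
        (odp Z = O ∨ odp Z ∉ UE E (jump (evp Z)) x.2.unpair.2) := by
      refine C2.and (C2.of1 (C1.s1 (S1.of_prim (pp_eq (by fun_prop) (by fun_prop)))))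
        (C2.and ?_ (C2.or ?_ ?_))
      · exact (C2.evp hP).comp (f := fun x : ℕ × ℕ => (0, x.2.unpair.1)) (by fun_prop)
      · exact c2_zero.comp (f := fun x : ℕ × ℕ => x.2.unpair.2) (by fun_prop)
      · exact (c2_test hE).comp (f := fun x : ℕ × ℕ => x.2.unpair.2) (by fun_prop)
    obtain ⟨δ, h2, h3⟩ := sig3_of h1
    refine ⟨δ, h2, fun v' X => Iff.trans ?_ (h3 v' X)⟩
    show (v' = v ∧ S (evp X) ∧ (odp X = O ∨ MLR (jump (evp X)) (odp X))) ↔ ∃ k : ℕ, v' = v ∧
      P (0, k.unpair.1) (evp X) ∧ (odp X = O ∨ odp X ∉ UE E (jump (evp X)) k.unpair.2)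
    rw [hU, hPS 0]
    constructor
    · rintro ⟨h4, ⟨k, h5⟩, h6⟩
      rcases h6 with h6 | ⟨n, h6⟩
      · refine ⟨Nat.pair k 0, h4, ?_⟩
        rw [Nat.unpair_pair]
        exact ⟨h5, Or.inl h6⟩
      · refine ⟨Nat.pair k n, h4, ?_⟩
        rw [Nat.unpair_pair]
        exact ⟨h5, Or.inr h6⟩
    · rintro ⟨k, h4, h5, h6⟩
      exact ⟨h4, ⟨_, h5⟩, h6.imp id fun h => ⟨_, h⟩⟩
  obtain ⟨e, h1, h2, h3⟩ := extendM hR
    (by
      rintro w Z ⟨rfl, -, hZ⟩
      rw [hv]
      exact btw_ev hc hZ)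
  have key : ∀ K A X, S0 K → Gd K A → TEq (join K A) X →
      TEq (chr (WE X e)) (join X (chr (WE K c))) := by
    intro K A X hK hA hX
    obtain ⟨w, Z, ⟨rfl, hZ1, hZ2⟩, hZX, h4⟩ := h2 v (join K A) X
      ⟨rfl, by rw [ev_join]; exact hS0 K hK, by rwa [ev_join, od_join]⟩ hX
    have h5 : K = evp Z := by
      by_contra hne
      rcases hS2 _ _ hK hZ1 hne with h6 | h6
      · refine sp_ne (B := odp Z) h6 hA ?_
        rw [join_ev_od]
        exact TLe.tr hZX.1 hX.2
      · refine sp_ne (B := A) h6 hZ2 ?_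
        rw [join_ev_od]
        exact TLe.tr hX.1 hZX.2
    rw [hv, ← h5] at h4
    exact h4.symm.trans (join_congr hZX)
  refine ⟨e, h1, key, fun D hD X Y hX hY => ?_⟩
  by_cases h4 : ∀ v' B, (v' = v ∧ S (evp B) ∧ Gd (evp B) (odp B)) → ¬ TEq B D
  · exact h3 D hD h4 X Y hX hY
  · push Not at h4
    obtain ⟨v', B, ⟨-, h5, h6⟩, h7⟩ := h4
    have h8 : S0 (evp B) := by
      by_contra hc'
      have h9 : TLe (jump O) D := TLe.tr (hS3 _ h5 hc') (TLe.tr (ev_le B) h7.1)
      have h10 : TLe (jump O) (join D O) := TLe.tr h9 (le_join_left _ _)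
      rcases hD with hD | hD
      · exact gen_avoid hD (le_O_any _) (si_jump O) (not_jump_le O) h10
      · exact mlr_avoid (TuringReducible.refl _) (TuringReducible.refl _) (not_jump_le O) hD h10
    have h9 : ∀ X, TEq X D → TEq (chr (WE X e)) (join D (chr (WE (evp B) c))) := by
      intro X hX
      refine (key (evp B) (odp B) X h8 h6 ?_).trans (join_congr hX)
      rw [join_ev_od]
      exact h7.trans hX.symm
    exact (h9 X hX).trans (h9 Y hY).symm

/-- the equation of the hierarchy, for the well-founded part -/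
def IsHa (r : ℕ → ℕ → Prop) (H : ℕ → ℕ → Bool) : Prop :=
  ∀ n, Acc r n → ∀ m x, H n (Nat.pair m x) = true ↔ r m n ∧ jump (H m) x = true

section

variable {r : ℕ → ℕ → Prop}

theorem wf_restr (r : ℕ → ℕ → Prop) : WellFounded fun a b => r a b ∧ Acc r b := by
  refine ⟨fun n => ?_⟩
  by_cases hn : Acc r n
  · induction hn with
    | intro n _ ih => exact ⟨_, fun m hm => ih m hm.1⟩
  · exact ⟨_, fun m hm => absurd hm.2 hn⟩

theorem exists_Ha (r : ℕ → ℕ → Prop) : ∃ H : ℕ → ℕ → Bool, IsHa r H := by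
  obtain ⟨H, hH⟩ := exists_H (wf_restr r)
  refine ⟨H, fun n hn m x => ?_⟩
  rw [hH]
  exact ⟨fun h => ⟨h.1.1, h.2⟩, fun h => ⟨⟨h.1, hn⟩, h.2⟩⟩

theorem HD_col [∀ a b, Decidable (r a b)] (ht : ∀ a b c, r a b → r b c → r a c)
    {H : ℕ → ℕ → Bool} (hH : IsHa r H) {k : ℕ} {K : ℕ → Bool} (h : ∀ y, HD r k K y) {m : ℕ}
    (ha : Acc r m) : r m k → ∀ x, K (Nat.pair m x) = jump (H m) x := by
  induction ha with
  | intro m ha' ih =>
    intro hm x
    have h2 : (fun z => decide (r z.unpair.1 m) && K z) = H m := by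
      funext z
      obtain ⟨l, y, rfl⟩ : ∃ l y, z = Nat.pair l y := ⟨z.unpair.1, z.unpair.2, by simp⟩
      refine bool_eq ?_
      rw [Nat.unpair_pair, Bool.and_eq_true, decide_eq_true_iff, hH m (Acc.intro m ha')]
      constructor
      · rintro ⟨h3, h4⟩
        rw [ih l h3 (ht _ _ _ h3 hm)] at h4
        exact ⟨h3, h4⟩
      · rintro ⟨h3, h4⟩
        rw [ih l h3 (ht _ _ _ h3 hm)]
        exact ⟨h3, h4⟩
    rcases (h (m, x)).1 with h3 | ⟨h3, h4⟩
    · exact absurd hm h3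
    · simp only at h3 h4
      rw [h2] at h3 h4
      cases hb : jump (H m) x
      · rw [hb] at h3
        rcases h3 with h3 | h3
        · exact h3
        · cases h3
      · rcases h4 with h4 | h4
        · exact absurd hb h4
        · exact h4

theorem eq_Ha [∀ a b, Decidable (r a b)] (ht : ∀ a b c, r a b → r b c → r a c)
    {H : ℕ → ℕ → Bool} (hH : IsHa r H) {k : ℕ} (hk : Acc r k) {K : ℕ → Bool} :
    K = H k ↔ ∀ y, HD r k K y := by
  constructor
  · rintro rfl ⟨m, x⟩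
    unfold HD
    simp only
    by_cases hm : r m k
    · refine ⟨Or.inr ?_, Or.inl hm⟩
      have h1 : (fun z => decide (r z.unpair.1 m) && H k z) = H m := by
        funext z
        obtain ⟨l, y, rfl⟩ : ∃ l y, z = Nat.pair l y := ⟨z.unpair.1, z.unpair.2, by simp⟩
        refine bool_eq ?_
        rw [Nat.unpair_pair, Bool.and_eq_true, decide_eq_true_iff, hH k hk, hH m (hk.inv hm)]
        exact ⟨fun h => ⟨h.1, h.2.2⟩, fun h => ⟨h.1, ht _ _ _ h.1 hm, h.2⟩⟩
      rw [h1]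
      have h2 : H k (Nat.pair m x) = jump (H m) x := by
        refine bool_eq ?_
        rw [hH k hk]
        exact ⟨fun h => h.2, fun h => ⟨hm, h⟩⟩
      rw [h2]
      cases jump (H m) x <;> simp
    · refine ⟨Or.inl hm, Or.inr ?_⟩
      by_contra hc
      exact hm ((hH k hk m x).1 (by simpa using hc)).1
  · intro h
    funext z
    obtain ⟨m, x, rfl⟩ : ∃ m x, z = Nat.pair m x := ⟨z.unpair.1, z.unpair.2, by simp⟩
    by_cases hm : r m k
    · rw [HD_col ht hH h (hk.inv hm) hm x]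
      refine bool_eq ?_
      rw [hH k hk]
      exact ⟨fun h => ⟨hm, h⟩, fun h => h.2⟩
    · rcases (h (m, x)).2 with h3 | h3
      · exact absurd h3 hm
      · simp only at h3
        rw [h3]
        by_contra hc
        exact hm ((hH k hk m x).1 (by simpa using Ne.symm hc)).1

theorem le_of_col {K L : ℕ → Bool} {n : ℕ} (h : ∀ x, L (Nat.pair n x) = jump K x) :
    TLe (jump K) L :=
  tLe_of_computable (f := fun x => Nat.pair n x) (Primrec.to_comp (by fun_prop)) fun x =>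
    (h x).symm

theorem sp_col {K L : ℕ → Bool} {n : ℕ} (h : ∀ x, L (Nat.pair n x) = jump K x) : Sp K L :=
  ⟨jump K, TuringReducible.refl _, not_jump_le _, le_of_col h⟩

/-- one index for all levels of the hierarchy in the well-founded part -/
theorem hierL (hr : ComputablePred fun p : ℕ × ℕ => r p.1 p.2)
    (ht : ∀ a b c, r a b → r b c → r a c) (hq : ∀ a b, r a b ∨ a = b ∨ r b a)
    {H : ℕ → ℕ → Bool} (hH : IsHa r H) : ∃ (e : ℕ) (C : ℕ → ℕ → Bool),
    (∀ n, (∃ i, C n = chr (WE (H n) i)) ∧ TLe (H n) (C n) ∧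
      ¬ TLe (C n) (H n) ∧ TLe (jump (C n)) (jump (H n))) ∧
    (∀ X, Btw X (chr (WE X e))) ∧
    (∀ n A X, Acc r n → Gd (H n) A → TEq (join (H n) A) X →
      TEq (chr (WE X e)) (join X (C n))) ∧
    ∀ D, (Gen1 (jump (jump O)) D ∨ MLR (jump O) D) → ∀ X Y, TEq X D → TEq Y D →
      TEq (chr (WE X e)) (chr (WE Y e)) := by
  classical
  obtain ⟨c, hc⟩ := exists_low_op
  by_cases hne : ∃ n0, Acc r n0
  · obtain ⟨n0, hn0⟩ := hne
    obtain ⟨e, h1, h2, h3⟩ := above' hc (S := fun K => ∃ k, ∀ y, HD r k K y)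
      (S0 := fun K => ∃ n, Acc r n ∧ K = H n) (by
        obtain ⟨δ, h2, h3⟩ := sig3_of (C2.all (c2_HD hr))
        exact ⟨δ, h2, fun v' X => h3 v' X⟩) (by
        rintro K ⟨n, hn, hK⟩
        exact ⟨n, (eq_Ha ht hH hn).1 hK⟩) (by
        rintro K L ⟨n, hn, rfl⟩ ⟨k, hk⟩ hne
        rcases hq n k with h | h | h
        · exact Or.inl (sp_col (HD_col ht hH hk hn h))
        · subst h
          exact absurd ((eq_Ha ht hH hn).2 hk).symm hne
        · have h5 : L = H k := (eq_Ha ht hH (hn.inv h)).2 hk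
          refine Or.inr ?_
          rw [h5]
          refine sp_col (n := k) fun x => bool_eq ?_
          rw [hH n hn]
          exact ⟨fun h1 => h1.2, fun h1 => ⟨h, h1⟩⟩) (by
        rintro K ⟨k, hk⟩ hK
        have h5 : ¬ Acc r k := fun h => hK ⟨k, h, (eq_Ha ht hH h).2 hk⟩
        rcases hq n0 k with h | h | h
        · exact TLe.tr (le_O_any (H n0)).jump (le_of_col (HD_col ht hH hk hn0 h))
        · subst h
          exact absurd hn0 h5
        · exact absurd (hn0.inv h) h5)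
    exact ⟨e, fun n => chr (WE (H n) c), fun n => ⟨⟨c, rfl⟩, (hc (H n)).1, (hc (H n)).2.1,
      (hc (H n)).2.2⟩, h1, fun n A X hn hA hX => h2 (H n) A X ⟨n, hn, rfl⟩ hA hX, h3⟩
  · push Not at hne
    have hR : Sig3 fun (_ : ℕ) (_ : ℕ → Bool) => False := by
      have h1 : C2 fun (_ : ℕ × ℕ) (_ : ℕ → Bool) => False :=
        C2.of1 (C1.s1 (S1.of_prim ((pp_eq (Primrec.const 0) (Primrec.const 1)).of_eq fun _ => by
          simp)))
      obtain ⟨δ, h2, h3⟩ := sig3_of h1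
      refine ⟨δ, h2, fun v' X => Iff.trans ?_ (h3 v' X)⟩
      simp
    obtain ⟨e, h1, -, h3⟩ := extendM hR (fun _ _ h => h.elim)
    exact ⟨e, fun n => chr (WE (H n) c), fun n => ⟨⟨c, rfl⟩, (hc (H n)).1, (hc (H n)).2.1,
      (hc (H n)).2.2⟩, h1, fun n A X hn => absurd hn (hne n), fun D hD => h3 D hD
        fun _ _ h => h.elim⟩

end

end Pool.Agent.H649.NL
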