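import Pool.Agent.H649.NL.Hie

set_option autoImplicit false

/-!
The jump hierarchy along a computable well-ordering.
-/

namespace Pool.Agent.H649.NL

open Encodable MeasureTheory Pool.Agent.Helper227 Pool.Agent.H548R2.Post Pool.Agent.H649.PT
open Nat.Partrec (Code)
open Pool.Agent.TH769.ZA (si_gen pf_sub)
open Pool.Agent.TH769.CD (bdd_lt pf_add pf_mul pf_div pf_mod pf_pow pf_getD pf_take
  pf_append pf_cons pf_length pf_range pf_natPair pf_unpair pf_encode pf_testBit pf_xorb pf_andb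
  pf_hlt pf_xor pp_exlt pp_alllt pp_imp pp_eq pp_le pp_lt pp_mem pf_decide pf_pre pp_En pf_ext
  ext_pre_eq)

attribute [local fun_prop] Primrec
attribute [local fun_prop] Primrec.id Primrec.const Primrec.comp Primrec.pair Primrec.fst Primrec.snd
attribute [local fun_prop] pf_add pf_mul pf_div pf_mod pf_pow pf_getD pf_take pf_append pf_cons
  pf_length pf_range pf_natPair pf_unpair pf_encode pf_testBit pf_xorb pf_andb pf_hlt pf_xor
  pf_sub

section

variable {α : Type} [Primcodable α]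

/-- substitution, followed by a computable function -/
theorem C1.subF {P : α → (ℕ → Bool) → Prop} (h : C1 P) {f : α → ℕ → Bool → Bool}
    (hf : Computable fun x : α × ℕ × Bool => f x.1 x.2.1 x.2.2) :
    C1 fun a X => P a fun x => f a x (X x) := by
  obtain ⟨Q, h1, h2, h3⟩ := h
  have hb : ∀ b : Bool, S1 fun y : ((α × List Bool) × List Bool) × ℕ =>
      y.1.1.2[y.2]? = some b ∧ f y.1.1.1 y.2 b = y.1.2.getD y.2 false := by
    intro b
    refine S1.and (S1.of_prim (pp_eq (Primrec.list_getElem?.comp (by fun_prop) (by fun_prop))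
      (Primrec.const _))) ?_
    have h5 : S1 fun z : Bool × Bool => z.1 = z.2 :=
      S1.of_prim (pp_eq (by fun_prop) (by fun_prop))
    refine S1.comp_computable (f := fun y : ((α × List Bool) × List Bool) × ℕ =>
      (f y.1.1.1 y.2 b, y.1.2.getD y.2 false)) h5 (Computable.pair ?_ (Primrec.to_comp
        (by fun_prop)))
    exact hf.comp (g := fun y : ((α × List Bool) × List Bool) × ℕ => (y.1.1.1, y.2, b))
      (Primrec.to_comp (by fun_prop))
  have h4 : S1 fun x : α × List Bool => ∃ ρ : List Bool, Q (x.1, ρ) ∧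
      ∀ i < ρ.length, ((x.2[i]? = some true ∧ f x.1 i true = ρ.getD i false) ∨
        (x.2[i]? = some false ∧ f x.1 i false = ρ.getD i false)) := by
    refine S1.ex (S1.and (h1.comp (f := fun y : (α × List Bool) × List Bool => (y.1.1, y.2))
      (by fun_prop)) ?_)
    refine S1.all_lt (p := fun (y : (α × List Bool) × List Bool) i =>
      ((y.1.2[i]? = some true ∧ f y.1.1 i true = y.2.getD i false) ∨
        (y.1.2[i]? = some false ∧ f y.1.1 i false = y.2.getD i false))) ?_ (by fun_prop)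
    exact S1.or (hb true) (hb false)
  refine (C1.of h4).of_eq fun a X => ?_
  rw [h3]
  constructor
  · rintro ⟨m, ρ, h5, h6⟩
    refine ⟨ρ.length, ?_⟩
    have h7 : pre (fun x => f a x (X x)) ρ.length = ρ := by
      refine List.ext_getElem (by simp) fun i h8 h9 => ?_
      rw [getElem_pre]
      have h10 := h6 i h9
      simp only at h10
      rw [List.getD_eq_getElem _ _ h9] at h10
      rcases h10 with ⟨h10, h11⟩ | ⟨h10, h11⟩
      · obtain ⟨h12, h13⟩ := List.getElem?_eq_some_iff.1 h10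
        rw [← h11, ← h13, getElem_pre]
      · obtain ⟨h12, h13⟩ := List.getElem?_eq_some_iff.1 h10
        rw [← h11, ← h13, getElem_pre]
    rw [h7]
    exact h5
  · rintro ⟨m, h5⟩
    refine ⟨m, _, h5, fun i hi => ?_⟩
    rw [length_pre] at hi
    simp only
    rw [pre_getElem? _ _ _ hi, pre_getD _ _ _ _ hi]
    cases hX : X i <;> simp [hX]

end

/-- the equation of the hierarchy -/
def IsH (r : ℕ → ℕ → Prop) (H : ℕ → ℕ → Bool) : Prop :=
  ∀ n m x, H n (Nat.pair m x) = true ↔ r m n ∧ jump (H m) x = true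

section

variable {r : ℕ → ℕ → Prop}

theorem exists_H (hw : WellFounded r) : ∃ H : ℕ → ℕ → Bool, IsH r H := by
  classical
  refine ⟨hw.fix fun n ih z =>
    if h : r z.unpair.1 n then jump (ih z.unpair.1 h) z.unpair.2 else false, fun n m x => ?_⟩
  rw [hw.fix_eq]
  simp only [Nat.unpair_pair]
  by_cases h : r m n
  · simp [h]
    rw [Nat.unpair_pair]
  · simp [h]

theorem c1_restr (hr : ComputablePred fun p : ℕ × ℕ => r p.1 p.2) [∀ a b, Decidable (r a b)] :
    C1 fun (y : ℕ × ℕ) K => jump (fun z => decide (r z.unpair.1 y.1) && K z) y.2 = true := by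
  obtain ⟨hd, hc⟩ := hr
  refine C1.subF (P := fun (y : ℕ × ℕ) X => jump X y.2 = true)
    (f := fun y z b => decide (r z.unpair.1 y.1) && b) (c1_jump.comp Primrec.snd) ?_
  have h1 : Computable fun x : (ℕ × ℕ) × ℕ × Bool => decide (r x.2.1.unpair.1 x.1.1) := by
    refine (hc.comp (f := fun p : ℕ × ℕ => decide (r p.1 p.2))
      (g := fun x : (ℕ × ℕ) × ℕ × Bool => (x.2.1.unpair.1, x.1.1)) (Primrec.to_comp
        (by fun_prop))).of_eq fun x => ?_
    simp only [decide_eq_decide]
  exact (Primrec.and.to_comp (f := fun a b : Bool => a && b)).comp h1 (Primrec.to_comp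
    (by fun_prop))

/-- the conditions which describe the member `k` of the hierarchy -/
def HD (r : ℕ → ℕ → Prop) [∀ a b, Decidable (r a b)] (k : ℕ) (K : ℕ → Bool) (y : ℕ × ℕ) : Prop :=
  (¬ r y.1 k ∨ ((K (Nat.pair y.1 y.2) = false ∨
      jump (fun z => decide (r z.unpair.1 y.1) && K z) y.2 = true) ∧
    (¬ jump (fun z => decide (r z.unpair.1 y.1) && K z) y.2 = true ∨
      K (Nat.pair y.1 y.2) = true))) ∧
  (r y.1 k ∨ K (Nat.pair y.1 y.2) = false)

theorem bool_eq {a b : Bool} (h : a = true ↔ b = true) : a = b := Bool.eq_iff_iff.2 h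

theorem eq_H [∀ a b, Decidable (r a b)] (hw : WellFounded r)
    (ht : ∀ a b c, r a b → r b c → r a c) {H : ℕ → ℕ → Bool} (hH : IsH r H) {k : ℕ}
    {K : ℕ → Bool} : K = H k ↔ ∀ y, HD r k K y := by
  constructor
  · rintro rfl ⟨m, x⟩
    unfold HD
    simp only
    by_cases hm : r m k
    · refine ⟨Or.inr ?_, Or.inl hm⟩
      have h1 : (fun z => decide (r z.unpair.1 m) && H k z) = H m := by
        funext z
        obtain ⟨l, y, rfl⟩ : ∃ l y, z = Nat.pair l y := ⟨z.unpair.1, z.unpair.2, by simp⟩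
        refine bool_eq ?_
        rw [Nat.unpair_pair, Bool.and_eq_true, decide_eq_true_iff, hH, hH]
        exact ⟨fun h => ⟨h.1, h.2.2⟩, fun h => ⟨h.1, ht _ _ _ h.1 hm, h.2⟩⟩
      rw [h1]
      have h2 : H k (Nat.pair m x) = jump (H m) x := by
        refine bool_eq ?_
        rw [hH]
        exact ⟨fun h => h.2, fun h => ⟨hm, h⟩⟩
      rw [h2]
      cases jump (H m) x <;> simp
    · refine ⟨Or.inl hm, Or.inr ?_⟩
      by_contra hc
      exact hm ((hH k m x).1 (by simpa using hc)).1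
  · intro h
    have h1 : ∀ m, r m k → ∀ x, K (Nat.pair m x) = jump (H m) x := by
      intro m
      induction m using hw.induction with
      | _ m ih =>
        intro hm x
        have h2 : (fun z => decide (r z.unpair.1 m) && K z) = H m := by
          funext z
          obtain ⟨l, y, rfl⟩ : ∃ l y, z = Nat.pair l y := ⟨z.unpair.1, z.unpair.2, by simp⟩
          refine bool_eq ?_
          rw [Nat.unpair_pair, Bool.and_eq_true, decide_eq_true_iff, hH]
          constructor
          · rintro ⟨h3, h4⟩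
            rw [ih l h3 (ht _ _ _ h3 hm)] at h4
            exact ⟨h3, h4⟩
          · rintro ⟨h3, h4⟩
            rw [ih l h3 (ht _ _ _ h3 hm)]
            exact ⟨h3, h4⟩
        rcases (h (m, x)).1 with h3 | ⟨h3, h4⟩
        · exact absurd hm h3
        · simp only at h3 h4
          rw [h2] at h3 h4
          cases hb : jump (H m) x
          · rw [hb] at h3
            rcases h3 with h3 | h3
            · exact h3
            · cases h3
          · rcases h4 with h4 | h4
            · exact absurd hb h4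
            · exact h4
    funext z
    obtain ⟨m, x, rfl⟩ : ∃ m x, z = Nat.pair m x := ⟨z.unpair.1, z.unpair.2, by simp⟩
    by_cases hm : r m k
    · rw [h1 m hm x]
      refine bool_eq ?_
      rw [hH]
      exact ⟨fun h => ⟨hm, h⟩, fun h => h.2⟩
    · rcases (h (m, x)).2 with h3 | h3
      · exact absurd h3 hm
      · simp only at h3
        rw [h3]
        by_contra hc
        exact hm ((hH k m x).1 (by simpa using Ne.symm hc)).1

theorem c2_HD [∀ a b, Decidable (r a b)] (hr : ComputablePred fun p : ℕ × ℕ => r p.1 p.2) :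
    C2 fun (x : (ℕ × ℕ) × (ℕ × ℕ)) K => HD r x.1.2 K x.2 := by
  have hb : ∀ (b : Bool) (f : (ℕ × ℕ) × (ℕ × ℕ) → ℕ), Primrec f →
      C1 fun (x : (ℕ × ℕ) × (ℕ × ℕ)) K => K (f x) = b := fun b f hf => (c1_bit b).comp hf
  have hJ : C1 fun (x : (ℕ × ℕ) × (ℕ × ℕ)) K =>
      jump (fun z => decide (r z.unpair.1 x.2.1) && K z) x.2.2 = true :=
    (c1_restr hr).comp (f := fun x : (ℕ × ℕ) × (ℕ × ℕ) => x.2) (by fun_prop)
  have hr1 : S1 fun x : (ℕ × ℕ) × (ℕ × ℕ) => r x.2.1 x.1.2 :=
    (S1.of_re hr.to_re).comp (f := fun x : (ℕ × ℕ) × (ℕ × ℕ) => (x.2.1, x.1.2)) (by fun_prop)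
  have hr2 : S1 fun x : (ℕ × ℕ) × (ℕ × ℕ) => ¬ r x.2.1 x.1.2 :=
    (S1.of_re hr.not.to_re).comp (f := fun x : (ℕ × ℕ) × (ℕ × ℕ) => (x.2.1, x.1.2)) (by fun_prop)
  unfold HD
  refine C2.and (C2.or (C2.of1 (C1.s1 hr2)) (C2.and (C2.or ?_ ?_) (C2.or ?_ ?_)))
    (C2.or (C2.of1 (C1.s1 hr1)) ?_)
  · exact C2.of1 (hb _ _ (by fun_prop))
  · exact C2.of1 hJ
  · exact C2.neg hJ
  · exact C2.of1 (hb _ _ (by fun_prop))
  · exact C2.of1 (hb _ _ (by fun_prop))

/-- the class of the members of the hierarchy -/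
theorem sig3_H (hr : ComputablePred fun p : ℕ × ℕ => r p.1 p.2) (hw : WellFounded r)
    (ht : ∀ a b c, r a b → r b c → r a c) {H : ℕ → ℕ → Bool} (hH : IsH r H) :
    Sig3 fun _ K => ∃ n, K = H n := by
  classical
  obtain ⟨δ, h2, h3⟩ := sig3_of (C2.all (c2_HD hr))
  refine ⟨δ, h2, fun v' X => Iff.trans ?_ (h3 v' X)⟩
  exact exists_congr fun n => eq_H hw ht hH

theorem sp_H {H : ℕ → ℕ → Bool} (hH : IsH r H) {n m : ℕ} (h : r n m) : Sp (H n) (H m) := by
  refine ⟨jump (H n), TuringReducible.refl _, not_jump_le _, ?_⟩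
  refine tLe_of_computable (f := fun x => Nat.pair n x) (Primrec.to_comp (by fun_prop))
    fun x => bool_eq ?_
  rw [hH]
  exact ⟨fun h1 => ⟨h, h1⟩, fun h1 => h1.2⟩

/-- one index for all levels of the hierarchy -/
theorem hierW (hr : ComputablePred fun p : ℕ × ℕ => r p.1 p.2) (hw : WellFounded r)
    (ht : ∀ a b c, r a b → r b c → r a c) (hq : ∀ a b, r a b ∨ a = b ∨ r b a)
    {H : ℕ → ℕ → Bool} (hH : IsH r H) : ∃ (e : ℕ) (C : ℕ → ℕ → Bool),
    (∀ n, (∃ i, C n = chr (WE (H n) i)) ∧ TLe (H n) (C n) ∧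
      ¬ TLe (C n) (H n) ∧ TLe (jump (C n)) (jump (H n))) ∧
    (∀ X, Btw X (chr (WE X e))) ∧
    (∀ n A X, Gd (H n) A → TEq (join (H n) A) X →
      TEq (chr (WE X e)) (join X (C n))) ∧
    ∀ A, Gen1 (jump (jump O)) A → ∀ X Y, TEq X A → TEq Y A →
      TEq (chr (WE X e)) (chr (WE Y e)) := by
  obtain ⟨c, hc⟩ := exists_low_op
  obtain ⟨e, h1, h2, h3⟩ := above hc (sig3_H hr hw ht hH) (by
    rintro K L ⟨n, rfl⟩ ⟨m, rfl⟩ hne
    rcases hq n m with h | h | h
    · exact Or.inl (sp_H hH h)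
    · exact absurd (congrArg H h) hne
    · exact Or.inr (sp_H hH h))
  exact ⟨e, fun n => chr (WE (H n) c), fun n => ⟨⟨c, rfl⟩, (hc (H n)).1, (hc (H n)).2.1,
    (hc (H n)).2.2⟩, h1, fun n A X hA hX => h2 (H n) A X ⟨n, rfl⟩ hA hX, h3⟩

/-- the first level is empty -/
theorem H_min (hw : WellFounded r) {H : ℕ → ℕ → Bool} (hH : IsH r H) : ∃ n, H n = O := by
  obtain ⟨n, -, hn⟩ := hw.has_min Set.univ ⟨0, trivial⟩
  refine ⟨n, ?_⟩
  funext z
  obtain ⟨m, x, rfl⟩ : ∃ m x, z = Nat.pair m x := ⟨z.unpair.1, z.unpair.2, by simp⟩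
  show H n (Nat.pair m x) = false
  by_contra hc
  exact hn m trivial ((hH n m x).1 (by simpa using hc)).1

end

/-- for the usual ordering the levels are the finite jumps -/
theorem H_nat {H : ℕ → ℕ → Bool} (hH : IsH (fun a b => a < b) H) (n : ℕ) :
    TEq (H n) (jump^[n] O) := by
  induction n with
  | zero =>
    have h1 : H 0 = O := by
      funext z
      obtain ⟨m, x, rfl⟩ : ∃ m x, z = Nat.pair m x := ⟨z.unpair.1, z.unpair.2, by simp⟩
      show H 0 (Nat.pair m x) = false
      by_contra hc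
      exact Nat.not_lt_zero _ ((hH 0 m x).1 (by simpa using hc)).1
    rw [h1]
    exact TEq.refl _
  | succ n ih =>
    rw [Function.iterate_succ_apply']
    have h1 : TLe (jump (H n)) (H (n + 1)) := by
      refine tLe_of_computable (f := fun x => Nat.pair n x) (Primrec.to_comp (by fun_prop))
        fun x => bool_eq ?_
      rw [hH]
      exact ⟨fun h1 => ⟨Nat.lt_succ_self n, h1⟩, fun h1 => h1.2⟩
    have h2 : TLe (H (n + 1)) (jump (H n)) := by
      refine TLe.tr (?_ : TLe (H (n + 1)) (join (jump (H n)) (H n)))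
        (join_le (TuringReducible.refl _) (tLe_jump _))
      have hp : Primrec fun z : ℕ => if z.unpair.1 = n then 2 * z.unpair.2 else 2 * z + 1 :=
        Primrec.ite (pp_eq (by fun_prop) (by fun_prop)) (by fun_prop) (by fun_prop)
      refine tLe_of_computable hp.to_comp fun z => bool_eq ?_
      obtain ⟨m, x, rfl⟩ : ∃ m x, z = Nat.pair m x := ⟨z.unpair.1, z.unpair.2, by simp⟩
      rw [hH]
      simp only [Nat.unpair_pair]
      by_cases h : m = n
      · rw [if_pos h]
        unfold join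
        rw [if_pos (by omega), show 2 * x / 2 = x by omega, h]
        exact ⟨fun h => h.2, fun h => ⟨Nat.lt_succ_self n, h⟩⟩
      · rw [if_neg h]
        unfold join
        rw [if_neg (by omega), show (2 * Nat.pair m x + 1) / 2 = Nat.pair m x by omega, hH]
        exact ⟨fun h3 => ⟨by omega, h3.2⟩, fun h3 => ⟨by omega, h3.2⟩⟩
    exact ⟨TLe.tr h2 ih.1.jump, TLe.tr ih.2.jump h1⟩

end Pool.Agent.H649.NL
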