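import Pool.Agent.H649.NL.Stp

set_option autoImplicit false

/-!
An index for the operator.
-/

namespace Pool.Agent.H649.NL

open Encodable Pool.Agent.Helper227 Pool.Agent.H548R2.Post
open Nat.Partrec (Code)
open Pool.Agent.TH769.TP (Mon Lim)
open Pool.Agent.TH769.ZA (si_gen pf_sub)
open Pool.Agent.TH769.CD (bdd_lt pf_add pf_mul pf_div pf_mod pf_pow pf_getD pf_take
  pf_append pf_cons pf_length pf_range pf_natPair pf_unpair pf_encode pf_testBit pf_xorb pf_andb
  pf_hlt pf_xor pp_exlt pp_alllt pp_imp pp_eq pp_le pp_lt pp_mem pf_decide pf_pre pp_En pf_ext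
  ext_pre_eq)

attribute [local fun_prop] Primrec
attribute [local fun_prop] Primrec.id Primrec.const Primrec.comp Primrec.pair Primrec.fst Primrec.snd
attribute [local fun_prop] pf_add pf_mul pf_div pf_mod pf_pow pf_getD pf_take pf_append pf_cons
  pf_length pf_range pf_natPair pf_unpair pf_encode pf_testBit pf_xorb pf_andb pf_hlt pf_xor
  pf_sub

theorem s1_idx {F : ℕ → ℕ → List Bool → List Bool}
    (pS : Primrec fun x : ℕ × List Bool => S F x.1 x.2) :
    S1 fun x : List Bool × ℕ => (x.2 % 2 = 0 ∧ x.1[x.2 / 2]? = some true) ∨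
      (x.2 % 2 = 1 ∧ x.2 / 2 ∈ (S F 0 x.1).2) := by
  have h0 : Primrec fun x : List Bool × ℕ => (S F 0 x.1).2 :=
    Primrec.snd.comp (pS.comp (g := fun x : List Bool × ℕ => (0, x.1)) (by fun_prop))
  refine S1.of_prim (PrimrecPred.or (PrimrecPred.and ?_ ?_) (PrimrecPred.and ?_ ?_))
  · exact pp_eq (by fun_prop) (by fun_prop)
  · exact pp_eq (Primrec.list_getElem?.comp (by fun_prop) (by fun_prop)) (Primrec.const (some true))
  · exact pp_eq (by fun_prop) (by fun_prop)
  · exact pp_mem (by fun_prop) h0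

theorem exists_idx {F : ℕ → ℕ → List Bool → List Bool}
    (pS : Primrec fun x : ℕ × List Bool => S F x.1 x.2) :
    ∃ e : ℕ, ∀ X : ℕ → Bool, chr (WE X e) = join X (chr {x | W F 0 X x}) := by
  obtain ⟨c, hc⟩ := Nat.Partrec.Code.exists_code.1 (s1_idx pS).re
  refine ⟨encode c, fun X => ?_⟩
  have h2 : ∀ m k : ℕ, (pre X k)[m / 2]? = some true ↔ m / 2 < k ∧ X (m / 2) = true := by
    intro m k
    unfold pre
    rw [List.getElem?_map]
    by_cases hk : m / 2 < k
    · rw [List.getElem?_eq_getElem (by simpa using hk)]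
      simp [hk]
    · rw [List.getElem?_eq_none (by simpa using hk)]
      simp [hk]
  have h1 : ∀ m : ℕ, m ∈ WE X (encode c) ↔
      ∃ k : ℕ, (m % 2 = 0 ∧ (pre X k)[m / 2]? = some true) ∨
      (m % 2 = 1 ∧ m / 2 ∈ (S F 0 (pre X k)).2) := by
    intro m
    simp only [WE, Set.mem_ofPred_eq, Denumerable.ofNat_encode]
    refine exists_congr fun k => ?_
    rw [hc]
    simp [Part.assert, pre]
  have hch : ∀ (T : Set ℕ) (n : ℕ), chr T n = true ↔ n ∈ T := by
    intro T n
    simp [chr]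
  funext m
  rw [Bool.eq_iff_iff, hch, h1]
  unfold join
  by_cases h3 : m % 2 = 0
  · rw [if_pos h3]
    constructor
    · rintro ⟨k, ⟨-, h4⟩ | ⟨h4, -⟩⟩
      · exact ((h2 m k).1 h4).2
      · omega
    · intro h
      exact ⟨m / 2 + 1, Or.inl ⟨h3, (h2 _ _).2 ⟨by omega, h⟩⟩⟩
  · rw [if_neg h3, hch]
    constructor
    · rintro ⟨k, ⟨h4, -⟩ | ⟨-, h4⟩⟩
      · exact absurd h4 h3
      · exact ⟨k, h4⟩
    · rintro ⟨k, hk⟩
      exact ⟨k, Or.inr ⟨by omega, hk⟩⟩

end Pool.Agent.H649.NL
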