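import Pool.Agent.H649.NL.Prd

set_option autoImplicit false

/-!
The recursion theorem for the family of functionals.
-/

namespace Pool.Agent.H649.NL

open Encodable Pool.Agent.Helper227 Pool.Agent.H548R2.Post
open Nat.Partrec (Code)
open Pool.Agent.TH769.TP (FF Mon Lim lab Via via_iff lim_FF mon_FF lim_exists pre_lab lab_le le_lab)
open Pool.Agent.TH769.CD (bdd_lt)
open Pool.Agent.H649.PT (TEq)

variable {F : ℕ → ℕ → List Bool → List Bool} {m c : ℕ} {p : Pl} {Z Z' X : ℕ → Bool}

theorem fnl_Gf (e : Code) : Fnl (Gf e) := by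
  refine ⟨fun m k => ⟨fun σ τ h => ?_, fun σ => ?_⟩, fun m k σ hσ => ?_⟩
  · have h1 : FF (Code.curry e (Nat.pair m k)) σ <+: FF (Code.curry e (Nat.pair m k)) τ :=
      mon_FF.mono σ τ h
    have h2 := h.length_le
    exact (h1.take (σ.length - 1)).trans (List.take_prefix_take_left (by omega))
  · unfold Gf
    rw [List.length_take]
    omega
  · have h1 := List.length_pos_of_ne_nil hσ
    unfold Gf
    rw [List.length_take]
    omega

theorem exists_Sol {LF : (ℕ × ℕ × ℕ × Bool) × List Bool → Prop} (hL : S1 LF) :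
    ∃ e : Code, Sol (Gf e) LF := by
  obtain ⟨c, hc⟩ := fix_D (s1_DD hL)
  refine ⟨c, fnl_Gf c, ?_, ?_⟩
  · intro m k Z n s hn
    have h1 : n < (FF (Code.curry c (Nat.pair m k)) (pre Z s)).length ∧
        n < (pre Z s).length - 1 := by
      unfold Gf at hn
      rw [List.length_take] at hn
      omega
    obtain ⟨s', b, h2, h3⟩ := (hc (Nat.pair m k) Z).1 n s h1.1
    refine ⟨s', b, ?_, ?_⟩
    · unfold Gf
      rw [List.getElem?_take, if_pos h1.2]
      exact h2
    · unfold DD at h3
      simp only [Nat.unpair_pair] at h3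
      exact h3
  · intro m k Z h N
    obtain ⟨s, hs⟩ := (hc (Nat.pair m k) Z).2 (by
      intro n
      obtain ⟨s, b, h1⟩ := h n
      refine ⟨s, b, ?_⟩
      unfold DD
      simp only [Nat.unpair_pair]
      exact h1) N
    refine ⟨max s (N + 1), ?_⟩
    have h1 : FF (Code.curry c (Nat.pair m k)) (pre Z s) <+:
        FF (Code.curry c (Nat.pair m k)) (pre Z (max s (N + 1))) :=
      mon_FF.mono _ _ (pre_prefix Z (le_max_left _ _))
    have h2 := h1.length_le
    have h3 := le_max_right s (N + 1)
    unfold Gf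
    rw [List.length_take, length_pre]
    omega

end Pool.Agent.H649.NL
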