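import Pool.Agent.H649.NL.Cnc
import Pool.Agent.H649.NL.Slv
import Pool.Agent.H649.PT.Trn

set_option autoImplicit false

/-!
The leaves.
-/

namespace Pool.Agent.H649.NL

open Encodable Pool.Agent.Helper227 Pool.Agent.H548R2.Post
open Nat.Partrec (Code)
open Pool.Agent.TH769.TP (FF Mon Lim lab Via via_iff lim_FF mon_FF lim_exists pre_lab lab_le le_lab)
open Pool.Agent.TH769.CD (bdd_lt)
open Pool.Agent.H649.PT (TEq Btw TEq.symm TEq.trans TLe.tr join_le le_join_left le_join_right T U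
  Mo Pr)
open Pool.Agent.TH769.ZA (si_gen pf_sub)
open Pool.Agent.TH769.CD (pf_add pf_mul pf_div pf_mod pf_pow pf_getD pf_take
  pf_append pf_cons pf_length pf_range pf_natPair pf_unpair pf_encode pf_testBit pf_xorb pf_andb
  pf_hlt pf_xor pp_exlt pp_alllt pp_imp pp_eq pp_le pp_lt pp_mem pf_decide pf_pre pp_En pf_ext)

attribute [local fun_prop] Primrec
attribute [local fun_prop] Primrec.id Primrec.const Primrec.comp Primrec.pair Primrec.fst Primrec.snd
attribute [local fun_prop] pf_add pf_mul pf_div pf_mod pf_pow pf_getD pf_take pf_append pf_cons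
  pf_length pf_range pf_natPair pf_unpair pf_encode pf_testBit pf_xorb pf_andb pf_hlt pf_xor
  pf_sub

variable {F : ℕ → ℕ → List Bool → List Bool} {θ u : ℕ → ℕ → List Bool → Bool}
  {m k : ℕ} {Z Z' X : ℕ → Bool}

/-- the string of the member belonging to the leaf `k` -/
def ms (m k : ℕ) (σ : List Bool) : List Bool := mb (bits m (k % 2 ^ m)) σ

/-- the description of the leaves -/
def LFd (θ u : ℕ → ℕ → List Bool → Bool) (x : (ℕ × ℕ × ℕ × Bool) × List Bool) : Prop :=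
  (∀ n < x.1.2.2.1 + 1, θ (x.1.2.1 / 2 ^ x.1.1) n (ms x.1.1 x.1.2.1 x.2) = true) ∧
  x.1.2.2.1.unpair.2 < (ms x.1.1 x.1.2.1 x.2).length + 1 ∧
  u (x.1.2.1 / 2 ^ x.1.1) x.1.2.2.1.unpair.1
    ((ms x.1.1 x.1.2.1 x.2).take x.1.2.2.1.unpair.2) = x.1.2.2.2

theorem pf_ms {α : Type} [Primcodable α] {m k : α → ℕ} {σ : α → List Bool} (hm : Primrec m)
    (hk : Primrec k) (hσ : Primrec σ) : Primrec fun a => ms (m a) (k a) (σ a) := by
  unfold ms
  exact pf_mb (pf_bits hm (pf_mod hk (pf_pow (Primrec.const 2) hm))) hσ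

theorem s1_LFd (hθ : Pr θ) (hu : Pr u) : S1 (LFd θ u) := by
  have h0 : Primrec fun x : (ℕ × ℕ × ℕ × Bool) × List Bool => ms x.1.1 x.1.2.1 x.2 :=
    pf_ms (by fun_prop) (by fun_prop) (by fun_prop)
  have h1 : Primrec fun x : ((ℕ × ℕ × ℕ × Bool) × List Bool) × ℕ =>
      θ (x.1.1.2.1 / 2 ^ x.1.1.1) x.2 (ms x.1.1.1 x.1.1.2.1 x.1.2) :=
    hθ.comp (f := fun x : ℕ × ℕ × List Bool => θ x.1 x.2.1 x.2.2)
      (g := fun x : ((ℕ × ℕ × ℕ × Bool) × List Bool) × ℕ => (x.1.1.2.1 / 2 ^ x.1.1.1, x.2,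
        ms x.1.1.1 x.1.1.2.1 x.1.2)) (Primrec.pair (by fun_prop) (Primrec.pair (by fun_prop)
          (h0.comp Primrec.fst)))
  have h2 : Primrec fun x : (ℕ × ℕ × ℕ × Bool) × List Bool =>
      u (x.1.2.1 / 2 ^ x.1.1) x.1.2.2.1.unpair.1
        ((ms x.1.1 x.1.2.1 x.2).take x.1.2.2.1.unpair.2) :=
    hu.comp (f := fun x : ℕ × ℕ × List Bool => u x.1 x.2.1 x.2.2)
      (g := fun x : (ℕ × ℕ × ℕ × Bool) × List Bool => (x.1.2.1 / 2 ^ x.1.1,
        x.1.2.2.1.unpair.1, (ms x.1.1 x.1.2.1 x.2).take x.1.2.2.1.unpair.2))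
        (Primrec.pair (by fun_prop) (Primrec.pair (by fun_prop) (pf_take (by fun_prop) h0)))
  refine S1.of_prim (PrimrecPred.and (pp_alllt (by fun_prop) (pp_eq h1 (Primrec.const true)))
    (PrimrecPred.and (pp_lt (by fun_prop) (pf_add (pf_length h0) (Primrec.const 1)))
      (pp_eq h2 (by fun_prop))))

/-- the sequence at a leaf -/
def lfE (u : ℕ → ℕ → List Bool → Bool) (q : ℕ) (X : ℕ → Bool) : ℕ → Bool :=
  fun i => u q i.unpair.1 (pre X i.unpair.2)

theorem lfE_set (q : ℕ) (X : ℕ → Bool) : {y | ∃ i, lfE u q X i = true ∧ i.unpair.1 = y} =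
    U u q X := by
  ext y
  constructor
  · rintro ⟨i, h, rfl⟩
    exact ⟨_, h⟩
  · rintro ⟨s, h⟩
    refine ⟨Nat.pair y s, ?_, by rw [Nat.unpair_pair]⟩
    unfold lfE
    rw [Nat.unpair_pair]
    exact h

theorem tr_T (hS : Sol F (LFd θ u)) (hk : k < LL m) (hX : Lim (ms m k) Z X) (h : Tr F m k Z) :
    T θ (k / 2 ^ m) X := by
  intro n
  obtain ⟨s, hs⟩ := h (n + 1)
  obtain ⟨s', b, -, hb⟩ := hS.bit m k Z n s (by omega)
  rcases hb with ⟨-, hb⟩ | ⟨⟨hb, -⟩, -⟩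
  · obtain ⟨r, hr⟩ := hX.ok s'
    have h1 : θ (k / 2 ^ m) n (ms m k (pre Z s')) = true := hb.1 n (Nat.lt_succ_self n)
    rw [hr] at h1
    exact ⟨r, h1⟩
  · omega

theorem T_tr (hS : Sol F (LFd θ u)) (mθ : Mo θ) (hk : k < LL m) (hX : Lim (ms m k) Z X)
    (h : T θ (k / 2 ^ m) X) : Tr F m k Z := by
  refine hS.unb m k Z fun n => ?_
  obtain ⟨a, ha⟩ := bdd_lt (n + 1) (fun n' s => θ (k / 2 ^ m) n' (pre X s) = true) (fun n' _ => by
    obtain ⟨s, hs⟩ := h n'
    exact ⟨s, fun s' hs' => mθ _ _ _ _ (pre_prefix X hs') hs⟩)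
  obtain ⟨M, hM⟩ := hX.long (a + n.unpair.2)
  obtain ⟨r, hr⟩ := hX.ok M
  have h1 := hM M le_rfl
  rw [hr, length_pre] at h1
  refine ⟨M, u (k / 2 ^ m) n.unpair.1 ((ms m k (pre Z M)).take n.unpair.2),
    Or.inl ⟨hk, fun n' hn' => ?_, ?_, rfl⟩⟩
  · show θ (k / 2 ^ m) n' (ms m k (pre Z M)) = true
    rw [hr]
    exact ha n' hn' r (by omega)
  · show n.unpair.2 < (ms m k (pre Z M)).length + 1
    rw [hr, length_pre]
    omega

theorem leaf_lim (hS : Sol F (LFd θ u)) (hk : k < LL m) (hX : Lim (ms m k) Z X)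
    (h : Tr F m k Z) : Lim (F m k) Z (lfE u (k / 2 ^ m) X) := by
  refine lim_of_bits hS h fun n s b hD => ?_
  rcases hD with ⟨-, hb⟩ | ⟨⟨hb, -⟩, -⟩
  · obtain ⟨-, h1, h2⟩ := hb
    simp only at h1 h2
    obtain ⟨r, hr⟩ := hX.ok s
    rw [hr] at h1 h2
    rw [length_pre] at h1
    rw [take_pre _ _ _ (by omega)] at h2
    exact h2
  · omega

/-! The members. -/

theorem Pth.mb {c : List Bool} {K : List (ℕ × ℕ)} (h : Pth F m Z c X K) :
    Lim (NL.mb c) Z X := by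
  induction h with
  | nil X => exact Lim.id X
  | @cons m k t A B b c X K h0 hk hl hf ht hp ih => exact lim_mb ih

theorem teq_child (pF : Primrec fun x : ℕ × ℕ × List Bool => F x.1 x.2.1 x.2.2)
    {A B : ℕ → Bool} {b : Bool} (hl : Lim (F m k) (cond b B A) (lab k (join A B))) :
    TEq (cond b B A) (lab k (join A B)) := by
  have h1 : TLe (lab k (join A B)) (cond b B A) := by
    refine hl.le ?_
    exact pF.comp (f := fun x : ℕ × ℕ × List Bool => F x.1 x.2.1 x.2.2)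
      (g := fun σ : List Bool => (m, k, σ)) ((Primrec.const m).pair
      ((Primrec.const k).pair Primrec.id))
  have h2 : TLe (cond b B A) (lab k (join A B)) := by
    refine TLe.tr ?_ (le_lab k (join A B))
    cases b
    · exact le_join_left A B
    · exact le_join_right A B
  exact ⟨h2, h1⟩

variable {LF : (ℕ × ℕ × ℕ × Bool) × List Bool → Prop}

theorem deg_of_Jb (hS : Sol F LF) (pF : Primrec fun x : ℕ × ℕ × List Bool => F x.1 x.2.1 x.2.2) :
    ∀ (bl : List Bool) {X Z : ℕ → Bool}, HP F bl.length → Jb F bl X Z → TEq X Z := by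
  intro bl
  induction bl with
  | nil =>
    intro X Z _ h
    have h' : Z = X := h
    subst h'
    exact TEq.rfl'
  | cons b bl ih =>
    intro X Z' hP h
    obtain ⟨Z, h1, h2⟩ := h
    have hP' : HP F (bl.length + 1) := hP
    have h3 := ih (fun l hl => hP' l (by omega)) h1
    obtain ⟨A, B, b0, e, e0, -⟩ := form hS hP' h1 h2
    have hl := h2.1
    rw [e, e0] at hl
    have h4 := teq_child pF hl
    rw [← e, ← e0] at h4
    exact h3.trans h4

theorem mem_all (hS : Sol F LF) (pF : Primrec fun x : ℕ × ℕ × List Bool => F x.1 x.2.1 x.2.2) :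
    ∀ (m : ℕ), HP F m → ∀ Z, Ac F m Z → ∀ c : List Bool, c.length = m →
      ∃ X0, Lim (mb c) Z X0 ∧ TEq X0 Z := by
  intro m
  induction m with
  | zero =>
    intro _ Z _ c hc
    obtain rfl : c = [] := List.length_eq_zero_iff.1 hc
    exact ⟨Z, Lim.id Z, TEq.rfl'⟩
  | succ m ih =>
    intro hP Z' hZ' c hc
    obtain ⟨X, bl, hl, h⟩ := hZ'
    cases bl with
    | nil => simp at hl
    | cons b bl =>
      have hb' : bl.length = m := by simpa using hl
      subst hb'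
      obtain ⟨Z, h1, h2⟩ := h
      obtain ⟨A, B, b0, e, e0, h3⟩ := form hS hP h1 h2
      cases c with
      | nil => simp at hc
      | cons b1 c =>
        obtain ⟨h4, h5⟩ := h3 b1
        obtain ⟨X0, h6, h7⟩ := ih (fun l hl => hP l (by omega)) _ h4 c (by simpa using hc)
        have hl' := h5.1
        rw [e] at hl'
        have h8 := teq_child pF hl'
        refine ⟨X0, ?_, ?_⟩
        · rw [e]
          exact lim_mb h6
        · rw [e]
          exact h7.trans h8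

/-- a leaf comes from a true condition for an oracle of the same degree -/
theorem leaf_T (hS : Sol F (LFd θ u))
    (pF : Primrec fun x : ℕ × ℕ × List Bool => F x.1 x.2.1 x.2.2) (hP : HP F m) (hZ : Ac F m Z)
    (hk : k < LL m) (h : Tr F m k Z) :
    ∃ X0, Lim (ms m k) Z X0 ∧ TEq X0 Z ∧ T θ (k / 2 ^ m) X0 := by
  obtain ⟨X0, h1, h2⟩ := mem_all hS pF m hP Z hZ (bits m (k % 2 ^ m)) (length_bits _ _)
  exact ⟨X0, h1, h2, tr_T hS hk h1 h⟩

/-- comeager many oracles do not lead to a leaf -/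
theorem nlm (hS : Sol F (LFd θ u))
    (pF : Primrec fun x : ℕ × ℕ × List Bool => F x.1 x.2.1 x.2.2)
    (hM : IsMeagre {X : ℕ → Bool | ∃ q Y, T θ q Y ∧ TEq Y X}) (m : ℕ) (hP : HP F m) :
    NLm F m := by
  refine hM.mono ?_
  intro X hX
  rw [Set.mem_setOf_eq] at hX
  push Not at hX
  obtain ⟨Y, hY, bl, Z, hbl, hJ, k, hk, hT⟩ := hX
  have hP' : HP F bl.length := fun l hl => hP l (by omega)
  obtain ⟨X0, -, h2, h3⟩ := leaf_T hS pF hP' ⟨Y, bl, rfl, hJ⟩ hk hT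
  exact ⟨_, X0, h3, h2.trans ((deg_of_Jb hS pF bl hP' hJ).symm.trans hY)⟩

/-- A true condition leads to a leaf. -/
theorem to_leaf (hS : Sol F (LFd θ u)) (mθ : Mo θ) (hHP : ∀ m, HP F m) {q : ℕ}
    (h : T θ q X) : ∃ m Z, Jp F (Ac F) m X Z ∧ ∃ k < LL m, Tr F m k Z := by
  by_contra hn
  obtain ⟨Z, hZ⟩ := exists_Jp (tree hS hHP) X hn (q + 1)
  obtain ⟨j, hj, K, hp⟩ := hZ.bits
  have h1 : (q * 2 ^ (q + 1) + j) % 2 ^ (q + 1) = j := by
    rw [Nat.add_comm, Nat.add_mul_mod_self_right, Nat.mod_eq_of_lt hj]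
  have h2 : (q * 2 ^ (q + 1) + j) / 2 ^ (q + 1) = q := by
    rw [Nat.add_comm, Nat.add_mul_div_right _ _ (by positivity), Nat.div_eq_of_lt hj, zero_add]
  have h3 : q * 2 ^ (q + 1) + j < LL (q + 1) := by
    unfold LL
    have : (q + 1) * 2 ^ (q + 1) = q * 2 ^ (q + 1) + 2 ^ (q + 1) := by ring
    omega
  have h4 : Lim (ms (q + 1) (q * 2 ^ (q + 1) + j)) Z X := by
    unfold ms
    rw [h1]
    exact hp.mb
  exact hn ⟨q + 1, Z, hZ, _, h3, T_tr hS mθ h3 h4 (by rw [h2]; exact h)⟩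

end Pool.Agent.H649.NL
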