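import Pool.Agent.H649.NL.Pln

set_option autoImplicit false

/-!
The joint conditions and their limits.
-/

namespace Pool.Agent.H649.NL

open Encodable Pool.Agent.Helper227 Pool.Agent.H548R2.Post
open Nat.Partrec (Code)
open Pool.Agent.TH769.TP (FF Mon Lim lab Via via_iff lim_FF mon_FF lim_exists pre_lab lab_le le_lab)
open Pool.Agent.TH769.CD (bdd_lt)
open Pool.Agent.H649.PT (TEq)

variable {F : ℕ → ℕ → List Bool → List Bool} {m c : ℕ} {p : Pl} {Z Z' X : ℕ → Bool}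

theorem pt_mono (b : Bool) {σ τ : List Bool} (h : σ <+: τ) : pt b σ <+: pt b τ := by
  obtain ⟨ρ, rfl⟩ := h
  rcases Nat.lt_or_ge (lb σ) σ.length with h1 | h1
  · have h2 : lb (σ ++ ρ) = lb σ := by
      unfold lb at h1 ⊢
      rw [List.findIdx_append, if_pos h1]
    have h3 : rst (σ ++ ρ) = rst σ ++ ρ := by
      unfold rst
      rw [h2, List.drop_append_of_le_length (by omega)]
    have h4 : (pt b σ).length ≤ (pt b (σ ++ ρ)).length := by
      rw [length_pt, length_pt, h2, List.length_append]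
      omega
    rw [List.prefix_iff_eq_take]
    refine List.ext_getElem (by rw [List.length_take, min_eq_left h4]) fun i g1 g2 => ?_
    rw [List.getElem_take]
    unfold pt at g1 ⊢
    rw [List.length_map, List.length_range] at g1
    rw [List.getElem_map, List.getElem_range, List.getElem_map, List.getElem_range, h3]
    have hb : b.toNat ≤ 1 := by cases b <;> simp
    rw [List.getD_append _ _ _ _ (by omega)]
  · have h2 : pt b σ = [] := by
      refine List.eq_nil_of_length_eq_zero ?_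
      rw [length_pt]
      omega
    rw [h2]
    exact List.nil_prefix

theorem mb_mono (c : List Bool) {σ τ : List Bool} (h : σ <+: τ) : mb c σ <+: mb c τ := by
  unfold mb
  induction c generalizing σ τ with
  | nil => exact h
  | cons b c ih =>
    rw [List.foldl_cons, List.foldl_cons]
    exact ih (pt_mono b h)

theorem KK_mono (hF : Fnl F) (κ : List ℕ) {σ τ : List Bool} (h : σ <+: τ) :
    KK F κ σ <+: KK F κ τ := by
  induction κ with
  | nil => exact h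
  | cons k κ ih => exact (hF.mon κ.length k).mono _ _ ih

theorem KK_short (hF : Fnl F) (κ : List ℕ) (σ : List Bool) : (KK F κ σ).length ≤ σ.length := by
  induction κ with
  | nil => exact le_rfl
  | cons k κ ih => exact ((hF.mon κ.length k).short _).trans ih

theorem lim_of_cmp {H : List Bool → List Bool} (hm : ∀ σ τ, σ <+: τ → H σ <+: H τ)
    {x y : ℕ → Bool} (h : ∀ n, ∃ r r', cmp n (H (pre x r)) (pre y r')) : Lim H x y := by
  have h' : ∀ n, ∃ r, n ≤ (H (pre x r)).length ∧ (H (pre x r)).take n = pre y n := by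
    intro n
    obtain ⟨r, r', h1, h2, h3⟩ := h n
    rw [length_pre] at h2
    rw [take_pre _ _ _ h2] at h3
    exact ⟨r, h1, h3⟩
  refine ⟨fun s => ?_, fun N => ?_⟩
  · obtain ⟨r, h1, h2⟩ := h' (H (pre x s)).length
    refine ⟨(H (pre x s)).length, ?_⟩
    rcases le_total s r with h3 | h3
    · exact (List.prefix_iff_eq_take.1 (hm _ _ (pre_prefix x h3))).trans h2
    · have h4 := hm _ _ (pre_prefix x h3)
      have h5 : H (pre x r) = H (pre x s) := h4.eq_of_length (le_antisymm h4.length_le h1)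
      rw [h5, List.take_length] at h2
      exact h2
  · obtain ⟨r, h1, -⟩ := h' N
    exact ⟨r, fun s hs => h1.trans (hm _ _ (pre_prefix x hs)).length_le⟩

theorem lim_mb {k : ℕ} {A B : ℕ → Bool} {b : Bool} {c : List Bool}
    (h : Lim (mb c) (cond b B A) X) : Lim (mb (b :: c)) (lab k (join A B)) X := by
  have h1 : ∀ s, mb (b :: c) (pre (lab k (join A B)) s) =
      mb c (pre (cond b B A) ((s - (k + 1)) / 2)) := by
    intro s
    show mb c (pt b (pre (lab k (join A B)) s)) = _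
    rw [pt_pre]
  refine ⟨fun s => ?_, fun N => ?_⟩
  · rw [h1]
    exact h.ok _
  · obtain ⟨M, hM⟩ := h.long N
    refine ⟨2 * M + k + 1, fun s hs => ?_⟩
    rw [h1]
    exact hM _ (by omega)

theorem rel_of_J (hF : Fnl F) {hx hy ha hb : List Bool → List Bool}
    (mx : ∀ σ τ, σ <+: τ → hx σ <+: hx τ) (my : ∀ σ τ, σ <+: τ → hy σ <+: hy τ)
    (ma : ∀ σ τ, σ <+: τ → ha σ <+: ha τ) (mb' : ∀ σ τ, σ <+: τ → hb σ <+: hb τ)
    (h : ∀ n, ∃ s, J F m c p n (hx (pre Z s)) (hy (pre Z s)) (ha (pre Z s)) (hb (pre Z s))) :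
    ∃ x y A B, Lim hx Z x ∧ Lim hy Z y ∧ Lim ha Z A ∧ Lim hb Z B ∧ Rel F m c p x y A B := by
  obtain ⟨x, lx⟩ := lim_exists (X := Z) mx fun N => by
    obtain ⟨s, ⟨-, h1, -, -⟩, -⟩ := h N
    exact ⟨s, h1.2.1⟩
  obtain ⟨y, ly⟩ := lim_exists (X := Z) my fun N => by
    obtain ⟨s, ⟨h1, -, -, -⟩, -⟩ := h N
    exact ⟨s, h1.2.1⟩
  obtain ⟨A, lA⟩ := lim_exists (X := Z) ma fun N => by
    obtain ⟨s, ⟨-, -, h1, -⟩, -⟩ := h N
    exact ⟨s, h1.2.1⟩
  obtain ⟨B, lB⟩ := lim_exists (X := Z) mb' fun N => by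
    obtain ⟨s, ⟨-, -, -, h1⟩, -⟩ := h N
    exact ⟨s, h1.2.1⟩
  have key : ∀ n, ∃ r1 r2 r3 r4, n ≤ r1 ∧ n ≤ r2 ∧ n ≤ r3 ∧ n ≤ r4 ∧
      J F m c p n (pre x r1) (pre y r2) (pre A r3) (pre B r4) := by
    intro n
    obtain ⟨s, h1⟩ := h n
    obtain ⟨r1, e1⟩ := lx.ok s
    obtain ⟨r2, e2⟩ := ly.ok s
    obtain ⟨r3, e3⟩ := lA.ok s
    obtain ⟨r4, e4⟩ := lB.ok s
    rw [e1, e2, e3, e4] at h1
    have g1 := h1.1.1.2.1
    have g2 := h1.1.2.1.2.1
    have g3 := h1.1.2.2.1.2.1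
    have g4 := h1.1.2.2.2.2.1
    rw [length_pre] at g1 g2 g3 g4
    exact ⟨r1, r2, r3, r4, g2, g1, g3, g4, h1⟩
  refine ⟨x, y, A, B, lx, ly, lA, lB, ?_⟩
  constructor
  · refine lim_of_cmp (mon_FF).mono fun n => ?_
    obtain ⟨r1, r2, r3, r4, -, -, -, -, h1⟩ := key n
    exact ⟨r1, r2, h1.1.1⟩
  · refine lim_of_cmp (mon_FF).mono fun n => ?_
    obtain ⟨r1, r2, r3, r4, -, -, -, -, h1⟩ := key n
    exact ⟨r2, r1, h1.1.2.1⟩
  · refine lim_of_cmp (fun σ τ => KK_mono hF _) fun n => ?_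
    obtain ⟨r1, r2, r3, r4, -, -, -, -, h1⟩ := key n
    exact ⟨r1, r3, h1.1.2.2.1⟩
  · refine lim_of_cmp (fun σ τ => KK_mono hF _) fun n => ?_
    obtain ⟨r1, r2, r3, r4, -, -, -, -, h1⟩ := key n
    exact ⟨r2, r4, h1.1.2.2.2⟩
  · intro s
    obtain ⟨r1, r2, r3, r4, g1, -, -, -, h1⟩ := key s
    have := h1.2.1.1
    rwa [take_pre _ _ _ g1] at this
  · intro s
    obtain ⟨r1, r2, r3, r4, -, g1, -, -, h1⟩ := key s
    have := h1.2.1.2
    rwa [take_pre _ _ _ g1] at this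
  · intro hp
    funext n
    obtain ⟨r1, r2, r3, r4, -, -, g3, g4, h1⟩ := key (n + 1)
    have h2 := (h1.2.2.1 hp).2.2
    rw [take_pre _ _ _ g3, take_pre _ _ _ g4, pre_succ, pre_succ] at h2
    have h3 := List.append_inj_right' h2 rfl
    exact List.cons.inj h3 |>.1
  · intro hp
    refine ⟨lim_of_cmp (fun σ τ => mb_mono _) fun n => ?_,
      lim_of_cmp (fun σ τ => mb_mono _) fun n => ?_, ?_, ?_⟩
    · obtain ⟨r1, r2, r3, r4, -, -, -, -, h1⟩ := key n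
      exact ⟨r3, r1, (h1.2.2.2 hp).1⟩
    · obtain ⟨r1, r2, r3, r4, -, -, -, -, h1⟩ := key n
      exact ⟨r4, r2, (h1.2.2.2 hp).2.1⟩
    · obtain ⟨r1, r2, r3, r4, -, -, g3, -, h1⟩ := key (al p).length
      have h2 : (pre A r3).take (al p).length = al p := (h1.2.2.2 hp).2.2.1
      rwa [take_pre _ _ _ g3] at h2
    · obtain ⟨r1, r2, r3, r4, -, -, -, g4, h1⟩ := key (be p).length
      have h2 : (pre B r4).take (be p).length = be p := (h1.2.2.2 hp).2.2.2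
      rwa [take_pre _ _ _ g4] at h2

/-- the values of a functional are eventually long initial segments of the limit -/
theorem ev_of_lim {H : List Bool → List Bool} {x y : ℕ → Bool} (h : Lim H x y) (N : ℕ) :
    ∃ s0, ∀ s ≥ s0, ∃ r ≥ N, H (pre x s) = pre y r := by
  obtain ⟨M, hM⟩ := h.long N
  refine ⟨M, fun s hs => ?_⟩
  obtain ⟨r, hr⟩ := h.ok s
  have := hM s hs
  rw [hr, length_pre] at this
  exact ⟨r, this, hr⟩

theorem cmp_pre (y : ℕ → Bool) {n r r' : ℕ} (h1 : n ≤ r) (h2 : n ≤ r') :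
    cmp n (pre y r) (pre y r') := by
  refine ⟨by rw [length_pre]; exact h1, by rw [length_pre]; exact h2, ?_⟩
  rw [take_pre _ _ _ h1, take_pre _ _ _ h2]

theorem J_of_rel (hF : Fnl F) {hx hy ha hb : List Bool → List Bool} {x y A B : ℕ → Bool}
    (lx : Lim hx Z x) (ly : Lim hy Z y) (la : Lim ha Z A) (lb' : Lim hb Z B)
    (h : Rel F m c p x y A B) (n : ℕ) : ∃ s0, ∀ s ≥ s0,
      J F m c p n (hx (pre Z s)) (hy (pre Z s)) (ha (pre Z s)) (hb (pre Z s)) := by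
  obtain ⟨t1, u1⟩ := ev_of_lim h.ixy n
  obtain ⟨t2, u2⟩ := ev_of_lim h.jyx n
  obtain ⟨t3, u3⟩ := ev_of_lim h.kA n
  obtain ⟨t4, u4⟩ := ev_of_lim h.kB n
  obtain ⟨t5, u5⟩ : ∃ t5, ty p = 2 → ∀ s ≥ t5, ∃ r ≥ n, mb (cA p) (pre A s) = pre x r := by
    by_cases hp : ty p = 2
    · obtain ⟨t, ht⟩ := ev_of_lim (h.mrg hp).1 n
      exact ⟨t, fun _ => ht⟩
    · exact ⟨0, fun hc => absurd hc hp⟩
  obtain ⟨t6, u6⟩ : ∃ t6, ty p = 2 → ∀ s ≥ t6, ∃ r ≥ n, mb (cB p) (pre B s) = pre y r := by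
    by_cases hp : ty p = 2
    · obtain ⟨t, ht⟩ := ev_of_lim (h.mrg hp).2.1 n
      exact ⟨t, fun _ => ht⟩
    · exact ⟨0, fun hc => absurd hc hp⟩
  obtain ⟨N, hN⟩ : ∃ N, N = n + (al p).length + (be p).length + t1 + t2 + t3 + t4 + t5 + t6 :=
    ⟨_, rfl⟩
  obtain ⟨s1, v1⟩ := ev_of_lim lx N
  obtain ⟨s2, v2⟩ := ev_of_lim ly N
  obtain ⟨s3, v3⟩ := ev_of_lim la N
  obtain ⟨s4, v4⟩ := ev_of_lim lb' N
  refine ⟨s1 + s2 + s3 + s4, fun s hs => ?_⟩
  obtain ⟨r1, g1, e1⟩ := v1 s (by omega)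
  obtain ⟨r2, g2, e2⟩ := v2 s (by omega)
  obtain ⟨r3, g3, e3⟩ := v3 s (by omega)
  obtain ⟨r4, g4, e4⟩ := v4 s (by omega)
  rw [e1, e2, e3, e4]
  refine ⟨⟨?_, ?_, ?_, ?_⟩, ⟨?_, ?_⟩, fun hp => ?_, fun hp => ⟨?_, ?_, ?_, ?_⟩⟩
  · obtain ⟨r, k1, k2⟩ := u1 r1 (by omega)
    rw [k2]
    exact cmp_pre _ k1 (by omega)
  · obtain ⟨r, k1, k2⟩ := u2 r2 (by omega)
    rw [k2]
    exact cmp_pre _ k1 (by omega)
  · obtain ⟨r, k1, k2⟩ := u3 r1 (by omega)
    rw [k2]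
    exact cmp_pre _ k1 (by omega)
  · obtain ⟨r, k1, k2⟩ := u4 r2 (by omega)
    rw [k2]
    exact cmp_pre _ k1 (by omega)
  · rw [take_pre _ _ _ (by omega)]
    exact h.bdx n
  · rw [take_pre _ _ _ (by omega)]
    exact h.bdy n
  · rw [h.eq1 hp]
    exact cmp_pre _ (by omega) (by omega)
  · obtain ⟨r, k1, k2⟩ := u5 hp r3 (by omega)
    rw [k2]
    exact cmp_pre _ k1 (by omega)
  · obtain ⟨r, k1, k2⟩ := u6 hp r4 (by omega)
    rw [k2]
    exact cmp_pre _ k1 (by omega)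
  · show (pre A r3).take (al p).length = al p
    rw [take_pre _ _ _ (by omega)]
    exact (h.mrg hp).2.2.1
  · show (pre B r4).take (be p).length = be p
    rw [take_pre _ _ _ (by omega)]
    exact (h.mrg hp).2.2.2

end Pool.Agent.H649.NL
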