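import Pool.Agent.H649.NL.Def

set_option autoImplicit false

/-!
Events, starts and elements along an oracle.
-/

namespace Pool.Agent.H649.NL

open Encodable Pool.Agent.Helper227 Pool.Agent.H548R2.Post
open Nat.Partrec (Code)

theorem cod_inj {a t q a' t' q' : ℕ} (h : cod a t q = cod a' t' q') :
    a = a' ∧ t = t' ∧ q = q' := by
  unfold cod at h
  rw [Nat.pair_eq_pair, Nat.pair_eq_pair] at h
  exact h

theorem fst_le_cod (a t q : ℕ) : a ≤ cod a t q := Nat.left_le_pair _ _

theorem mid_le_cod (a t q : ℕ) : t ≤ cod a t q :=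
  (Nat.left_le_pair _ _).trans (Nat.right_le_pair _ _)

theorem snd_le_cod (a t q : ℕ) : q ≤ cod a t q :=
  (Nat.right_le_pair _ _).trans (Nat.right_le_pair _ _)

theorem unpair_cod (a t q : ℕ) : (cod a t q).unpair.1 = a := by
  unfold cod
  rw [Nat.unpair_pair]

theorem last_append (l : List ℕ) (v k : ℕ) :
    last (l ++ [v]) k = if v ≤ k then l.length + 1 else last l k := by
  unfold last
  rw [List.reverse_append, List.reverse_singleton, List.singleton_append, List.findIdx_cons,
    List.length_append, List.length_singleton]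
  by_cases h : v ≤ k
  · rw [decide_eq_true h, cond_true, if_pos h, Nat.sub_zero]
  · rw [decide_eq_false h, cond_false, if_neg h, Nat.add_sub_add_right]

variable {F : ℕ → ℕ → List Bool → List Bool}

/-- the event at the stage `s + 1` -/
noncomputable def ev (F : ℕ → ℕ → List Bool → List Bool) (m : ℕ) (Z : ℕ → Bool) (s : ℕ) : ℕ :=
  evn F (S F) m (pre Z (s + 1))

/-- the start of the column `k` at the stage `s` -/
noncomputable def Ls (F : ℕ → ℕ → List Bool → List Bool) (m : ℕ) (Z : ℕ → Bool) (s k : ℕ) : ℕ :=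
  last (S F m (pre Z s)).1 k

/-- the elements at the stage `s` -/
noncomputable def Lt (F : ℕ → ℕ → List Bool → List Bool) (m : ℕ) (Z : ℕ → Bool) (s : ℕ) :
    List ℕ := (S F m (pre Z s)).2

/-- the set -/
def W (F : ℕ → ℕ → List Bool → List Bool) (m : ℕ) (Z : ℕ → Bool) (x : ℕ) : Prop :=
  ∃ s, x ∈ Lt F m Z s

theorem pre_succ_ne (Z : ℕ → Bool) (s : ℕ) : pre Z (s + 1) ≠ [] := by
  rw [pre_succ]
  exact List.append_ne_nil_of_right_ne_nil _ (List.cons_ne_nil _ _)

theorem dropLast_pre (Z : ℕ → Bool) (s : ℕ) : (pre Z (s + 1)).dropLast = pre Z s := by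
  rw [pre_succ, List.dropLast_concat]

section

variable (hF : Sho F) {m : ℕ} {Z : ℕ → Bool}

include hF

theorem S_nil (m : ℕ) : S F m [] = ([], []) := by
  rw [S_eq hF]
  unfold bod
  rw [if_pos rfl]

theorem S1_succ (s : ℕ) : (S F m (pre Z (s + 1))).1 = (S F m (pre Z s)).1 ++ [ev F m Z s] := by
  rw [S_eq hF]
  unfold bod
  rw [if_neg (pre_succ_ne Z s)]
  simp only
  unfold evs
  rw [dropLast_pre]
  rfl

theorem length_S1 (s : ℕ) : (S F m (pre Z s)).1.length = s := by
  induction s with
  | zero => rw [show pre Z 0 = [] from rfl, S_nil hF]; rfl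
  | succ s ih => rw [S1_succ hF, List.length_append, ih]; rfl

theorem Ls_succ (s k : ℕ) : Ls F m Z (s + 1) k = if ev F m Z s ≤ k then s + 1 else Ls F m Z s k := by
  unfold Ls
  rw [S1_succ hF, last_append, length_S1 hF]

theorem Ls_zero (k : ℕ) : Ls F m Z 0 k = 0 := by
  unfold Ls
  rw [show pre Z 0 = [] from rfl, S_nil hF]
  rfl

theorem mem_Lt_succ {s x : ℕ} : x ∈ Lt F m Z (s + 1) ↔ x ∈ Lt F m Z s ∨
    x ∈ own (S F) m (pre Z s) ∨ ∃ k < s + 1, ∃ q ∈ GG (S F) m k (F m k (pre Z (s + 1))),
      x = cod (k + 1) (Ls F m Z (s + 1) k) q := by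
  have h1 : evs F (S F) m (pre Z (s + 1)) = (S F m (pre Z (s + 1))).1 := by
    rw [S1_succ hF]
    unfold evs
    rw [dropLast_pre]
    rfl
  unfold Lt Ls
  rw [← h1]
  rw [S_eq hF m (pre Z (s + 1))]
  unfold bod
  rw [if_neg (pre_succ_ne Z s)]
  simp only
  rw [dropLast_pre, List.mem_append, List.mem_append, or_assoc]
  refine or_congr_right (or_congr_right ?_)
  rw [List.mem_flatMap]
  constructor
  · rintro ⟨k, hk, hx⟩
    rw [List.mem_range, length_pre] at hk
    unfold cols at hx
    obtain ⟨q, hq, rfl⟩ := List.mem_map.1 hx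
    exact ⟨k, hk, q, hq, rfl⟩
  · rintro ⟨k, hk, q, hq, rfl⟩
    refine ⟨k, by rw [List.mem_range, length_pre]; exact hk, ?_⟩
    unfold cols
    exact List.mem_map.2 ⟨q, hq, rfl⟩

theorem Ls_le (s k : ℕ) : Ls F m Z s k ≤ s := by
  induction s with
  | zero => rw [Ls_zero hF]
  | succ s ih =>
    rw [Ls_succ hF]
    split_ifs
    · exact le_rfl
    · omega

theorem Ls_mono_k {s k k' : ℕ} (h : k ≤ k') : Ls F m Z s k ≤ Ls F m Z s k' := by
  induction s with
  | zero => rw [Ls_zero hF, Ls_zero hF]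
  | succ s ih =>
    rw [Ls_succ hF, Ls_succ hF]
    by_cases h1 : ev F m Z s ≤ k
    · rw [if_pos h1, if_pos (h1.trans h)]
    · rw [if_neg h1]
      split_ifs
      · exact (Ls_le hF _ _).trans (Nat.le_succ s)
      · exact ih

theorem Ls_mono {s s' k : ℕ} (h : s ≤ s') : Ls F m Z s k ≤ Ls F m Z s' k := by
  induction s', h using Nat.le_induction with
  | base => exact le_rfl
  | succ s' h ih =>
    refine ih.trans ?_
    rw [Ls_succ hF]
    split_ifs
    · exact (Ls_le hF _ _).trans (Nat.le_succ _)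
    · exact le_rfl

theorem Ls_mono2 {s s' k k' : ℕ} (h : s ≤ s') (hk : k ≤ k') : Ls F m Z s k ≤ Ls F m Z s' k' :=
  (Ls_mono hF h).trans (Ls_mono_k hF hk)

theorem Ls_stay {s s' k : ℕ} (h : s ≤ s') (he : ∀ r, s ≤ r → r < s' → k < ev F m Z r) :
    Ls F m Z s' k = Ls F m Z s k := by
  induction s', h using Nat.le_induction with
  | base => rfl
  | succ s' h ih =>
    rw [Ls_succ hF, if_neg (not_le.2 (he s' h (Nat.lt_succ_self _)))]
    exact ih fun r h1 h2 => he r h1 (by omega)

theorem no_ev {s s' k : ℕ} (he : Ls F m Z s' k = Ls F m Z s k) {r : ℕ} (h1 : s ≤ r)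
    (h2 : r < s') : k < ev F m Z r := by
  by_contra hc
  have h3 : Ls F m Z (r + 1) k = r + 1 := by rw [Ls_succ hF, if_pos (not_lt.1 hc)]
  have h4 : Ls F m Z (r + 1) k ≤ Ls F m Z s' k := Ls_mono hF h2
  have h5 := Ls_le hF (m := m) (Z := Z) s k
  omega

theorem Lt_mono {s s' : ℕ} (h : s ≤ s') {x : ℕ} (hx : x ∈ Lt F m Z s) : x ∈ Lt F m Z s' := by
  induction s', h using Nat.le_induction with
  | base => exact hx
  | succ s' h ih => exact (mem_Lt_succ hF).2 (Or.inl ih)

/-- an element is put in at some stage -/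
theorem mem_stage {s s' x : ℕ} (h : x ∈ Lt F m Z s') (hn : x ∉ Lt F m Z s) :
    ∃ r ≥ s, r < s' ∧ (x ∈ own (S F) m (pre Z r) ∨
      ∃ k < r + 1, ∃ q ∈ GG (S F) m k (F m k (pre Z (r + 1))),
        x = cod (k + 1) (Ls F m Z (r + 1) k) q) := by
  induction s' with
  | zero => exact absurd (Lt_mono hF (Nat.zero_le s) h) hn
  | succ s' ih =>
    rcases (mem_Lt_succ hF).1 h with h1 | h1
    · obtain ⟨r, h2, h3, h4⟩ := ih h1
      exact ⟨r, h2, by omega, h4⟩
    · refine ⟨s', ?_, Nat.lt_succ_self _, h1⟩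
      by_contra hc
      exact hn (Lt_mono hF (by omega) h)

end

section

variable {m : ℕ} {Z : ℕ → Bool} {s : ℕ}

open Classical in
theorem ev_eq (s : ℕ) : ev F m Z s = if ats (S F) m (pre Z s) then 0 else
    if nz (S F) m (pre Z s) < s then 0 else
    (List.range (s + 1)).findIdx
    (fun k => decide ((F m k (pre Z s)).length < (F m k (pre Z (s + 1))).length)) + 1 := by
  unfold ev evn vis
  rw [dropLast_pre, length_pre, length_pre]

theorem ev_zero_of_ats (h : ats (S F) m (pre Z s)) : ev F m Z s = 0 := by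
  rw [ev_eq, if_pos h]

theorem ev_zero_of_nz (h : nz (S F) m (pre Z s) < s) : ev F m Z s = 0 := by
  rw [ev_eq]
  by_cases h1 : ats (S F) m (pre Z s)
  · rw [if_pos h1]
  · rw [if_neg h1, if_pos h]

theorem ev_le_of_grow {k : ℕ} (h : (F m k (pre Z s)).length < (F m k (pre Z (s + 1))).length) :
    ev F m Z s ≤ k + 1 := by
  rw [ev_eq]
  split_ifs
  · omega
  · omega
  · refine Nat.succ_le_succ ?_
    by_contra hc
    have h1 := List.not_of_lt_findIdx (not_le.1 hc)
    rw [List.getElem_range] at h1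
    simp only [decide_eq_false_iff_not, not_lt] at h1
    omega

theorem grow_of_ev (h0 : ev F m Z s ≠ 0) (h1 : ev F m Z s ≤ s + 1) : ∃ k, ev F m Z s = k + 1 ∧
    (F m k (pre Z s)).length < (F m k (pre Z (s + 1))).length := by
  rw [ev_eq] at h0 h1 ⊢
  split_ifs at h0 h1 ⊢ with h2 h3
  · exact absurd rfl h0
  · exact absurd rfl h0
  · refine ⟨_, rfl, ?_⟩
    have h4 : (List.range (s + 1)).findIdx (fun k => decide ((F m k (pre Z s)).length <
      (F m k (pre Z (s + 1))).length)) < (List.range (s + 1)).length := by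
      rw [List.length_range]
      omega
    have h5 := List.findIdx_getElem (w := h4)
    rw [List.getElem_range] at h5
    simpa using h5

theorem mem_own {x : ℕ} (h : x ∈ own (S F) m (pre Z s)) : ev F m Z s = 0 ∧
    ∃ z, x = cod 0 0 z ∧ z < s ∧ ∃ j < 2 ^ m, NC (S F) m (pre Z s) j z := by
  unfold own at h
  rw [length_pre] at h
  split_ifs at h with h1 h2
  · exact absurd h (List.not_mem_nil)
  · refine ⟨ev_zero_of_nz h2, nz (S F) m (pre Z s), List.mem_singleton.1 h, h2, ?_⟩
    have h4 : nz (S F) m (pre Z s) < (List.range (pre Z s).length).length := by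
      rw [List.length_range, length_pre]
      exact h2
    unfold nz at h4 ⊢
    have h5 := List.findIdx_getElem (w := h4)
    rw [List.getElem_range] at h5
    simpa using h5
  · exact absurd h (List.not_mem_nil)

theorem ev_zero_of_NC {j z : ℕ} (hj : j < 2 ^ m) (hz : z < s) (h : NC (S F) m (pre Z s) j z) :
    ev F m Z s = 0 := by
  refine ev_zero_of_nz (lt_of_le_of_lt ?_ hz)
  unfold nz
  by_contra hc
  have h1 := List.not_of_lt_findIdx (not_le.1 hc)
  rw [List.getElem_range] at h1
  simp only [decide_eq_false_iff_not, not_exists, not_and] at h1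
  exact h1 j hj h

theorem ev_zero_iff : ev F m Z s = 0 ↔ ats (S F) m (pre Z s) ∨
    ∃ z < s, ∃ j < 2 ^ m, NC (S F) m (pre Z s) j z := by
  constructor
  · intro h
    by_cases h1 : ats (S F) m (pre Z s)
    · exact Or.inl h1
    · right
      rw [ev_eq, if_neg h1] at h
      by_cases h2 : nz (S F) m (pre Z s) < s
      · refine ⟨_, h2, ?_⟩
        have h4 : nz (S F) m (pre Z s) < (List.range (pre Z s).length).length := by
          rw [List.length_range, length_pre]
          exact h2
        unfold nz at h4 ⊢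
        have h5 := List.findIdx_getElem (w := h4)
        rw [List.getElem_range] at h5
        simpa using h5
      · rw [if_neg h2] at h
        exact absurd h (Nat.succ_ne_zero _)
  · rintro (h | ⟨z, hz, j, hj, h⟩)
    · exact ev_zero_of_ats h
    · exact ev_zero_of_NC hj hz h

theorem own_of_ats (h : ats (S F) m (pre Z s)) : own (S F) m (pre Z s) = [] := by
  unfold own
  rw [if_pos h]

/-- the element put in by `N` -/
theorem own_of_NC (ha : ¬ ats (S F) m (pre Z s)) (h : ev F m Z s = 0) :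
    ∃ z < s, own (S F) m (pre Z s) = [cod 0 0 z] ∧ ∃ j < 2 ^ m, NC (S F) m (pre Z s) j z := by
  rw [ev_eq, if_neg ha] at h
  by_cases h2 : nz (S F) m (pre Z s) < s
  · refine ⟨_, h2, ?_, ?_⟩
    · unfold own
      rw [if_neg ha, length_pre, if_pos h2]
    · have h4 : nz (S F) m (pre Z s) < (List.range (pre Z s).length).length := by
        rw [List.length_range, length_pre]
        exact h2
      unfold nz at h4 ⊢
      have h5 := List.findIdx_getElem (w := h4)
      rw [List.getElem_range] at h5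
      simpa using h5
  · rw [if_neg h2] at h
    exact absurd h (Nat.succ_ne_zero _)

end

end Pool.Agent.H649.NL
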