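import Pool.Agent.H649.NL.Lf
import Pool.Agent.H649.NL.Gn3
import Pool.Agent.H649.PT.Nwd

set_option autoImplicit false

/-!
The theorem on the extension of partial solutions.
-/

namespace Pool.Agent.H649.NL

open Encodable Pool.Agent.Helper227 Pool.Agent.H548R2.Post
open Nat.Partrec (Code)
open Pool.Agent.TH769.TP (FF Mon Lim lab Via via_iff lim_FF mon_FF lim_exists pre_lab lab_le le_lab)
open Pool.Agent.TH769.ZA (si_gen pf_sub)
open Pool.Agent.TH769.CD (pf_add pf_mul pf_div pf_mod pf_pow pf_getD pf_take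
  pf_append pf_cons pf_length pf_range pf_natPair pf_unpair pf_encode pf_testBit pf_xorb pf_andb
  pf_hlt pf_xor pp_exlt pp_alllt pp_imp pp_eq pp_le pp_lt pp_mem pf_decide pf_pre pp_En pf_ext)
open Pool.Agent.H649.PT (O nowhereDense_of TEq Btw TEq.symm TEq.trans TLe.tr join_le le_join_left
  le_join_right T U Mo Pr Sig3 P1 P2 s1_P1 s1_P2 norm dk T_to to_T U_eq Btw.congr core)

attribute [local fun_prop] Primrec
attribute [local fun_prop] Primrec.id Primrec.const Primrec.comp Primrec.pair Primrec.fst Primrec.snd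
attribute [local fun_prop] pf_add pf_mul pf_div pf_mod pf_pow pf_getD pf_take pf_append pf_cons
  pf_length pf_range pf_natPair pf_unpair pf_encode pf_testBit pf_xorb pf_andb pf_hlt pf_xor
  pf_sub

variable {θ u : ℕ → ℕ → List Bool → Bool}

/-- `A` is 3-generic: it meets or avoids every set of strings which is c.e. in the second jump -/
def G3 (A : ℕ → Bool) : Prop := Gen {Q | SI (jump (jump O)) fun τ : List Bool => τ ∈ Q} A

theorem core2 (hθ : Pr θ) (hu : Pr u) (mθ : Mo θ)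
    (hcl : ∀ q X Y, T θ q Y → TEq Y X → ∃ q', T θ q' X)
    (hM : IsMeagre {X : ℕ → Bool | ∃ q, T θ q X}) :
    ∃ e : ℕ, (∀ X, (¬ ∃ q, T θ q X) → Btw X (chr (WE X e))) ∧
      (∀ X, (∃ q, T θ q X) → ∃ q X0, T θ q X0 ∧ TEq X0 X ∧
        TEq (chr (WE X e)) (join X0 (chr (U u q X0)))) ∧
      ∀ A, G3 A → ∀ X, TEq X A → TEq (chr (WE A e)) (chr (WE X e)) := by
  classical
  obtain ⟨c, hS⟩ := exists_Sol (s1_LFd hθ hu)
  have pF : Primrec fun x : ℕ × ℕ × List Bool => Gf c x.1 x.2.1 x.2.2 :=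
    pf_Gf.comp (f := fun x : Code × ℕ × ℕ × List Bool => Gf x.1 x.2.1 x.2.2.1 x.2.2.2)
      (g := fun x : ℕ × ℕ × List Bool => (c, x)) ((Primrec.const c).pair Primrec.id)
  have hM' : IsMeagre {X : ℕ → Bool | ∃ q Y, T θ q Y ∧ TEq Y X} := by
    refine hM.mono ?_
    rintro X ⟨q, Y, h1, h2⟩
    exact hcl q X Y h1 h2
  have hHP : ∀ m, HP (Gf c) m := all_HP hS fun m hP => nlm hS pF hM' m hP
  obtain ⟨e, h1, h2, h3⟩ := partA (tree hS hHP) pF
  refine ⟨e, fun X hX => h1 X (exists_Jp (tree hS hHP) X ?_), fun X hX => ?_, ?_⟩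
  · rintro ⟨m, Z, hJ, k, hk, hT⟩
    obtain ⟨X0, -, h5, h6⟩ := leaf_T hS pF (hHP m) hJ.1 hk hT
    obtain ⟨-, c', K, hp⟩ := hJ
    exact hX (hcl _ _ _ h6 (h5.trans (hp.deg pF).symm))
  · obtain ⟨q, hq⟩ := hX
    obtain ⟨m, Z, hJ, hex⟩ := to_leaf hS mθ hHP hq
    obtain ⟨k, ⟨hk, hT⟩, hmin⟩ : ∃ k, (k < LL m ∧ Tr (Gf c) m k Z) ∧
        ∀ k' < k, ¬ (k' < LL m ∧ Tr (Gf c) m k' Z) :=
      ⟨Nat.find hex, Nat.find_spec hex, fun k' hk' => Nat.find_min hex hk'⟩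
    have hLc : Lc (Gf c) m k Z := ⟨hT, fun k' hk' hT' => hmin k' hk' ⟨by omega, hT'⟩⟩
    obtain ⟨X0, h4, h5, h6⟩ := leaf_T hS pF (hHP m) hJ.1 hk hT
    have h7 := leaf_lim hS hk h4 hT
    have h8 := h3 m k X Z _ hk hJ hLc h7
    rw [lfE_set] at h8
    have h9 : TEq X0 X := by
      obtain ⟨-, c', K, hp⟩ := hJ
      exact h5.trans (hp.deg pF).symm
    refine ⟨_, X0, h6, h9, h8.trans ⟨?_, ?_⟩⟩
    · exact join_le (TLe.tr h9.2 (le_join_left _ _)) (le_join_right _ _)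
    · exact join_le (TLe.tr h9.1 (le_join_left _ _)) (le_join_right _ _)
  · intro A hG X hX
    have hG' : Gen (Fam (Gf c)) A := fun Q hQ => hG Q (si_Fam hHP Q hQ)
    obtain ⟨m, Z, h4, h5⟩ := merged hS hHP hG' hX.symm
    exact h2 m A X Z h4 h5

/-- The presentation of a `Σ⁰₃` relation by `Π⁰₂` conditions and operators. -/
theorem sig3_theta {R : ℕ → (ℕ → Bool) → Prop} (hR : Sig3 R)
    (h1 : ∀ v A, R v A → Btw A (chr (WE A v))) :
    ∃ θ u : ℕ → ℕ → List Bool → Bool, Pr θ ∧ Pr u ∧ Mo θ ∧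
      (∀ k X, T θ k X → ∃ v A, R v A ∧ TEq A X ∧ TEq (join X (chr (U u k X))) (chr (WE A v))) ∧
      ∀ v A X, R v A → TEq A X → ∃ k, T θ k X := by
  obtain ⟨δ, hδ, hRδ⟩ := hR
  obtain ⟨θ, pθ, mθ, eθ⟩ := norm (s1_P1 hδ)
  obtain ⟨u, pu, mu, eu⟩ := norm s1_P2
  refine ⟨θ, u, pθ, pu, mθ, ?_, ?_⟩
  · intro k X hk
    obtain ⟨A, hA, hB, h3⟩ := T_to (δ := δ) (k := k) (X := X) fun n => (eθ k n X).1 (hk n)
    have hRA : R (dk k).2.1 A := (hRδ _ _).2 ⟨_, h3⟩
    have hAX : TLe A X := hA.le (Pool.Agent.TH769.TP.pf_FF _)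
    have hXA : TLe X A := hB.le (Pool.Agent.TH769.TP.pf_FF _)
    have hU : U u k X = WE A (dk k).2.1 := by
      ext y
      exact (eu k y X).trans (U_eq hA y)
    rw [hU]
    exact ⟨_, A, hRA, ⟨hAX, hXA⟩, join_le (TLe.tr hXA (h1 _ _ hRA).1) (TuringReducible.refl _),
      le_join_right _ _⟩
  · intro v A X hRA hAX
    obtain ⟨κ, hκ⟩ := (hRδ _ _).1 hRA
    obtain ⟨i, hi⟩ := (via_iff _ _).1 hAX.1
    obtain ⟨j, hj⟩ := (via_iff _ _).1 hAX.2
    refine ⟨encode (κ, v, i, j), fun n => (eθ _ n X).2 ?_⟩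
    have hd : dk (encode (κ, v, i, j)) = (κ, v, i, j) := Denumerable.ofNat_encode _
    refine to_T (A := A) ?_ ?_ ?_ n
    · rw [hd]
      exact lim_FF hi
    · rw [hd]
      exact lim_FF hj
    · rw [hd]
      exact hκ

theorem dense_or_meagre (mθ : Mo θ) (q : ℕ) :
    (∃ ρ : List Bool, ∀ n τ, ρ <+: τ → ∃ τ', τ <+: τ' ∧ θ q n τ' = true) ∨
      IsMeagre {X : ℕ → Bool | T θ q X} := by
  by_cases h : ∃ ρ : List Bool, ∀ n τ, ρ <+: τ → ∃ τ', τ <+: τ' ∧ θ q n τ' = true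
  · exact Or.inl h
  · right
    push Not at h
    refine IsNowhereDense.isMeagre (nowhereDense_of fun σ => ?_)
    obtain ⟨n, τ, h1, h2⟩ := h σ
    refine ⟨τ, h1, fun A hA hT => ?_⟩
    obtain ⟨s, hs⟩ := hT n
    refine h2 (pre A (max s τ.length)) ?_ (mθ _ _ _ _ (pre_prefix A (le_max_left _ _)) hs)
    have h3 := pre_prefix A (le_max_right s τ.length)
    rwa [hA] at h3

/-- a string followed by a sequence -/
def cat (ρ : List Bool) (A : ℕ → Bool) : ℕ → Bool :=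
  fun n => if n < ρ.length then ρ.getD n false else A (n - ρ.length)

theorem pre_cat (ρ : List Bool) (A : ℕ → Bool) (s : ℕ) :
    pre (cat ρ A) (ρ.length + s) = ρ ++ pre A s := by
  refine List.ext_getElem (by simp) fun i h1 h2 => ?_
  rw [getElem_pre]
  unfold cat
  by_cases h : i < ρ.length
  · rw [if_pos h, List.getElem_append_left h, List.getD_eq_getElem _ _ h]
  · rw [if_neg h, List.getElem_append_right (by omega), getElem_pre]

theorem cat_teq (ρ : List Bool) (A : ℕ → Bool) : TEq (cat ρ A) A := by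
  constructor
  · rw [tLe_iff_SI]
    refine (SI.or (SI.of_prim (p := fun x : ℕ × Bool => x.1 < ρ.length ∧ ρ.getD x.1 false = x.2)
      (PrimrecPred.and (pp_lt (by fun_prop) (Primrec.const _)) (pp_eq (by fun_prop)
        (by fun_prop)))) (SI.and (SI.of_prim (p := fun x : ℕ × Bool => ¬ x.1 < ρ.length)
      (PrimrecPred.not (pp_lt (by fun_prop) (Primrec.const _)))) ((tLe_iff_SI.1
        (TuringReducible.refl _ : TLe A A)).comp (f := fun x : ℕ × Bool => (x.1 - ρ.length, x.2))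
          (by fun_prop)))).of_eq fun x => ?_
    unfold cat
    by_cases hx : x.1 < ρ.length
    · simp [hx]
    · simp [hx]
  · have hf : Computable fun n : ℕ => n + ρ.length := Primrec.to_comp (by fun_prop)
    refine tLe_of_computable hf fun n => ?_
    unfold cat
    rw [if_neg (by omega), Nat.add_sub_cancel]

/-- 3-generic sequences are in the domain, up to equivalence, if it is somewhere dense -/
theorem T_cat (hθ : Pr θ) {q : ℕ} {ρ : List Bool}
    (h : ∀ n τ, ρ <+: τ → ∃ τ', τ <+: τ' ∧ θ q n τ' = true) {A : ℕ → Bool} (hA : G3 A) :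
    T θ q (cat ρ A) := by
  intro n
  have h1 : PrimrecPred fun τ : List Bool => θ q n (ρ ++ τ) = true := by
    refine pp_eq ?_ (Primrec.const true)
    exact hθ.comp (f := fun x : ℕ × ℕ × List Bool => θ x.1 x.2.1 x.2.2)
      (g := fun τ : List Bool => (q, n, ρ ++ τ)) ((Primrec.const q).pair ((Primrec.const n).pair
        (pf_append (Primrec.const ρ) Primrec.id)))
  rcases hA {τ | θ q n (ρ ++ τ) = true} (SI.of_prim h1) with ⟨s, hs⟩ | ⟨s, hs⟩
  · refine ⟨ρ.length + s, ?_⟩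
    rw [pre_cat]
    exact hs
  · exfalso
    obtain ⟨τ', h2, h3⟩ := h n (ρ ++ pre A s) (List.prefix_append _ _)
    obtain ⟨δ, rfl⟩ := h2
    rw [List.append_assoc] at h3
    exact hs (pre A s ++ δ) (List.prefix_append _ _) h3

/-- the transfer theorem without compatibility -/
theorem transferL {R : ℕ → (ℕ → Bool) → Prop} (hR : Sig3 R)
    (h1 : ∀ v A, R v A → Btw A (chr (WE A v))) :
    ∃ e : ℕ, (∀ X, Btw X (chr (WE X e))) ∧
      ∀ w B X, R w B → TEq B X → ∃ v A, R v A ∧ TEq A X ∧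
        TEq (chr (WE A v)) (chr (WE X e)) := by
  obtain ⟨δ, hδ, hRδ⟩ := hR
  obtain ⟨θ, pθ, mθ, eθ⟩ := norm (s1_P1 hδ)
  obtain ⟨u, pu, mu, eu⟩ := norm s1_P2
  obtain ⟨e, he⟩ := core pθ pu mθ mu
  have hT : ∀ {k : ℕ} {X : ℕ → Bool}, T θ k X → ∃ v A, R v A ∧ TEq A X ∧
      TEq (join X (chr (U u k X))) (chr (WE A v)) := by
    intro k X hk
    obtain ⟨A, hA, hB, h3⟩ := T_to (δ := δ) (k := k) (X := X) fun n => (eθ k n X).1 (hk n)
    have hRA : R (dk k).2.1 A := (hRδ _ _).2 ⟨_, h3⟩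
    have hAX : TLe A X := hA.le (Pool.Agent.TH769.TP.pf_FF _)
    have hXA : TLe X A := hB.le (Pool.Agent.TH769.TP.pf_FF _)
    have hU : U u k X = WE A (dk k).2.1 := by
      ext y
      exact (eu k y X).trans (U_eq hA y)
    rw [hU]
    exact ⟨_, A, hRA, ⟨hAX, hXA⟩, join_le (TLe.tr hXA (h1 _ _ hRA).1) (TuringReducible.refl _),
      le_join_right _ _⟩
  have hT' : ∀ {v : ℕ} {A X : ℕ → Bool}, R v A → TEq A X → ∃ k, T θ k X := by
    intro v A X hRA hAX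
    obtain ⟨κ, hκ⟩ := (hRδ _ _).1 hRA
    obtain ⟨i, hi⟩ := (via_iff _ _).1 hAX.1
    obtain ⟨j, hj⟩ := (via_iff _ _).1 hAX.2
    refine ⟨encode (κ, v, i, j), fun n => (eθ _ n X).2 ?_⟩
    have hd : dk (encode (κ, v, i, j)) = (κ, v, i, j) := Denumerable.ofNat_encode _
    refine to_T (A := A) ?_ ?_ ?_ n
    · rw [hd]
      exact lim_FF hi
    · rw [hd]
      exact lim_FF hj
    · rw [hd]
      exact hκ
  have hV : ∀ {X : ℕ → Bool}, (∃ k, T θ k X) → ∃ v A, R v A ∧ TEq A X ∧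
      TEq (chr (WE A v)) (chr (WE X e)) := by
    classical
    intro X hex
    have h3 := Nat.find_spec hex
    obtain ⟨v, A, hRA, hAX, h4⟩ := hT h3
    obtain ⟨-, -, h5, -⟩ := he X
    have h6 := h5 _ h3 fun k hk => Nat.find_min hex hk
    exact ⟨v, A, hRA, hAX, TEq.trans h4.symm ⟨h6.2, h6.1⟩⟩
  refine ⟨e, fun X => ?_, fun w B X hRB hBX => hV (hT' hRB hBX)⟩
  by_cases hex : ∃ k, T θ k X
  · obtain ⟨v, A, hRA, hAX, h3⟩ := hV hex
    exact (h1 v A hRA).congr hAX h3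
  · push Not at hex
    obtain ⟨h3, h4, -, h5⟩ := he X
    obtain ⟨h6, h7⟩ := h5 hex
    exact ⟨h3, h6, h4, fun h8 => not_jump_le _ (TLe.tr h7 h8)⟩

/-- The theorem on the extension of partial solutions. -/
theorem extend {R : ℕ → (ℕ → Bool) → Prop} (hR : Sig3 R)
    (h1 : ∀ v A, R v A → Btw A (chr (WE A v))) :
    ∃ e : ℕ, (∀ X, Btw X (chr (WE X e))) ∧
      (∀ w B X, R w B → TEq B X → ∃ v A, R v A ∧ TEq A X ∧
        TEq (chr (WE A v)) (chr (WE X e))) ∧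
      ∀ A, G3 A → (∀ v B, R v B → ¬ TEq B A) → ∀ X Y, TEq X A → TEq Y A →
        TEq (chr (WE X e)) (chr (WE Y e)) := by
  obtain ⟨θ, u, pθ, pu, mθ, hT, hT'⟩ := sig3_theta hR h1
  by_cases hd : ∃ q, ∃ ρ : List Bool, ∀ n τ, ρ <+: τ → ∃ τ', τ <+: τ' ∧ θ q n τ' = true
  · obtain ⟨q, ρ, hd⟩ := hd
    obtain ⟨e, h3, h4⟩ := transferL hR h1
    refine ⟨e, h3, h4, fun A hA hA' => ?_⟩
    obtain ⟨v, B, h5, h6, -⟩ := hT q _ (T_cat pθ hd hA)
    exact absurd (h6.trans (cat_teq ρ A)) (hA' v B h5)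
  · have hM : IsMeagre {X : ℕ → Bool | ∃ q, T θ q X} := by
      have h3 : {X : ℕ → Bool | ∃ q, T θ q X} = ⋃ q : ℕ, {X : ℕ → Bool | T θ q X} := by
        ext X
        simp
      rw [h3]
      refine isMeagre_iUnion fun q => ?_
      rcases dense_or_meagre mθ q with h4 | h4
      · exact absurd ⟨q, h4⟩ hd
      · exact h4
    have hcl : ∀ q X Y, T θ q Y → TEq Y X → ∃ q', T θ q' X := by
      intro q X Y hq hYX
      obtain ⟨v, A, hRA, hAY, -⟩ := hT q Y hq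
      exact hT' v A X hRA (hAY.trans hYX)
    obtain ⟨e, g1, g2, g3⟩ := core2 pθ pu mθ hcl hM
    have hV : ∀ {X : ℕ → Bool}, (∃ k, T θ k X) → ∃ v A, R v A ∧ TEq A X ∧
        TEq (chr (WE A v)) (chr (WE X e)) := by
      intro X hX
      obtain ⟨q, X0, a1, a2, a3⟩ := g2 X hX
      obtain ⟨v, A, a4, a5, a6⟩ := hT q X0 a1
      exact ⟨v, A, a4, a5.trans a2, (a3.trans a6).symm⟩
    refine ⟨e, fun X => ?_, fun w B X hRB hBX => hV (hT' w B X hRB hBX), fun A hA _ X Y hX hY =>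
      (g3 A hA X hX).symm.trans (g3 A hA Y hY)⟩
    by_cases hX : ∃ q, T θ q X
    · obtain ⟨v, A, a1, a2, a3⟩ := hV hX
      exact (h1 v A a1).congr a2 a3
    · exact g1 X hX

end Pool.Agent.H649.NL
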