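import Pool.Agent.H649.NL.Ver
import Pool.Agent.H649.NL.Fix

set_option autoImplicit false

/-!
Plans: definitions.
-/

namespace Pool.Agent.H649.NL

open Encodable Pool.Agent.Helper227 Pool.Agent.H548R2.Post
open Nat.Partrec (Code)
open Pool.Agent.TH769.TP (FF Mon Lim lab)
open Pool.Agent.H649.PT (TEq)

/-- the functionals of the program `e` -/
def Gf (e : Code) (m k : ℕ) (σ : List Bool) : List Bool :=
  (FF (Code.curry e (Nat.pair m k)) σ).take (σ.length - 1)

/-- agreement up to `n` -/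
def cmp (n : ℕ) (u v : List Bool) : Prop := n ≤ u.length ∧ n ≤ v.length ∧ u.take n = v.take n

/-- `α` is an initial segment of `u` -/
def ini (α u : List Bool) : Prop := u.take α.length = α

/-- the labels given by a history and a list of bits (the top label first) -/
def kls : ℕ → List Bool → List ℕ
  | _, [] => []
  | c, b :: bl => (2 * c + b.toNat) :: kls c.unpair.1 bl

/-- the values of the false children are bounded by `N` -/
def BD (F : ℕ → ℕ → List Bool → List Bool) (N : ℕ) : ℕ → List Bool → List Bool → Prop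
  | _, [], _ => True
  | c, b :: bl, x => BD F N c.unpair.1 bl x ∧
      ((b = true → (F bl.length (2 * c) (KK F (kls c.unpair.1 bl) x)).length ≤ N) ∧
        ∀ k < LL bl.length, (F bl.length k (KK F (kls c.unpair.1 bl) x)).length ≤ N)

/-- the same, also for the leaves at the end -/
def BT (F : ℕ → ℕ → List Bool → List Bool) (N c : ℕ) (bl x : List Bool) : Prop :=
  BD F N c bl x ∧ ∀ k < LL bl.length, (F bl.length k (KK F (kls c bl) x)).length ≤ N

/-- the member of a string -/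
def mb (c : List Bool) (σ : List Bool) : List Bool := c.foldl (fun σ b => pt b σ) σ

/-- plans: (type, (ρ, bits, bits), (α, β, member, member), bound) -/
abbrev Pl : Type := ℕ × (List Bool × List Bool × List Bool) ×
  (List Bool × List Bool × List Bool × List Bool) × ℕ

def pl (π : ℕ) : Pl := ((decode π : Option Pl)).getD (0, ([], [], []), ([], [], [], []), 0)

def ty (p : Pl) : ℕ := p.1
def rh (p : Pl) : List Bool := p.2.1.1
def bA (p : Pl) : List Bool := p.2.1.2.1
def bB (p : Pl) : List Bool := p.2.1.2.2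
def al (p : Pl) : List Bool := p.2.2.1.1
def be (p : Pl) : List Bool := p.2.2.1.2.1
def cA (p : Pl) : List Bool := p.2.2.1.2.2.1
def cB (p : Pl) : List Bool := p.2.2.1.2.2.2
def bN (p : Pl) : ℕ := p.2.2.2

/-- the tasks -/
def tk (m : ℕ) : List Bool × Code × Code :=
  ((decode m : Option (List Bool × Code × Code))).getD ([], Code.zero, Code.zero)

def ti (m : ℕ) : Code := (tk m).2.1
def tj (m : ℕ) : Code := (tk m).2.2

/-- the joint conditions up to `n` -/
def J (F : ℕ → ℕ → List Bool → List Bool) (m c : ℕ) (p : Pl) (n : ℕ) (x y a b : List Bool) :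
    Prop :=
  (cmp n (FF (ti m) x) y ∧ cmp n (FF (tj m) y) x ∧ cmp n (KK F (kls c (bA p)) x) a ∧
    cmp n (KK F (kls c (bB p)) y) b) ∧
  (BT F (bN p) c (bA p) (x.take n) ∧ BT F (bN p) c (bB p) (y.take n)) ∧
  (ty p = 1 → cmp n a b) ∧
  (ty p = 2 → cmp n (mb (cA p) a) x ∧ cmp n (mb (cB p) b) y ∧ ini (al p) a ∧ ini (be p) b)

def JX (F : ℕ → ℕ → List Bool → List Bool) (m c : ℕ) (p : Pl) (n : ℕ) (τ : List Bool) : Prop :=
  J F m c p n τ (FF (ti m) τ) (KK F (kls c (bA p)) τ) (KK F (kls c (bB p)) (FF (ti m) τ))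

def JA (F : ℕ → ℕ → List Bool → List Bool) (m c : ℕ) (p : Pl) (n : ℕ) (σ : List Bool) : Prop :=
  J F m c p n (mb (cA p) σ) (FF (ti m) (mb (cA p) σ)) σ
    (KK F (kls c (bB p)) (FF (ti m) (mb (cA p) σ)))

def JB (F : ℕ → ℕ → List Bool → List Bool) (m c : ℕ) (p : Pl) (n : ℕ) (σ : List Bool) : Prop :=
  J F m c p n (FF (tj m) (mb (cB p) σ)) (mb (cB p) σ)
    (KK F (kls c (bA p)) (FF (tj m) (mb (cB p) σ))) σ

/-- the shape of the plans of the types 1 and 2 -/
def shp (m : ℕ) (p : Pl) : Prop :=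
  (bA p).length = m ∧ (bB p).length = m ∧
    (ty p = 2 → (cA p).length = m ∧ (cB p).length = m ∧ ¬ ini (al p) (be p) ∧ ¬ ini (be p) (al p))

/-- the instance `(τ, n)` of the condition on a plan -/
def Pi (F : ℕ → ℕ → List Bool → List Bool) (m c : ℕ) (p : Pl) (τ : List Bool) (n : ℕ) : Prop :=
  ini (tk m).1 (rh p) ∧
    ((ty p = 0 ∧ (ini (rh p) τ → ¬ cmp (bN p) (FF (tj m) (FF (ti m) τ)) τ)) ∨
     ((ty p = 1 ∨ ty p = 2) ∧ shp m p ∧ (ini (rh p) τ → ∃ τ', ini τ τ' ∧ JX F m c p n τ')))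

/-- the plan is right -/
def PP (F : ℕ → ℕ → List Bool → List Bool) (m c : ℕ) (p : Pl) : Prop := ∀ τ n, Pi F m c p τ n

/-- the label of the string belongs to the history -/
def LO (m c : ℕ) (σ : List Bool) : Prop :=
  (m = 0 ∧ c = 0) ∨ (0 < m ∧ lb σ < σ.length ∧ lb σ / 2 = c)

def LOZ (m c : ℕ) (Z : ℕ → Bool) : Prop := ∃ s, LO m c (pre Z s)

/-- the `n`-th entry of the join of `a` and `b` with the label `k` -/
def outb (k : ℕ) (a b : List Bool) (n : ℕ) : Option Bool :=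
  if n < k then some false else if n = k then some true else
    if (n - k - 1) % 2 = 0 then a[(n - k - 1) / 2]? else b[(n - k - 1) / 2]?

/-- the `n`-th output of the child `k` of the level `m` is `b` (not for the leaves) -/
def D5 (F : ℕ → ℕ → List Bool → List Bool) (m k n : ℕ) (b : Bool) (σ : List Bool) : Prop :=
  LO m (k / 2).unpair.1 σ ∧
  (∀ v < n + 1, Pi F m (k / 2).unpair.1 (pl (k / 2).unpair.2)
    ((decode v.unpair.1).getD []) v.unpair.2) ∧
  ((k % 2 = 1 ∧ outb k σ σ n = some b) ∨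
   (k % 2 = 0 ∧ ty (pl (k / 2).unpair.2) = 2 ∧
    ((JA F m (k / 2).unpair.1 (pl (k / 2).unpair.2) n σ ∧
      outb k σ (KK F (kls (k / 2).unpair.1 (bB (pl (k / 2).unpair.2)))
        (FF (ti m) (mb (cA (pl (k / 2).unpair.2)) σ))) n = some b) ∨
     (JB F m (k / 2).unpair.1 (pl (k / 2).unpair.2) n σ ∧
      outb k (KK F (kls (k / 2).unpair.1 (bA (pl (k / 2).unpair.2)))
        (FF (tj m) (mb (cB (pl (k / 2).unpair.2)) σ))) σ n = some b))))

/-- the `n`-th output of the child `k` of the level `m` is `b`; `LF` describes the leaves -/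
def D6 (F : ℕ → ℕ → List Bool → List Bool) (LF : (ℕ × ℕ × ℕ × Bool) × List Bool → Prop)
    (m k n : ℕ) (b : Bool) (σ : List Bool) : Prop :=
  (k < LL m ∧ LF ((m, k, n, b), σ)) ∨
    ((LL m ≤ k ∧ LL m ≤ (k / 2).unpair.2) ∧ D5 F m k n b σ)

def DD (LF : (ℕ × ℕ × ℕ × Bool) × List Bool → Prop) (x : (Code × ℕ) × (ℕ × Bool) × List Bool) :
    Prop :=
  D6 (Gf x.1.1) LF x.1.2.unpair.1 x.1.2.unpair.2 x.2.1.1 x.2.1.2 x.2.2

/-- the families of functionals which satisfy their own description -/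
structure Sol (F : ℕ → ℕ → List Bool → List Bool)
    (LF : (ℕ × ℕ × ℕ × Bool) × List Bool → Prop) : Prop where
  fnl : Fnl F
  bit : ∀ m k Z n s, n < (F m k (pre Z s)).length →
    ∃ s' b, (F m k (pre Z s))[n]? = some b ∧ D6 F LF m k n b (pre Z s')
  unb : ∀ m k Z, (∀ n, ∃ s b, D6 F LF m k n b (pre Z s)) → Tr F m k Z

/-- the joint relation of infinite sequences -/
structure Rel (F : ℕ → ℕ → List Bool → List Bool) (m c : ℕ) (p : Pl) (x y A B : ℕ → Bool) :
    Prop where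
  ixy : Lim (FF (ti m)) x y
  jyx : Lim (FF (tj m)) y x
  kA : Lim (KK F (kls c (bA p))) x A
  kB : Lim (KK F (kls c (bB p))) y B
  bdx : ∀ s, BT F (bN p) c (bA p) (pre x s)
  bdy : ∀ s, BT F (bN p) c (bB p) (pre y s)
  eq1 : ty p = 1 → A = B
  mrg : ty p = 2 → Lim (mb (cA p)) A x ∧ Lim (mb (cB p)) B y ∧
    pre A (al p).length = al p ∧ pre B (be p).length = be p

/-- the least right plan -/
noncomputable def zz (F : ℕ → ℕ → List Bool → List Bool) (m c : ℕ) : ℕ :=
  sInf {π | LL m ≤ π ∧ PP F m c (pl π)}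

/-- the history -/
noncomputable def cc (F : ℕ → ℕ → List Bool → List Bool) : ℕ → ℕ
  | 0 => 0
  | m + 1 => Nat.pair (cc F m) (zz F m (cc F m))

/-- there are right plans for all levels less than `m` -/
def HP (F : ℕ → ℕ → List Bool → List Bool) (m : ℕ) : Prop :=
  ∀ l < m, LL l ≤ zz F l (cc F l) ∧ PP F l (cc F l) (pl (zz F l (cc F l)))

def Nx (F : ℕ → ℕ → List Bool → List Bool) (m : ℕ) (b : Bool) (Z Z' : ℕ → Bool) : Prop :=
  Lim (F m (2 * cc F (m + 1) + b.toNat)) Z Z' ∧ (b = true → ¬ Tr F m (2 * cc F (m + 1)) Z) ∧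
    ∀ k < LL m, ¬ Tr F m k Z

/-- `Z` is obtained from `X` along the bits `bl` (the top bit first) -/
def Jb (F : ℕ → ℕ → List Bool → List Bool) : List Bool → (ℕ → Bool) → (ℕ → Bool) → Prop
  | [], X, Z => Z = X
  | b :: bl, X, Z' => ∃ Z, Jb F bl X Z ∧ Nx F bl.length b Z Z'

/-- the sets of the level `m` -/
def Ac (F : ℕ → ℕ → List Bool → List Bool) (m : ℕ) (Z : ℕ → Bool) : Prop :=
  ∃ X bl, bl.length = m ∧ Jb F bl X Z

/-- comeager many oracles and the sets of their degrees do not lead to a leaf -/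
def NLm (F : ℕ → ℕ → List Bool → List Bool) (m : ℕ) : Prop :=
  IsMeagre {X : ℕ → Bool | ¬ ∀ Y, TEq Y X → ∀ bl Z, bl.length ≤ m → Jb F bl Y Z →
    ∀ k < LL bl.length, ¬ Tr F bl.length k Z}

/-- `X` meets or avoids all sets of the family -/
def Gen (C : Set (Set (List Bool))) (X : ℕ → Bool) : Prop :=
  ∀ Q ∈ C, (∃ s, pre X s ∈ Q) ∨ ∃ s, ∀ τ, pre X s <+: τ → τ ∉ Q

/-- the family of sets of strings used in the proof -/
def Fam (F : ℕ → ℕ → List Bool → List Bool) : Set (Set (List Bool)) :=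
  (Set.range fun q : ℕ × ℕ => {τ | cmp q.2 (FF (tj q.1) (FF (ti q.1) τ)) τ}) ∪
  (Set.range fun q : ℕ × ℕ => {τ | ∃ n, ∀ τ', τ <+: τ' → ¬ JX F q.1 (cc F q.1) (pl q.2) n τ'}) ∪
  (Set.range fun q : ℕ × ℕ × ℕ => {τ | JX F q.1 (cc F q.1) (pl q.2.1) q.2.2 τ}) ∪
  (Set.range fun q : Code × Code => {τ | ∃ σ0 : List Bool,
    rh (pl (zz F (encode (σ0, q)) (cc F (encode (σ0, q))))) <+: τ})

end Pool.Agent.H649.NL
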