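import Pool.Agent.H649.NL.Def

set_option autoImplicit false

/-!
The body of the recursion is primitive recursive in a primitive recursive family.
-/

namespace Pool.Agent.H649.NL

open Encodable Pool.Agent.Helper227 Pool.Agent.H548R2.Post
open Nat.Partrec (Code)
open Pool.Agent.TH769.ZA (si_gen pf_sub)
open Pool.Agent.TH769.CD (bdd_lt pf_add pf_mul pf_div pf_mod pf_pow pf_getD pf_take
  pf_append pf_cons pf_length pf_range pf_natPair pf_unpair pf_encode pf_testBit pf_xorb pf_andb
  pf_hlt pf_xor pp_exlt pp_alllt pp_imp pp_eq pp_le pp_lt pp_mem pf_decide pf_pre pp_En pf_ext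
  ext_pre_eq)

attribute [local fun_prop] Primrec
attribute [local fun_prop] Primrec.id Primrec.const Primrec.comp Primrec.pair Primrec.fst Primrec.snd
attribute [local fun_prop] pf_add pf_mul pf_div pf_mod pf_pow pf_getD pf_take pf_append pf_cons
  pf_length pf_range pf_natPair pf_unpair pf_encode pf_testBit pf_xorb pf_andb pf_hlt pf_xor
  pf_sub

section basic

variable {α γ δ : Type} [Primcodable α] [Primcodable γ] [Primcodable δ]

@[local fun_prop] theorem pf_min {f g : α → ℕ} (hf : Primrec f) (hg : Primrec g) :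
    Primrec fun a => min (f a) (g a) := Primrec.nat_min.comp hf hg

@[local fun_prop] theorem pf_drop {f : α → List γ} {g : α → ℕ} (hg : Primrec g)
    (hf : Primrec f) : Primrec fun a => (f a).drop (g a) := Primrec.list_drop.comp hg hf

@[local fun_prop] theorem pf_reverse {f : α → List γ} (hf : Primrec f) :
    Primrec fun a => (f a).reverse := Primrec.list_reverse.comp hf

theorem pf_ite {c : α → Prop} (i : DecidablePred c) {f g : α → γ} (hc : PrimrecPred c)
    (hf : Primrec f) (hg : Primrec g) :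
    Primrec fun a => @ite γ (c a) (i a) (f a) (g a) := Primrec.ite hc hf hg

theorem pf_findIdx {f : α → List γ} {p : α → γ → Bool} (hf : Primrec f)
    (hp : Primrec fun x : α × γ => p x.1 x.2) : Primrec fun a => (f a).findIdx (p a) :=
  Primrec.list_findIdx hf hp

theorem pf_map {f : α → List γ} {g : α → γ → δ} (hf : Primrec f)
    (hg : Primrec fun x : α × γ => g x.1 x.2) : Primrec fun a => (f a).map (g a) :=
  Primrec.list_map hf hg

theorem pf_flatMap {f : α → List γ} {g : α → γ → List δ} (hf : Primrec f)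
    (hg : Primrec fun x : α × γ => g x.1 x.2) : Primrec fun a => (f a).flatMap (g a) :=
  Primrec.list_flatMap hf hg

theorem pf_foldl {f : α → List γ} {g : α → δ} {h : α → δ → γ → δ} (hf : Primrec f)
    (hg : Primrec g) (hh : Primrec fun x : α × (δ × γ) => h x.1 x.2.1 x.2.2) :
    Primrec fun a => (f a).foldl (h a) (g a) :=
  Primrec.list_foldl (h := fun a x => h a x.1 x.2) hf hg hh

theorem pf_cod {f g h : α → ℕ} (hf : Primrec f) (hg : Primrec g) (hh : Primrec h) :
    Primrec fun a => cod (f a) (g a) (h a) := by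
  unfold cod; fun_prop

theorem pf_last {l : α → List ℕ} {k : α → ℕ} (hl : Primrec l) (hk : Primrec k) :
    Primrec fun a => last (l a) (k a) := by
  unfold last
  refine pf_sub (by fun_prop) (pf_findIdx (by fun_prop) ?_)
  exact pf_decide (pp_le (by fun_prop) (by fun_prop)) _

theorem pf_lb {σ : α → List Bool} (hσ : Primrec σ) : Primrec fun a => lb (σ a) := by
  unfold lb
  exact pf_findIdx hσ Primrec.snd

theorem pf_rst {σ : α → List Bool} (hσ : Primrec σ) : Primrec fun a => rst (σ a) := by
  have h := pf_lb hσ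
  unfold rst
  fun_prop

theorem pf_toNat {b : α → Bool} (hb : Primrec b) : Primrec fun a => (b a).toNat :=
  (Primrec.dom_bool Bool.toNat).comp hb

theorem pf_pt {b : α → Bool} {σ : α → List Bool} (hb : Primrec b) (hσ : Primrec σ) :
    Primrec fun a => pt (b a) (σ a) := by
  have h := pf_rst hσ
  have h2 := pf_toNat hb
  unfold pt
  refine pf_map (by fun_prop) ?_
  exact pf_getD (h.comp Primrec.fst) (pf_add (by fun_prop) (h2.comp Primrec.fst))

end basic

section fam

variable {β : Type} [Primcodable β] {E : β → ℕ → List Bool → St}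

/-- the family is primitive recursive -/
def PE (E : β → ℕ → List Bool → St) : Prop := Primrec fun x : β × ℕ × List Bool => E x.1 x.2.1 x.2.2

variable {α : Type} [Primcodable α]

theorem pf_E (pE : PE E) {e : α → β} {m : α → ℕ} {σ : α → List Bool} (he : Primrec e)
    (hm : Primrec m) (hσ : Primrec σ) : Primrec fun a => E (e a) (m a) (σ a) :=
  Primrec.comp (f := fun x : β × ℕ × List Bool => E x.1 x.2.1 x.2.2)
    (g := fun a => (e a, m a, σ a)) pE (by fun_prop)

theorem pf_ce (pE : PE E) {e : α → β} {m : α → ℕ} {σ τ : α → List Bool} (he : Primrec e)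
    (hm : Primrec m) (hσ : Primrec σ) (hτ : Primrec τ) :
    Primrec fun a => ce (E (e a)) (m a) (σ a) (τ a) := by
  have h1 := pf_lb hσ
  have h2 := pf_E pE he hm hτ
  have h3 : Primrec fun a => last (E (e a) (m a) (τ a)).1 (lb (σ a)) :=
    pf_last (Primrec.fst.comp h2) h1
  have h4 : Primrec fun a => last (E (e a) (m a) (τ a)).1 (lb (σ a) + 1) :=
    pf_last (Primrec.fst.comp h2) (pf_add h1 (Primrec.const 1))
  unfold ce
  exact h1.pair (h3.pair ((Primrec.snd.comp h2).pair h4))

theorem pf_stp (pE : PE E) {e : α → β} {x : α → ℕ × List Bool × List Ce} {b : α → Bool}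
    (he : Primrec e) (hx : Primrec x) (hb : Primrec b) :
    Primrec fun a => stp (E (e a)) (x a) (b a) := by
  have h1 : Primrec fun a => (x a).1 - 1 := by fun_prop
  have h2 : Primrec fun a => (x a).2.1 := by fun_prop
  have h3 := pf_pt hb h2
  have h4 := pf_ce pE he h1 h2 h3
  have h5 : Primrec fun a => (x a).2.2 := by fun_prop
  unfold stp
  exact h1.pair (h3.pair (pf_append h5 (pf_cons h4 (Primrec.const []))))

theorem pf_CH (pE : PE E) {e : α → β} {m : α → ℕ} {σ c : α → List Bool} (he : Primrec e)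
    (hm : Primrec m) (hσ : Primrec σ) (hc : Primrec c) :
    Primrec fun a => CH (E (e a)) (m a) (σ a) (c a) := by
  unfold CH
  refine pf_foldl (h := fun a => stp (E (e a))) hc
    (hm.pair (hσ.pair (Primrec.const []))) ?_
  exact pf_stp pE (by fun_prop) (by fun_prop) (by fun_prop)

theorem pf_ad {P : α → List Ce} {x : α → ℕ} (hP : Primrec P) (hx : Primrec x) :
    Primrec fun a => ad (P a) (x a) := by
  unfold ad
  refine pf_foldl (h := fun _ (x : ℕ) (e : Ce) => cod (e.1 + 1) e.2.1 x) hP hx ?_
  exact pf_cod (by fun_prop) (by fun_prop) (by fun_prop)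

theorem pf_vp {P : α → List Ce} {L : α → List ℕ} (hP : Primrec P) (hL : Primrec L) :
    Primrec fun a => vp (P a) (L a) := by
  unfold vp
  refine pf_foldl (h := fun _ (L : List ℕ) (e : Ce) => e.2.2.1 ++ L.map (cod (e.1 + 1) e.2.1))
    hP hL ?_
  refine pf_append (by fun_prop) (pf_map (by fun_prop) ?_)
  exact pf_cod (by fun_prop) (by fun_prop) (by fun_prop)

theorem pf_vb {P : α → List Ce} {n : α → ℕ} (hP : Primrec P) (hn : Primrec n) :
    Primrec fun a => vb (P a) (n a) := by
  unfold vb
  refine pf_foldl (h := fun _ (v : ℕ) (e : Ce) => min v e.2.2.2) hP hn ?_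
  exact pf_min (by fun_prop) (by fun_prop)

theorem pf_lbs {P : α → List Ce} (hP : Primrec P) : Primrec fun a => lbs (P a) := by
  unfold lbs
  refine pf_map hP ?_
  fun_prop

theorem pf_xw {m j : α → ℕ} {P : α → List Ce} (hm : Primrec m) (hj : Primrec j)
    (hP : Primrec P) : Primrec fun a => xw (m a) (j a) (P a) := by
  have h1 := pf_lbs hP
  have h2 : Primrec fun a => ad (P a) 0 := pf_ad hP (Primrec.const 0)
  unfold xw
  fun_prop

theorem pf_bits {m j : α → ℕ} (hm : Primrec m) (hj : Primrec j) :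
    Primrec fun a => bits (m a) (j a) := by
  unfold bits
  refine pf_map (by fun_prop) ?_
  fun_prop

theorem pf_jn {σ : α → List Bool} {a : α → List ℕ} (hσ : Primrec σ) (ha : Primrec a) {i : α → ℕ}
    (hi : Primrec i) : Primrec fun b => jn (ext (σ b)) (a b) (i b) := by
  unfold jn
  exact Primrec.ite (pp_eq (by fun_prop) (by fun_prop)) (pf_ext hσ (by fun_prop))
    (pf_decide (pp_mem (by fun_prop) ha) _)

theorem pp_bel {n m x : α → ℕ} {w : α → List Bool} {V : α → List ℕ} {B : α → ℕ}
    (hn : Primrec n) (hm : Primrec m) (hx : Primrec x) (hw : Primrec w) (hV : Primrec V)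
    (hB : Primrec B) : PrimrecPred fun a => bel (n a) (m a) (x a) (w a) (V a) (B a) := by
  unfold bel
  refine pp_exlt (by fun_prop) (pp_eq ?_ (by fun_prop))
  refine pf_hlt (by fun_prop) (by fun_prop) (by fun_prop) ?_
  refine pf_pre (Y := fun x : α × ℕ => jn (ext (w x.1)) (V x.1)) ?_ Primrec.snd
  exact pf_jn (by fun_prop) (by fun_prop) (by fun_prop)

theorem pp_belj (pE : PE E) {e : α → β} {m j B : α → ℕ} {σ : α → List Bool} (he : Primrec e)
    (hm : Primrec m) (hj : Primrec j) (hσ : Primrec σ) (hB : Primrec B) :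
    PrimrecPred fun a => belj (E (e a)) (m a) (j a) (σ a) (B a) := by
  have h0 := pf_bits hm hj
  have h1 := pf_CH pE he hm hσ h0
  have h2 := pf_E pE he hm hσ
  have h3 := pf_xw hm hj (P := fun a => (CH (E (e a)) (m a) (σ a) (bits (m a) (j a))).2.2)
    (by fun_prop)
  have h4 := pf_vp (P := fun a => (CH (E (e a)) (m a) (σ a) (bits (m a) (j a))).2.2)
    (L := fun a => (E (e a) (m a) (σ a)).2) (by fun_prop) (Primrec.snd.comp h2)
  unfold belj
  exact pp_bel (by fun_prop) hm h3 (by fun_prop) h4 hB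

theorem pf_vbj (pE : PE E) {e : α → β} {m j : α → ℕ} {σ : α → List Bool} (he : Primrec e)
    (hm : Primrec m) (hj : Primrec j) (hσ : Primrec σ) :
    Primrec fun a => vbj (E (e a)) (m a) (j a) (σ a) := by
  have h0 := pf_bits hm hj
  have h1 := pf_CH pE he hm hσ h0
  unfold vbj
  exact pf_vb (by fun_prop) (by fun_prop)

theorem pp_RA (pE : PE E) {e : α → β} {m j : α → ℕ} {σ : α → List Bool} (he : Primrec e)
    (hm : Primrec m) (hσ : Primrec σ) (hj : Primrec j) :
    PrimrecPred fun a => RA (E (e a)) (m a) (σ a) (j a) := by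
  have h1 := pf_vbj pE he hm hj hσ
  have h2 := pf_E pE he hm hσ
  have h3 : Primrec fun a => last (E (e a) (m a) (σ a)).1 0 :=
    pf_last (Primrec.fst.comp h2) (Primrec.const 0)
  unfold RA
  exact PrimrecPred.and (pp_belj pE he hm hj hσ h1)
    (PrimrecPred.not (pp_belj pE he hm hj hσ (pf_min h3 h1)))

theorem pp_hit (pE : PE E) {e : α → β} {m j y : α → ℕ} {σ : α → List Bool} (he : Primrec e)
    (hm : Primrec m) (hσ : Primrec σ) (hj : Primrec j) (hy : Primrec y) :
    PrimrecPred fun a => hit (E (e a)) (m a) (σ a) (j a) (y a) := by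
  have h0 := pf_bits hm hj
  have h1 := pf_CH pE he hm hσ h0
  have h2 := pf_ad (P := fun a => (CH (E (e a)) (m a) (σ a) (bits (m a) (j a))).2.2)
    (by fun_prop) hy
  unfold hit
  refine pp_En (Y := fun a => ext (CH (E (e a)) (m a) (σ a) (bits (m a) (j a))).2.1) ?_
    (by fun_prop) hm h2
  exact pf_ext (Primrec.fst.comp (Primrec.snd.comp (h1.comp Primrec.fst))) Primrec.snd

theorem pp_NC (pE : PE E) {e : α → β} {m j z : α → ℕ} {σ : α → List Bool} (he : Primrec e)
    (hm : Primrec m) (hσ : Primrec σ) (hj : Primrec j) (hz : Primrec z) :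
    PrimrecPred fun a => NC (E (e a)) (m a) (σ a) (j a) (z a) := by
  have h2 := pf_E pE he hm hσ
  have h3 : Primrec fun a => last (E (e a) (m a) (σ a)).1 0 :=
    pf_last (Primrec.fst.comp h2) (Primrec.const 0)
  unfold NC
  refine PrimrecPred.and (pp_lt h3 hz) (PrimrecPred.and ?_ ?_)
  · exact pp_hit pE he hm hσ hj (pf_cod (Primrec.const 0) (Primrec.const 0) hz)
  · refine PP.all_mem (f := fun a => (E (e a) (m a) (σ a)).2)
      (p := fun a y => y.unpair.1 = 0 → ¬ hit (E (e a)) (m a) (σ a) (j a) y) ?_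
      (Primrec.snd.comp h2)
    refine pp_imp (p := fun x : α × ℕ => x.2.unpair.1 = 0) (pp_eq (by fun_prop) (by fun_prop)) ?_
    exact PrimrecPred.not (pp_hit pE (by fun_prop) (by fun_prop) (by fun_prop) (by fun_prop)
      (by fun_prop))

theorem pp_ats (pE : PE E) {e : α → β} {m : α → ℕ} {σ : α → List Bool} (he : Primrec e)
    (hm : Primrec m) (hσ : Primrec σ) : PrimrecPred fun a => ats (E (e a)) (m a) (σ a) := by
  unfold ats
  refine pp_exlt (by fun_prop) ?_
  exact pp_RA pE (by fun_prop) (by fun_prop) (by fun_prop) (by fun_prop)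

theorem pf_nz (pE : PE E) {e : α → β} {m : α → ℕ} {σ : α → List Bool} (he : Primrec e)
    (hm : Primrec m) (hσ : Primrec σ) : Primrec fun a => nz (E (e a)) (m a) (σ a) := by
  unfold nz
  refine pf_findIdx (by fun_prop) (pf_decide (pp_exlt (by fun_prop) ?_) _)
  exact pp_NC pE (by fun_prop) (by fun_prop) (by fun_prop) (by fun_prop) (by fun_prop)

theorem pf_own (pE : PE E) {e : α → β} {m : α → ℕ} {σ : α → List Bool} (he : Primrec e)
    (hm : Primrec m) (hσ : Primrec σ) : Primrec fun a => own (E (e a)) (m a) (σ a) := by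
  have h1 := pf_nz pE he hm hσ
  have h2 : Primrec fun a => cod 0 0 (nz (E (e a)) (m a) (σ a)) :=
    pf_cod (Primrec.const 0) (Primrec.const 0) h1
  unfold own
  refine pf_ite _ (pp_ats pE he hm hσ) (Primrec.const []) (pf_ite _ (pp_lt h1 (by fun_prop)) ?_
    (Primrec.const []))
  exact pf_cons h2 (Primrec.const [])

theorem pf_dropLast {σ : α → List Bool} (hσ : Primrec σ) : Primrec fun a => (σ a).dropLast := by
  have h : Primrec fun a => (σ a).take ((σ a).length - 1) := by fun_prop
  exact h.of_eq fun a => (List.dropLast_eq_take).symm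

variable {F : ℕ → ℕ → List Bool → List Bool}

/-- the functionals are primitive recursive -/
def PF (F : ℕ → ℕ → List Bool → List Bool) : Prop :=
  Primrec fun x : ℕ × ℕ × List Bool => F x.1 x.2.1 x.2.2

theorem pf_F (pF : PF F) {m k : α → ℕ} {σ : α → List Bool} (hm : Primrec m) (hk : Primrec k)
    (hσ : Primrec σ) : Primrec fun a => F (m a) (k a) (σ a) :=
  Primrec.comp (f := fun x : ℕ × ℕ × List Bool => F x.1 x.2.1 x.2.2)
    (g := fun a => (m a, k a, σ a)) pF (by fun_prop)

theorem pf_vis (pF : PF F) {m : α → ℕ} {σ : α → List Bool} (hm : Primrec m) (hσ : Primrec σ) :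
    Primrec fun a => vis F (m a) (σ a) := by
  have h0 := pf_dropLast hσ
  unfold vis
  refine pf_add (pf_findIdx (by fun_prop) (pf_decide (pp_lt (pf_length ?_) (pf_length ?_)) _))
    (Primrec.const 1)
  · exact pf_F pF (by fun_prop) (by fun_prop) (h0.comp Primrec.fst)
  · exact pf_F pF (by fun_prop) (by fun_prop) (by fun_prop)

theorem pf_evn (pF : PF F) (pE : PE E) {e : α → β} {m : α → ℕ} {σ : α → List Bool}
    (he : Primrec e) (hm : Primrec m) (hσ : Primrec σ) :
    Primrec fun a => evn F (E (e a)) (m a) (σ a) := by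
  have h0 := pf_dropLast hσ
  unfold evn
  refine pf_ite _ (pp_ats pE he hm h0) (Primrec.const 0) (pf_ite _ (pp_lt (pf_nz pE he hm h0)
    (pf_length h0)) (Primrec.const 0) (pf_vis pF hm hσ))

theorem pf_evs (pF : PF F) (pE : PE E) {e : α → β} {m : α → ℕ} {σ : α → List Bool}
    (he : Primrec e) (hm : Primrec m) (hσ : Primrec σ) :
    Primrec fun a => evs F (E (e a)) (m a) (σ a) := by
  have h0 := pf_dropLast hσ
  unfold evs
  exact pf_append (Primrec.fst.comp (pf_E pE he hm h0)) (pf_cons (pf_evn pF pE he hm hσ)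
    (Primrec.const []))

theorem pf_LL {m : α → ℕ} (hm : Primrec m) : Primrec fun a => LL (m a) := by
  unfold LL
  exact pf_mul hm (pf_pow (Primrec.const 2) hm)

theorem pf_en {σ : α → List Bool} (hσ : Primrec σ) : Primrec fun a => en (σ a) := by
  unfold en
  refine pf_flatMap (by fun_prop) (pf_ite _ (pp_eq (by fun_prop) (Primrec.const true)) ?_
    (Primrec.const []))
  fun_prop

theorem pf_cols (pF : PF F) (pE : PE E) {e : α → β} {m k : α → ℕ} {σ : α → List Bool}
    (he : Primrec e) (hm : Primrec m) (hσ : Primrec σ) (hk : Primrec k) :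
    Primrec fun a => cols F (E (e a)) (m a) (σ a) (k a) := by
  have h1 : Primrec fun a => m a + 1 := by fun_prop
  have h2 := pf_E pE he h1 (pf_F pF hm hk hσ)
  have h3 := pf_last (pf_evs pF pE he hm hσ) hk
  unfold cols GG
  refine pf_map (pf_ite _ (pp_lt hk (pf_LL hm)) (pf_en (pf_F pF hm hk hσ))
    (Primrec.snd.comp h2)) ?_
  exact pf_cod (by fun_prop) (h3.comp Primrec.fst) (by fun_prop)

theorem pf_bod (pF : PF F) (pE : PE E) {e : α → β} {m : α → ℕ} {σ : α → List Bool}
    (he : Primrec e) (hm : Primrec m) (hσ : Primrec σ) :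
    Primrec fun a => bod F (E (e a)) (m a) (σ a) := by
  have h0 := pf_dropLast hσ
  unfold bod
  refine pf_ite _ (pp_eq hσ (Primrec.const [])) (Primrec.const ([], [])) ?_
  refine (pf_evs pF pE he hm hσ).pair (pf_append (pf_append (Primrec.snd.comp (pf_E pE he hm h0))
    (pf_own pE he hm h0)) (pf_flatMap (by fun_prop) ?_))
  exact pf_cols pF pE (by fun_prop) (by fun_prop) (by fun_prop) (by fun_prop)

end fam

theorem pr_bod {F : ℕ → ℕ → List Bool → List Bool}
    (pF : Primrec fun x : ℕ × ℕ × List Bool => F x.1 x.2.1 x.2.2) {β : Type} [Primcodable β]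
    {E : β → ℕ → List Bool → St} (pE : Primrec fun x : β × ℕ × List Bool => E x.1 x.2.1 x.2.2) :
    Primrec fun x : β × ℕ × List Bool => bod F (E x.1) x.2.1 x.2.2 :=
  pf_bod pF pE (by fun_prop) (by fun_prop) (by fun_prop)

/-- the requirements' predicate `belj` (also needed by the owner) -/
theorem pr_belj {β : Type} [Primcodable β] {E : β → ℕ → List Bool → St}
    (pE : Primrec fun x : β × ℕ × List Bool => E x.1 x.2.1 x.2.2) :
    PrimrecPred fun x : β × ℕ × ℕ × List Bool × ℕ =>
      belj (E x.1) x.2.1 x.2.2.1 x.2.2.2.1 x.2.2.2.2 :=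
  pp_belj pE (by fun_prop) (by fun_prop) (by fun_prop) (by fun_prop) (by fun_prop)

/-- the chains (also needed by the owner) -/
theorem pr_CH {β : Type} [Primcodable β] {E : β → ℕ → List Bool → St}
    (pE : Primrec fun x : β × ℕ × List Bool => E x.1 x.2.1 x.2.2) :
    Primrec fun x : β × ℕ × List Bool × List Bool => CH (E x.1) x.2.1 x.2.2.1 x.2.2.2 :=
  pf_CH pE (by fun_prop) (by fun_prop) (by fun_prop) (by fun_prop)

end Pool.Agent.H649.NL
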