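import Pool.Agent.H649.NL.Def

set_option autoImplicit false

/-!
The states are primitive recursive.
-/

namespace Pool.Agent.H649.NL

open Encodable Pool.Agent.Helper227 Pool.Agent.H548R2.Post
open Nat.Partrec (Code)
open Pool.Agent.TH769.ZA (si_gen pf_sub)
open Pool.Agent.TH769.CD (bdd_lt pf_add pf_mul pf_div pf_mod pf_pow pf_getD pf_take
  pf_append pf_cons pf_length pf_range pf_natPair pf_unpair pf_encode pf_testBit pf_xorb pf_andb
  pf_hlt pf_xor pp_exlt pp_alllt pp_imp pp_eq pp_le pp_lt pp_mem pf_decide pf_pre pp_En pf_ext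
  ext_pre_eq)

attribute [local fun_prop] Primrec
attribute [local fun_prop] Primrec.id Primrec.const Primrec.comp Primrec.pair Primrec.fst Primrec.snd
attribute [local fun_prop] pf_add pf_mul pf_div pf_mod pf_pow pf_getD pf_take pf_append pf_cons
  pf_length pf_range pf_natPair pf_unpair pf_encode pf_testBit pf_xorb pf_andb pf_hlt pf_xor
  pf_sub

namespace Tab

/-- the strings of length `n` -/
def strs : ℕ → List (List Bool)
  | 0 => [[]]
  | n + 1 => (strs n).flatMap (fun σ => [false :: σ, true :: σ])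

theorem mem_strs : ∀ (n : ℕ) (σ : List Bool), σ ∈ strs n ↔ σ.length = n := by
  intro n
  induction n with
  | zero =>
    intro σ
    show σ ∈ [[]] ↔ _
    rw [List.mem_singleton, List.length_eq_zero_iff]
  | succ n ih =>
    intro σ
    show σ ∈ (strs n).flatMap _ ↔ _
    rw [List.mem_flatMap]
    constructor
    · rintro ⟨τ, hτ, h⟩
      rw [ih] at hτ
      simp only [List.mem_cons, List.not_mem_nil, or_false] at h
      rcases h with rfl | rfl <;> rw [List.length_cons, hτ]
    · intro h
      cases σ with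
      | nil => simp at h
      | cons b τ =>
        refine ⟨τ, (ih τ).2 (by simpa using h), ?_⟩
        cases b <;> simp

theorem pf_strs : Primrec strs := by
  have h2 : Primrec₂ fun (_ : ℕ) (L : List (List Bool)) =>
      L.flatMap (fun σ => [false :: σ, true :: σ]) := by
    have h3 : Primrec₂ fun (_ : ℕ × List (List Bool)) (σ : List Bool) =>
        ([false :: σ, true :: σ] : List (List Bool)) := by
      have h4 : Primrec fun x : (ℕ × List (List Bool)) × List Bool =>
          ([false :: x.2, true :: x.2] : List (List Bool)) :=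
        pf_cons (pf_cons (Primrec.const false) Primrec.snd)
          (pf_cons (pf_cons (Primrec.const true) Primrec.snd) (Primrec.const []))
      exact h4
    exact Primrec.list_flatMap (f := fun x : ℕ × List (List Bool) => x.2)
      (g := fun (_ : ℕ × List (List Bool)) (σ : List Bool) => [false :: σ, true :: σ])
      Primrec.snd h3
  have h := Primrec.nat_rec₁ ([[]] : List (List Bool)) h2
  refine h.of_eq fun n => ?_
  induction n with
  | zero => rfl
  | succ n ih =>
    show (Nat.rec [[]] (fun _ L => L.flatMap (fun σ => [false :: σ, true :: σ])) n :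
      List (List Bool)).flatMap _ = (strs n).flatMap _
    rw [ih]

/-- the pairs with strings of length `n` -/
def prs (M n : ℕ) : List (ℕ × List Bool) :=
  (List.range (M + 1)).flatMap (fun m => (strs n).map (fun σ => (m, σ)))

theorem mem_prs (M n : ℕ) (a : ℕ × List Bool) : a ∈ prs M n ↔ a.1 ≤ M ∧ a.2.length = n := by
  unfold prs
  simp only [List.mem_flatMap, List.mem_range, List.mem_map, mem_strs]
  constructor
  · rintro ⟨m, hm, σ, hσ, rfl⟩
    exact ⟨by omega, hσ⟩
  · rintro ⟨h1, h2⟩
    exact ⟨a.1, by omega, a.2, h2, rfl⟩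

theorem pf_prs {β : Type} [Primcodable β] {M n : β → ℕ} (hM : Primrec M) (hn : Primrec n) :
    Primrec fun b => prs (M b) (n b) := by
  unfold prs
  refine Primrec.list_flatMap (f := fun b => List.range (M b + 1))
    (g := fun b m => (strs (n b)).map (fun σ => (m, σ))) (pf_range (by fun_prop)) ?_
  refine Primrec.list_map (f := fun x : β × ℕ => strs (n x.1))
    (g := fun (x : β × ℕ) (σ : List Bool) => (x.2, σ)) ?_ ?_
  · exact pf_strs.comp (hn.comp Primrec.fst)
  · have h4 : Primrec fun y : (β × ℕ) × List Bool => (y.1.2, y.2) := by fun_prop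
    exact h4

/-- the tables -/
abbrev TB : Type := List ((ℕ × List Bool) × St)

/-- the value of a table -/
def lk (T : TB) (m : ℕ) (σ : List Bool) : St :=
  T.foldr (fun p s => if p.1 = (m, σ) then p.2 else s) ([], [])

theorem lk_eq {T : TB} {m : ℕ} {σ : List Bool} {v : St} (h1 : ∀ p ∈ T, p.1 = (m, σ) → p.2 = v)
    (h2 : ∃ p ∈ T, p.1 = (m, σ)) : lk T m σ = v := by
  unfold lk
  induction T with
  | nil =>
    obtain ⟨p, hp, -⟩ := h2
    exact absurd hp List.not_mem_nil
  | cons q T ih =>
    rw [List.foldr_cons]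
    by_cases hq : q.1 = (m, σ)
    · rw [if_pos hq]
      exact h1 q List.mem_cons_self hq
    · rw [if_neg hq]
      refine ih (fun p hp => h1 p (List.mem_cons_of_mem q hp)) ?_
      obtain ⟨p, hp, hp'⟩ := h2
      rcases List.mem_cons.1 hp with rfl | hp
      · exact absurd hp' hq
      · exact ⟨p, hp, hp'⟩

theorem pf_lk : Primrec fun x : TB × ℕ × List Bool => lk x.1 x.2.1 x.2.2 := by
  unfold lk
  refine Primrec.list_foldr (f := fun x : TB × ℕ × List Bool => x.1)
    (g := fun _ => (([], []) : St))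
    (h := fun (x : TB × ℕ × List Bool) (y : ((ℕ × List Bool) × St) × St) =>
      if y.1.1 = (x.2.1, x.2.2) then y.1.2 else y.2) Primrec.fst (Primrec.const _) ?_
  have h : Primrec fun z : (TB × ℕ × List Bool) × (((ℕ × List Bool) × St) × St) =>
      if z.2.1.1 = (z.1.2.1, z.1.2.2) then z.2.1.2 else z.2.2 :=
    Primrec.ite (pp_eq (by fun_prop) (by fun_prop)) (by fun_prop) (by fun_prop)
  exact h

variable (F : ℕ → ℕ → List Bool → List Bool)

/-- the table up to length `n` -/
noncomputable def tb (M n : ℕ) : TB :=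
  Nat.rec (motive := fun _ => TB) []
    (fun n T => T ++ (prs M n).map (fun a => (a, bod F (lk T) a.1 a.2))) n

theorem tb_succ (M n : ℕ) : tb F M (n + 1) =
    tb F M n ++ (prs M n).map (fun a => (a, bod F (lk (tb F M n)) a.1 a.2)) := rfl

theorem tb_key (M : ℕ) : ∀ (n : ℕ) (a : ℕ × List Bool), a.1 ≤ M → a.2.length < n →
    ∃ p ∈ tb F M n, p.1 = a := by
  intro n
  induction n with
  | zero => intro a _ h; omega
  | succ n ih =>
    intro a h1 h2
    rw [tb_succ]
    by_cases h3 : a.2.length < n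
    · obtain ⟨p, hp, hp'⟩ := ih a h1 h3
      exact ⟨p, List.mem_append_left _ hp, hp'⟩
    · refine ⟨(a, bod F (lk (tb F M n)) a.1 a.2), List.mem_append_right _ ?_, rfl⟩
      exact List.mem_map.2 ⟨a, (mem_prs M n a).2 ⟨h1, by omega⟩, rfl⟩

variable {F}

theorem tb_val (hF : Sho F) (M : ℕ) : ∀ (n : ℕ), ∀ p ∈ tb F M n, p.1.1 + p.1.2.length ≤ M →
    p.2 = S F p.1.1 p.1.2 := by
  intro n
  induction n with
  | zero =>
    intro p hp
    exact absurd hp List.not_mem_nil
  | succ n ih =>
    intro p hp h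
    rw [tb_succ] at hp
    rcases List.mem_append.1 hp with hp | hp
    · exact ih p hp h
    · obtain ⟨a, ha, rfl⟩ := List.mem_map.1 hp
      rw [mem_prs] at ha
      simp only at h ⊢
      rw [S_eq hF]
      refine bod_congr hF fun m' τ h3 h4 => ?_
      refine lk_eq (fun q hq hq' => ?_) (tb_key F M n (m', τ) (by simp only; omega) (by
        simp only; omega))
      have h5 := ih q hq (by rw [hq']; simp only; omega)
      rw [h5, hq']

theorem S_tb (hF : Sho F) (m : ℕ) (σ : List Bool) :
    lk (tb F (m + σ.length) (σ.length + 1)) m σ = S F m σ := by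
  refine lk_eq (fun q hq hq' => ?_) (tb_key F _ _ (m, σ) (by simp only; omega) (by
    simp only; omega))
  have h5 := tb_val hF _ _ q hq (by rw [hq'])
  rw [h5, hq']

theorem pf_tb (hb : ∀ (β : Type) [Primcodable β] (E : β → ℕ → List Bool → St),
      (Primrec fun x : β × ℕ × List Bool => E x.1 x.2.1 x.2.2) →
      Primrec fun x : β × ℕ × List Bool => bod F (E x.1) x.2.1 x.2.2) :
    Primrec fun x : ℕ × ℕ => tb F x.1 x.2 := by
  have hb' := hb TB lk pf_lk
  have h1 : Primrec₂ fun (x : ℕ × ℕ) (y : ℕ × TB) =>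
      y.2 ++ (prs x.1 y.1).map (fun a => (a, bod F (lk y.2) a.1 a.2)) := by
    have h2 : Primrec fun z : (ℕ × ℕ) × (ℕ × TB) =>
        (prs z.1.1 z.2.1).map (fun a => (a, bod F (lk z.2.2) a.1 a.2)) := by
      refine Primrec.list_map (f := fun z : (ℕ × ℕ) × (ℕ × TB) => prs z.1.1 z.2.1)
        (g := fun (z : (ℕ × ℕ) × (ℕ × TB)) (a : ℕ × List Bool) =>
          (a, bod F (lk z.2.2) a.1 a.2)) (pf_prs (by fun_prop) (by fun_prop)) ?_
      have h3 : Primrec fun w : ((ℕ × ℕ) × (ℕ × TB)) × (ℕ × List Bool) =>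
          bod F (lk w.1.2.2) w.2.1 w.2.2 :=
        Primrec.comp (f := fun x : TB × ℕ × List Bool => bod F (lk x.1) x.2.1 x.2.2)
          (g := fun w : ((ℕ × ℕ) × (ℕ × TB)) × (ℕ × List Bool) => (w.1.2.2, w.2.1, w.2.2))
          hb' (by fun_prop)
      have h4 : Primrec fun w : ((ℕ × ℕ) × (ℕ × TB)) × (ℕ × List Bool) =>
          (w.2, bod F (lk w.1.2.2) w.2.1 w.2.2) := Primrec.snd.pair h3
      exact h4
    have h5 : Primrec fun z : (ℕ × ℕ) × (ℕ × TB) => z.2.2 ++
        (prs z.1.1 z.2.1).map (fun a => (a, bod F (lk z.2.2) a.1 a.2)) :=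
      pf_append (by fun_prop) h2
    exact h5
  have h := Primrec.nat_rec' (f := fun x : ℕ × ℕ => x.2) (g := fun _ => ([] : TB))
    Primrec.snd (Primrec.const []) h1
  exact h.of_eq fun x => rfl

end Tab

open Tab in
theorem pr_S {F : ℕ → ℕ → List Bool → List Bool} (hF : Sho F)
    (hb : ∀ (β : Type) [Primcodable β] (E : β → ℕ → List Bool → St),
      (Primrec fun x : β × ℕ × List Bool => E x.1 x.2.1 x.2.2) →
      Primrec fun x : β × ℕ × List Bool => bod F (E x.1) x.2.1 x.2.2) :
    Primrec fun x : ℕ × List Bool => S F x.1 x.2 := by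
  have h1 : Primrec fun x : ℕ × List Bool => tb F (x.1 + x.2.length) (x.2.length + 1) :=
    Primrec.comp (f := fun x : ℕ × ℕ => tb F x.1 x.2)
      (g := fun x : ℕ × List Bool => (x.1 + x.2.length, x.2.length + 1)) (pf_tb hb) (by fun_prop)
  have h2 : Primrec fun x : ℕ × List Bool =>
      lk (tb F (x.1 + x.2.length) (x.2.length + 1)) x.1 x.2 :=
    Primrec.comp (f := fun x : TB × ℕ × List Bool => lk x.1 x.2.1 x.2.2)
      (g := fun x : ℕ × List Bool => (tb F (x.1 + x.2.length) (x.2.length + 1), x.1, x.2))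
      pf_lk (h1.pair Primrec.id)
  exact h2.of_eq fun x => S_tb hF x.1 x.2

end Pool.Agent.H649.NL
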