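import Pool.Agent.H649.NL.Chd

set_option autoImplicit false

/-!
Paths and the tree.
-/

namespace Pool.Agent.H649.NL

open Encodable Pool.Agent.Helper227 Pool.Agent.H548R2.Post
open Nat.Partrec (Code)
open Pool.Agent.TH769.TP (FF Mon Lim lab Via via_iff lim_FF mon_FF lim_exists pre_lab lab_le le_lab)
open Pool.Agent.TH769.CD (bdd_lt)
open Pool.Agent.H649.PT (TEq)

variable {F : ℕ → ℕ → List Bool → List Bool} {LF : (ℕ × ℕ × ℕ × Bool) × List Bool → Prop}
  {m c : ℕ} {p : Pl} {Z Z' X : ℕ → Bool}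

theorem cc_succ (m : ℕ) : cc F (m + 1) = Nat.pair (cc F m) (zz F m (cc F m)) := rfl

theorem cc_fst (m : ℕ) : (cc F (m + 1)).unpair.1 = cc F m := by
  rw [cc_succ, Nat.unpair_pair]

theorem kls_length : ∀ (bl : List Bool) (c : ℕ), (kls c bl).length = bl.length := by
  intro bl
  induction bl with
  | nil => exact fun _ => rfl
  | cons b bl ih =>
    intro c
    show (kls c.unpair.1 bl).length + 1 = bl.length + 1
    rw [ih]

theorem KK_kls_cons (b : Bool) (bl : List Bool) (σ : List Bool) :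
    KK F (kls (cc F (b :: bl).length) (b :: bl)) σ =
      F bl.length (2 * cc F (bl.length + 1) + b.toNat) (KK F (kls (cc F bl.length) bl) σ) := by
  show F (kls (cc F (bl.length + 1)).unpair.1 bl).length (2 * cc F (bl.length + 1) + b.toNat)
    (KK F (kls (cc F (bl.length + 1)).unpair.1 bl) σ) = _
  rw [cc_fst, kls_length]

theorem lim_factor {H H' : List Bool → List Bool} (hm : ∀ σ τ, σ <+: τ → H σ <+: H τ)
    (hM : Mon H') {X Z : ℕ → Bool} (h : Lim (fun σ => H' (H σ)) X Z) :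
    ∃ Z₁, Lim H X Z₁ ∧ Lim H' Z₁ Z := by
  obtain ⟨Z₁, h1⟩ := lim_exists (X := X) hm (fun N => by
    obtain ⟨M, hM'⟩ := h.long N
    exact ⟨M, (hM' M le_rfl).trans (hM.short _)⟩)
  refine ⟨Z₁, h1, fun s => ?_, fun N => ?_⟩
  · obtain ⟨M, hM'⟩ := h1.long s
    obtain ⟨n, hn⟩ := h1.ok M
    have h2 := hM' M le_rfl
    rw [hn, length_pre] at h2
    obtain ⟨n', hn'⟩ := h.ok M
    have hn'' : H' (H (pre X M)) = pre Z n' := hn'
    have h3 : H' (pre Z₁ s) <+: H' (pre Z₁ n) := hM.mono _ _ (pre_prefix Z₁ h2)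
    rw [← hn, hn''] at h3
    exact ⟨_, Pool.Agent.TH769.TP.prefix_pre h3⟩
  · obtain ⟨M, hM'⟩ := h.long N
    obtain ⟨n, hn⟩ := h1.ok M
    refine ⟨n, fun s hs => ?_⟩
    have h2 : N ≤ (H' (H (pre X M))).length := hM' M le_rfl
    rw [hn] at h2
    exact h2.trans ((hM.mono _ _ (pre_prefix Z₁ hs)).length_le)

theorem LOZ_unique {m c c' : ℕ} {Z : ℕ → Bool} (h : LOZ m c Z) (h' : LOZ m c' Z) : c = c' := by
  obtain ⟨s, hs⟩ := h
  obtain ⟨s', hs'⟩ := h'
  have h1 := LO_mono (pre_prefix Z (le_max_left s s')) hs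
  have h2 := LO_mono (pre_prefix Z (le_max_right s s')) hs'
  rcases h1 with ⟨h3, h4⟩ | ⟨h3, h4, h5⟩
  · rcases h2 with ⟨h6, h7⟩ | ⟨h6, h7, h8⟩
    · omega
    · omega
  · rcases h2 with ⟨h6, h7⟩ | ⟨h6, h7, h8⟩
    · omega
    · omega

theorem KK_of_Jb : ∀ (bl : List Bool) {X Z : ℕ → Bool}, Jb F bl X Z →
    Lim (KK F (kls (cc F bl.length) bl)) X Z := by
  intro bl
  induction bl with
  | nil =>
    intro X Z h
    have h' : Z = X := h
    subst h'
    exact Lim.id Z
  | cons b bl ih =>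
    intro X Z h
    obtain ⟨Z₁, h1, h2⟩ := h
    have h3 := (ih h1).comp h2.1
    have e : KK F (kls (cc F (b :: bl).length) (b :: bl)) =
        fun σ => F bl.length (2 * cc F (bl.length + 1) + b.toNat)
          (KK F (kls (cc F bl.length) bl) σ) := funext (KK_kls_cons b bl)
    rw [e]
    exact h3

theorem BD_mono {N N' : ℕ} (h : N ≤ N') : ∀ (bl : List Bool) (c : ℕ) (x : List Bool),
    BD F N c bl x → BD F N' c bl x := by
  intro bl
  induction bl with
  | nil => exact fun _ _ _ => trivial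
  | cons b bl ih =>
    intro c x h1
    exact ⟨ih _ _ h1.1, fun hb => (h1.2.1 hb).trans h, fun k hk => (h1.2.2 k hk).trans h⟩

theorem BT_mono {N N' : ℕ} (h : N ≤ N') {bl : List Bool} {c : ℕ} {x : List Bool}
    (h1 : BT F N c bl x) : BT F N' c bl x :=
  ⟨BD_mono h _ _ _ h1.1, fun k hk => (h1.2 k hk).trans h⟩

/-- the values of a false child are bounded -/
theorem bd_of_not (hF : Fnl F) {m k : ℕ} (h : ¬ Tr F m k Z) :
    ∃ N, ∀ n, (F m k (pre Z n)).length ≤ N := by
  obtain ⟨a, ha⟩ := const_of_not hF h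
  refine ⟨(F m k (pre Z a)).length, fun n => ?_⟩
  rw [← ha (max n a) (le_max_right _ _)]
  exact len_mono hF (le_max_left _ _)

theorem bd_all (hF : Fnl F) {m : ℕ} : ∀ L, (∀ k < L, ¬ Tr F m k Z) →
    ∃ N, ∀ k < L, ∀ n, (F m k (pre Z n)).length ≤ N := by
  intro L
  induction L with
  | zero => exact fun _ => ⟨0, fun k hk => absurd hk (Nat.not_lt_zero k)⟩
  | succ L ih =>
    intro h
    obtain ⟨N, hN⟩ := ih fun k hk => h k (by omega)
    obtain ⟨N', hN'⟩ := bd_of_not hF (h L (Nat.lt_succ_self L))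
    refine ⟨N + N', fun k hk n => ?_⟩
    rcases Nat.lt_succ_iff_lt_or_eq.1 hk with h1 | rfl
    · exact (hN k h1 n).trans (by omega)
    · exact (hN' n).trans (by omega)

theorem BD_of_Jb (hF : Fnl F) : ∀ (bl : List Bool) {X Z : ℕ → Bool}, Jb F bl X Z →
    ∃ N, ∀ s, BD F N (cc F bl.length) bl (pre X s) := by
  intro bl
  induction bl with
  | nil => exact fun _ => ⟨0, fun _ => trivial⟩
  | cons b bl ih =>
    intro X Z h
    obtain ⟨Z₁, h1, h2⟩ := h
    obtain ⟨N, hN⟩ := ih h1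
    obtain ⟨N', hN'⟩ : ∃ N', b = true → ∀ n,
        (F bl.length (2 * cc F (bl.length + 1)) (pre Z₁ n)).length ≤ N' := by
      by_cases hb : b = true
      · obtain ⟨a, ha⟩ := const_of_not hF (h2.2.1 hb)
        refine ⟨(F bl.length (2 * cc F (bl.length + 1)) (pre Z₁ a)).length, fun _ n => ?_⟩
        rw [← ha (max n a) (le_max_right _ _)]
        exact len_mono hF (le_max_left _ _)
      · exact ⟨0, fun h => absurd h hb⟩
    obtain ⟨N2, hN2⟩ := bd_all hF _ h2.2.2
    refine ⟨N + N' + N2, fun s => ⟨?_, fun hb => ?_, fun k hk => ?_⟩⟩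
    · show BD F (N + N' + N2) (cc F (bl.length + 1)).unpair.1 bl (pre X s)
      rw [cc_fst]
      exact BD_mono (by omega) _ _ _ (hN s)
    · show (F bl.length (2 * cc F (bl.length + 1))
        (KK F (kls (cc F (bl.length + 1)).unpair.1 bl) (pre X s))).length ≤ _
      rw [cc_fst]
      obtain ⟨n, hn⟩ := (KK_of_Jb bl h1).ok s
      rw [hn]
      exact (hN' hb n).trans (by omega)
    · show (F bl.length k
        (KK F (kls (cc F (bl.length + 1)).unpair.1 bl) (pre X s))).length ≤ _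
      rw [cc_fst]
      obtain ⟨n, hn⟩ := (KK_of_Jb bl h1).ok s
      rw [hn]
      exact (hN2 k hk n).trans (by omega)

theorem BT_of_Jb (hF : Fnl F) {bl : List Bool} (h : Jb F bl X Z)
    (hn : ∀ k < LL bl.length, ¬ Tr F bl.length k Z) :
    ∃ N, ∀ s, BT F N (cc F bl.length) bl (pre X s) := by
  obtain ⟨N, hN⟩ := BD_of_Jb hF bl h
  obtain ⟨N2, hN2⟩ := bd_all hF _ hn
  refine ⟨N + N2, fun s => ⟨BD_mono (by omega) _ _ _ (hN s), fun k hk => ?_⟩⟩
  obtain ⟨n, hn⟩ := (KK_of_Jb bl h).ok s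
  rw [hn]
  exact (hN2 k hk n).trans (by omega)

/-- a bound along the initial segments of the limit -/
theorem not_tr_of (hF : Fnl F) {H : List Bool → List Bool} {m k N : ℕ} (h : Lim H X Z)
    (hN : ∀ s, (F m k (H (pre X s))).length ≤ N) : ¬ Tr F m k Z := by
  intro hT
  obtain ⟨s, hs⟩ := hT (N + 1)
  obtain ⟨M, hM⟩ := h.long s
  obtain ⟨n, hn⟩ := h.ok M
  have h3 := hM M le_rfl
  rw [hn, length_pre] at h3
  have h4 := hN M
  rw [hn] at h4
  have h5 := len_mono (m := m) (k := k) (Z := Z) hF h3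
  omega

theorem not_tr_of_BT (hF : Fnl F) {N : ℕ} {bl : List Bool}
    (h : Lim (KK F (kls (cc F bl.length) bl)) X Z)
    (hB : ∀ s, BT F N (cc F bl.length) bl (pre X s)) :
    ∀ k < LL bl.length, ¬ Tr F bl.length k Z :=
  fun k hk => not_tr_of hF h fun s => (hB s).2 k hk

theorem Jb_of_KK (hF : Fnl F) {N : ℕ} : ∀ (bl : List Bool) {X Z : ℕ → Bool},
    Lim (KK F (kls (cc F bl.length) bl)) X Z →
    (∀ s, BD F N (cc F bl.length) bl (pre X s)) → Jb F bl X Z := by
  intro bl
  induction bl with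
  | nil =>
    intro X Z h _
    have h' : Lim (fun σ => σ) X Z := h
    exact h'.unique (Lim.id X)
  | cons b bl ih =>
    intro X Z h hB
    have e : KK F (kls (cc F (b :: bl).length) (b :: bl)) =
        fun σ => F bl.length (2 * cc F (bl.length + 1) + b.toNat)
          (KK F (kls (cc F bl.length) bl) σ) := funext (KK_kls_cons b bl)
    rw [e] at h
    obtain ⟨Z₁, h1, h2⟩ := lim_factor (fun σ τ hs => KK_mono hF _ hs) (hF.mon _ _) h
    have hB1 : ∀ s, BD F N (cc F bl.length) bl (pre X s) := fun s => by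
      have h3 : BD F N (cc F (bl.length + 1)).unpair.1 bl (pre X s) := (hB s).1
      rwa [cc_fst] at h3
    refine ⟨Z₁, ih h1 hB1, h2, fun hb => ?_, ?_⟩
    · refine not_tr_of (N := N) hF h1 fun s => ?_
      have h4 : (F bl.length (2 * cc F (bl.length + 1))
        (KK F (kls (cc F (bl.length + 1)).unpair.1 bl) (pre X s))).length ≤ N := (hB s).2.1 hb
      rwa [cc_fst] at h4
    · intro k hk
      refine not_tr_of (N := N) hF h1 fun s => ?_
      have h4 : (F bl.length k
        (KK F (kls (cc F (bl.length + 1)).unpair.1 bl) (pre X s))).length ≤ N := (hB s).2.2 k hk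
      rwa [cc_fst] at h4

theorem form_aux (hS : Sol F LF) {bl : List Bool} (hP : HP F (bl.length + 1))
    (hLO : ∀ (bl' : List Bool) (X' Z'' : ℕ → Bool), bl'.length = bl.length →
      Jb F bl' X' Z'' → LOZ bl.length (cc F bl.length) Z'') {b : Bool}
    (h : Jb F bl X Z) (hn : Nx F bl.length b Z Z') : ∃ (A B : ℕ → Bool) (b0 : Bool),
      Z' = lab (2 * cc F (bl.length + 1) + b.toNat) (join A B) ∧ Z = cond b0 B A ∧
      ∀ b1 : Bool, Ac F bl.length (cond b1 B A) ∧ Nx F bl.length b (cond b1 B A) Z' := by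
  obtain ⟨hzz, hPP⟩ := hP _ (Nat.lt_succ_self bl.length)
  have hZ := hLO bl X Z rfl h
  cases b with
  | true =>
    have h1 := odd_lim hS hzz hZ hPP
    have h2 : Lim (F bl.length (2 * cc F (bl.length + 1) + 1)) Z Z' := hn.1
    have e := h2.unique h1
    refine ⟨Z, Z, false, e, rfl, fun b1 => ?_⟩
    rw [Bool.cond_self]
    exact ⟨⟨X, bl, rfl, h⟩, hn⟩
  | false =>
    have h2 : Lim (F bl.length (2 * cc F (bl.length + 1))) Z Z' := hn.1
    obtain ⟨ht, x, y, A, B, hR, hor⟩ := even_rel hS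
      (π := zz F bl.length (cc F bl.length)) hzz (Tr.of_lim h2)
    have hsh : shp bl.length (pl (zz F bl.length (cc F bl.length))) := by
      obtain ⟨-, h3 | h3⟩ := hPP [] 0
      · exact absurd (h3.1.symm.trans ht) (by decide)
      · exact h3.2.1
    have hA : Jb F (bA (pl (zz F bl.length (cc F bl.length)))) x A :=
      Jb_of_KK hS.fnl _ (by rw [hsh.1]; exact hR.kA) (by rw [hsh.1]; exact fun s => (hR.bdx s).1)
    have tA : ∀ k < LL bl.length, ¬ Tr F bl.length k A := by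
      have := not_tr_of_BT (F := F) (bl := bA (pl (zz F bl.length (cc F bl.length)))) hS.fnl
        (by rw [hsh.1]; exact hR.kA) (by rw [hsh.1]; exact hR.bdx)
      rwa [hsh.1] at this
    have tB : ∀ k < LL bl.length, ¬ Tr F bl.length k B := by
      have := not_tr_of_BT (F := F) (bl := bB (pl (zz F bl.length (cc F bl.length)))) hS.fnl
        (by rw [hsh.2.1]; exact hR.kB) (by rw [hsh.2.1]; exact hR.bdy)
      rwa [hsh.2.1] at this
    have hB : Jb F (bB (pl (zz F bl.length (cc F bl.length)))) y B :=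
      Jb_of_KK hS.fnl _ (by rw [hsh.2.1]; exact hR.kB)
        (by rw [hsh.2.1]; exact fun s => (hR.bdy s).1)
    have lA := hLO _ _ _ hsh.1 hA
    have lB := hLO _ _ _ hsh.2.1 hB
    have e : Z' = lab (2 * cc F (bl.length + 1)) (join A B) :=
      h2.unique (even_lim hS hzz hZ hPP ht hR hor)
    have hN : ∀ b1 : Bool, Ac F bl.length (cond b1 B A) ∧
        Nx F bl.length false (cond b1 B A) Z' := by
      intro b1
      cases b1 with
      | true =>
        refine ⟨⟨y, _, hsh.2.1, hB⟩, ?_, fun h => absurd h (by decide), tB⟩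
        rw [e]
        exact even_lim hS hzz lB hPP ht hR (Or.inr rfl)
      | false =>
        refine ⟨⟨x, _, hsh.1, hA⟩, ?_, fun h => absurd h (by decide), tA⟩
        rw [e]
        exact even_lim hS hzz lA hPP ht hR (Or.inl rfl)
    rcases hor with hZA | hZB
    · exact ⟨A, B, false, e, hZA, hN⟩
    · exact ⟨A, B, true, e, hZB, hN⟩

theorem LOZ_of_Jb (hS : Sol F LF) : ∀ (bl : List Bool) {X Z : ℕ → Bool}, HP F bl.length →
    Jb F bl X Z → LOZ bl.length (cc F bl.length) Z := by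
  have key : ∀ (m : ℕ) (bl : List Bool) (X Z : ℕ → Bool), bl.length = m → HP F m →
      Jb F bl X Z → LOZ m (cc F m) Z := by
    intro m
    induction m with
    | zero =>
      intro bl X Z _ _ _
      exact ⟨0, Or.inl ⟨rfl, rfl⟩⟩
    | succ m ih =>
      intro bl X Z' hb hP h
      cases bl with
      | nil => simp at hb
      | cons b bl =>
        have hb' : bl.length = m := by simpa using hb
        subst hb'
        obtain ⟨Z, h1, h2⟩ := h
        obtain ⟨A, B, b0, e, -, -⟩ := form_aux hS hP (fun bl' X' Z'' hl hj =>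
          ih bl' X' Z'' hl (fun l hl => hP l (by omega)) hj) h1 h2
        have hb1 : b.toNat ≤ 1 := Bool.toNat_le b
        refine ⟨2 * cc F (bl.length + 1) + b.toNat + 1, Or.inr ⟨Nat.succ_pos _, ?_, ?_⟩⟩
        · rw [e, lb_pre_lab, length_pre]
          omega
        · rw [e, lb_pre_lab]
          omega
  exact fun bl X Z hP h => key _ bl X Z rfl hP h

theorem form (hS : Sol F LF) {bl : List Bool} (hP : HP F (bl.length + 1)) {b : Bool}
    (h : Jb F bl X Z) (hn : Nx F bl.length b Z Z') : ∃ (A B : ℕ → Bool) (b0 : Bool),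
      Z' = lab (2 * cc F (bl.length + 1) + b.toNat) (join A B) ∧ Z = cond b0 B A ∧
      ∀ b1 : Bool, Ac F bl.length (cond b1 B A) ∧ Nx F bl.length b (cond b1 B A) Z' :=
  form_aux hS hP (fun bl' X' Z'' hl hj => by
    rw [← hl]
    refine LOZ_of_Jb hS bl' ?_ hj
    rw [hl]
    exact fun l hl => hP l (by omega)) h hn

theorem exists_Nx (hS : Sol F LF) {bl : List Bool} (hP : HP F (bl.length + 1))
    (h : Jb F bl X Z) (hn : ∀ k < LL bl.length, ¬ Tr F bl.length k Z) :
    ∃ b Z', Nx F bl.length b Z Z' := by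
  obtain ⟨hzz, hPP⟩ := hP _ (Nat.lt_succ_self bl.length)
  have hZ := LOZ_of_Jb hS bl (fun l hl => hP l (by omega)) h
  by_cases hT : Tr F bl.length (2 * cc F (bl.length + 1)) Z
  · obtain ⟨ht, x, y, A, B, hR, hor⟩ := even_rel hS
      (π := zz F bl.length (cc F bl.length)) hzz hT
    exact ⟨false, _, even_lim hS hzz hZ hPP ht hR hor, fun h => absurd h (by decide), hn⟩
  · exact ⟨true, _, odd_lim hS hzz hZ hPP, fun _ => hT, hn⟩

theorem Lc_of_Nx (hS : Sol F LF) {bl : List Bool} (hP : HP F (bl.length + 1)) {b : Bool}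
    (h : Jb F bl X Z) (hn : Nx F bl.length b Z Z') :
    Lc F bl.length (2 * cc F (bl.length + 1) + b.toNat) Z := by
  refine ⟨Tr.of_lim hn.1, fun k' hk' hT => ?_⟩
  have hk0 : LL bl.length ≤ k' := by
    by_contra hc
    exact hn.2.2 k' (by omega) hT
  obtain ⟨h1, hz, h2⟩ := gate hS hk0 hT
  have hZ := LOZ_of_Jb hS bl (fun l hl => hP l (by omega)) h
  have e : (k' / 2).unpair.1 = cc F bl.length := LOZ_unique h1 hZ
  rw [e] at h2
  have h3 : zz F bl.length (cc F bl.length) ≤ (k' / 2).unpair.2 := Nat.sInf_le ⟨hz, h2⟩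
  have h4 : cc F (bl.length + 1) ≤ k' / 2 := by
    have h5 : Nat.pair (cc F bl.length) (k' / 2).unpair.2 = k' / 2 := by
      rw [← e]
      exact Nat.pair_unpair _
    rw [← h5, cc_succ]
    rcases Nat.eq_or_lt_of_le h3 with h6 | h6
    · rw [h6]
    · exact (Nat.pair_lt_pair_right _ h6).le
  have h5 : b.toNat ≤ 1 := Bool.toNat_le b
  have h6 : k' = 2 * cc F (bl.length + 1) := by omega
  have h7 : b = true := by
    cases b with
    | true => rfl
    | false =>
      rw [h6] at hk'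
      exact absurd hk' (lt_irrefl _)
  rw [h6] at hT
  exact hn.2.1 h7 hT

theorem mb_of_Jb (hS : Sol F LF) : ∀ (bl : List Bool) {X Z : ℕ → Bool}, HP F bl.length →
    Jb F bl X Z → ∃ c : List Bool, c.length = bl.length ∧ Lim (mb c) Z X := by
  intro bl
  induction bl with
  | nil =>
    intro X Z _ h
    have h' : Z = X := h
    subst h'
    exact ⟨[], rfl, Lim.id Z⟩
  | cons b bl ih =>
    intro X Z' hP h
    obtain ⟨Z, h1, h2⟩ := h
    have hP' : HP F (bl.length + 1) := hP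
    obtain ⟨c, hc, hl⟩ := ih (fun l hl => hP' l (by omega)) h1
    obtain ⟨A, B, b0, e, e0, -⟩ := form hS hP' h1 h2
    refine ⟨b0 :: c, by rw [List.length_cons, List.length_cons, hc], ?_⟩
    rw [e]
    rw [e0] at hl
    exact lim_mb hl

theorem exists_Jb (hS : Sol F LF) {m : ℕ} (hP : HP F m) (X : ℕ → Bool)
    (hX : ∀ bl Z, bl.length < m → Jb F bl X Z → ∀ k < LL bl.length, ¬ Tr F bl.length k Z) :
    ∃ bl Z, bl.length = m ∧ Jb F bl X Z := by
  induction m with
  | zero => exact ⟨[], X, rfl, rfl⟩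
  | succ m ih =>
    obtain ⟨bl, Z, hl, h⟩ := ih (fun l hl => hP l (by omega)) fun bl Z hb => hX bl Z (by omega)
    subst hl
    obtain ⟨b, Z', hn⟩ := exists_Nx hS hP h (hX bl Z (Nat.lt_succ_self _) h)
    exact ⟨b :: bl, Z', rfl, Z, h, hn⟩

theorem cc_pos (hP : HP F (m + 1)) : LL m ≤ cc F (m + 1) := by
  rw [cc_succ]
  exact LL_le_pair (hP m (Nat.lt_succ_self m)).1

theorem tree (hS : Sol F LF) (hP : ∀ m, HP F m) : Tree F (Ac F) where
  fnl := hS.fnl
  zero := fun X => ⟨X, [], rfl, rfl⟩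
  next := by
    rintro m Z ⟨X, bl, rfl, h⟩
    by_cases hT : ∃ k < LL bl.length, Tr F bl.length k Z
    · exact Or.inl hT
    obtain ⟨b, Z', hn⟩ := exists_Nx hS (hP _) h fun k hk h1 => hT ⟨k, hk, h1⟩
    obtain ⟨A, B, b0, e, e0, -⟩ := form hS (hP _) h hn
    have hc0 := cc_pos (hP (bl.length + 1))
    refine Or.inr ⟨2 * cc F (bl.length + 1) + b.toNat, A, B, b0, by omega, e0,
      Lc_of_Nx hS (hP _) h hn, ?_, ?_⟩
    · rw [← e]
      exact hn.1
    · rw [← e]
      exact ⟨X, b :: bl, rfl, Z, h, hn⟩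
  prev := by
    rintro m Z' ⟨X, bl, hl, h⟩
    cases bl with
    | nil => simp at hl
    | cons b bl =>
      have hb' : bl.length = m := by simpa using hl
      subst hb'
      obtain ⟨Z, h1, h2⟩ := h
      obtain ⟨A, B, b0, e, e0, h3⟩ := form hS (hP _) h1 h2
      have hc0 := cc_pos (hP (bl.length + 1))
      refine ⟨_, A, B, by omega, e, fun b1 => ?_⟩
      obtain ⟨⟨X', bl', hl', h4⟩, h5⟩ := h3 b1
      refine ⟨⟨X', bl', hl', h4⟩, ?_, h5.1⟩
      have h6 := Lc_of_Nx (b := b) (Z' := Z') hS (hP _) h4 (by rw [hl']; exact h5)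
      rwa [hl'] at h6

theorem Jp_of_Jb (hS : Sol F LF) (hP : ∀ m, HP F m) : ∀ (bl : List Bool) {X Z : ℕ → Bool},
    Jb F bl X Z → Jp F (Ac F) bl.length X Z := by
  intro bl
  induction bl with
  | nil =>
    intro X Z h
    have h' : Z = X := h
    subst h'
    exact ⟨⟨Z, [], rfl, rfl⟩, [], [], Pth.nil Z⟩
  | cons b bl ih =>
    intro X Z' h
    have h0 := h
    obtain ⟨Z, h1, h2⟩ := h
    obtain ⟨A, B, b0, e, e0, -⟩ := form hS (hP _) h1 h2
    have hL := Lc_of_Nx hS (hP _) h1 h2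
    have hJ := ih h1
    have hl := h2.1
    have ha : Ac F (bl.length + 1) Z' := ⟨X, b :: bl, rfl, h0⟩
    rw [e0] at hL hJ
    rw [e0, e] at hl
    rw [e] at ha ⊢
    have hc0 := cc_pos (hP (bl.length + 1))
    exact Jp.succ (tree hS hP) (by omega) hJ hL hl ha

end Pool.Agent.H649.NL
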