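import Pool.Agent.H649.NL.Lst

set_option autoImplicit false

/-!
One level of the construction.
-/

namespace Pool.Agent.H649.NL

open Encodable Pool.Agent.Helper227 Pool.Agent.H548R2.Post
open Nat.Partrec (Code)
open Pool.Agent.TH769.TP (Mon Lim)
open Pool.Agent.TH769.CD (bdd_lt)

/-- families of functionals on strings -/
structure Fnl (F : ℕ → ℕ → List Bool → List Bool) : Prop where
  mon : ∀ m k, Mon (F m k)
  sho : Sho F

/-- the `k`-th child is true -/
def Tr (F : ℕ → ℕ → List Bool → List Bool) (m k : ℕ) (Z : ℕ → Bool) : Prop :=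
  ∀ N, ∃ s, N ≤ (F m k (pre Z s)).length

/-- the least true child -/
def Lc (F : ℕ → ℕ → List Bool → List Bool) (m k : ℕ) (Z : ℕ → Bool) : Prop :=
  Tr F m k Z ∧ ∀ k' < k, ¬ Tr F m k' Z

/-- finitely many resets -/
def Fin (F : ℕ → ℕ → List Bool → List Bool) (m : ℕ) (Z : ℕ → Bool) : Prop :=
  ∃ s0, ∀ s ≥ s0, ev F m Z s ≠ 0

/-- the final start -/
def Fs (F : ℕ → ℕ → List Bool → List Bool) (m : ℕ) (Z : ℕ → Bool) (k t : ℕ) : Prop :=
  ∃ s1, ∀ s ≥ s1, Ls F m Z s k = t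

/-- `L` consists of elements of the set, and contains those less than `u` -/
def SC (F : ℕ → ℕ → List Bool → List Bool) (m : ℕ) (Z : ℕ → Bool) (u : ℕ) (L : List ℕ) : Prop :=
  (∀ x ∈ L, W F m Z x) ∧ ∀ x < u, W F m Z x → x ∈ L

/-- the set of the column `k` -/
def GW (F : ℕ → ℕ → List Bool → List Bool) (m k : ℕ) (Z' : ℕ → Bool) (q : ℕ) : Prop :=
  ∃ r, q ∈ GG (S F) m k (pre Z' r)

variable {F : ℕ → ℕ → List Bool → List Bool} {m k : ℕ} {Z Z' : ℕ → Bool}

theorem GW_pos (hk : LL m ≤ k) (q : ℕ) : GW F m k Z' q ↔ W F (m + 1) Z' q := by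
  unfold GW GG
  simp only [if_neg (show ¬ k < LL m by omega)]
  exact Iff.rfl

theorem mem_en {τ : List Bool} {q : ℕ} :
    q ∈ en τ ↔ ∃ i < τ.length, τ.getD i false = true ∧ i.unpair.1 = q := by
  unfold en
  rw [List.mem_flatMap]
  refine exists_congr fun i => ?_
  rw [List.mem_range]
  refine and_congr_right fun _ => ?_
  by_cases h : τ.getD i false = true
  · rw [if_pos h, List.mem_singleton]
    exact ⟨fun h1 => ⟨h, h1.symm⟩, fun h1 => h1.2.symm⟩
  · rw [if_neg h]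
    exact ⟨fun h1 => absurd h1 List.not_mem_nil, fun h1 => absurd h1.1 h⟩

theorem mem_en_pre {Y : ℕ → Bool} {r q : ℕ} :
    q ∈ en (pre Y r) ↔ ∃ i < r, Y i = true ∧ i.unpair.1 = q := by
  rw [mem_en, length_pre]
  refine exists_congr fun i => and_congr_right fun hi => ?_
  rw [pre_getD _ _ _ _ hi]

theorem GW_leaf (hk : k < LL m) (q : ℕ) : GW F m k Z' q ↔ ∃ i, Z' i = true ∧ i.unpair.1 = q := by
  unfold GW GG
  simp only [if_pos hk]
  constructor
  · rintro ⟨r, h⟩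
    obtain ⟨i, -, h⟩ := mem_en_pre.1 h
    exact ⟨i, h⟩
  · rintro ⟨i, h⟩
    exact ⟨i + 1, mem_en_pre.2 ⟨i, Nat.lt_succ_self i, h⟩⟩

theorem GG_mono (hF : Fnl F) {r r' q : ℕ} (h : r ≤ r') (hq : q ∈ GG (S F) m k (pre Z' r)) :
    q ∈ GG (S F) m k (pre Z' r') := by
  unfold GG at hq ⊢
  by_cases hk : k < LL m
  · rw [if_pos hk] at hq ⊢
    obtain ⟨i, h1, h2⟩ := mem_en_pre.1 hq
    exact mem_en_pre.2 ⟨i, by omega, h2⟩
  · rw [if_neg hk] at hq ⊢
    exact Lt_mono hF.sho h hq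

theorem len_mono (hF : Fnl F) {s s' : ℕ} (h : s ≤ s') :
    (F m k (pre Z s)).length ≤ (F m k (pre Z s')).length :=
  ((hF.mon m k).mono _ _ (pre_prefix Z h)).length_le

theorem Tr.of_lim (h : Lim (F m k) Z Z') : Tr F m k Z := fun N => by
  obtain ⟨M, hM⟩ := h.long N
  exact ⟨M, hM M le_rfl⟩

theorem const_of_not (hF : Fnl F) (h : ¬ Tr F m k Z) :
    ∃ b, ∀ s ≥ b, (F m k (pre Z s)).length = (F m k (pre Z b)).length := by
  obtain ⟨b, hb⟩ : ∃ b, ∀ s, (F m k (pre Z s)).length ≤ (F m k (pre Z b)).length := by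
    by_contra hc
    push Not at hc
    refine h fun N => ?_
    induction N with
    | zero => exact ⟨0, Nat.zero_le _⟩
    | succ N ih =>
      obtain ⟨s, hs⟩ := ih
      obtain ⟨s', hs'⟩ := hc s
      exact ⟨s', by omega⟩
  exact ⟨b, fun s hs => le_antisymm (hb s) (len_mono hF hs)⟩

theorem ev_gt (hF : Fnl F) (hL : ∀ k' < k, ¬ Tr F m k' Z) (hf : Fin F m Z) :
    ∃ s1, ∀ s ≥ s1, k < ev F m Z s := by
  obtain ⟨s0, h0⟩ := hf
  obtain ⟨a, ha⟩ := bdd_lt k (fun k' s => (F m k' (pre Z s)).length =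
    (F m k' (pre Z (s + 1))).length) (fun k' hk' => by
    obtain ⟨b, hb⟩ := const_of_not hF (hL k' hk')
    exact ⟨b, fun s hs => by rw [hb s hs, hb (s + 1) (by omega)]⟩)
  refine ⟨max (max s0 a) k, fun s hs => ?_⟩
  by_contra hc
  obtain ⟨k', h1, h2⟩ := grow_of_ev (h0 s (by omega)) (show ev F m Z s ≤ s + 1 by omega)
  have h3 := ha k' (by omega) s (by omega)
  omega

theorem exists_Fs (hF : Fnl F) (hL : ∀ k' < k, ¬ Tr F m k' Z) (hf : Fin F m Z) :
    ∃ t, Fs F m Z k t := by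
  obtain ⟨s1, h1⟩ := ev_gt hF hL hf
  exact ⟨Ls F m Z s1 k, s1, fun s hs => Ls_stay hF.sho hs fun r hr _ => h1 r hr⟩

theorem ev_inf (hF : Fnl F) (hT : Tr F m k Z) (s : ℕ) : ∃ s' ≥ s, ev F m Z s' ≤ k + 1 := by
  by_contra hc
  push Not at hc
  have h1 : ∀ s' ≥ s, (F m k (pre Z s')).length ≤ (F m k (pre Z s)).length := by
    intro s' hs'
    induction s', hs' using Nat.le_induction with
    | base => exact le_rfl
    | succ s' hs' ih =>
      refine le_trans ?_ ih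
      by_contra h2
      have h3 := ev_le_of_grow (not_le.1 h2)
      have h4 := hc s' hs'
      omega
  obtain ⟨s', hs'⟩ := hT ((F m k (pre Z s)).length + 1)
  have h2 := len_mono (m := m) (k := k) (Z := Z) hF (le_max_right s s')
  have h3 := h1 (max s s') (le_max_left _ _)
  omega

theorem Ls_inf (hF : Fnl F) (hT : Tr F m k Z) (N : ℕ) :
    ∃ s1, ∀ s ≥ s1, N ≤ Ls F m Z s (k + 1) := by
  obtain ⟨s', h1, h2⟩ := ev_inf hF hT N
  refine ⟨s' + 1, fun s hs => le_trans ?_ (Ls_mono hF.sho hs)⟩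
  rw [Ls_succ hF.sho, if_pos h2]
  omega

theorem Fs.stay (hF : Fnl F) {t s : ℕ} (h : Fs F m Z k t) (h1 : Ls F m Z s k = t) :
    ∀ s' ≥ s, Ls F m Z s' k = t := by
  obtain ⟨s1, h2⟩ := h
  intro s' hs'
  have h3 := Ls_mono (m := m) (Z := Z) (k := k) hF.sho hs'
  have h4 := Ls_mono (m := m) (Z := Z) (k := k) hF.sho (le_max_left s' s1)
  have h5 := h2 _ (le_max_right s' s1)
  omega

theorem Fs.unique {t t' : ℕ} (h : Fs F m Z k t) (h' : Fs F m Z k t') : t = t' := by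
  obtain ⟨s1, h1⟩ := h
  obtain ⟨s2, h2⟩ := h'
  exact (h1 _ (le_max_left s1 s2)).symm.trans (h2 _ (le_max_right s1 s2))

/-- elements of the columns of true numbers are put in -/
theorem to_col (hF : Fnl F) {t q : ℕ} (h : Fs F m Z k t) (hl : Lim (F m k) Z Z')
    (hq : GW F m k Z' q) : W F m Z (cod (k + 1) t q) := by
  obtain ⟨r, hr⟩ := hq
  obtain ⟨s1, h1⟩ := h
  obtain ⟨M, hM⟩ := hl.long r
  obtain ⟨n, hn⟩ := hl.ok (max (max s1 M) k + 1)
  have h2 := hM (max (max s1 M) k + 1) (by omega)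
  rw [hn, length_pre] at h2
  refine ⟨max (max s1 M) k + 1, (mem_Lt_succ hF.sho).2 (Or.inr (Or.inr ⟨k, by omega, q, ?_, ?_⟩))⟩
  · rw [hn]
    exact GG_mono hF h2 hr
  · rw [h1 _ (by omega)]

theorem W_stage (hF : Fnl F) {x : ℕ} (h : W F m Z x) {s : ℕ} (hn : x ∉ Lt F m Z s) :
    ∃ r ≥ s, x ∈ own (S F) m (pre Z r) ∨
      ∃ k < r + 1, ∃ q ∈ GG (S F) m k (F m k (pre Z (r + 1))),
        x = cod (k + 1) (Ls F m Z (r + 1) k) q := by
  obtain ⟨s', h1⟩ := h
  obtain ⟨r, h2, -, h3⟩ := mem_stage hF.sho h1 hn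
  exact ⟨r, h2, h3⟩

theorem of_col (hF : Fnl F) {t q : ℕ} (hl : Lim (F m k) Z Z')
    (h : W F m Z (cod (k + 1) t q)) : GW F m k Z' q := by
  have h0 : cod (k + 1) t q ∉ Lt F m Z 0 := by
    unfold Lt
    rw [show pre Z 0 = [] from rfl, S_nil hF.sho]
    exact List.not_mem_nil
  obtain ⟨r, -, h1 | ⟨k', h2, q', h3, h4⟩⟩ := W_stage hF h h0
  · obtain ⟨-, z, h5, -⟩ := mem_own h1
    have := (cod_inj h5).1
    omega
  · obtain ⟨h5, -, h6⟩ := cod_inj h4
    have h7 : k = k' := by omega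
    subst h7
    obtain ⟨n, hn⟩ := hl.ok (r + 1)
    rw [hn] at h3
    rw [h6]
    exact ⟨n, h3⟩

theorem col_iff (hF : Fnl F) {t q : ℕ} (h : Fs F m Z k t) (hl : Lim (F m k) Z Z') :
    W F m Z (cod (k + 1) t q) ↔ GW F m k Z' q := ⟨of_col hF hl, to_col hF h hl⟩

/-- without events the elements of the columns in front of `k` are put in at once -/
theorem col_low (hF : Fnl F) {s r k' q : ℕ} (he : ∀ r', s ≤ r' → r' ≤ r → k < ev F m Z r')
    (hk : k' < k) (hks : k' < s) (hsr : s ≤ r)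
    (hq : q ∈ GG (S F) m k' (F m k' (pre Z (r + 1)))) :
    cod (k' + 1) (Ls F m Z (r + 1) k') q ∈ Lt F m Z s := by
  have h1 : ∀ r' ≥ s, r' ≤ r + 1 → F m k' (pre Z s) = F m k' (pre Z r') := by
    intro r' hr'
    induction r', hr' using Nat.le_induction with
    | base => exact fun _ => rfl
    | succ r' h2 ih =>
      intro h3
      rw [ih (by omega)]
      refine ((hF.mon m k').mono _ _ (pre_prefix Z (Nat.le_succ _))).eq_of_length
        (le_antisymm (len_mono hF (Nat.le_succ _)) ?_)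
      by_contra h4
      have h5 := ev_le_of_grow (not_le.1 h4)
      have h6 := he r' h2 (by omega)
      omega
  have h2 : Ls F m Z (r + 1) k' = Ls F m Z s k' :=
    Ls_stay hF.sho (by omega) fun r' h3 h4 => lt_trans hk (he r' h3 (by omega))
  rw [h2]
  rw [← h1 (r + 1) (by omega) le_rfl] at hq
  obtain ⟨s', rfl⟩ : ∃ s', s = s' + 1 := ⟨s - 1, by omega⟩
  exact (mem_Lt_succ hF.sho).2 (Or.inr (Or.inr ⟨k', hks, q, hq, rfl⟩))

/-- The step from the level `m + 1` to the level `m`. -/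
theorem SC_step (hF : Fnl F) (hk0 : LL m ≤ k) {t s u : ℕ} {L : List ℕ} (h : Fs F m Z k t)
    (hs : Ls F m Z s k = t) (hl : Lim (F m k) Z Z') (hu : u ≤ Ls F m Z s (k + 1))
    (hL : SC F (m + 1) Z' u L) : SC F m Z u (Lt F m Z s ++ L.map (cod (k + 1) t)) := by
  constructor
  · intro x hx
    rcases List.mem_append.1 hx with hx | hx
    · exact ⟨s, hx⟩
    · obtain ⟨q, hq, rfl⟩ := List.mem_map.1 hx
      exact to_col hF h hl ((GW_pos hk0 q).2 (hL.1 q hq))
  · intro x hxu hx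
    rw [List.mem_append]
    by_contra hc
    push Not at hc
    obtain ⟨hc1, hc2⟩ := hc
    obtain ⟨r, hr, h1⟩ := W_stage hF hx hc1
    have h2 := h.stay hF hs
    have h3 : ∀ r', s ≤ r' → r' ≤ r → k < ev F m Z r' := fun r' h4 h5 =>
      no_ev (s' := r + 1) hF.sho (by rw [h2 _ (by omega), hs]) h4 (by omega)
    rcases h1 with h1 | ⟨k', hk', q, hq, rfl⟩
    · have h4 := (mem_own h1).1
      have h5 := h3 r hr le_rfl
      omega
    · have h4 := fst_le_cod (k' + 1) (Ls F m Z (r + 1) k') q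
      have h5 := mid_le_cod (k' + 1) (Ls F m Z (r + 1) k') q
      have h6 := snd_le_cod (k' + 1) (Ls F m Z (r + 1) k') q
      have h7 := Ls_le (m := m) (Z := Z) hF.sho s (k + 1)
      rcases Nat.lt_trichotomy k' k with hk | hk | hk
      · exact hc1 (col_low hF h3 hk (by omega) hr hq)
      · subst hk
        apply hc2
        rw [h2 _ (by omega)]
        refine List.mem_map.2 ⟨q, hL.2 q (by omega) ?_, rfl⟩
        obtain ⟨n, hn⟩ := hl.ok (r + 1)
        rw [hn] at hq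
        exact (GW_pos hk0 q).1 ⟨n, hq⟩
      · have h8 := Ls_mono2 (m := m) (Z := Z) (s := s) (s' := r + 1) (k := k + 1) (k' := k')
          hF.sho (by omega) (by omega)
        omega

end Pool.Agent.H649.NL
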