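import Pool.Agent.H649.NL.Stp
import Pool.Agent.H649.NL.Pr1

set_option autoImplicit false

/-!
The set of the level `m` is computable from the set of the level `m + 1`.
-/

namespace Pool.Agent.H649.NL

open Encodable Pool.Agent.Helper227 Pool.Agent.H548R2.Post
open Nat.Partrec (Code)
open Pool.Agent.TH769.TP (Mon Lim)
open Pool.Agent.TH769.ZA (si_gen pf_sub)
open Pool.Agent.H649.PT (si_pr tLe_of_two le_join_left le_join_right)
open Pool.Agent.TH769.CD (bdd_lt pf_add pf_mul pf_div pf_mod pf_pow pf_getD pf_take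
  pf_append pf_cons pf_length pf_range pf_natPair pf_unpair pf_encode pf_testBit pf_xorb pf_andb
  pf_hlt pf_xor pp_exlt pp_alllt pp_imp pp_eq pp_le pp_lt pp_mem pf_decide pf_pre pp_En pf_ext
  ext_pre_eq)

attribute [local fun_prop] Primrec
attribute [local fun_prop] Primrec.id Primrec.const Primrec.comp Primrec.pair Primrec.fst Primrec.snd
attribute [local fun_prop] pf_add pf_mul pf_div pf_mod pf_pow pf_getD pf_take pf_append pf_cons
  pf_length pf_range pf_natPair pf_unpair pf_encode pf_testBit pf_xorb pf_andb pf_hlt pf_xor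
  pf_sub

variable {F : ℕ → ℕ → List Bool → List Bool} {m k : ℕ} {Z Z' : ℕ → Bool}

/-- the characteristic sequence of the set of the level `m` -/
noncomputable def Wc (F : ℕ → ℕ → List Bool → List Bool) (m : ℕ) (Z : ℕ → Bool) : ℕ → Bool :=
  chr {x | W F m Z x}

theorem Wc_true (x : ℕ) : Wc F m Z x = true ↔ W F m Z x := by
  simp [Wc, chr]

theorem Wc_false (x : ℕ) : Wc F m Z x = false ↔ ¬ W F m Z x := by
  rw [← Wc_true (F := F) (m := m) (Z := Z) x, Bool.not_eq_true]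

/-- the three components -/
def ca (x : ℕ) : ℕ := x.unpair.1
def ct (x : ℕ) : ℕ := x.unpair.2.unpair.1
def cq (x : ℕ) : ℕ := x.unpair.2.unpair.2

theorem cod_c (x : ℕ) : cod (ca x) (ct x) (cq x) = x := by
  unfold cod ca ct cq
  rw [Nat.pair_unpair, Nat.pair_unpair]

theorem pf_ca : Primrec ca := by
  unfold ca
  fun_prop

theorem pf_ct : Primrec ct := by
  unfold ct
  fun_prop

theorem pf_cq : Primrec cq := by
  unfold cq
  fun_prop

theorem pf_S {α : Type} [Primcodable α] (pS : Primrec fun x : ℕ × List Bool => S F x.1 x.2)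
    (m : ℕ) {σ : α → List Bool} (hσ : Primrec σ) : Primrec fun a => S F m (σ a) :=
  Primrec.comp (f := fun x : ℕ × List Bool => S F x.1 x.2) (g := fun a => (m, σ a)) pS
    ((Primrec.const m).pair hσ)

theorem si_Lt (pS : Primrec fun x : ℕ × List Bool => S F x.1 x.2) (m : ℕ) (Z : ℕ → Bool) :
    SI Z fun x : ℕ × ℕ => x.1 ∈ Lt F m Z x.2 :=
  si_pr (X := Z) (P := fun x : ℕ × List Bool => x.1 ∈ (S F m x.2).2)
    (pp_mem Primrec.fst (Primrec.snd.comp (pf_S pS m Primrec.snd)))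

theorem si_far (pS : Primrec fun x : ℕ × List Bool => S F x.1 x.2) (m k : ℕ) (Z : ℕ → Bool) :
    SI Z fun x : ℕ × ℕ => ct x.1 < Ls F m Z x.2 k ∧ ¬ x.1 ∈ Lt F m Z x.2 :=
  si_pr (X := Z) (P := fun x : ℕ × List Bool => ct x.1 < last (S F m x.2).1 k ∧
      ¬ x.1 ∈ (S F m x.2).2)
    (PrimrecPred.and (pp_lt (pf_ct.comp Primrec.fst)
      (pf_last (Primrec.fst.comp (pf_S pS m Primrec.snd)) (Primrec.const k)))
      (PrimrecPred.not (pp_mem Primrec.fst (Primrec.snd.comp (pf_S pS m Primrec.snd)))))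

theorem si_W (pS : Primrec fun x : ℕ × List Bool => S F x.1 x.2) (m : ℕ) (Z : ℕ → Bool) :
    SI Z fun x : ℕ => W F m Z x := SI.ex (si_Lt pS m Z)

/-- the characteristic sequence of the set of the column -/
noncomputable def Gc (F : ℕ → ℕ → List Bool → List Bool) (m k : ℕ) (Z' : ℕ → Bool) : ℕ → Bool :=
  chr {x | GW F m k Z' x}

theorem Gc_true (x : ℕ) : Gc F m k Z' x = true ↔ GW F m k Z' x := by
  simp [Gc, chr]

theorem Gc_false (x : ℕ) : Gc F m k Z' x = false ↔ ¬ GW F m k Z' x := by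
  rw [← Gc_true (F := F) (m := m) (k := k) (Z' := Z') x, Bool.not_eq_true]

theorem Gc_pos (hk : LL m ≤ k) : Gc F m k Z' = Wc F (m + 1) Z' := by
  funext x
  rw [Bool.eq_iff_iff, Gc_true, Wc_true, GW_pos hk]

theorem W_key (hF : Fnl F) (hc : Lc F m k Z) (hf : Fin F m Z) (hl : Lim (F m k) Z Z') :
    ∃ (t : ℕ) (L : List ℕ), ∀ x, ¬ W F m Z x ↔
      ((ca x ≤ k ∧ ¬ x ∈ L) ∨ ((ca x = k + 1 ∧ ct x = t) ∧ Gc F m k Z' (cq x) = false) ∨
      ((ca x = k + 1 ∧ ¬ ct x = t) ∧ ¬ x ∈ L) ∨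
      (k + 1 < ca x ∧ ∃ s, ct x < Ls F m Z s (k + 1) ∧ ¬ x ∈ Lt F m Z s)) := by
  obtain ⟨s1, h1⟩ := ev_gt hF hc.2 hf
  obtain ⟨t, ht⟩ := exists_Fs hF hc.2 hf
  obtain ⟨s2, h2⟩ := ht
  obtain ⟨s0, hs0⟩ : ∃ s0, s0 = max s1 s2 + k + 1 := ⟨_, rfl⟩
  have hcol : ∀ q, W F m Z (cod (k + 1) t q) ↔ GW F m k Z' q := fun q =>
    col_iff hF ⟨s2, h2⟩ hl
  refine ⟨t, Lt F m Z s0, fun x => ?_⟩
  have hx := cod_c x
  constructor
  · intro h
    rcases Nat.lt_trichotomy (ca x) (k + 1) with h3 | h3 | h3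
    · exact Or.inl ⟨by omega, fun h4 => h ⟨s0, h4⟩⟩
    · by_cases h4 : ct x = t
      · refine Or.inr (Or.inl ⟨⟨h3, h4⟩, ?_⟩)
        rw [Gc_false, ← hcol, ← h4, ← h3, hx]
        exact h
      · exact Or.inr (Or.inr (Or.inl ⟨⟨h3, h4⟩, fun h5 => h ⟨s0, h5⟩⟩))
    · obtain ⟨s3, h4⟩ := Ls_inf hF hc.1 (ct x + 1)
      exact Or.inr (Or.inr (Or.inr ⟨h3, s3, h4 s3 le_rfl, fun h5 => h ⟨s3, h5⟩⟩))
  · rintro (⟨h3, h4⟩ | ⟨⟨h3, h4⟩, h5⟩ | ⟨⟨h3, h4⟩, h5⟩ | ⟨h3, s, h4, h5⟩) h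
    · obtain ⟨r, hr, h6 | ⟨k', h7, q, h8, h9⟩⟩ := W_stage hF h h4
      · have h10 := (mem_own h6).1
        have h11 := h1 r (by omega)
        omega
      · have h10 : ca x = k' + 1 := by
          rw [h9]
          exact unpair_cod _ _ _
        apply h4
        rw [h9]
        exact col_low hF (fun r' h11 _ => h1 r' (by omega)) (by omega) (by omega) hr h8
    · rw [Gc_false, ← hcol, ← h4, ← h3, hx] at h5
      exact h5 h
    · obtain ⟨r, hr, h6 | ⟨k', h7, q, h8, h9⟩⟩ := W_stage hF h h5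
      · have h10 := (mem_own h6).1
        have h11 := h1 r (by omega)
        omega
      · obtain ⟨h10, h11, -⟩ := cod_inj (hx.trans h9)
        have h12 : k' = k := by omega
        subst h12
        exact h4 (h11.trans (h2 (r + 1) (by omega)))
    · obtain ⟨r, hr, h6 | ⟨k', h7, q, h8, h9⟩⟩ := W_stage hF h h5
      · obtain ⟨-, z, h10, -⟩ := mem_own h6
        obtain ⟨h11, -, -⟩ := cod_inj (hx.trans h10)
        omega
      · obtain ⟨h10, h11, -⟩ := cod_inj (hx.trans h9)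
        have h12 := Ls_mono2 (m := m) (Z := Z) (s := s) (s' := r + 1) (k := k + 1) (k' := k')
          hF.sho (by omega) (by omega)
        omega

theorem W_le (hF : Fnl F) (pS : Primrec fun x : ℕ × List Bool => S F x.1 x.2)
    (hc : Lc F m k Z) (hf : Fin F m Z) (hl : Lim (F m k) Z Z') :
    TLe (Wc F m Z) (join Z (Gc F m k Z')) := by
  classical
  obtain ⟨t, L, key⟩ := W_key hF hc hf hl
  have hZ : TLe Z (join Z (Gc F m k Z')) := le_join_left _ _
  have hZ2 : TLe (Gc F m k Z') (join Z (Gc F m k Z')) := le_join_right _ _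
  generalize join Z (Gc F m k Z') = B at hZ hZ2
  refine tLe_of_two ?_ ?_
  · exact ((si_W pS m Z).trans hZ).of_eq fun x => (Wc_true x).symm
  · have q1 : SI B fun x : ℕ => ca x ≤ k ∧ ¬ x ∈ L :=
      SI.of_prim (PrimrecPred.and (pp_le pf_ca (Primrec.const k))
        (PrimrecPred.not (pp_mem Primrec.id (Primrec.const L))))
    have q2 : SI B fun x : ℕ => (ca x = k + 1 ∧ ct x = t) ∧ Gc F m k Z' (cq x) = false := by
      refine SI.and (SI.of_prim (PrimrecPred.and (pp_eq pf_ca (Primrec.const (k + 1)))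
        (pp_eq pf_ct (Primrec.const t)))) ?_
      exact (tLe_iff_SI.1 hZ2).comp (f := fun x : ℕ => (cq x, false))
        (pf_cq.pair (Primrec.const false))
    have q3 : SI B fun x : ℕ => (ca x = k + 1 ∧ ¬ ct x = t) ∧ ¬ x ∈ L :=
      SI.of_prim (PrimrecPred.and (PrimrecPred.and (pp_eq pf_ca (Primrec.const (k + 1)))
        (PrimrecPred.not (pp_eq pf_ct (Primrec.const t))))
        (PrimrecPred.not (pp_mem Primrec.id (Primrec.const L))))
    have q4 : SI B fun x : ℕ => k + 1 < ca x ∧ ∃ s, ct x < Ls F m Z s (k + 1) ∧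
        ¬ x ∈ Lt F m Z s := by
      refine SI.and (SI.of_prim (pp_lt (Primrec.const (k + 1)) pf_ca)) ?_
      exact SI.trans (SI.ex (p := fun (x s : ℕ) => ct x < Ls F m Z s (k + 1) ∧
        ¬ x ∈ Lt F m Z s) (si_far pS m (k + 1) Z)) hZ
    refine (q1.or (q2.or (q3.or q4))).of_eq fun x => ?_
    rw [← key, Wc_true]

theorem le_W (hF : Fnl F) {t : ℕ} (h : Fs F m Z k t) (hl : Lim (F m k) Z Z') :
    TLe (Gc F m k Z') (Wc F m Z) := by
  have hf : Primrec fun q : ℕ => cod (k + 1) t q := by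
    unfold cod
    fun_prop
  refine tLe_of_computable hf.to_comp fun q => ?_
  rw [Bool.eq_iff_iff, Gc_true, Wc_true]
  exact (col_iff hF h hl).symm

end Pool.Agent.H649.NL
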