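import Pool.Agent.H649.NL.Mn
import Pool.Agent.H649.PT.Aev
import Pool.Agent.H649.PT.Gnc

set_option autoImplicit false

/-!
One index for the random and for the generic sequences.
-/

namespace Pool.Agent.H649.NL

open Encodable MeasureTheory Pool.Agent.Helper227 Pool.Agent.H548R2.Post Pool.Agent.H649.PT
open Pool.Agent.TH769.ZA (si_gen)
open Pool.Agent.TH769.CD (pf_add pf_mul pf_div pf_mod pf_pow pf_getD pf_take
  pf_append pf_cons pf_length pf_range pf_natPair pf_unpair pf_encode pf_testBit pf_xorb pf_andb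
  pf_hlt pf_xor pp_exlt pp_alllt pp_imp pp_eq pp_le pp_lt pp_mem pf_decide pf_pre pp_En pf_ext)

attribute [local fun_prop] Primrec
attribute [local fun_prop] Primrec.id Primrec.const Primrec.comp Primrec.pair Primrec.fst Primrec.snd
attribute [local fun_prop] pf_add pf_mul pf_div pf_mod pf_pow pf_getD pf_take pf_append pf_cons
  pf_length pf_range pf_natPair pf_unpair pf_encode pf_testBit pf_xorb pf_andb pf_hlt pf_xor

theorem g3_of {A : ℕ → Bool} (h : Gen1 (jump (jump O)) A) : G3 A := by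
  intro Q hQ
  obtain ⟨s, h1 | h1⟩ := h.meets (V := fun τ => τ ∈ Q) hQ
  · exact Or.inl ⟨s, h1⟩
  · exact Or.inr ⟨s, h1⟩

/-- the extension theorem -/
theorem extendL {R : ℕ → (ℕ → Bool) → Prop} (hR : Sig3 R)
    (h1 : ∀ v A, R v A → Btw A (chr (WE A v))) :
    ∃ e : ℕ, (∀ X, Btw X (chr (WE X e))) ∧
      (∀ w B X, R w B → TEq B X → ∃ v A, R v A ∧ TEq A X ∧
        TEq (chr (WE A v)) (chr (WE X e))) ∧
      ∀ A, Gen1 (jump (jump O)) A → (∀ v B, R v B → ¬ TEq B A) → ∀ X Y, TEq X A → TEq Y A →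
        TEq (chr (WE X e)) (chr (WE Y e)) := by
  obtain ⟨e, h3, h4, h5⟩ := extend hR h1
  exact ⟨e, h3, h4, fun A hA => h5 A (g3_of hA)⟩

/-- the extension theorem, for compatible solutions -/
theorem extend' {R : ℕ → (ℕ → Bool) → Prop} (hR : Sig3 R)
    (h1 : ∀ v A, R v A → Btw A (chr (WE A v)))
    (h2 : ∀ v w A B, R v A → R w B → TEq A B → TEq (chr (WE A v)) (chr (WE B w))) :
    ∃ e : ℕ, (∀ X, Btw X (chr (WE X e))) ∧
      (∀ v A X, R v A → TEq A X → TEq (chr (WE A v)) (chr (WE X e))) ∧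
      ∀ A, Gen1 (jump (jump O)) A → ∀ X Y, TEq X A → TEq Y A →
        TEq (chr (WE X e)) (chr (WE Y e)) := by
  obtain ⟨e, h3, h4, h5⟩ := extendL hR h1
  have h6 : ∀ v A X, R v A → TEq A X → TEq (chr (WE A v)) (chr (WE X e)) := by
    intro v A X hRA hAX
    obtain ⟨w, B, hRB, hBX, h7⟩ := h4 v A X hRA hAX
    exact TEq.trans (h2 v w A B hRA hRB (TEq.trans hAX hBX.symm)) h7
  refine ⟨e, h3, h6, fun A hA X Y hX hY => ?_⟩
  by_cases hc : ∀ v B, R v B → ¬ TEq B A
  · exact h5 A hA hc X Y hX hY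
  · push Not at hc
    obtain ⟨v, B, h7, h8⟩ := hc
    exact (h6 v B X h7 (TEq.trans h8 hX.symm)).symm.trans (h6 v B Y h7 (TEq.trans h8 hY.symm))

/-- the application to the 2-random sequences -/
theorem two : ∃ (C : ℕ → Bool) (e : ℕ), (S1 fun n => C n = true) ∧ ¬ TLe C O ∧
    TLe (jump C) (jump O) ∧ (∀ X, Btw X (chr (WE X e))) ∧
    (∀ A X, MLR (jump O) A → TEq A X → TEq (chr (WE X e)) (join A C)) ∧
    ∀ A, Gen1 (jump (jump O)) A → ∀ X Y, TEq X A → TEq Y A →
      TEq (chr (WE X e)) (chr (WE Y e)) := by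
  obtain ⟨C, hC, hC1, hC2, hC3⟩ := exists_low
  obtain ⟨v, hv⟩ := exists_join_ix hC
  obtain ⟨E, hE, mE, -, hU⟩ := Pool.Agent.Helper227.exists_universal
  have hCj : TLe C (jump O) := TLe.tr (tLe_jump C) hC2
  -- the relation
  let P : ℕ × ℕ → (ℕ → Bool) → Prop := fun x A => x.1 = v ∧ A ∉ UE E (jump O) x.2
  have hP : C2 P := by
    have h1 : SI (jump O) fun x : (ℕ × ℕ) × List Bool => ∃ s, E (pre (jump O) s, x.1.2, x.2) := by
      refine SI.ex (si_gen (X := jump O)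
        (P := fun y : ((ℕ × ℕ) × List Bool) × List Bool => E (y.2, y.1.1.2, y.1.2)) ?_)
      exact hE.comp (f := fun y : ((ℕ × ℕ) × List Bool) × List Bool => (y.2, y.1.1.2, y.1.2))
        (by fun_prop)
    have h2 := C2.not_jump h1
    have h3 : C2 fun (x : ℕ × ℕ) A => ∀ ρ : List Bool, (¬ ∃ s, E (pre (jump O) s, x.2, ρ)) ∨
        ¬ ρ <+: pre A ρ.length := by
      refine C2.all (P := fun (x : (ℕ × ℕ) × List Bool) A =>
        (¬ ∃ s, E (pre (jump O) s, x.1.2, x.2)) ∨ ¬ x.2 <+: pre A x.2.length) ?_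
      refine C2.or h2 (C2.of1 ?_)
      have h4 : C1 fun (x : (ℕ × ℕ) × List Bool) A => ∃ m, (pre A m).length = x.2.length ∧
          ¬ x.2 <+: pre A m := by
        refine C1.of (Q := fun y : ((ℕ × ℕ) × List Bool) × List Bool =>
          y.2.length = y.1.2.length ∧ ¬ y.1.2 <+: y.2) (S1.of_prim (PrimrecPred.and
            (pp_eq (by fun_prop) (by fun_prop)) (PrimrecPred.not (pp_prefix (by fun_prop)
              (by fun_prop)))))
      refine h4.of_eq fun a X => ?_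
      simp
    have h5 : C2 fun (x : ℕ × ℕ) (_ : ℕ → Bool) => x.1 = v :=
      C2.of1 (C1.s1 (S1.of_prim (pp_eq (by fun_prop) (by fun_prop))))
    refine (C2.and h5 h3).of_eq fun x A => and_congr_right fun _ => ?_
    constructor
    · rintro h6 ⟨s, t, h7⟩
      rcases h6 (pre A t) with h8 | h8
      · exact h8 ⟨s, h7⟩
      · rw [length_pre] at h8
        exact h8 (List.prefix_refl _)
    · intro h6 ρ
      by_contra hc
      push Not at hc
      obtain ⟨⟨s, hs⟩, hρ⟩ := hc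
      have h7 : ρ = pre A ρ.length := List.IsPrefix.eq_of_length hρ (by simp)
      rw [h7] at hs
      exact h6 ⟨s, _, hs⟩
  have hR : Sig3 fun v' A => v' = v ∧ MLR (jump O) A := by
    have h1 := sig3_of hP
    obtain ⟨δ, h2, h3⟩ := h1
    refine ⟨δ, h2, fun v' X => Iff.trans ?_ (h3 v' X)⟩
    show (v' = v ∧ MLR (jump O) X) ↔ ∃ k, P (v', k) X
    rw [hU]
    exact ⟨fun ⟨h4, n, h5⟩ => ⟨n, h4, h5⟩, fun ⟨n, h4, h5⟩ => ⟨h4, n, h5⟩⟩
  have hB : ∀ A, MLR (jump O) A → Btw A (join A C) := by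
    intro A hA
    have hA1 : ¬ TLe C (join A O) := mlr_avoid (TuringReducible.refl _) hCj hC1 hA
    have hA2 : ¬ TLe (jump O) (join A C) := mlr_avoid hC2 (TuringReducible.refl _) hC3 hA
    have hOA : TLe (jump O) (jump A) := (le_O_any A).jump
    refine ⟨le_join_left _ _, fun h => hA1 (TLe.tr (TLe.tr (le_join_right A C) h)
      (le_join_left _ _)), join_le (tLe_jump A) (TLe.tr hCj hOA), fun h => hA2 (TLe.tr hOA h)⟩
  obtain ⟨e, h1, h2, h9⟩ := extend' hR
    (by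
      rintro w A ⟨rfl, hA⟩
      rw [hv]
      exact hB A hA)
    (by
      rintro w w' A B ⟨rfl, hA⟩ ⟨rfl, hA'⟩ hAB
      rw [hv, hv]
      exact ⟨join_le (TLe.tr hAB.1 (le_join_left _ _)) (le_join_right _ _),
        join_le (TLe.tr hAB.2 (le_join_left _ _)) (le_join_right _ _)⟩)
  refine ⟨C, e, hC, hC1, hC2, h1, fun A X hA hAX => ?_, h9⟩
  have := h2 v A X ⟨rfl, hA⟩ hAX
  rw [hv] at this
  exact this.symm

end Pool.Agent.H649.NL
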