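import Pool.Agent.H649.NL.Stp
import Pool.Agent.H649.NL.Pr1

set_option autoImplicit false

/-!
The set of witnesses is c.e. in the oracle.
-/

namespace Pool.Agent.H649.NL

open Encodable Pool.Agent.Helper227 Pool.Agent.H548R2.Post
open Nat.Partrec (Code)
open Pool.Agent.TH769.TP (Mon Lim)
open Pool.Agent.TH769.ZA (si_gen pf_sub)
open Pool.Agent.TH769.CD (bdd_lt pf_add pf_mul pf_div pf_mod pf_pow pf_getD pf_take
  pf_append pf_cons pf_length pf_range pf_natPair pf_unpair pf_encode pf_testBit pf_xorb pf_andb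
  pf_hlt pf_xor pp_exlt pp_alllt pp_imp pp_eq pp_le pp_lt pp_mem pf_decide pf_pre pp_En pf_ext
  ext_pre_eq)

attribute [local fun_prop] Primrec
attribute [local fun_prop] Primrec.id Primrec.const Primrec.comp Primrec.pair Primrec.fst Primrec.snd
attribute [local fun_prop] pf_add pf_mul pf_div pf_mod pf_pow pf_getD pf_take pf_append pf_cons
  pf_length pf_range pf_natPair pf_unpair pf_encode pf_testBit pf_xorb pf_andb pf_hlt pf_xor
  pf_sub

/-- the string of the level `κ.length` computed along the labels `κ` (the top label first) -/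
def KK (F : ℕ → ℕ → List Bool → List Bool) : List ℕ → List Bool → List Bool
  | [], σ => σ
  | k :: κ, σ => F κ.length k (KK F κ σ)

/-- the witnesses -/
def CX (F : ℕ → ℕ → List Bool → List Bool) (X : ℕ → Bool) (x : ℕ) : Prop :=
  ∃ (j : ℕ) (κ : List ℕ) (s : ℕ),
    xw κ.length j (CH (S F) κ.length (KK F κ (pre X s)) (bits κ.length j)).2.2 = x ∧
    lbs (CH (S F) κ.length (KK F κ (pre X s)) (bits κ.length j)).2.2 = κ ∧
    belj (S F) κ.length j (KK F κ (pre X s)) (vbj (S F) κ.length j (KK F κ (pre X s)))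

theorem pr_KK {F : ℕ → ℕ → List Bool → List Bool}
    (pF : Primrec fun x : ℕ × ℕ × List Bool => F x.1 x.2.1 x.2.2) :
    Primrec fun x : List ℕ × List Bool => KK F x.1 x.2 := by
  have h : Primrec fun z : (List ℕ × List Bool) × (ℕ × List ℕ × List Bool) =>
      F z.2.2.1.length z.2.1 z.2.2.2 :=
    pf_F pF (by fun_prop) (by fun_prop) (by fun_prop)
  have h1 := Primrec.list_rec (f := fun x : List ℕ × List Bool => x.1)
    (g := fun x : List ℕ × List Bool => x.2)
    (h := fun _ (y : ℕ × List ℕ × List Bool) => F y.2.1.length y.1 y.2.2)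
    Primrec.fst Primrec.snd h
  refine h1.of_eq fun x => ?_
  obtain ⟨κ, σ⟩ := x
  simp only
  induction κ with
  | nil => rfl
  | cons k κ ih =>
    simp only at ih ⊢
    rw [ih]
    rfl

theorem si_CX {F : ℕ → ℕ → List Bool → List Bool}
    (pF : Primrec fun x : ℕ × ℕ × List Bool => F x.1 x.2.1 x.2.2)
    (hCH : Primrec fun x : ℕ × List Bool × List Bool => CH (S F) x.1 x.2.1 x.2.2)
    (hbelj : PrimrecPred fun x : ℕ × ℕ × List Bool × ℕ => belj (S F) x.1 x.2.1 x.2.2.1 x.2.2.2)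
    (X : ℕ → Bool) : SI X (CX F X) := by
  have hKK := pr_KK pF
  -- the data
  have pj : Primrec fun y : ((ℕ × ℕ) × List ℕ) × List Bool => y.1.1.2 := by fun_prop
  have pl : Primrec fun y : ((ℕ × ℕ) × List ℕ) × List Bool => y.1.2.length := by fun_prop
  have pK : Primrec fun y : ((ℕ × ℕ) × List ℕ) × List Bool => KK F y.1.2 y.2 :=
    Primrec.comp (f := fun x : List ℕ × List Bool => KK F x.1 x.2)
      (g := fun y : ((ℕ × ℕ) × List ℕ) × List Bool => (y.1.2, y.2)) hKK (by fun_prop)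
  have pb : Primrec fun y : ((ℕ × ℕ) × List ℕ) × List Bool => bits y.1.2.length y.1.1.2 :=
    pf_bits pl pj
  have pC : Primrec fun y : ((ℕ × ℕ) × List ℕ) × List Bool =>
      CH (S F) y.1.2.length (KK F y.1.2 y.2) (bits y.1.2.length y.1.1.2) :=
    Primrec.comp (f := fun x : ℕ × List Bool × List Bool => CH (S F) x.1 x.2.1 x.2.2)
      (g := fun y : ((ℕ × ℕ) × List ℕ) × List Bool =>
        (y.1.2.length, KK F y.1.2 y.2, bits y.1.2.length y.1.1.2)) hCH (pl.pair (pK.pair pb))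
  have pP : Primrec fun y : ((ℕ × ℕ) × List ℕ) × List Bool =>
      (CH (S F) y.1.2.length (KK F y.1.2 y.2) (bits y.1.2.length y.1.1.2)).2.2 :=
    Primrec.snd.comp (Primrec.snd.comp pC)
  have pv : Primrec fun y : ((ℕ × ℕ) × List ℕ) × List Bool =>
      vbj (S F) y.1.2.length y.1.1.2 (KK F y.1.2 y.2) := by
    unfold vbj
    exact pf_vb pP (Primrec.list_length.comp (Primrec.fst.comp (Primrec.snd.comp pC)))
  have hP : PrimrecPred fun y : ((ℕ × ℕ) × List ℕ) × List Bool =>
      xw y.1.2.length y.1.1.2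
        (CH (S F) y.1.2.length (KK F y.1.2 y.2) (bits y.1.2.length y.1.1.2)).2.2 = y.1.1.1 ∧
      lbs (CH (S F) y.1.2.length (KK F y.1.2 y.2) (bits y.1.2.length y.1.1.2)).2.2 = y.1.2 ∧
      belj (S F) y.1.2.length y.1.1.2 (KK F y.1.2 y.2)
        (vbj (S F) y.1.2.length y.1.1.2 (KK F y.1.2 y.2)) := by
    refine PrimrecPred.and (pp_eq (pf_xw pl pj pP) (by fun_prop))
      (PrimrecPred.and (pp_eq (pf_lbs pP) (by fun_prop)) ?_)
    exact hbelj.comp (f := fun y : ((ℕ × ℕ) × List ℕ) × List Bool =>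
      (y.1.2.length, y.1.1.2, KK F y.1.2 y.2, vbj (S F) y.1.2.length y.1.1.2 (KK F y.1.2 y.2)))
      (pl.pair (pj.pair (pK.pair pv)))
  have h1 := si_gen (X := X) (S1.of_prim hP)
  have h2 : SI X fun a : (ℕ × ℕ) × List ℕ => ∃ s : ℕ,
      xw a.2.length a.1.2
        (CH (S F) a.2.length (KK F a.2 (pre X s)) (bits a.2.length a.1.2)).2.2 = a.1.1 ∧
      lbs (CH (S F) a.2.length (KK F a.2 (pre X s)) (bits a.2.length a.1.2)).2.2 = a.2 ∧
      belj (S F) a.2.length a.1.2 (KK F a.2 (pre X s))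
        (vbj (S F) a.2.length a.1.2 (KK F a.2 (pre X s))) := SI.ex h1
  have h3 : SI X fun b : ℕ × ℕ => ∃ κ : List ℕ, ∃ s : ℕ,
      xw κ.length b.2
        (CH (S F) κ.length (KK F κ (pre X s)) (bits κ.length b.2)).2.2 = b.1 ∧
      lbs (CH (S F) κ.length (KK F κ (pre X s)) (bits κ.length b.2)).2.2 = κ ∧
      belj (S F) κ.length b.2 (KK F κ (pre X s))
        (vbj (S F) κ.length b.2 (KK F κ (pre X s))) := SI.ex h2
  exact SI.ex h3

end Pool.Agent.H649.NL
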