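import Pool.Agent.H649.NL.Fnt
import Pool.Agent.H649.NL.Wit
import Pool.Agent.H649.NL.Trf
import Pool.Agent.H649.NL.Idx
import Pool.Agent.H649.NL.Pr1
import Pool.Agent.H649.NL.Pr2

set_option autoImplicit false

/-!
Verification of the construction on nested oracles.
-/

namespace Pool.Agent.H649.NL

open Encodable Pool.Agent.Helper227 Pool.Agent.H548R2.Post
open Nat.Partrec (Code)
open Pool.Agent.TH769.TP (Mon Lim lab lab_le le_lab)
open Pool.Agent.TH769.CD (bdd_lt ext_pre_eq)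
open Pool.Agent.H649.PT (Btw TEq join_le TLe.tr le_join_left le_join_right tLe_of_two)

variable {F : ℕ → ℕ → List Bool → List Bool} {m : ℕ} {Z X : ℕ → Bool} {c : List Bool}
  {K : List (ℕ × ℕ)} {Ac : ℕ → (ℕ → Bool) → Prop}

theorem mem_WE {A : ℕ → Bool} {e x : ℕ} : x ∈ WE A e ↔ ∃ u s, hlt s e x (pre A u) = true :=
  exists_congr fun _ => (exists_hlt_iff _ _ _).symm

theorem mem_WE_En {A : ℕ → Bool} {e x : ℕ} : x ∈ WE A e ↔ ∃ s, En s e x A := by
  rw [mem_WE]
  constructor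
  · rintro ⟨u, s, h⟩
    exact ⟨max u s, u, le_max_left _ _, hlt_mono (le_max_right _ _) h⟩
  · rintro ⟨s, u, -, h⟩
    exact ⟨u, s, h⟩

theorem exists_bound (L : List ℕ) (a : ℕ) : ∃ z, a < z ∧ ∀ x ∈ L, x < z := by
  induction L with
  | nil => exact ⟨a + 1, Nat.lt_succ_self a, fun x hx => absurd hx (List.not_mem_nil)⟩
  | cons y L ih =>
    obtain ⟨z, h1, h2⟩ := ih
    refine ⟨max z (y + 1), lt_of_lt_of_le h1 (le_max_left _ _), fun x hx => ?_⟩
    rcases List.mem_cons.1 hx with rfl | hx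
    · exact lt_of_lt_of_le (Nat.lt_succ_self _) (le_max_right _ _)
    · exact lt_of_lt_of_le (h2 x hx) (le_max_left _ _)

/-- the path of `X` to the level `m`, by the number of its bits -/
theorem Jp.bits (h : Jp F Ac m X Z) : ∃ j < 2 ^ m, ∃ K, Pth F m Z (bits m j) X K := by
  obtain ⟨-, c, K, h⟩ := h
  obtain ⟨j, h1, h2⟩ := exists_bits c
  rw [h.len.1] at h1 h2
  exact ⟨j, h1, K, by rw [h2]; exact h⟩

/-- The operator is not computable. -/
theorem not_comp (T : Tree F Ac) (X : ℕ → Bool) (hX : ∀ m, ∃ Z, Jp F Ac m X Z) :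
    ¬ TLe (join X (chr {x | W F 0 X x})) X := by
  intro h
  have h1 : SI X (fun x : ℕ × Bool => join X (chr {x | W F 0 X x}) x.1 = x.2) := tLe_iff_SI.1 h
  have hf : Primrec (fun z : ℕ => ((2 * z + 1, false) : ℕ × Bool)) := by
    refine Primrec.pair ?_ (Primrec.const false)
    exact Primrec.nat_add.comp (Primrec.nat_mul.comp (Primrec.const 2) Primrec.id) (Primrec.const 1)
  have h3 : SI X (fun z : ℕ => z ∈ {z | ¬ W F 0 X z}) := by
    refine (h1.comp hf).of_eq fun z => ?_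
    rw [Set.mem_ofPred_eq]
    simp only
    unfold join chr
    rw [if_neg (by omega), show (2 * z + 1) / 2 = z by omega, decide_eq_false_iff_not]
    exact Iff.rfl
  obtain ⟨m, hm⟩ := ceIn_iff_exists_WE.1 (SI.iff_ceIn.2 h3)
  have hm' : ∀ z, ¬ W F 0 X z ↔ z ∈ WE X m := fun z => by
    rw [← hm]
    exact Iff.rfl
  obtain ⟨Z, hZ⟩ := hX m
  obtain ⟨j, hj, K, hp⟩ := hZ.bits
  obtain ⟨s0, h0⟩ := fin_all T m Z hZ.1
  obtain ⟨s1, ha⟩ := hp.adr_ev
  -- the constant restraint
  have hl : ∀ s ≥ s0, Ls F m Z s 0 = Ls F m Z s0 0 := fun s hs =>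
    Ls_stay T.fnl.sho hs fun r hr _ => Nat.pos_of_ne_zero (h0 r hr)
  obtain ⟨z, hz1, hz2⟩ := exists_bound (Lt F m Z s0) (Ls F m Z s0 0)
  have hz3 : ¬ W F m Z (cod 0 0 z) := by
    intro hw
    by_cases hc : cod 0 0 z ∈ Lt F m Z s0
    · have h4 := hz2 _ hc
      have h5 := snd_le_cod 0 0 z
      omega
    · obtain ⟨r, hr, h4 | ⟨k, hk, q, hq, h4⟩⟩ := W_stage T.fnl hw hc
      · exact h0 r hr (mem_own h4).1
      · have := (cod_inj h4).1
        omega
  rw [hp.W_iff T.fnl, hm', mem_WE_En] at hz3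
  obtain ⟨s2, h2⟩ := hz3
  obtain ⟨s3, h4⟩ := nl_inf K s2
  obtain ⟨s, hs⟩ : ∃ s, s = s0 + s1 + s3 + z + 1 := ⟨_, rfl⟩
  have ha' := ha s (by omega)
  have hhit : hit (S F) m (pre Z s) j (cod 0 0 z) :=
    (hit_iff hp ha').2 (En_mono (h4 s (by omega)) h2)
  refine h0 s (by omega) (ev_zero_of_NC hj (show z < s by omega) ⟨?_, hhit, ?_⟩)
  · have := hl s (by omega)
    show Ls F m Z s 0 < z
    omega
  · intro y hy _ hy2
    have h5 : adk K y ∈ WE X m := mem_WE_En.2 ⟨_, (hit_iff hp ha').1 hy2⟩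
    rw [← hm', ← hp.W_iff T.fnl] at h5
    exact h5 ⟨s, hy⟩

theorem Pth.KK (hF : Fnl F) (h : Pth F m Z c X K) : Lim (KK F (K.map Prod.fst)) X Z := by
  induction h with
  | nil X => exact Lim.id X
  | @cons m k t A B b c X K h0 hk hl hf ht hp ih =>
    have h1 := ih.comp hl
    have h2 : (K.map Prod.fst).length = m := by rw [List.length_map]; exact hp.len.2
    have h3 : (fun σ => F m k (NL.KK F (K.map Prod.fst) σ)) =
        NL.KK F (((k, t) :: K).map Prod.fst) := by
      funext σ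
      show _ = F (K.map Prod.fst).length k (NL.KK F (K.map Prod.fst) σ)
      rw [h2]
    rw [← h3]
    exact h1

/-- The operator does not compute the jump. -/
theorem not_jump (T : Tree F Ac) (X : ℕ → Bool) (hX : ∀ m, ∃ Z, Jp F Ac m X Z)
    (hCX : SI X (CX F X)) :
    ¬ TLe (jump X) (join X (chr {x | W F 0 X x})) := by
  intro h
  obtain ⟨m, hm⟩ := ceIn_iff_exists_WE.1 (SI.iff_ceIn.2
    (show SI (join X (chr {x | W F 0 X x})) (fun z : ℕ => z ∈ {z | ¬ CX F X z}) from
      hCX.decide_jump.2.trans h))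
  have hm' : ∀ z, ¬ CX F X z ↔ z ∈ WE (join X (chr {x | W F 0 X x})) m := fun z => by
    rw [← hm]
    exact Iff.rfl
  obtain ⟨Z, hZ⟩ := hX m
  obtain ⟨j, hj, K, hp⟩ := hZ.bits
  have hK : (K.map Prod.fst).length = m := by rw [List.length_map]; exact hp.len.2
  have hlim := hp.KK T.fnl
  by_cases hC : CX F X (xk m j K)
  · apply (hm' (xk m j K)).2 ?_ hC
    rw [mem_WE]
    obtain ⟨j', κ, s', h1, h2, h3⟩ := hC
    unfold xw xk at h1
    rw [Nat.pair_eq_pair, Nat.pair_eq_pair, Nat.pair_eq_pair] at h1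
    obtain ⟨h4, h5, h6, h7⟩ := h1
    have h8 : κ = K.map Prod.fst := by
      rw [← h2]
      exact Encodable.encode_injective h6
    subst h8
    rw [hK] at h2 h3 h6 h7
    subst h5
    obtain ⟨n, hn⟩ := hlim.ok s'
    rw [hn] at h2 h3 h6 h7
    rw [ad_dat] at h7
    have ha : Adr F m Z (NL.bits m j') K n := by
      refine (adk_inj _ _ _ _ ?_ h7).1
      unfold dat
      rw [List.length_map, length_CH, length_bits, hp.len.2]
    by_cases hR : RA (S F) m (pre Z n) j'
    · obtain ⟨u, h9, h10⟩ := (belj_iff ha).1 h3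
      have h9' : u ≤ VB F m Z (NL.bits m j') n := h9
      have h11 : u ≤ n := h9'.trans (((le_VB hp).1 le_rfl).1.trans (nl_le K n))
      have hpro := (pro_of_ats T.fnl ⟨j', hj, hR⟩).anti (show u ≤ n + 1 by omega)
      rw [hp.belief T.fnl ha h9' hpro] at h10
      exact ⟨u, n, h10⟩
    · have h12 : belj (S F) m j' (pre Z n) (min (last (S F m (pre Z n)).1 0)
          (vbj (S F) m j' (pre Z n))) := by
        by_contra hc
        exact hR ⟨h3, hc⟩
      obtain ⟨u, h9, h10⟩ := (belj_iff ha).1 h12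
      have h13 : u ≤ Ls F m Z n 0 := h9.trans (min_le_left _ _)
      have h14 : u ≤ VB F m Z (NL.bits m j') n := h9.trans (min_le_right _ _)
      rw [hp.belief T.fnl ha h14 (pro_of_le T.fnl h13)] at h10
      exact ⟨u, n, h10⟩
  · have h1 := (hm' _).1 hC
    rw [mem_WE] at h1
    obtain ⟨u, s2, h2⟩ := h1
    obtain ⟨s1, ha⟩ := hp.adr_ev
    obtain ⟨s3, h3⟩ := hp.VB_inf T.fnl u
    obtain ⟨s4, h4⟩ := bdd_lt u (fun x s => W F m Z x → x ∈ Lt F m Z s) (fun x _ => by
      by_cases hx : W F m Z x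
      · obtain ⟨s, hs⟩ := hx
        exact ⟨s, fun s' hs' _ => Lt_mono T.fnl.sho hs' hs⟩
      · exact ⟨0, fun _ _ h => absurd h hx⟩)
    obtain ⟨M, hM⟩ := hlim.long (s1 + s2 + s3 + s4)
    obtain ⟨n, hn⟩ := hlim.ok M
    have h5 := hM M le_rfl
    rw [hn, length_pre] at h5
    have ha' := ha n (by omega)
    refine hC ⟨j, K.map Prod.fst, M, ?_, ?_, ?_⟩
    · rw [hK, hn, xw_eq ha']
    · rw [hK, hn, lbs_dat, ha']
    · rw [hK, hn]
      refine (belj_iff ha').2 ⟨u, h3 n (by omega), ?_⟩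
      rw [hp.belief T.fnl ha' (h3 n (by omega)) (fun x hx hw => h4 x hx n (by omega) hw)]
      exact hlt_mono (by omega) h2

theorem TEq.rfl' {A : ℕ → Bool} : TEq A A := ⟨TuringReducible.refl _, TuringReducible.refl _⟩

theorem Pth.teq (hF : Fnl F) (pF : Primrec fun x : ℕ × ℕ × List Bool => F x.1 x.2.1 x.2.2)
    (pS : Primrec fun x : ℕ × List Bool => S F x.1 x.2) (h : Pth F m Z c X K) :
    TEq (join X (Wc F 0 X)) (join Z (Wc F m Z)) := by
  induction h with
  | nil X => exact TEq.rfl'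
  | @cons m k t A B b c X K h0 hk hl hf ht hp ih =>
    have h1 : TLe (lab k (join A B)) (cond b B A) := by
      refine hl.le ?_
      exact pF.comp (f := fun x : ℕ × ℕ × List Bool => F x.1 x.2.1 x.2.2)
        (g := fun σ : List Bool => (m, k, σ)) ((Primrec.const m).pair
        ((Primrec.const k).pair Primrec.id))
    have h2 : TLe (cond b B A) (lab k (join A B)) := by
      refine TLe.tr ?_ (le_lab k (join A B))
      cases b
      · exact le_join_left A B
      · exact le_join_right A B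
    have h3 := W_le hF pS hk hf hl
    have h4 := le_W hF ht hl
    rw [Gc_pos h0] at h3 h4
    refine ⟨TLe.tr ih.1 (join_le (TLe.tr h2 (le_join_left _ _)) (TLe.tr h3 (join_le
      (TLe.tr h2 (le_join_left _ _)) (le_join_right _ _)))), TLe.tr (join_le
      (TLe.tr h1 (le_join_left _ _)) (TLe.tr h4 (le_join_right _ _))) ih.2⟩

theorem Pth.deg (pF : Primrec fun x : ℕ × ℕ × List Bool => F x.1 x.2.1 x.2.2)
    (h : Pth F m Z c X K) : TEq X Z := by
  induction h with
  | nil X => exact TEq.rfl'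
  | @cons m k t A B b c X K h0 hk hl hf ht hp ih =>
    have h1 : TLe (lab k (join A B)) (cond b B A) := by
      refine hl.le ?_
      exact pF.comp (f := fun x : ℕ × ℕ × List Bool => F x.1 x.2.1 x.2.2)
        (g := fun σ : List Bool => (m, k, σ)) ((Primrec.const m).pair
        ((Primrec.const k).pair Primrec.id))
    have h2 : TLe (cond b B A) (lab k (join A B)) := by
      refine TLe.tr ?_ (le_lab k (join A B))
      cases b
      · exact le_join_left A B
      · exact le_join_right A B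
    exact ⟨TLe.tr ih.1 h2, TLe.tr h1 ih.2⟩

/-- the degree of the value at the oracles which lead to a leaf -/
theorem leaf_teq (T : Tree F Ac) {k : ℕ} (pF : Primrec fun x : ℕ × ℕ × List Bool => F x.1 x.2.1 x.2.2)
    (pS : Primrec fun x : ℕ × List Bool => S F x.1 x.2) {E : ℕ → Bool} (h : Jp F Ac m X Z)
    (hc : Lc F m k Z) (hl : Lim (F m k) Z E) :
    TEq (join X (Wc F 0 X)) (join X (Gc F m k E)) := by
  have hf := fin_all T m Z h.1
  obtain ⟨t, ht⟩ := exists_Fs T.fnl hc.2 hf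
  have h3 := W_le T.fnl pS hc hf hl
  have h4 := le_W T.fnl ht hl
  obtain ⟨-, c, K, hp⟩ := h
  have h1 := hp.teq T.fnl pF pS
  have h2 := hp.deg pF
  constructor
  · refine TLe.tr h1.1 (join_le ?_ ?_)
    · exact TLe.tr h2.2 (le_join_left _ _)
    · exact TLe.tr h3 (join_le (TLe.tr h2.2 (le_join_left _ _)) (le_join_right _ _))
  · refine join_le (le_join_left _ _) (TLe.tr ?_ h1.2)
    exact TLe.tr h4 (le_join_right _ _)

/-- The theorem on trees of oracles. -/
theorem partA (T : Tree F Ac) (pF : Primrec fun x : ℕ × ℕ × List Bool => F x.1 x.2.1 x.2.2) :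
    ∃ e : ℕ, (∀ X, (∀ m, ∃ Z, Jp F Ac m X Z) → Btw X (chr (WE X e))) ∧
      (∀ m X Y Z, Jp F Ac m X Z → Jp F Ac m Y Z → TEq (chr (WE X e)) (chr (WE Y e))) ∧
      ∀ m k X Z E, k < LL m → Jp F Ac m X Z → Lc F m k Z → Lim (F m k) Z E →
        TEq (chr (WE X e)) (join X (chr {q | ∃ i, E i = true ∧ i.unpair.1 = q})) := by
  have pS : Primrec fun x : ℕ × List Bool => S F x.1 x.2 :=
    pr_S T.fnl.sho fun β _ E hE => pr_bod pF hE
  have pE : Primrec fun x : Unit × ℕ × List Bool => (fun _ : Unit => S F) x.1 x.2.1 x.2.2 :=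
    pS.comp Primrec.snd
  have hCX : ∀ X, SI X (CX F X) := fun X => by
    refine si_CX pF ?_ ?_ X
    · exact (pr_CH (E := fun _ : Unit => S F) pE).comp ((Primrec.const ()).pair Primrec.id)
    · exact (pr_belj (E := fun _ : Unit => S F) pE).comp ((Primrec.const ()).pair Primrec.id)
  obtain ⟨e, he⟩ := exists_idx (F := F) pS
  have he' : ∀ X, chr (WE X e) = join X (Wc F 0 X) := he
  refine ⟨e, fun X hX => ?_, fun m X Y Z hX hY => ?_, fun m k X Z E hk hX hc hE => ?_⟩
  · rw [he X]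
    refine ⟨le_join_left _ _, not_comp T X hX, ?_, not_jump T X hX (hCX X)⟩
    refine join_le (tLe_jump X) ?_
    have h1 : SI X fun x : ℕ => W F 0 X x := si_W pS 0 X
    refine tLe_of_two ?_ ?_
    · refine h1.decide_jump.1.of_eq fun x => ?_
      simp [chr]
    · refine h1.decide_jump.2.of_eq fun x => ?_
      simp [chr]
  · rw [he' X, he' Y]
    obtain ⟨-, c, K, hX⟩ := hX
    obtain ⟨-, c', K', hY⟩ := hY
    have h1 := hX.teq T.fnl pF pS
    have h2 := hY.teq T.fnl pF pS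
    exact ⟨TLe.tr h1.1 h2.2, TLe.tr h2.1 h1.2⟩
  · rw [he' X]
    have h1 := leaf_teq T pF pS hX hc hE
    have h2 : Gc F m k E = chr {q | ∃ i, E i = true ∧ i.unpair.1 = q} := by
      unfold Gc
      congr 1
      ext q
      exact GW_leaf hk q
    rw [h2] at h1
    exact h1

end Pool.Agent.H649.NL
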